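import Pool.Agent.Lib_helper28.OFDefs

set_option autoImplicit false

namespace Pool.Agent.Lib_helper28.OF

open Set

/-! ### bumps -/

/-- a bump on the line supported on `[a, a + 4 e]` -/
noncomputable def bumpR (a e : ℝ) (he : 0 < e) : ℝ ≃o ℝ where
  toFun x := if x ≤ a then x else if x ≤ a + e then 2 * x - a else if x ≤ a + 2 * e then x + e
    else if x ≤ a + 4 * e then (x + a + 4 * e) / 2 else x
  invFun y := if y ≤ a then y else if y ≤ a + 2 * e then (y + a) / 2 else if y ≤ a + 3 * e then y - e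
    else if y ≤ a + 4 * e then 2 * y - a - 4 * e else y
  left_inv := by
    intro x
    dsimp only
    split_ifs <;> linarith
  right_inv := by
    intro y
    dsimp only
    split_ifs <;> linarith
  map_rel_iff' := by
    intro x y
    simp only [Equiv.coe_fn_mk]
    constructor
    · intro h
      by_contra hxy
      push Not at hxy
      revert h
      split_ifs <;> intro h <;> linarith
    · intro h
      split_ifs <;> linarith

lemma bumpR_apply (a e : ℝ) (he : 0 < e) (x : ℝ) : bumpR a e he x =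
    if x ≤ a then x else if x ≤ a + e then 2 * x - a else if x ≤ a + 2 * e then x + e
    else if x ≤ a + 4 * e then (x + a + 4 * e) / 2 else x := rfl

lemma bumpR_le {a e x : ℝ} (he : 0 < e) (h : x ≤ a) : bumpR a e he x = x := by
  rw [bumpR_apply, if_pos h]

lemma bumpR_ge {a e x : ℝ} (he : 0 < e) (h : a + 4 * e ≤ x) : bumpR a e he x = x := by
  rw [bumpR_apply]
  split_ifs <;> linarith

lemma bumpR_gt {a e x : ℝ} (he : 0 < e) (h : a < x) (h' : x < a + 4 * e) :
    x < bumpR a e he x := by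
  rw [bumpR_apply]
  split_ifs <;> linarith

/-- restriction to the unit interval -/
noncomputable def restr (f : ℝ ≃o ℝ) (h0 : f 0 = 0) (h1 : f 1 = 1) : UI ≃o UI where
  toFun x := ⟨f x, by
    constructor
    · rw [← h0]; exact f.monotone x.2.1
    · rw [← h1]; exact f.monotone x.2.2⟩
  invFun x := ⟨f.symm x, by
    constructor
    · rw [← f.le_iff_le, h0, f.apply_symm_apply]; exact x.2.1
    · rw [← f.le_iff_le, h1, f.apply_symm_apply]; exact x.2.2⟩
  left_inv := fun x => Subtype.ext (f.symm_apply_apply _)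
  right_inv := fun x => Subtype.ext (f.apply_symm_apply _)
  map_rel_iff' := by
    intro x y
    exact f.le_iff_le

lemma restr_coe (f : ℝ ≃o ℝ) (h0 : f 0 = 0) (h1 : f 1 = 1) (x : UI) :
    ((restr f h0 h1 x : UI) : ℝ) = f x := rfl

/-- a bump in the unit interval -/
noncomputable def bump (a e : ℝ) (he : 0 < e) (ha : 0 ≤ a) (h1 : a + 4 * e ≤ 1) : UI ≃o UI :=
  restr (bumpR a e he) (bumpR_le he ha) (bumpR_ge he h1)

lemma bump_thompson {a e : ℝ} (he : 0 < e) (ha : 0 ≤ a) (h1 : a + 4 * e ≤ 1) (da : IsDyadic a)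
    (de : IsDyadic e) : IsThompson (bump a e he ha h1) := by
  refine ⟨{a, a + e, a + 2 * e, a + 4 * e}, ?_, ?_⟩
  · intro b hb
    simp only [Finset.mem_insert, Finset.mem_singleton] at hb
    have h2 : IsDyadic 2 := by exact_mod_cast IsDyadic.int 2
    have h4 : IsDyadic 4 := by exact_mod_cast IsDyadic.int 4
    rcases hb with rfl | rfl | rfl | rfl
    · exact da
    · exact da.add de
    · exact da.add (h2.mul de)
    · exact da.add (h4.mul de)
  · intro s t hst hB
    have hst' : (s : ℝ) < t := hst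
    have hBa := hB a (by simp)
    have hBb := hB (a + e) (by simp)
    have hBc := hB (a + 2 * e) (by simp)
    have hBd := hB (a + 4 * e) (by simp)
    have key : ∀ b : ℝ, ¬ ((s : ℝ) < b ∧ b < t) → b ≤ s ∨ (t : ℝ) ≤ b := by
      intro b hb
      by_contra hcon
      push Not at hcon
      exact hb hcon
    have ha' := key _ hBa
    have hb' := key _ hBb
    have hc' := key _ hBc
    have hd' := key _ hBd
    by_cases c1 : (t : ℝ) ≤ a
    · refine ⟨0, fun x hx1 hx2 => ?_⟩
      have hx1' : (s : ℝ) ≤ x := hx1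
      have hx2' : (x : ℝ) ≤ t := hx2
      rw [bump, restr_coe, restr_coe, bumpR_le he (by linarith), bumpR_le he (by linarith)]
      simp
    by_cases c2 : (t : ℝ) ≤ a + e
    · refine ⟨1, fun x hx1 hx2 => ?_⟩
      have hx1' : (s : ℝ) ≤ x := hx1
      have hx2' : (x : ℝ) ≤ t := hx2
      have hs := ha'.resolve_right c1
      have e1 : ∀ z : ℝ, a ≤ z → z ≤ a + e → bumpR a e he z = 2 * z - a := by
        intro z h1 h2
        rw [bumpR_apply]; split_ifs <;> linarith
      rw [bump, restr_coe, restr_coe, e1 _ (by linarith) (by linarith),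
        e1 _ (by linarith) (by linarith), zpow_one]
      ring
    by_cases c3 : (t : ℝ) ≤ a + 2 * e
    · refine ⟨0, fun x hx1 hx2 => ?_⟩
      have hx1' : (s : ℝ) ≤ x := hx1
      have hx2' : (x : ℝ) ≤ t := hx2
      have hs := hb'.resolve_right c2
      have e1 : ∀ z : ℝ, a + e ≤ z → z ≤ a + 2 * e → bumpR a e he z = z + e := by
        intro z h1 h2
        rw [bumpR_apply]; split_ifs <;> linarith
      rw [bump, restr_coe, restr_coe, e1 _ (by linarith) (by linarith),
        e1 _ (by linarith) (by linarith), zpow_zero]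
      ring
    by_cases c4 : (t : ℝ) ≤ a + 4 * e
    · refine ⟨-1, fun x hx1 hx2 => ?_⟩
      have hx1' : (s : ℝ) ≤ x := hx1
      have hx2' : (x : ℝ) ≤ t := hx2
      have hs := hc'.resolve_right c3
      have e1 : ∀ z : ℝ, a + 2 * e ≤ z → z ≤ a + 4 * e →
          bumpR a e he z = (z + a + 4 * e) / 2 := by
        intro z h1 h2
        rw [bumpR_apply]; split_ifs <;> linarith
      rw [bump, restr_coe, restr_coe, e1 _ (by linarith) (by linarith),
        e1 _ (by linarith) (by linarith), zpow_neg_one]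
      ring
    · refine ⟨0, fun x hx1 hx2 => ?_⟩
      have hx1' : (s : ℝ) ≤ x := hx1
      have hs := hd'.resolve_right c4
      rw [bump, restr_coe, restr_coe, bumpR_ge he (by linarith), bumpR_ge he (by linarith)]
      simp

/-- dyadic numbers are dense -/
lemma exists_dyadic_between {x y : ℝ} (h : x < y) :
    ∃ a e : ℝ, IsDyadic a ∧ IsDyadic e ∧ 0 < e ∧ x < a ∧ a + 4 * e < y := by
  obtain ⟨n, hn⟩ := exists_pow_lt_of_lt_one (show (0 : ℝ) < (y - x) / 6 by linarith)
    (show (1 / 2 : ℝ) < 1 by norm_num)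
  set e : ℝ := (1 / 2) ^ n with he
  have hepos : 0 < e := by positivity
  have hed : IsDyadic e := ⟨1, n, by rw [he]; simp⟩
  refine ⟨(⌊x / e⌋ + 1) * e, e, ?_, hed, hepos, ?_, ?_⟩
  · have : IsDyadic ((⌊x / e⌋ + 1 : ℤ) : ℝ) := IsDyadic.int _
    push_cast at this
    exact this.mul hed
  · have := Int.lt_floor_add_one (x / e)
    rwa [div_lt_iff₀ hepos] at this
  · have := Int.floor_le (x / e)
    rw [le_div_iff₀ hepos] at this
    nlinarith

/-- A nontrivial increasing homeomorphism does not commute with all its conjugates by `F`. -/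
lemma exists_noncomm {h : UI ≃o UI} (hne : h ≠ 1) :
    ∃ k ∈ ThompsonF, h * (k * h * k⁻¹) ≠ (k * h * k⁻¹) * h := by
  -- reduce to a point moved upwards
  have main : ∀ h : UI ≃o UI, (∃ x, x < h x) →
      ∃ k ∈ ThompsonF, h * (k * h * k⁻¹) ≠ (k * h * k⁻¹) * h := by
    intro h hx
    obtain ⟨x, hx⟩ := hx
    obtain ⟨a, e, da, de, he, h1, h2⟩ := exists_dyadic_between (show (x : ℝ) < (h x : UI) from hx)
    have ha : 0 ≤ a := x.2.1.trans h1.le
    have ha1 : a + 4 * e ≤ 1 := h2.le.trans (h x).2.2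
    set k := bump a e he ha ha1 with hk
    refine ⟨k, bump_thompson he ha ha1 da de, fun heq => ?_⟩
    -- points of the bump
    have hfix : ∀ z : UI, h x ≤ z → k z = z := by
      intro z hz
      apply Subtype.ext
      rw [hk, bump, restr_coe]
      apply bumpR_ge
      have : ((h x : UI) : ℝ) ≤ z := hz
      linarith
    have hfix' : ∀ z : UI, h x ≤ z → k.symm z = z := by
      intro z hz
      rw [k.symm_apply_eq, hfix z hz]
    let y : UI := ⟨a + e, by constructor <;> linarith⟩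
    have hxy : x < y := show (x : ℝ) < a + e by linarith
    have hky : y < k y := by
      change (y : ℝ) < (k y : UI)
      rw [hk, bump, restr_coe]
      apply bumpR_gt
      · change a < a + e; linarith
      · change a + e < a + 4 * e; linarith
    have e1 : (h * (k * h * k⁻¹)) (k y) = h (h y) := by
      have : (h * (k * h * k⁻¹)) (k y) = h (k (h (k.symm (k y)))) := rfl
      rw [this, k.symm_apply_apply, hfix (h y) (h.le_iff_le.2 hxy.le)]
    have e2 : ((k * h * k⁻¹) * h) (k y) = h (h (k y)) := by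
      have : ((k * h * k⁻¹) * h) (k y) = k (h (k.symm (h (k y)))) := rfl
      have hle : h x ≤ h (k y) := h.le_iff_le.2 (hxy.trans hky).le
      rw [this, hfix' _ hle]
      apply hfix
      exact h.le_iff_le.2 (hx.le.trans hle)
    rw [heq, e2] at e1
    have := h.injective (h.injective e1)
    exact absurd this hky.ne'
  by_cases hx : ∃ x, x < h x
  · exact main h hx
  · push Not at hx
    have hex : ∃ x, h x < x := by
      by_contra hcon
      push Not at hcon
      apply hne
      ext x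
      exact congrArg Subtype.val (le_antisymm (hx x) (hcon x))
    obtain ⟨x, hx2⟩ := hex
    obtain ⟨k, hk, hk2⟩ := main h⁻¹ ⟨x, by
      rw [inv_app, ← h.lt_iff_lt, h.apply_symm_apply]; exact hx2⟩
    refine ⟨k, hk, fun heq => hk2 ?_⟩
    have h3 := congrArg (fun w => w⁻¹) heq
    simp only [mul_inv_rev, inv_inv] at h3
    have e1 : h⁻¹ * (k * h⁻¹ * k⁻¹) = h⁻¹ * (k * (h⁻¹ * k⁻¹)) := by group
    rw [e1]
    rw [← h3]
    group

/-- the left bump -/
noncomputable def uF : ThompsonF := ⟨bump 0 (1 / 8) (by norm_num) le_rfl (by norm_num),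
  bump_thompson _ _ _ IsDyadic.zero ⟨1, 3, by norm_num⟩⟩

/-- the right bump -/
noncomputable def vF : ThompsonF := ⟨bump (1 / 2) (1 / 8) (by norm_num) (by norm_num) (by norm_num),
  bump_thompson _ _ _ ⟨1, 1, by norm_num⟩ ⟨1, 3, by norm_num⟩⟩

lemma uF_apply (x : UI) : ((uF.1 x : UI) : ℝ) = bumpR 0 (1 / 8) (by norm_num) x := rfl
lemma vF_apply (x : UI) : ((vF.1 x : UI) : ℝ) = bumpR (1 / 2) (1 / 8) (by norm_num) x := rfl

lemma uF_ge {x : UI} (h : 1 / 2 ≤ (x : ℝ)) : uF.1 x = x := by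
  apply Subtype.ext
  rw [uF_apply, bumpR_ge]
  linarith

lemma vF_le {x : UI} (h : (x : ℝ) ≤ 1 / 2) : vF.1 x = x := by
  apply Subtype.ext
  rw [vF_apply, bumpR_le]
  exact h

lemma uF_lt {x : UI} (h : 0 < (x : ℝ)) (h' : (x : ℝ) < 1 / 2) : x < uF.1 x := by
  change (x : ℝ) < (uF.1 x : UI)
  rw [uF_apply]
  apply bumpR_gt _ h
  linarith

lemma vF_lt {x : UI} (h : 1 / 2 < (x : ℝ)) (h' : (x : ℝ) < 1) : x < vF.1 x := by
  change (x : ℝ) < (vF.1 x : UI)
  rw [vF_apply]
  apply bumpR_gt _ h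
  linarith

lemma uF_half_le {x : UI} (h : (x : ℝ) ≤ 1 / 2) : ((uF.1 x : UI) : ℝ) ≤ 1 / 2 := by
  have h1 : uF.1 x ≤ uF.1 ⟨1 / 2, by norm_num⟩ := uF.1.le_iff_le.2 h
  rw [uF_ge (x := ⟨1 / 2, by norm_num⟩) (by simp)] at h1
  exact h1

lemma vF_half_ge {x : UI} (h : 1 / 2 ≤ (x : ℝ)) : 1 / 2 ≤ ((vF.1 x : UI) : ℝ) := by
  have h1 : vF.1 ⟨1 / 2, by norm_num⟩ ≤ vF.1 x := vF.1.le_iff_le.2 h
  rw [vF_le (x := ⟨1 / 2, by norm_num⟩) (by simp)] at h1
  exact h1

lemma uv_comm : uF * vF = vF * uF := by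
  apply Subtype.ext
  ext x
  change ((uF.1 (vF.1 x) : UI) : ℝ) = (vF.1 (uF.1 x) : UI)
  rcases le_total (x : ℝ) (1 / 2) with h | h
  · rw [vF_le h, vF_le (uF_half_le h)]
  · rw [uF_ge h, uF_ge (vF_half_ge h)]

lemma pow_fix {f : UI ≃o UI} {x : UI} (h : f x = x) (n : ℤ) : (f ^ n) x = x := by
  have hnat : ∀ n : ℕ, (f ^ n) x = x := by
    intro n
    induction n with
    | zero => rfl
    | succ n ih => rw [pow_succ, mul_app, h, ih]
  obtain ⟨m, rfl | rfl⟩ := Int.eq_nat_or_neg n
  · rw [zpow_natCast]; exact hnat m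
  · rw [zpow_neg, zpow_natCast, inv_app, (f ^ m).symm_apply_eq, hnat]

lemma pow_move {f : UI ≃o UI} {x : UI} (h : x < f x) {n : ℤ} (hn : n ≠ 0) : (f ^ n) x ≠ x := by
  have hnat : ∀ n : ℕ, x < (f ^ (n + 1)) x := by
    intro n
    induction n with
    | zero => simpa using h
    | succ n ih =>
      rw [pow_succ', mul_app]
      exact h.trans (f.lt_iff_lt.2 ih)
  obtain ⟨m, rfl | rfl⟩ := Int.eq_nat_or_neg n
  · obtain ⟨k, rfl⟩ : ∃ k, m = k + 1 := ⟨m - 1, by
      have : m ≠ 0 := by rintro rfl; exact hn rfl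
      omega⟩
    rw [zpow_natCast]
    exact (hnat k).ne'
  · obtain ⟨k, rfl⟩ : ∃ k, m = k + 1 := ⟨m - 1, by
      have : m ≠ 0 := by rintro rfl; exact hn (by simp)
      omega⟩
    rw [zpow_neg, zpow_natCast, inv_app]
    intro h2
    rw [(f ^ (k + 1)).symm_apply_eq] at h2
    exact (hnat k).ne h2

lemma uv_ne_one {p q : ℤ} (h : p ≠ 0 ∨ q ≠ 0) : uF ^ p * vF ^ q ≠ 1 := by
  intro heq
  have h1 : ∀ x : UI, (uF.1 ^ p) ((vF.1 ^ q) x) = x := by
    intro x
    have := congrArg (fun w : ThompsonF => w.1 x) heq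
    simpa using this
  rcases h with h | h
  · have hx : ((⟨1 / 4, by norm_num⟩ : UI) : ℝ) = 1 / 4 := rfl
    have h2 := h1 ⟨1 / 4, by norm_num⟩
    rw [pow_fix (vF_le (by rw [hx]; norm_num))] at h2
    exact pow_move (uF_lt (by rw [hx]; norm_num) (by rw [hx]; norm_num)) h h2
  · have hx : ((⟨3 / 4, by norm_num⟩ : UI) : ℝ) = 3 / 4 := rfl
    have h2 := h1 ⟨3 / 4, by norm_num⟩
    have h3 : (vF.1 ^ q) ⟨3 / 4, by norm_num⟩ = (⟨3 / 4, by norm_num⟩ : UI) := by
      have h4 : (uF.1 ^ p) ⟨3 / 4, by norm_num⟩ = (⟨3 / 4, by norm_num⟩ : UI) :=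
        pow_fix (uF_ge (by rw [hx]; norm_num)) p
      apply (uF.1 ^ p).injective
      rw [h2, h4]
    exact pow_move (vF_lt (by rw [hx]; norm_num) (by rw [hx]; norm_num)) h h3

end Pool.Agent.Lib_helper28.OF
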