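import Mathlib

/-!
# Asymptotics of binomial coefficients
-/

open scoped BigOperators Topology
open Filter

namespace BC

/-- the error term in the logarithm of the factorial -/
noncomputable def Ef (k : ℕ) : ℝ := Real.log (k.factorial : ℝ) - (k * Real.log k - k)

lemma Ef_step (k : ℕ) (hk : 1 ≤ k) :
    0 ≤ Ef (k + 1) - Ef k ∧ Ef (k + 1) - Ef k ≤ Real.log (k + 1) - Real.log k := by
  have hk' : (1:ℝ) ≤ k := by exact_mod_cast hk
  have hkp : (0:ℝ) < k := by linarith
  have e : Ef (k + 1) - Ef k = 1 - k * (Real.log (k + 1) - Real.log k) := by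
    unfold Ef
    rw [Nat.factorial_succ]
    push_cast
    rw [Real.log_mul (by positivity) (by positivity)]
    ring
  rw [e]
  have h1 : Real.log (k + 1) - Real.log k = Real.log (1 + 1 / k) := by
    rw [← Real.log_div (by positivity) hkp.ne']
    congr 1
    field_simp
  have h2 : Real.log (1 + 1 / (k:ℝ)) ≤ 1 / k := by
    have := Real.log_le_sub_one_of_pos (show 0 < 1 + 1 / (k:ℝ) by positivity)
    linarith
  have h3 : 1 - (k:ℝ) / (k + 1) ≤ Real.log (1 + 1 / k) := by
    have := Real.one_sub_inv_le_log_of_pos (show 0 < 1 + 1 / (k:ℝ) by positivity)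
    have e2 : (1 + 1 / (k:ℝ))⁻¹ = k / (k + 1) := by field_simp
    rw [e2] at this
    exact this
  rw [h1]
  constructor
  · have : (k:ℝ) * Real.log (1 + 1 / k) ≤ k * (1 / k) := mul_le_mul_of_nonneg_left h2 hkp.le
    have e3 : (k:ℝ) * (1 / k) = 1 := by field_simp
    linarith
  · have h4 : ((k:ℝ) + 1) * (1 - (k:ℝ) / (k + 1)) ≤ (k + 1) * Real.log (1 + 1 / k) :=
      mul_le_mul_of_nonneg_left h3 (by positivity)
    have e4 : ((k:ℝ) + 1) * (1 - (k:ℝ) / (k + 1)) = 1 := by field_simp; ring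
    linarith

lemma Ef_bounds (k : ℕ) : 0 ≤ Ef k ∧ Ef k ≤ 1 + Real.log k := by
  rcases Nat.eq_zero_or_pos k with rfl | hk
  · simp [Ef]
  · induction k, hk using Nat.le_induction with
    | base => simp [Ef]
    | succ k hk ih =>
      have := Ef_step k hk
      push_cast
      constructor <;> linarith [ih.1, ih.2, this.1, this.2]

lemma log_le_two_sqrt (k : ℕ) : Real.log k ≤ 2 * Real.sqrt k := by
  rcases Nat.eq_zero_or_pos k with rfl | hk
  · simp
  · have hk' : (0:ℝ) < k := by exact_mod_cast hk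
    have h1 : Real.log k = 2 * Real.log (Real.sqrt k) := by
      rw [Real.log_sqrt hk'.le]; ring
    have h2 := Real.log_le_sub_one_of_pos (Real.sqrt_pos.2 hk')
    linarith

/-- `log k!` normalised -/
lemma tendsto_log_factorial (k : ℕ → ℕ) (x : ℝ)
    (hk : Tendsto (fun L : ℕ => (k L : ℝ) / L) atTop (𝓝 x)) :
    Tendsto (fun L : ℕ => (Real.log ((k L).factorial : ℝ) - k L * Real.log L) / L) atTop
      (𝓝 (-Real.negMulLog x - x)) := by
  have h1 : Tendsto (fun L : ℕ => -Real.negMulLog ((k L : ℝ) / L) - (k L : ℝ) / L) atTop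
      (𝓝 (-Real.negMulLog x - x)) :=
    ((Real.continuous_negMulLog.tendsto x).comp hk).neg.sub hk
  have h2 : Tendsto (fun L : ℕ => Ef (k L) / L) atTop (𝓝 0) := by
    have ha : Tendsto (fun L : ℕ => 1 / (L : ℝ)) atTop (𝓝 0) :=
      tendsto_one_div_atTop_nhds_zero_nat
    have hb : Tendsto (fun L : ℕ => Real.sqrt ((k L : ℝ) / L)) atTop (𝓝 (Real.sqrt x)) :=
      (Real.continuous_sqrt.tendsto x).comp hk
    have hc : Tendsto (fun L : ℕ => Real.sqrt (1 / (L : ℝ))) atTop (𝓝 0) := by
      have h := (Real.continuous_sqrt.tendsto 0).comp ha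
      rw [Real.sqrt_zero] at h
      exact h
    have hd : Tendsto (fun L : ℕ => 1 / (L : ℝ) + 2 * (Real.sqrt ((k L : ℝ) / L)
        * Real.sqrt (1 / (L : ℝ)))) atTop (𝓝 (0 + 2 * (Real.sqrt x * 0))) :=
      ha.add ((hb.mul hc).const_mul 2)
    rw [mul_zero, mul_zero, add_zero] at hd
    refine squeeze_zero (fun L => div_nonneg (Ef_bounds _).1 (Nat.cast_nonneg _)) (fun L => ?_) hd
    rcases Nat.eq_zero_or_pos L with rfl | hL
    · simp
    have hL' : (0:ℝ) < L := by exact_mod_cast hL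
    have h3 : Real.sqrt ((k L : ℝ) / L) * Real.sqrt (1 / (L : ℝ)) = Real.sqrt (k L) / L := by
      rw [← Real.sqrt_mul (by positivity)]
      have : (k L : ℝ) / L * (1 / L) = (k L : ℝ) / L ^ 2 := by field_simp
      rw [this, Real.sqrt_div (by positivity), Real.sqrt_sq hL'.le]
    rw [h3]
    have h4 := (Ef_bounds (k L)).2
    have h5 := log_le_two_sqrt (k L)
    have : 1 / (L:ℝ) + 2 * (Real.sqrt (k L) / L) = (1 + 2 * Real.sqrt (k L)) / L := by ring
    rw [this]
    exact div_le_div_of_nonneg_right (by linarith) hL'.le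
  have h3 := h1.add h2
  rw [add_zero] at h3
  refine h3.congr' ?_
  filter_upwards [eventually_gt_atTop 0] with L hL
  have hL' : (0:ℝ) < L := by exact_mod_cast hL
  rcases Nat.eq_zero_or_pos (k L) with h0 | h0
  · rw [h0]; simp [Ef]
  · have h0' : (0:ℝ) < k L := by exact_mod_cast h0
    unfold Ef Real.negMulLog
    rw [Real.log_div h0'.ne' hL'.ne']
    field_simp
    ring

lemma log_choose {n k : ℕ} (h : k ≤ n) : Real.log (n.choose k : ℝ)
    = Real.log (n.factorial : ℝ) - Real.log (k.factorial : ℝ)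
      - Real.log ((n - k).factorial : ℝ) := by
  have h1 := Nat.choose_mul_factorial_mul_factorial h
  have h2 : ((n.choose k : ℝ)) * (k.factorial : ℝ) * ((n - k).factorial : ℝ) = n.factorial := by
    exact_mod_cast h1
  have hc : (0:ℝ) < n.choose k := by exact_mod_cast Nat.choose_pos h
  rw [← h2, Real.log_mul (by positivity) (by positivity), Real.log_mul (by positivity)
    (by positivity)]
  ring

lemma tendsto_log_choose (n k : ℕ → ℕ) (y x : ℝ) (h : ∀ L, k L ≤ n L)
    (hn : Tendsto (fun L : ℕ => (n L : ℝ) / L) atTop (𝓝 y))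
    (hk : Tendsto (fun L : ℕ => (k L : ℝ) / L) atTop (𝓝 x)) :
    Tendsto (fun L : ℕ => Real.log ((n L).choose (k L) : ℝ) / L) atTop
      (𝓝 (Real.negMulLog x + Real.negMulLog (y - x) - Real.negMulLog y)) := by
  have hd : Tendsto (fun L : ℕ => ((n L - k L : ℕ) : ℝ) / L) atTop (𝓝 (y - x)) := by
    refine (hn.sub hk).congr (fun L => ?_)
    rw [Nat.cast_sub (h L)]
    ring
  have h1 := tendsto_log_factorial n y hn
  have h2 := tendsto_log_factorial k x hk
  have h3 := tendsto_log_factorial (fun L => n L - k L) (y - x) hd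
  have h4 := (h1.sub h2).sub h3
  have e : (-Real.negMulLog y - y) - (-Real.negMulLog x - x)
      - (-Real.negMulLog (y - x) - (y - x))
      = Real.negMulLog x + Real.negMulLog (y - x) - Real.negMulLog y := by ring
  rw [e] at h4
  refine h4.congr (fun L => ?_)
  rw [log_choose (h L), Nat.cast_sub (h L)]
  ring

/-- floors -/
lemma tendsto_floor (x : ℝ) (hx : 0 ≤ x) :
    Tendsto (fun L : ℕ => (⌊x * L⌋₊ : ℝ) / L) atTop (𝓝 x) :=
  (tendsto_nat_floor_mul_div_atTop hx).comp tendsto_natCast_atTop_atTop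

lemma tendsto_floor' (x w : ℝ) (hx : 0 ≤ x) (hw : 0 < w) (n : ℕ → ℕ)
    (hn : Tendsto (fun L : ℕ => (n L : ℝ) / L) atTop (𝓝 w)) :
    Tendsto (fun L : ℕ => (⌊x * n L⌋₊ : ℝ) / L) atTop (𝓝 (w * x)) := by
  have hinf : Tendsto (fun L : ℕ => (n L : ℝ)) atTop atTop := by
    have h1 : Tendsto (fun L : ℕ => (n L : ℝ) / L * L) atTop atTop :=
      Tendsto.pos_mul_atTop hw hn tendsto_natCast_atTop_atTop
    refine h1.congr' ?_
    filter_upwards [eventually_gt_atTop 0] with L hL
    have hL' : (0:ℝ) < L := by exact_mod_cast hL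
    field_simp
  have h2 := (tendsto_nat_floor_mul_div_atTop (R := ℝ) hx).comp hinf
  have h3 := hn.mul h2
  refine h3.congr' ?_
  filter_upwards [hinf.eventually_gt_atTop 0, eventually_gt_atTop 0] with L hL hL0
  have hL' : (0:ℝ) < L := by exact_mod_cast hL0
  simp only [Function.comp]
  field_simp

end BC
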