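import Pool.Agent.Lib_helper28.BCEnt

/-!
# Geometry of the region `Reg`, compactness, separation, continuity of `Psi`
-/

open scoped BigOperators Topology
open Set Filter

namespace BC

section hull
variable {E : Type*} [NormedAddCommGroup E] [NormedSpace ℝ E] [FiniteDimensional ℝ E]

theorem compact_hull {s : Set E} (hs : IsCompact s) : IsCompact (convexHull ℝ s) := by
  classical
  rcases s.eq_empty_or_nonempty with rfl | ⟨z0, hz0⟩
  · simp
  set d := Module.finrank ℝ E + 1 with hd
  set K : Set ((Fin d → ℝ) × (Fin d → E)) :=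
    (stdSimplex ℝ (Fin d)) ×ˢ (Set.pi univ (fun _ => s)) with hK
  have hKc : IsCompact K := (isCompact_stdSimplex _ _).prod (isCompact_univ_pi (fun _ => hs))
  have e : convexHull ℝ s = (fun q : (Fin d → ℝ) × (Fin d → E) => ∑ i, q.1 i • q.2 i) '' K := by
    apply Subset.antisymm
    · intro x hx
      obtain ⟨ι, hι, z, w, hz, haff, hw, hw1, hx⟩ := eq_pos_convex_span_of_mem_convexHull hx
      have hcard : Fintype.card ι ≤ Fintype.card (Fin d) := by
        rw [Fintype.card_fin]
        have h1 := haff.card_le_finrank_succ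
        have h2 : Module.finrank ℝ (vectorSpan ℝ (Set.range z)) ≤ Module.finrank ℝ E :=
          Submodule.finrank_le _
        omega
      obtain ⟨f, hf⟩ := Function.Embedding.nonempty_of_card_le hcard
      have h1 : ∀ i, 0 ≤ Function.extend f w 0 i := by
        intro i
        by_cases hi : ∃ j, f j = i
        · obtain ⟨j, rfl⟩ := hi
          rw [hf.extend_apply]
          exact (hw j).le
        · rw [Function.extend_apply' _ _ _ hi]
          simp
      have h2 : ∑ i, Function.extend f w 0 i = 1 := by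
        rw [← hw1]
        symm
        refine Fintype.sum_of_injective f hf _ _ (fun i hi => ?_) (fun i => ?_)
        · rw [Function.extend_apply' _ _ _ (by simpa using hi)]
          simp
        · rw [hf.extend_apply]
      have h3 : ∀ i, Function.extend f z (fun _ => z0) i ∈ s := by
        intro i
        by_cases hi : ∃ j, f j = i
        · obtain ⟨j, rfl⟩ := hi
          rw [hf.extend_apply]
          exact hz (mem_range_self j)
        · rw [Function.extend_apply' _ _ _ hi]
          exact hz0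
      have h4 : ∑ i, Function.extend f w 0 i • Function.extend f z (fun _ => z0) i = x := by
        rw [← hx]
        symm
        refine Fintype.sum_of_injective f hf _ _ (fun i hi => ?_) (fun i => ?_)
        · rw [Function.extend_apply' _ _ _ (by simpa using hi)]
          simp
        · rw [hf.extend_apply, hf.extend_apply]
      exact ⟨(Function.extend f w 0, Function.extend f z (fun _ => z0)),
        ⟨⟨h1, h2⟩, fun i _ => h3 i⟩, h4⟩
    · rintro _ ⟨⟨w, z⟩, ⟨hw, hz⟩, rfl⟩
      exact (convex_convexHull ℝ s).sum_mem (fun i _ => hw.1 i) hw.2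
        (fun i _ => subset_convexHull ℝ s (hz i (mem_univ i)))
  rw [e]
  refine hKc.image ?_
  exact continuous_finsetSum _ (fun i _ => ((continuous_apply i).comp continuous_fst).smul
    ((continuous_apply i).comp continuous_snd))

end hull

lemma continuous_vec : Continuous vec := by
  unfold vec H2 sA sB
  have h1 := Real.continuous_negMulLog
  have h2 := Real.binEntropy_continuous
  fun_prop

lemma compact_Reg : IsCompact Reg :=
  compact_hull ((isCompact_stdSimplex ℝ _).image continuous_vec)

/-! ### subadditivity of entropy with the equality case -/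

lemma kl_term {p q : ℝ} (hp : 0 ≤ p) (hq : 0 ≤ q) (h : q = 0 → p = 0) :
    0 ≤ p * Real.log p - p * Real.log q - p + q ∧
      (p * Real.log p - p * Real.log q - p + q ≤ 0 → p = q) := by
  rcases hp.eq_or_lt with rfl | hp0
  · simp only [zero_mul, sub_zero, zero_add]
    exact ⟨hq, fun h => le_antisymm hq h⟩
  · have hq0 : 0 < q := by
      rcases hq.eq_or_lt with h' | h'
      · exact absurd (h h'.symm) hp0.ne'
      · exact h'
    have e : p * Real.log p - p * Real.log q - p + q
        = p * ((q / p - 1) - Real.log (q / p)) := by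
      rw [Real.log_div hq0.ne' hp0.ne']
      field_simp
      ring
    rw [e]
    have hqp : 0 < q / p := by positivity
    refine ⟨?_, fun h1 => ?_⟩
    · have := Real.log_le_sub_one_of_pos hqp
      exact mul_nonneg hp (by linarith)
    · by_contra hne
      have hne' : q / p ≠ 1 := by
        intro h2
        rw [div_eq_one_iff_eq hp0.ne'] at h2
        exact hne h2.symm
      have := Real.log_lt_sub_one_of_pos hqp hne'
      have : 0 < p * ((q / p - 1) - Real.log (q / p)) := mul_pos hp0 (by linarith)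
      linarith

lemma simplex_facts {p : Bool × Bool → ℝ} (hp : p ∈ stdSimplex ℝ (Bool × Bool)) :
    0 ≤ p (false, false) ∧ 0 ≤ p (false, true) ∧ 0 ≤ p (true, false) ∧ 0 ≤ p (true, true) ∧
      p (false, false) + p (false, true) + p (true, false) + p (true, true) = 1 := by
  refine ⟨hp.1 _, hp.1 _, hp.1 _, hp.1 _, ?_⟩
  have := hp.2
  rw [Fintype.sum_prod_type] at this
  simp only [Fintype.sum_bool] at this
  linarith

lemma H2_eq (p : Bool × Bool → ℝ) : H2 p = Real.negMulLog (p (false, false))
    + Real.negMulLog (p (false, true)) + Real.negMulLog (p (true, false))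
    + Real.negMulLog (p (true, true)) := by
  unfold H2
  rw [Fintype.sum_prod_type]
  simp only [Fintype.sum_bool]
  ring

lemma binEntropy_eq (s : ℝ) :
    Real.binEntropy s = -(s * Real.log s) - (1 - s) * Real.log (1 - s) := by
  rw [Real.binEntropy_eq_negMulLog_add_negMulLog_one_sub]
  simp only [Real.negMulLog]
  ring

lemma gap {p : Bool × Bool → ℝ} (hp : p ∈ stdSimplex ℝ (Bool × Bool)) :
    H2 p ≤ Real.binEntropy (sA p) + Real.binEntropy (sB p) ∧
      (Real.binEntropy (sA p) + Real.binEntropy (sB p) ≤ H2 p →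
        p (true, true) = sA p * sB p) := by
  obtain ⟨h00, h01, h10, h11, hs⟩ := simplex_facts hp
  rw [H2_eq]
  have es : sA p = p (true, false) + p (true, true) := rfl
  have et : sB p = p (false, true) + p (true, true) := rfl
  generalize sA p = s at *
  generalize sB p = t at *
  generalize p (false, false) = a at *
  generalize p (false, true) = b at *
  generalize p (true, false) = c at *
  generalize p (true, true) = d at *
  have e1s : 1 - s = a + b := by linarith
  have e1t : 1 - t = a + c := by linarith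
  have hs0 : 0 ≤ s := by linarith
  have ht0 : 0 ≤ t := by linarith
  have hs1 : 0 ≤ 1 - s := by linarith
  have ht1 : 0 ≤ 1 - t := by linarith
  have lg : ∀ x y z : ℝ, 0 ≤ x → x ≤ y → x ≤ z →
      x * Real.log (y * z) = x * Real.log y + x * Real.log z := by
    intro x y z hx hy hz
    rcases hx.eq_or_lt with rfl | hx
    · simp
    · rw [Real.log_mul (by linarith : 0 < y).ne' (by linarith : 0 < z).ne']
      ring
  have zz : ∀ x y z : ℝ, 0 ≤ x → x ≤ y → x ≤ z → (y * z = 0 → x = 0) := by
    intro x y z hx hy hz h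
    rcases mul_eq_zero.1 h with h | h
    · linarith
    · linarith
  have kd := kl_term h11 (mul_nonneg hs0 ht0) (zz d s t h11 (by linarith) (by linarith))
  have kc := kl_term h10 (mul_nonneg hs0 ht1) (zz c s (1 - t) h10 (by linarith) (by linarith))
  have kb := kl_term h01 (mul_nonneg hs1 ht0) (zz b (1 - s) t h01 (by linarith) (by linarith))
  have ka := kl_term h00 (mul_nonneg hs1 ht1)
    (zz a (1 - s) (1 - t) h00 (by linarith) (by linarith))
  rw [lg d s t h11 (by linarith) (by linarith)] at kd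
  rw [lg c s (1 - t) h10 (by linarith) (by linarith)] at kc
  rw [lg b (1 - s) t h01 (by linarith) (by linarith)] at kb
  rw [lg a (1 - s) (1 - t) h00 (by linarith) (by linarith)] at ka
  rw [binEntropy_eq, binEntropy_eq]
  simp only [Real.negMulLog]
  have key : -(s * Real.log s) - (1 - s) * Real.log (1 - s)
      + (-(t * Real.log t) - (1 - t) * Real.log (1 - t))
      - (-a * Real.log a + -b * Real.log b + -c * Real.log c + -d * Real.log d)
      = (d * Real.log d - (d * Real.log s + d * Real.log t) - d + s * t)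
        + (c * Real.log c - (c * Real.log s + c * Real.log (1 - t)) - c + s * (1 - t))
        + (b * Real.log b - (b * Real.log (1 - s) + b * Real.log t) - b + (1 - s) * t)
        + (a * Real.log a - (a * Real.log (1 - s) + a * Real.log (1 - t)) - a
          + (1 - s) * (1 - t)) := by
    have h1 : s * Real.log s = c * Real.log s + d * Real.log s := by rw [es]; ring
    have h2 : (1 - s) * Real.log (1 - s) = a * Real.log (1 - s) + b * Real.log (1 - s) := by
      have : ∀ y : ℝ, (1 - s) * y = a * y + b * y := by intro y; rw [e1s]; ring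
      exact this _
    have h3 : t * Real.log t = b * Real.log t + d * Real.log t := by
      have : ∀ y : ℝ, t * y = b * y + d * y := by intro y; rw [et]; ring
      exact this _
    have h4 : (1 - t) * Real.log (1 - t) = a * Real.log (1 - t) + c * Real.log (1 - t) := by
      have : ∀ y : ℝ, (1 - t) * y = a * y + c * y := by intro y; rw [e1t]; ring
      exact this _
    rw [h1, h2, h3, h4]
    nlinarith
  refine ⟨by linarith [kd.1, kc.1, kb.1, ka.1], fun h => kd.2 ?_⟩
  linarith [kd.1, kc.1, kb.1, ka.1]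

/-! ### bounds on `Reg` -/

lemma log_two_bounds : 0 < Real.log 2 := Real.log_pos (by norm_num)

lemma binEntropy_bounds {s : ℝ} (h0 : 0 ≤ s) (h1 : s ≤ 1) :
    0 ≤ Real.binEntropy s ∧ Real.binEntropy s ≤ Real.log 2 :=
  ⟨Real.binEntropy_nonneg h0 h1, Real.binEntropy_le_log_two⟩

lemma var_le {s : ℝ} (h0 : 0 ≤ s) (h1 : s ≤ 1) : 0 ≤ s * (1 - s) ∧ s * (1 - s) ≤ 1 / 4 :=
  ⟨mul_nonneg h0 (by linarith), by nlinarith [sq_nonneg (s - 1 / 2)]⟩

/-- a convex box containing `Reg` -/
def Box : Set (ℝ × ℝ × ℝ × ℝ) :=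
  {r | 0 ≤ r.1 ∧ r.1 ≤ r.2.1 ∧ r.2.1 ≤ 2 * Real.log 2 ∧ 0 ≤ r.2.2.1 ∧ r.2.2.1 ≤ 1 ∧
    0 ≤ r.2.2.2 ∧ r.2.2.2 ≤ 1 / 16}

lemma Box_convex : Convex ℝ Box := by
  rintro x ⟨x1, x2, x3, x4, x5, x6, x7⟩ y ⟨y1, y2, y3, y4, y5, y6, y7⟩ a b ha hb hab
  have hb' : b = 1 - a := by linarith
  simp only [Box, mem_ofPred_eq, Prod.fst_add, Prod.snd_add, Prod.smul_fst, Prod.smul_snd,
    smul_eq_mul]
  refine ⟨by positivity, ?_, ?_, by positivity, ?_, by positivity, ?_⟩
  · exact add_le_add (mul_le_mul_of_nonneg_left x2 ha) (mul_le_mul_of_nonneg_left y2 hb)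
  · calc _ ≤ a * (2 * Real.log 2) + b * (2 * Real.log 2) :=
        add_le_add (mul_le_mul_of_nonneg_left x3 ha) (mul_le_mul_of_nonneg_left y3 hb)
      _ = 2 * Real.log 2 := by rw [← add_mul, hab, one_mul]
  · calc _ ≤ a * 1 + b * 1 :=
        add_le_add (mul_le_mul_of_nonneg_left x5 ha) (mul_le_mul_of_nonneg_left y5 hb)
      _ = 1 := by rw [← add_mul, hab, one_mul]
  · calc _ ≤ a * (1 / 16) + b * (1 / 16) :=
        add_le_add (mul_le_mul_of_nonneg_left x7 ha) (mul_le_mul_of_nonneg_left y7 hb)
      _ = 1 / 16 := by rw [← add_mul, hab, one_mul]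

lemma marg {p : Bool × Bool → ℝ} (hp : p ∈ stdSimplex ℝ (Bool × Bool)) :
    0 ≤ sA p ∧ sA p ≤ 1 ∧ 0 ≤ sB p ∧ sB p ≤ 1 := by
  obtain ⟨h00, h01, h10, h11, hs⟩ := simplex_facts hp
  unfold sA sB
  refine ⟨?_, ?_, ?_, ?_⟩ <;> linarith

lemma H2_nonneg {p : Bool × Bool → ℝ} (hp : p ∈ stdSimplex ℝ (Bool × Bool)) : 0 ≤ H2 p := by
  obtain ⟨h00, h01, h10, h11, hs⟩ := simplex_facts hp
  rw [H2_eq]
  have h1 := Real.negMulLog_nonneg h00 (by linarith)
  have h2 := Real.negMulLog_nonneg h01 (by linarith)
  have h3 := Real.negMulLog_nonneg h10 (by linarith)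
  have h4 := Real.negMulLog_nonneg h11 (by linarith)
  linarith

lemma Reg_subset_Box : Reg ⊆ Box := by
  refine convexHull_min ?_ Box_convex
  rintro _ ⟨p, hp, rfl⟩
  obtain ⟨h00, h01, h10, h11, hs⟩ := simplex_facts hp
  obtain ⟨m1, m2, m3, m4⟩ := marg hp
  have b1 := binEntropy_bounds m1 m2
  have b2 := binEntropy_bounds m3 m4
  have v1 := var_le m1 m2
  have v2 := var_le m3 m4
  refine ⟨H2_nonneg hp, (gap hp).1, ?_, h11, ?_, ?_, ?_⟩
  · show Real.binEntropy (sA p) + Real.binEntropy (sB p) ≤ 2 * Real.log 2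
    linarith
  · show p (true, true) ≤ 1
    linarith
  · exact mul_nonneg v1.1 v2.1
  · show sA p * (1 - sA p) * (sB p * (1 - sB p)) ≤ 1 / 16
    calc _ ≤ 1 / 4 * (1 / 4 : ℝ) := mul_le_mul v1.2 v2.2 v2.1 (by norm_num)
      _ = 1 / 16 := by norm_num

/-! ### product distributions -/

/-- product distribution -/
def pr (s t : ℝ) : Bool × Bool → ℝ := fun z => (if z.1 then s else 1 - s) * (if z.2 then t else 1 - t)

lemma pr_mem {s t : ℝ} (hs : s ∈ Icc (0:ℝ) 1) (ht : t ∈ Icc (0:ℝ) 1) :
    pr s t ∈ stdSimplex ℝ (Bool × Bool) := by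
  refine ⟨?_, ?_⟩
  · rintro ⟨a, b⟩
    unfold pr
    refine mul_nonneg ?_ ?_
    · dsimp only; split_ifs
      · exact hs.1
      · linarith [hs.2]
    · dsimp only; split_ifs
      · exact ht.1
      · linarith [ht.2]
  · rw [Fintype.sum_prod_type]
    simp only [Fintype.sum_bool, pr, if_true, Bool.false_eq_true, if_false]
    ring

lemma vec_pr (s t : ℝ) : vec (pr s t) = (Real.binEntropy s + Real.binEntropy t,
    Real.binEntropy s + Real.binEntropy t, s * t, s * (1 - s) * (t * (1 - t))) := by
  have e1 : sA (pr s t) = s := by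
    simp only [sA, pr, if_true, Bool.false_eq_true, if_false]; ring
  have e2 : sB (pr s t) = t := by
    simp only [sB, pr, if_true, Bool.false_eq_true, if_false]; ring
  have e3 : H2 (pr s t) = Real.binEntropy s + Real.binEntropy t := by
    rw [H2_eq]
    simp only [pr, if_true, Bool.false_eq_true, if_false, Real.negMulLog_mul]
    rw [Real.binEntropy_eq_negMulLog_add_negMulLog_one_sub,
      Real.binEntropy_eq_negMulLog_add_negMulLog_one_sub]
    ring
  unfold vec
  rw [e1, e2, e3]
  simp only [pr, if_true]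

/-- the vector `(h(s)+h(t), st, s(1-s)t(1-t))` -/
noncomputable def tv (q : ℝ × ℝ) : ℝ × ℝ × ℝ :=
  (Real.binEntropy q.1 + Real.binEntropy q.2, q.1 * q.2, q.1 * (1 - q.1) * (q.2 * (1 - q.2)))

/-- the convex hull of these vectors -/
def TT : Set (ℝ × ℝ × ℝ) := convexHull ℝ (tv '' (Icc (0:ℝ) 1 ×ˢ Icc (0:ℝ) 1))

lemma compact_TT : IsCompact TT := by
  refine compact_hull ((isCompact_Icc.prod isCompact_Icc).image ?_)
  unfold tv
  have h2 := Real.binEntropy_continuous
  fun_prop

lemma lift_TT {p : ℝ × ℝ × ℝ} (hp : p ∈ TT) : (p.1, p.1, p.2.1, p.2.2) ∈ Reg := by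
  have hconv : Convex ℝ {p : ℝ × ℝ × ℝ | ((p.1, p.1, p.2.1, p.2.2) : ℝ × ℝ × ℝ × ℝ) ∈ Reg} := by
    intro x hx y hy a b ha hb hab
    have := Reg_convex hx hy ha hb hab
    simpa using this
  refine convexHull_min ?_ hconv hp
  rintro _ ⟨⟨s, t⟩, ⟨hs, ht⟩, rfl⟩
  have := vec_mem_Reg (pr_mem hs ht)
  rw [vec_pr] at this
  exact this

lemma tv_mem {s t : ℝ} (hs : s ∈ Icc (0:ℝ) 1) (ht : t ∈ Icc (0:ℝ) 1) : tv (s, t) ∈ TT :=
  subset_convexHull ℝ _ ⟨(s, t), ⟨hs, ht⟩, rfl⟩

/-! ### separation -/

theorem separation {l R v : ℝ} (hR : 0 ≤ R) (hv : 0 ≤ v)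
    (hno : ∀ p ∈ TT, p.2.1 = l → p.2.2 ≤ v → p.1 < R) :
    ∃ σ κ M0 v1 : ℝ, 0 < σ ∧
      (∀ s t : ℝ, 0 ≤ s → s ≤ 1 → 0 ≤ t → t ≤ 1 →
        σ * (Real.binEntropy s + Real.binEntropy t) + κ * (s * t)
          - 1 / 2 * (s * (1 - s) * (t * (1 - t))) ≤ M0) ∧
      v < v1 ∧ M0 - σ * R - κ * l ≤ -(1 / 2 * v1) := by
  set D : Set (ℝ × ℝ × ℝ) := {p | R ≤ p.1 ∧ p.2.1 = l ∧ p.2.2 ≤ v} with hD
  have hDconv : Convex ℝ D := by
    rintro x ⟨x1, x2, x3⟩ y ⟨y1, y2, y3⟩ a b ha hb hab
    refine ⟨?_, ?_, ?_⟩
    · show R ≤ a * x.1 + b * y.1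
      calc R = a * R + b * R := by rw [← add_mul, hab, one_mul]
        _ ≤ _ := add_le_add (mul_le_mul_of_nonneg_left x1 ha) (mul_le_mul_of_nonneg_left y1 hb)
    · show a * x.2.1 + b * y.2.1 = l
      rw [x2, y2, ← add_mul, hab, one_mul]
    · show a * x.2.2 + b * y.2.2 ≤ v
      calc _ ≤ a * v + b * v :=
            add_le_add (mul_le_mul_of_nonneg_left x3 ha) (mul_le_mul_of_nonneg_left y3 hb)
        _ = v := by rw [← add_mul, hab, one_mul]
  have hDcl : IsClosed D := by
    refine IsClosed.inter ?_ (IsClosed.inter ?_ ?_)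
    · exact isClosed_le continuous_const continuous_fst
    · exact isClosed_eq (continuous_fst.comp continuous_snd) continuous_const
    · exact isClosed_le (continuous_snd.comp continuous_snd) continuous_const
  have hdisj : Disjoint TT D := by
    rw [Set.disjoint_left]
    rintro p hp ⟨h1, h2, h3⟩
    exact absurd (hno p hp h2 h3) (not_lt.2 h1)
  obtain ⟨f, u, w, hf1, huw, hf2⟩ := geometric_hahn_banach_compact_closed
    (convex_convexHull ℝ _) compact_TT hDconv hDcl hdisj
  set α := f (1, 0, 0) with hα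
  set β := f (0, 1, 0) with hβ
  set δ := f (0, 0, 1) with hδ
  have hf : ∀ x y z : ℝ, f (x, y, z) = α * x + β * y + δ * z := by
    intro x y z
    have e : ((x, y, z) : ℝ × ℝ × ℝ) = x • ((1, 0, 0) : ℝ × ℝ × ℝ)
        + y • ((0, 1, 0) : ℝ × ℝ × ℝ) + z • ((0, 0, 1) : ℝ × ℝ × ℝ) := by
      simp
    rw [e, map_add, map_add, map_smul, map_smul, map_smul]
    simp only [smul_eq_mul]
    ring
  -- signs
  have hα0 : 0 ≤ α := by
    by_contra hneg
    push Not at hneg
    have h := hf2 (R + (|w| + |β * l| + |δ * v| + |α * R|) / (-α) , l, v)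
      ⟨by show R ≤ R + _; have : 0 ≤ (|w| + |β * l| + |δ * v| + |α * R|) / (-α) :=
            div_nonneg (by positivity) (by linarith)
          linarith, rfl, le_refl _⟩
    rw [hf] at h
    have e : α * (R + (|w| + |β * l| + |δ * v| + |α * R|) / (-α))
        = α * R - (|w| + |β * l| + |δ * v| + |α * R|) := by
      have : α ≠ 0 := hneg.ne
      field_simp
      ring
    rw [e] at h
    have h1 := neg_abs_le w
    have h2 := le_abs_self (β * l)
    have h3 := le_abs_self (δ * v)
    have h4 := le_abs_self (α * R)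
    linarith
  have hδ0 : δ ≤ 0 := by
    by_contra hneg
    push Not at hneg
    have h := hf2 (R, l, v - (|w| + |β * l| + |δ * v| + |α * R|) / δ)
      ⟨le_refl _, rfl, by show v - _ ≤ v
                          have : 0 ≤ (|w| + |β * l| + |δ * v| + |α * R|) / δ :=
                            div_nonneg (by positivity) hneg.le
                          linarith⟩
    rw [hf] at h
    have e : δ * (v - (|w| + |β * l| + |δ * v| + |α * R|) / δ)
        = δ * v - (|w| + |β * l| + |δ * v| + |α * R|) := by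
      have : δ ≠ 0 := hneg.ne'
      field_simp
    rw [e] at h
    have h1 := neg_abs_le w
    have h2 := le_abs_self (β * l)
    have h3 := le_abs_self (δ * v)
    have h4 := le_abs_self (α * R)
    linarith
  have hDpt := hf2 (R, l, v) ⟨le_refl _, rfl, le_refl _⟩
  rw [hf] at hDpt
  set ε := α * R + β * l + δ * v - u with hε
  have hεpos : 0 < ε := by linarith
  -- perturbation
  have hlog := log_two_bounds
  obtain ⟨a, ha0, ha1⟩ : ∃ a : ℝ, 0 < a ∧ 2 * a * Real.log 2 + a * v ≤ ε / 2 := by
    refine ⟨ε / 2 / (2 * Real.log 2 + v), by positivity, le_of_eq ?_⟩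
    field_simp
  set ν := -δ + a with hν
  have hνpos : 0 < ν := by linarith
  refine ⟨(α + a) / (2 * ν), β / (2 * ν), (u + 2 * a * Real.log 2) / (2 * ν),
    v + ε / (2 * ν), by positivity, ?_, by linarith [show 0 < ε / (2 * ν) by positivity], ?_⟩
  · intro s t hs0 hs1 ht0 ht1
    have h1 := (hf1 _ (tv_mem ⟨hs0, hs1⟩ ⟨ht0, ht1⟩)).le
    unfold tv at h1
    rw [hf] at h1
    simp only at h1
    have b1 := binEntropy_bounds hs0 hs1
    have b2 := binEntropy_bounds ht0 ht1
    have v1 := var_le hs0 hs1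
    have v2 := var_le ht0 ht1
    have v3 : 0 ≤ s * (1 - s) * (t * (1 - t)) := mul_nonneg v1.1 v2.1
    have hH : Real.binEntropy s + Real.binEntropy t ≤ 2 * Real.log 2 := by linarith
    generalize Real.binEntropy s + Real.binEntropy t = H at *
    generalize s * (1 - s) * (t * (1 - t)) = z at *
    generalize s * t = y at *
    have e : (α + a) / (2 * ν) * H + β / (2 * ν) * y - 1 / 2 * z
        = ((α + a) * H + β * y - ν * z) / (2 * ν) := by
      field_simp
    rw [e]
    apply div_le_div_of_nonneg_right _ (by positivity)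
    rw [hν]
    have : a * H ≤ a * (2 * Real.log 2) := mul_le_mul_of_nonneg_left hH ha0.le
    have : 0 ≤ a * z := mul_nonneg ha0.le v3
    linarith
  · have e : (u + 2 * a * Real.log 2) / (2 * ν) - (α + a) / (2 * ν) * R - β / (2 * ν) * l
        = (u + 2 * a * Real.log 2 - (α + a) * R - β * l) / (2 * ν) := by
      field_simp
    rw [e, div_le_iff₀ (by positivity)]
    have e2 : -(1 / 2 * (v + ε / (2 * ν))) * (2 * ν) = -(ν * v) - ε / 2 := by
      field_simp
      ring
    rw [e2, hν]
    have : 0 ≤ a * R := mul_nonneg ha0.le hR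
    linarith

end BC
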