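import Pool.Agent.Lib_helper28.BCFour

/-!
# A local limit theorem for powers of a polynomial with nonnegative integer coefficients
-/

open scoped BigOperators Topology
open MeasureTheory Filter Set Polynomial

namespace BC

/-- value at `1` -/
noncomputable def e0 (Z : ℕ[X]) : ℝ := ((Z.eval 1 : ℕ) : ℝ)
/-- first derivative at `1` -/
noncomputable def e1 (Z : ℕ[X]) : ℝ := (((derivative Z).eval 1 : ℕ) : ℝ)
/-- second derivative at `1` -/
noncomputable def e2 (Z : ℕ[X]) : ℝ := (((derivative (derivative Z)).eval 1 : ℕ) : ℝ)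

/-- mean -/
noncomputable def mean (Z : ℕ[X]) : ℝ := e1 Z / e0 Z
/-- variance -/
noncomputable def vari (Z : ℕ[X]) : ℝ := e2 Z / e0 Z + e1 Z / e0 Z - (e1 Z / e0 Z) ^ 2

lemma e0_mul (Z W : ℕ[X]) : e0 (Z * W) = e0 Z * e0 W := by
  simp [e0]

lemma e0_pow (Z : ℕ[X]) (K : ℕ) : e0 (Z ^ K) = e0 Z ^ K := by
  simp [e0]

lemma e1_mul (Z W : ℕ[X]) : e1 (Z * W) = e1 Z * e0 W + e0 Z * e1 W := by
  simp [e0, e1, derivative_mul]

lemma e2_mul (Z W : ℕ[X]) : e2 (Z * W) = e2 Z * e0 W + 2 * (e1 Z * e1 W) + e0 Z * e2 W := by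
  simp [e0, e1, e2, derivative_mul]
  ring

lemma mean_mul {Z W : ℕ[X]} (hZ : e0 Z ≠ 0) (hW : e0 W ≠ 0) :
    mean (Z * W) = mean Z + mean W := by
  unfold mean
  rw [e0_mul, e1_mul]
  field_simp

lemma vari_mul {Z W : ℕ[X]} (hZ : e0 Z ≠ 0) (hW : e0 W ≠ 0) :
    vari (Z * W) = vari Z + vari W := by
  unfold vari
  rw [e0_mul, e1_mul, e2_mul]
  field_simp
  ring

lemma e0_sum {ι : Type*} (S : Finset ι) (f : ι → ℕ[X]) :
    e0 (∑ i ∈ S, f i) = ∑ i ∈ S, e0 (f i) := by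
  simp [e0, eval_finsetSum]

lemma e1_sum {ι : Type*} (S : Finset ι) (f : ι → ℕ[X]) :
    e1 (∑ i ∈ S, f i) = ∑ i ∈ S, e1 (f i) := by
  simp [e1, eval_finsetSum]

lemma e2_sum {ι : Type*} (S : Finset ι) (f : ι → ℕ[X]) :
    e2 (∑ i ∈ S, f i) = ∑ i ∈ S, e2 (f i) := by
  simp [e2, eval_finsetSum]

lemma e0_mon (a j : ℕ) : e0 (C a * X ^ j) = a := by simp [e0]
lemma e1_mon (a j : ℕ) : e1 (C a * X ^ j) = a * j := by
  simp [e1, derivative_mul, derivative_pow]
lemma e2_mon (a j : ℕ) : e2 (C a * X ^ j) = a * (j * (j - 1)) := by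
  rcases j with _ | j
  · simp [e2]
  · simp [e2, derivative_mul, derivative_pow]

lemma e0_eq (Z : ℕ[X]) : e0 Z = ∑ j ∈ Finset.range (Z.natDegree + 1), (Z.coeff j : ℝ) := by
  conv_lhs => rw [Z.as_sum_range_C_mul_X_pow]
  rw [e0_sum]
  simp only [e0_mon]

lemma e1_eq (Z : ℕ[X]) :
    e1 Z = ∑ j ∈ Finset.range (Z.natDegree + 1), (Z.coeff j : ℝ) * j := by
  conv_lhs => rw [Z.as_sum_range_C_mul_X_pow]
  rw [e1_sum]
  simp only [e1_mon]

lemma e2_eq (Z : ℕ[X]) :
    e2 Z = ∑ j ∈ Finset.range (Z.natDegree + 1), (Z.coeff j : ℝ) * (j * (j - 1)) := by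
  conv_lhs => rw [Z.as_sum_range_C_mul_X_pow]
  rw [e2_sum]
  simp only [e2_mon]

/-- coefficient extraction for polynomials -/
lemma poly_coeff_int (Z : ℕ[X]) (x : ℕ) :
    ∫ θ in (-Real.pi)..Real.pi,
      aeval (Complex.exp (θ * Complex.I)) Z * Complex.exp (-((x : ℂ) * (θ * Complex.I)))
      = 2 * (Real.pi : ℂ) * (Z.coeff x : ℂ) := by
  have h0 : ∀ m : ℤ, ∫ θ in (-Real.pi)..Real.pi, Complex.exp ((m : ℂ) * ((θ : ℂ) * Complex.I))
      = if m = 0 then 2 * (Real.pi : ℂ) else 0 := by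
    intro m
    have := char_int (ρ := 1) one_pos 0 m
    simpa using this
  have e : ∀ θ : ℝ, aeval (Complex.exp (θ * Complex.I)) Z
        * Complex.exp (-((x : ℂ) * (θ * Complex.I)))
      = ∑ j ∈ Finset.range (Z.natDegree + 1), (Z.coeff j : ℂ)
        * Complex.exp ((((j : ℤ) - (x : ℤ) : ℤ) : ℂ) * ((θ : ℂ) * Complex.I)) := by
    intro θ
    rw [aeval_eq_sum_range, Finset.sum_mul]
    refine Finset.sum_congr rfl (fun j _ => ?_)
    rw [nsmul_eq_mul, mul_assoc, ← Complex.exp_nat_mul, ← Complex.exp_add]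
    congr 2
    push_cast
    ring
  simp only [e]
  rw [intervalIntegral.integral_finsetSum]
  · simp only [intervalIntegral.integral_const_mul, h0]
    simp only [mul_ite, mul_zero]
    by_cases hx : x ∈ Finset.range (Z.natDegree + 1)
    · rw [Finset.sum_eq_single x]
      · simp; ring
      · intro j _ hj
        rw [if_neg]
        intro h
        apply hj
        have : (j : ℤ) = x := by linarith
        exact_mod_cast this
      · intro h; exact absurd hx h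
    · have hz : Z.coeff x = 0 := by
        apply coeff_eq_zero_of_natDegree_lt
        simpa using hx
      rw [hz, Nat.cast_zero, mul_zero]
      refine Finset.sum_eq_zero (fun j hj => ?_)
      rw [if_neg]
      intro h
      apply hx
      have : (j : ℤ) = x := by linarith
      have : j = x := by exact_mod_cast this
      rw [← this]; exact hj
  · intro j _
    exact (by fun_prop : Continuous fun θ : ℝ => (Z.coeff j : ℂ)
        * Complex.exp ((((j : ℤ) - (x : ℤ) : ℤ) : ℂ) * ((θ : ℂ) * Complex.I))).intervalIntegrable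
          _ _

open Asymptotics in
/-- the pointwise limit of the characteristic functions -/
lemma char_lim (Z : ℕ[X]) (h0 : 0 < e0 Z) (t : ℝ) :
    Tendsto (fun K : ℕ => (aeval (Complex.exp (((t / Real.sqrt K : ℝ) : ℂ) * Complex.I)) Z
      / (e0 Z : ℂ) * Complex.exp (-((mean Z : ℂ) * (((t / Real.sqrt K : ℝ) : ℂ) * Complex.I)))) ^ K)
      atTop (𝓝 (Complex.exp (-(vari Z : ℂ) * (t : ℂ) ^ 2 / 2))) := by
  apply Complex.tendsto_pow_exp_of_isLittleO_sub_add_div
  set N := Z.natDegree + 1 with hN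
  set μ := mean Z with hμ
  set V := vari Z with hV
  have h0' : (e0 Z : ℂ) ≠ 0 := by exact_mod_cast h0.ne'
  -- the Taylor remainders
  have hT := Complex.exp_sub_sum_range_succ_isLittleO_pow 2
  have hs : Tendsto (fun n : ℕ => t / Real.sqrt n) atTop (𝓝 0) :=
      Tendsto.div_atTop tendsto_const_nhds
        (Real.tendsto_sqrt_atTop.comp tendsto_natCast_atTop_atTop)
  have hj : ∀ j : ℕ, (fun K : ℕ => Complex.exp ((((j : ℝ) - μ : ℝ) : ℂ)
        * (((t / Real.sqrt K : ℝ) : ℂ) * Complex.I))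
      - (1 + (((j : ℝ) - μ : ℝ) : ℂ) * (((t / Real.sqrt K : ℝ) : ℂ) * Complex.I)
        - ((((j : ℝ) - μ) ^ 2 : ℝ) : ℂ) * ((t : ℂ) ^ 2 / 2 / K)))
      =o[atTop] fun K : ℕ => 1 / (K : ℂ) := by
    intro j
    have hz : Tendsto (fun K : ℕ => (((j : ℝ) - μ : ℝ) : ℂ)
        * (((t / Real.sqrt K : ℝ) : ℂ) * Complex.I)) atTop (𝓝 0) := by
      have h1 : Tendsto (fun K : ℕ => ((t / Real.sqrt K : ℝ) : ℂ)) atTop (𝓝 ((0:ℝ) : ℂ)) :=
        (Complex.continuous_ofReal.tendsto 0).comp hs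
      have h2 := (h1.mul_const Complex.I).const_mul ((((j : ℝ) - μ : ℝ) : ℂ))
      simpa using h2
    have h3 := hT.comp_tendsto hz
    have h4 : ((fun x : ℂ => x ^ 2) ∘ fun K : ℕ => (((j : ℝ) - μ : ℝ) : ℂ)
        * (((t / Real.sqrt K : ℝ) : ℂ) * Complex.I))
        =O[atTop] fun K : ℕ => 1 / (K : ℂ) := by
      apply IsBigO.of_bound (‖(((j : ℝ) - μ : ℝ) : ℂ)‖ ^ 2 * t ^ 2)
      filter_upwards [eventually_gt_atTop 0] with K hK
      have hK' : (0:ℝ) < K := by exact_mod_cast hK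
      simp only [Function.comp]
      have hK1 : ‖1 / (K : ℂ)‖ = 1 / (K : ℝ) := by
        rw [norm_div, norm_one, Complex.norm_natCast]
      rw [norm_pow, norm_mul, norm_mul, Complex.norm_I, mul_one, Complex.norm_real,
        Complex.norm_real, hK1, mul_pow]
      rw [Real.norm_eq_abs (t / Real.sqrt K), sq_abs, div_pow, Real.sq_sqrt hK'.le]
      apply le_of_eq
      ring
    refine (h3.trans_isBigO h4).congr' ?_ (EventuallyEq.refl _ _)
    filter_upwards [eventually_gt_atTop 0] with K hK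
    have hK' : (0:ℝ) < K := by exact_mod_cast hK
    simp only [Function.comp]
    rw [Finset.sum_range_succ, Finset.sum_range_succ, Finset.sum_range_one]
    have e2 : ((((j : ℝ) - μ : ℝ) : ℂ) * (((t / Real.sqrt K : ℝ) : ℂ) * Complex.I)) ^ 2
        = - (((((j : ℝ) - μ) ^ 2 : ℝ) : ℂ) * ((t : ℂ) ^ 2 / K)) := by
      have e3 : (((t / Real.sqrt K : ℝ) : ℂ)) ^ 2 = (t : ℂ) ^ 2 / K := by
        rw [← Complex.ofReal_pow, div_pow, Real.sq_sqrt hK'.le]
        push_cast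
        ring
      rw [mul_pow, mul_pow, e3, Complex.I_sq]
      push_cast
      ring
    rw [pow_zero, pow_one, e2]
    simp only [Nat.factorial, Nat.cast_one, div_one]
    push_cast
    ring
  have hsum : (fun K : ℕ => ∑ j ∈ Finset.range N, ((Z.coeff j : ℂ) / (e0 Z : ℂ)) *
      (Complex.exp ((((j : ℝ) - μ : ℝ) : ℂ) * (((t / Real.sqrt K : ℝ) : ℂ) * Complex.I))
      - (1 + (((j : ℝ) - μ : ℝ) : ℂ) * (((t / Real.sqrt K : ℝ) : ℂ) * Complex.I)
        - ((((j : ℝ) - μ) ^ 2 : ℝ) : ℂ) * ((t : ℂ) ^ 2 / 2 / K))))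
      =o[atTop] fun K : ℕ => 1 / (K : ℂ) :=
    (IsLittleO.sum (s := Finset.range N) (fun j _ =>
      (hj j).const_mul_left ((Z.coeff j : ℂ) / (e0 Z : ℂ)))).congr_left
      (fun K => by rw [Finset.sum_apply])
  refine hsum.congr' ?_ (EventuallyEq.refl _ _)
  refine Eventually.of_forall (fun K => ?_)
  beta_reduce
  -- algebra
  have s0 : ∑ j ∈ Finset.range N, ((Z.coeff j : ℂ) / (e0 Z : ℂ)) = 1 := by
    rw [← Finset.sum_div]
    have := e0_eq Z
    rw [div_eq_one_iff_eq h0', this]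
    push_cast
    rfl
  have s1 : ∑ j ∈ Finset.range N, ((Z.coeff j : ℂ) / (e0 Z : ℂ)) * ((j : ℂ)) = (μ : ℂ) := by
    rw [hμ, mean, e1_eq]
    push_cast
    rw [Finset.sum_div]
    refine Finset.sum_congr rfl (fun j _ => ?_)
    ring
  have s2 : ∑ j ∈ Finset.range N, ((Z.coeff j : ℂ) / (e0 Z : ℂ)) * ((j : ℂ) * (j - 1))
      = ((e2 Z / e0 Z : ℝ) : ℂ) := by
    rw [e2_eq]
    push_cast
    rw [Finset.sum_div]
    refine Finset.sum_congr rfl (fun j _ => ?_)
    ring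
  have s3 : ∑ j ∈ Finset.range N, ((Z.coeff j : ℂ) / (e0 Z : ℂ)) * ((((j : ℝ) - μ : ℝ) : ℂ))
      = 0 := by
    have : ∀ j : ℕ, ((Z.coeff j : ℂ) / (e0 Z : ℂ)) * ((((j : ℝ) - μ : ℝ) : ℂ))
        = ((Z.coeff j : ℂ) / (e0 Z : ℂ)) * ((j : ℂ)) - (μ : ℂ) * ((Z.coeff j : ℂ) / (e0 Z : ℂ)) := by
      intro j; push_cast; ring
    simp only [this]
    rw [Finset.sum_sub_distrib, s1, ← Finset.mul_sum, s0]
    ring
  have s4 : ∑ j ∈ Finset.range N, ((Z.coeff j : ℂ) / (e0 Z : ℂ)) * (((((j : ℝ) - μ) ^ 2 : ℝ) : ℂ))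
      = (V : ℂ) := by
    have : ∀ j : ℕ, ((Z.coeff j : ℂ) / (e0 Z : ℂ)) * (((((j : ℝ) - μ) ^ 2 : ℝ) : ℂ))
        = ((Z.coeff j : ℂ) / (e0 Z : ℂ)) * ((j : ℂ) * (j - 1))
          + (1 - 2 * (μ : ℂ)) * (((Z.coeff j : ℂ) / (e0 Z : ℂ)) * ((j : ℂ)))
          + (μ : ℂ) ^ 2 * ((Z.coeff j : ℂ) / (e0 Z : ℂ)) := by
      intro j; push_cast; ring
    simp only [this]
    rw [Finset.sum_add_distrib, Finset.sum_add_distrib, s2, ← Finset.mul_sum, s1,
      ← Finset.mul_sum, s0, hV, vari]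
    have hm : e1 Z / e0 Z = μ := rfl
    rw [hm]
    push_cast
    ring
  have lhs : ∑ j ∈ Finset.range N, ((Z.coeff j : ℂ) / (e0 Z : ℂ)) *
      (Complex.exp ((((j : ℝ) - μ : ℝ) : ℂ) * (((t / Real.sqrt K : ℝ) : ℂ) * Complex.I))
      - (1 + (((j : ℝ) - μ : ℝ) : ℂ) * (((t / Real.sqrt K : ℝ) : ℂ) * Complex.I)
        - ((((j : ℝ) - μ) ^ 2 : ℝ) : ℂ) * ((t : ℂ) ^ 2 / 2 / K)))
      = (∑ j ∈ Finset.range N, ((Z.coeff j : ℂ) / (e0 Z : ℂ)) *
        Complex.exp ((((j : ℝ) - μ : ℝ) : ℂ) * (((t / Real.sqrt K : ℝ) : ℂ) * Complex.I)))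
        - (∑ j ∈ Finset.range N, ((Z.coeff j : ℂ) / (e0 Z : ℂ)))
        - (∑ j ∈ Finset.range N, ((Z.coeff j : ℂ) / (e0 Z : ℂ)) * ((((j : ℝ) - μ : ℝ) : ℂ)))
          * (((t / Real.sqrt K : ℝ) : ℂ) * Complex.I)
        + (∑ j ∈ Finset.range N, ((Z.coeff j : ℂ) / (e0 Z : ℂ))
            * (((((j : ℝ) - μ) ^ 2 : ℝ) : ℂ))) * ((t : ℂ) ^ 2 / 2 / K) := by
    rw [Finset.sum_mul, Finset.sum_mul, ← Finset.sum_sub_distrib, ← Finset.sum_sub_distrib,
      ← Finset.sum_add_distrib]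
    exact Finset.sum_congr rfl (fun j _ => by ring)
  rw [lhs, s0, s3, s4]
  have main : aeval (Complex.exp (((t / Real.sqrt K : ℝ) : ℂ) * Complex.I)) Z
      / (e0 Z : ℂ) * Complex.exp (-((μ : ℂ) * (((t / Real.sqrt K : ℝ) : ℂ) * Complex.I)))
      = ∑ j ∈ Finset.range N, ((Z.coeff j : ℂ) / (e0 Z : ℂ)) *
        Complex.exp ((((j : ℝ) - μ : ℝ) : ℂ) * (((t / Real.sqrt K : ℝ) : ℂ) * Complex.I)) := by
    rw [aeval_eq_sum_range, Finset.sum_div, Finset.sum_mul]
    refine Finset.sum_congr rfl (fun j _ => ?_)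
    rw [nsmul_eq_mul, ← Complex.exp_nat_mul]
    have : Complex.exp ((((j : ℝ) - μ : ℝ) : ℂ) * (((t / Real.sqrt K : ℝ) : ℂ) * Complex.I))
        = Complex.exp ((j : ℂ) * (((t / Real.sqrt K : ℝ) : ℂ) * Complex.I))
          * Complex.exp (-((μ : ℂ) * (((t / Real.sqrt K : ℝ) : ℂ) * Complex.I))) := by
      rw [← Complex.exp_add]
      congr 1
      push_cast
      ring
    rw [this]
    ring
  rw [main]
  ring

/-- The local limit theorem. -/
theorem llt (Z : ℕ[X]) (c : ℝ) (hc : 0 < c) (h0 : 0 < e0 Z) (hV : 0 < vari Z)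
    (hb : ∀ θ : ℝ, |θ| ≤ Real.pi → ‖aeval (Complex.exp (θ * Complex.I)) Z‖
      ≤ e0 Z * Real.exp (-c * θ ^ 2)) (x : ℕ → ℕ)
    (hx : ∀ K : ℕ, |(x K : ℝ) - K * mean Z| ≤ 1) :
    Tendsto (fun K : ℕ => Real.sqrt K * (((Z ^ K).coeff (x K) : ℝ) / e0 Z ^ K)) atTop
      (𝓝 (1 / Real.sqrt (2 * Real.pi * vari Z))) := by
  set μ := mean Z with hμ
  set V := vari Z with hVd
  have hpi := Real.pi_pos
  have h0c : (e0 Z : ℂ) ≠ 0 := by exact_mod_cast h0.ne'
  set F : ℕ → ℝ → ℂ := fun K θ => (aeval (Complex.exp (θ * Complex.I)) Z / (e0 Z : ℂ)) ^ K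
    * Complex.exp (-((x K : ℂ) * (θ * Complex.I))) with hF
  have hint : ∀ K, ∫ θ in (-Real.pi)..Real.pi, F K θ
      = 2 * (Real.pi : ℂ) * ((((Z ^ K).coeff (x K) : ℝ) / e0 Z ^ K : ℝ) : ℂ) := by
    intro K
    have h := poly_coeff_int (Z ^ K) (x K)
    have e : ∀ θ : ℝ, F K θ = (1 / (e0 Z : ℂ) ^ K) * (aeval (Complex.exp (θ * Complex.I)) (Z ^ K)
        * Complex.exp (-((x K : ℂ) * (θ * Complex.I)))) := by
      intro θ
      simp only [hF]
      rw [map_pow, div_pow]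
      ring
    simp only [e]
    rw [intervalIntegral.integral_const_mul, h]
    push_cast
    ring
  have hcont : Continuous fun θ : ℝ => aeval (Complex.exp (θ * Complex.I)) Z := by
    have : ∀ θ : ℝ, aeval (Complex.exp (θ * Complex.I)) Z
        = ∑ j ∈ Finset.range (Z.natDegree + 1), (Z.coeff j : ℂ)
          * Complex.exp (θ * Complex.I) ^ j := by
      intro θ
      rw [aeval_eq_sum_range]
      simp only [nsmul_eq_mul]
    simp only [this]
    fun_prop
  have hlim := scaled_dct F (fun t => Complex.exp (-(V : ℂ) * (t : ℂ) ^ 2 / 2)) 1 c hc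
    (fun K => by
      simp only [hF]
      exact ((hcont.div_const _).pow K).mul (by fun_prop)) (by
      intro K θ hθ
      simp only [hF]
      rw [norm_mul, norm_pow, norm_div, Complex.norm_real, Real.norm_of_nonneg h0.le]
      have h1 : ‖Complex.exp (-((x K : ℂ) * (θ * Complex.I)))‖ = 1 := by
        rw [Complex.norm_exp]
        simp
      rw [h1, mul_one, one_mul]
      have h2 := hb θ hθ
      have h3 : ‖aeval (Complex.exp (θ * Complex.I)) Z‖ / e0 Z ≤ Real.exp (-c * θ ^ 2) := by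
        rw [div_le_iff₀ h0]; linarith
      refine (pow_le_pow_left₀ (by positivity) h3 K).trans (le_of_eq ?_)
      rw [← Real.exp_nat_mul]
      congr 1
      ring) (by
      intro t
      have h1 := char_lim Z h0 t
      have h2 : Tendsto (fun K : ℕ => Complex.exp (-((((x K : ℝ) - K * μ : ℝ) : ℂ)
          * (((t / Real.sqrt K : ℝ) : ℂ) * Complex.I)))) atTop (𝓝 1) := by
        have hs : Tendsto (fun n : ℕ => t / Real.sqrt n) atTop (𝓝 0) :=
          Tendsto.div_atTop tendsto_const_nhds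
            (Real.tendsto_sqrt_atTop.comp tendsto_natCast_atTop_atTop)
        have h3 : Tendsto (fun K : ℕ => (((x K : ℝ) - K * μ) * (t / Real.sqrt K))) atTop
            (𝓝 0) := by
          rw [tendsto_zero_iff_norm_tendsto_zero]
          have h4 : Tendsto (fun K : ℕ => ‖t / Real.sqrt K‖) atTop (𝓝 0) := by
            simpa using hs.norm
          refine squeeze_zero (fun _ => norm_nonneg _) (fun K => ?_) h4
          rw [norm_mul, Real.norm_eq_abs ((x K : ℝ) - K * μ)]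
          calc _ ≤ 1 * ‖t / Real.sqrt K‖ := mul_le_mul_of_nonneg_right (hx K) (norm_nonneg _)
            _ = _ := one_mul _
        have h5 : Tendsto (fun K : ℕ => -(((((x K : ℝ) - K * μ) * (t / Real.sqrt K) : ℝ) : ℂ)
            * Complex.I)) atTop (𝓝 (-(((0:ℝ) : ℂ) * Complex.I))) :=
          (((Complex.continuous_ofReal.tendsto 0).comp h3).mul_const _).neg
        have h6 := (Complex.continuous_exp.tendsto _).comp h5
        simp only [Complex.ofReal_zero, zero_mul, neg_zero, Complex.exp_zero] at h6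
        refine h6.congr (fun K => ?_)
        simp only [Function.comp]
        congr 1
        push_cast
        ring
      have h3 := h1.mul h2
      rw [mul_one] at h3
      refine h3.congr (fun K => ?_)
      simp only [hF]
      rw [mul_pow, mul_assoc]
      congr 1
      rw [← Complex.exp_nat_mul, ← Complex.exp_add]
      congr 1
      push_cast
      ring)
  have hgauss : ∫ t : ℝ, Complex.exp (-(V : ℂ) * (t : ℂ) ^ 2 / 2)
      = ((Real.sqrt (2 * Real.pi / V) : ℝ) : ℂ) := by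
    have e : ∀ t : ℝ, Complex.exp (-(V : ℂ) * (t : ℂ) ^ 2 / 2)
        = ((Real.exp (-(V / 2) * t ^ 2) : ℝ) : ℂ) := by
      intro t
      rw [Complex.ofReal_exp]
      congr 1
      push_cast
      ring
    simp only [e]
    rw [integral_complex_ofReal, integral_gaussian]
    congr 2
    field_simp
  rw [hgauss] at hlim
  simp only [hint] at hlim
  have hre := (Complex.continuous_re.tendsto _).comp hlim
  have h7 := hre.div_const (2 * Real.pi)
  have e8 : ((Real.sqrt (2 * Real.pi / V) : ℝ) : ℂ).re / (2 * Real.pi)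
      = 1 / Real.sqrt (2 * Real.pi * V) := by
    rw [Complex.ofReal_re, Real.sqrt_div (by positivity),
      Real.sqrt_mul (by positivity : (0:ℝ) ≤ 2 * Real.pi) V]
    have h9 : Real.sqrt (2 * Real.pi) * Real.sqrt (2 * Real.pi) = 2 * Real.pi :=
      Real.mul_self_sqrt (by positivity)
    have h10 : 0 < Real.sqrt (2 * Real.pi) := Real.sqrt_pos.2 (by positivity)
    have h11 : 0 < Real.sqrt V := Real.sqrt_pos.2 hV
    rw [div_div, div_eq_div_iff (by positivity) (by positivity)]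
    linear_combination Real.sqrt V * h9
  rw [e8] at h7
  refine h7.congr (fun K => ?_)
  simp only [Function.comp]
  have e9 : (Real.sqrt K • (2 * (Real.pi : ℂ) * ((((Z ^ K).coeff (x K) : ℝ) / e0 Z ^ K : ℝ) : ℂ)))
      = ((Real.sqrt K * (2 * Real.pi * (((Z ^ K).coeff (x K) : ℝ) / e0 Z ^ K)) : ℝ) : ℂ) := by
    rw [Complex.real_smul]
    push_cast
    ring
  rw [e9, Complex.ofReal_re]
  field_simp

end BC
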