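import Pool.Agent.Lib_helper28.BCDefs
import Pool.Agent.Lib_helper28.BCLLT

/-!
# Intersection polynomials of pairs of families
-/

open scoped BigOperators
open Polynomial Finset

namespace BC

section defs
variable {α β : Type} [DecidableEq α] [DecidableEq β]

/-- the intersection polynomial -/
noncomputable def IP (𝒜 ℬ : Finset (Finset α)) : ℕ[X] := ∑ A ∈ 𝒜, ∑ B ∈ ℬ, X ^ (A ∩ B).card

lemma IP_swap (𝒜 ℬ : Finset (Finset α)) : IP 𝒜 ℬ = IP ℬ 𝒜 := by
  unfold IP
  rw [Finset.sum_comm]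
  refine Finset.sum_congr rfl (fun B _ => Finset.sum_congr rfl (fun A _ => ?_))
  rw [Finset.inter_comm]

/-- disjoint sum of families -/
def dj (𝒜 : Finset (Finset α)) (𝒜' : Finset (Finset β)) : Finset (Finset (α ⊕ β)) :=
  (𝒜 ×ˢ 𝒜').map ⟨fun p => p.1.disjSum p.2, by
    rintro ⟨a, b⟩ ⟨c, d⟩ h
    have := Finset.disjSum_inj.1 h
    exact Prod.ext this.1 this.2⟩

omit [DecidableEq α] [DecidableEq β] in
lemma dj_card (𝒜 : Finset (Finset α)) (𝒜' : Finset (Finset β)) :
    (dj 𝒜 𝒜').card = 𝒜.card * 𝒜'.card := by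
  unfold dj
  rw [Finset.card_map, Finset.card_product]

lemma disjSum_inter (A C : Finset α) (B D : Finset β) :
    (A.disjSum B) ∩ (C.disjSum D) = (A ∩ C).disjSum (B ∩ D) := by
  ext x
  rcases x with x | x <;> simp

lemma IP_dj (𝒜 ℬ : Finset (Finset α)) (𝒜' ℬ' : Finset (Finset β)) :
    IP (dj 𝒜 𝒜') (dj ℬ ℬ') = IP 𝒜 ℬ * IP 𝒜' ℬ' := by
  unfold IP dj
  rw [Finset.sum_map, Finset.sum_product]
  simp only [Finset.sum_map, Finset.sum_product]
  rw [Finset.sum_mul_sum]
  refine Finset.sum_congr rfl (fun A _ => Finset.sum_congr rfl (fun A' _ => ?_))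
  rw [Finset.sum_mul_sum]
  refine Finset.sum_congr rfl (fun B _ => Finset.sum_congr rfl (fun B' _ => ?_))
  show X ^ ((A.disjSum A') ∩ (B.disjSum B')).card = _
  rw [disjSum_inter, Finset.card_disjSum, pow_add]

/-- transport of a family along an equivalence -/
def tr (e : α ≃ β) (𝒜 : Finset (Finset α)) : Finset (Finset β) :=
  𝒜.map (Finset.mapEmbedding e.toEmbedding).toEmbedding

omit [DecidableEq α] [DecidableEq β] in
lemma tr_card (e : α ≃ β) (𝒜 : Finset (Finset α)) : (tr e 𝒜).card = 𝒜.card := by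
  unfold tr
  rw [Finset.card_map]

lemma IP_tr (e : α ≃ β) (𝒜 ℬ : Finset (Finset α)) : IP (tr e 𝒜) (tr e ℬ) = IP 𝒜 ℬ := by
  unfold IP tr
  rw [Finset.sum_map]
  refine Finset.sum_congr rfl (fun A _ => ?_)
  rw [Finset.sum_map]
  refine Finset.sum_congr rfl (fun B _ => ?_)
  simp only [RelEmbedding.coe_toEmbedding, Finset.mapEmbedding_apply]
  rw [← Finset.map_inter, Finset.card_map]

lemma e0_IP (𝒜 ℬ : Finset (Finset α)) : e0 (IP 𝒜 ℬ) = (𝒜.card : ℝ) * ℬ.card := by
  unfold IP
  simp [e0, eval_finsetSum]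

lemma coeff_IP (𝒜 ℬ : Finset (Finset α)) (u : ℕ) :
    (IP 𝒜 ℬ).coeff u = ((𝒜 ×ˢ ℬ).filter (fun p => (p.1 ∩ p.2).card = u)).card := by
  unfold IP
  rw [Finset.card_filter, Finset.sum_product, finsetSum_coeff]
  refine Finset.sum_congr rfl (fun A _ => ?_)
  rw [finsetSum_coeff]
  refine Finset.sum_congr rfl (fun B _ => ?_)
  rw [coeff_X_pow]
  simp only [eq_comm]

end defs

/-- `Z` is the intersection polynomial of a pair of families of subsets of `[n]` of sizes `a`
and `b` -/
def Rz (n a b : ℕ) (Z : ℕ[X]) : Prop :=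
  ∃ 𝒜 ℬ : Finset (Finset (Fin n)), 𝒜.card = a ∧ ℬ.card = b ∧ IP 𝒜 ℬ = Z

lemma Rz.swap {n a b : ℕ} {Z : ℕ[X]} (h : Rz n a b Z) : Rz n b a Z := by
  obtain ⟨𝒜, ℬ, hA, hB, hZ⟩ := h
  exact ⟨ℬ, 𝒜, hB, hA, by rw [IP_swap, hZ]⟩

lemma Rz.mul {m n a b a' b' : ℕ} {Z Z' : ℕ[X]} (h : Rz m a b Z) (h' : Rz n a' b' Z') :
    Rz (m + n) (a * a') (b * b') (Z * Z') := by
  obtain ⟨𝒜, ℬ, hA, hB, hZ⟩ := h
  obtain ⟨𝒜', ℬ', hA', hB', hZ'⟩ := h'
  refine ⟨tr finSumFinEquiv (dj 𝒜 𝒜'), tr finSumFinEquiv (dj ℬ ℬ'), ?_, ?_, ?_⟩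
  · rw [tr_card, dj_card, hA, hA']
  · rw [tr_card, dj_card, hB, hB']
  · rw [IP_tr, IP_dj, hZ, hZ']

lemma Rz.empty (n : ℕ) : Rz n 1 1 1 :=
  ⟨{∅}, {∅}, by simp, by simp, by simp [IP]⟩

lemma Rz.full (n : ℕ) : Rz n 1 1 (X ^ n) :=
  ⟨{univ}, {univ}, by simp, by simp, by simp [IP]⟩

lemma Rz.pow {n a b : ℕ} {Z : ℕ[X]} (h : Rz n a b Z) (K : ℕ) : Rz (K * n) (a ^ K) (b ^ K) (Z ^ K) := by
  induction K with
  | zero => simpa using Rz.empty 0
  | succ K ih =>
    have := ih.mul h
    rw [pow_succ, pow_succ, pow_succ, Nat.succ_mul]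
    exact this

lemma Rz.prod {ι : Type*} [DecidableEq ι] (S : Finset ι) (n a b : ι → ℕ) (Z : ι → ℕ[X])
    (h : ∀ i ∈ S, Rz (n i) (a i) (b i) (Z i)) :
    Rz (∑ i ∈ S, n i) (∏ i ∈ S, a i) (∏ i ∈ S, b i) (∏ i ∈ S, Z i) := by
  induction S using Finset.induction_on with
  | empty => simpa using Rz.empty 0
  | insert i S hi ih =>
    rw [Finset.sum_insert hi, Finset.prod_insert hi, Finset.prod_insert hi, Finset.prod_insert hi]
    exact (h i (Finset.mem_insert_self i S)).mul (ih (fun j hj => h j (Finset.mem_insert_of_mem hj)))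

/-- the families realised by `Rz` give `Good` -/
lemma Rz.good {n a b lam m : ℕ} {Z : ℕ[X]} {c : ℝ} (h : Rz n a b Z) (ha : a ≤ m) (hb : b ≤ m)
    (hm : m ≤ 2 ^ n) (hc : c * (m : ℝ) ^ 2 ≤ (Z.coeff lam : ℝ)) : Good n lam c m := by
  obtain ⟨𝒜, ℬ, hA, hB, hZ⟩ := h
  have hU : (Finset.univ : Finset (Finset (Fin n))).card = 2 ^ n := by simp
  obtain ⟨𝒜', h1, h2, h3⟩ := Finset.exists_subsuperset_card_eq (n := m)
    (Finset.subset_univ 𝒜) (by rw [hA]; exact ha) (by rw [hU]; exact hm)
  obtain ⟨ℬ', h1', h2', h3'⟩ := Finset.exists_subsuperset_card_eq (n := m)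
    (Finset.subset_univ ℬ) (by rw [hB]; exact hb) (by rw [hU]; exact hm)
  refine ⟨𝒜', ℬ', h3, h3', hc.trans ?_⟩
  rw [← hZ, coeff_IP]
  exact_mod_cast Finset.card_le_card
    (Finset.filter_subset_filter _ (Finset.product_subset_product h1 h1'))

/-! ### coefficients of powers -/

lemma coeff_mul_ge (P Q : ℕ[X]) (i j : ℕ) : P.coeff i * Q.coeff j ≤ (P * Q).coeff (i + j) := by
  rw [coeff_mul]
  exact Finset.single_le_sum (f := fun x : ℕ × ℕ => P.coeff x.1 * Q.coeff x.2)
    (fun _ _ => Nat.zero_le _) (by simp : ((i, j) : ℕ × ℕ) ∈ Finset.HasAntidiagonal.antidiagonal (i + j))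

lemma coeff_pow_ge (P : ℕ[X]) (u K : ℕ) : P.coeff u ^ K ≤ (P ^ K).coeff (K * u) := by
  induction K with
  | zero => simp
  | succ K ih =>
    rw [pow_succ, pow_succ, Nat.succ_mul]
    exact (Nat.mul_le_mul_right _ ih).trans (coeff_mul_ge _ _ _ _)

lemma coeff_prod_ge {ι : Type*} [DecidableEq ι] (S : Finset ι) (P : ι → ℕ[X]) (u : ι → ℕ) :
    ∏ i ∈ S, (P i).coeff (u i) ≤ (∏ i ∈ S, P i).coeff (∑ i ∈ S, u i) := by
  induction S using Finset.induction_on with
  | empty => simp
  | insert i S hi ih =>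
    rw [Finset.prod_insert hi, Finset.prod_insert hi, Finset.sum_insert hi]
    exact (Nat.mul_le_mul_left _ ih).trans (coeff_mul_ge _ _ _ _)

/-! ### slices -/

/-- intersection polynomial of two slices -/
noncomputable def Zs (L a b : ℕ) : ℕ[X] :=
  IP (powersetCard a (univ : Finset (Fin L))) (powersetCard b (univ : Finset (Fin L)))

lemma Zs_swap (L a b : ℕ) : Zs L a b = Zs L b a := IP_swap _ _

lemma Rz_Zs (L a b : ℕ) : Rz L (L.choose a) (L.choose b) (Zs L a b) :=
  ⟨_, _, by simp, by simp, rfl⟩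

lemma e0_Zs (L a b : ℕ) : e0 (Zs L a b) = (L.choose a : ℝ) * L.choose b := by
  unfold Zs
  rw [e0_IP]
  simp

lemma coeff_Zs_ge {L a b u : ℕ} (hub : u ≤ b) :
    L.choose a * (a.choose u * (L - a).choose (b - u)) ≤ (Zs L a b).coeff u := by
  unfold Zs
  rw [coeff_IP]
  have key : ∀ A ∈ powersetCard a (univ : Finset (Fin L)),
      a.choose u * (L - a).choose (b - u)
        ≤ ((powersetCard b (univ : Finset (Fin L))).filter (fun B => (A ∩ B).card = u)).card := by
    intro A hA
    have hAc : A.card = a := (mem_powersetCard.1 hA).2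
    have hAc' : Aᶜ.card = L - a := by rw [card_compl, Fintype.card_fin, hAc]
    calc a.choose u * (L - a).choose (b - u)
        = (powersetCard u A ×ˢ powersetCard (b - u) Aᶜ).card := by
          rw [card_product, card_powersetCard, card_powersetCard, hAc, hAc']
      _ ≤ _ := by
          refine Finset.card_le_card_of_injOn (fun p => p.1 ∪ p.2) ?_ ?_
          · rintro ⟨U, W⟩ hp
            rw [mem_coe, mem_product, mem_powersetCard, mem_powersetCard] at hp
            obtain ⟨⟨hU1, hU2⟩, ⟨hW1, hW2⟩⟩ := hp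
            simp only [] at hU1 hU2 hW1 hW2
            have hd : Disjoint U W := by
              rw [Finset.disjoint_left]
              intro i hi hi'
              exact (mem_compl.1 (hW1 hi')) (hU1 hi)
            have e : A ∩ (U ∪ W) = U := by
              ext i
              simp only [mem_inter, mem_union]
              constructor
              · rintro ⟨h1, h2 | h2⟩
                · exact h2
                · exact absurd h1 (mem_compl.1 (hW1 h2))
              · intro h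
                exact ⟨hU1 h, Or.inl h⟩
            simp only [coe_filter, Set.mem_ofPred_eq, mem_powersetCard, subset_univ, true_and]
            refine ⟨?_, ?_⟩
            · rw [card_union_of_disjoint hd, hU2, hW2]
              omega
            · rw [e, hU2]
          · rintro ⟨U, W⟩ hp ⟨U', W'⟩ hp' h
            rw [mem_coe, mem_product, mem_powersetCard, mem_powersetCard] at hp hp'
            obtain ⟨⟨hU1, -⟩, ⟨hW1, -⟩⟩ := hp
            obtain ⟨⟨hU1', -⟩, ⟨hW1', -⟩⟩ := hp'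
            simp only [] at hU1 hW1 hU1' hW1' h
            have aux : ∀ (U W : Finset (Fin L)), U ⊆ A → W ⊆ Aᶜ →
                (U ∪ W) ∩ A = U ∧ (U ∪ W) ∩ Aᶜ = W := by
              intro U W h1 h2
              constructor
              · ext i
                simp only [mem_inter, mem_union]
                constructor
                · rintro ⟨h3 | h3, h4⟩
                  · exact h3
                  · exact absurd h4 (mem_compl.1 (h2 h3))
                · intro h3; exact ⟨Or.inl h3, h1 h3⟩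
              · ext i
                simp only [mem_inter, mem_union, mem_compl]
                constructor
                · rintro ⟨h3 | h3, h4⟩
                  · exact absurd (h1 h3) h4
                  · exact h3
                · intro h3; exact ⟨Or.inr h3, mem_compl.1 (h2 h3)⟩
            have a1 := aux U W hU1 hW1
            have a2 := aux U' W' hU1' hW1'
            refine Prod.ext ?_ ?_
            · rw [← a1.1, ← a2.1, h]
            · rw [← a1.2, ← a2.2, h]
  rw [card_filter, sum_product]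
  calc L.choose a * (a.choose u * (L - a).choose (b - u))
      = ∑ A ∈ powersetCard a (univ : Finset (Fin L)), a.choose u * (L - a).choose (b - u) := by
        rw [sum_const, card_powersetCard, card_univ, Fintype.card_fin, smul_eq_mul]
    _ ≤ _ := by
        refine sum_le_sum (fun A hA => ?_)
        have := key A hA
        rw [card_filter] at this
        exact this

lemma card_mem_slice {L a : ℕ} (hL : 0 < L) (i : Fin L) :
    (((powersetCard a (univ : Finset (Fin L))).filter (fun A => i ∈ A)).card : ℝ)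
      = L.choose a * (a / L) := by
  rcases Nat.eq_zero_or_pos a with rfl | ha
  · have : ((powersetCard 0 (univ : Finset (Fin L))).filter (fun A => i ∈ A)) = ∅ := by
      ext A
      simp only [mem_filter, mem_powersetCard, card_eq_zero, notMem_empty, iff_false]
      rintro ⟨⟨-, rfl⟩, h⟩
      exact notMem_empty _ h
    rw [this]
    simp
  · have h := card_filter_powersetCard_subset {i} (univ : Finset (Fin L)) a (subset_univ _)
      (by rw [card_singleton]; omega)
    simp only [singleton_subset_iff, card_univ, Fintype.card_fin, card_singleton] at h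
    rw [h]
    obtain ⟨L, rfl⟩ : ∃ L', L = L' + 1 := ⟨L - 1, by omega⟩
    obtain ⟨a, rfl⟩ : ∃ a', a = a' + 1 := ⟨a - 1, by omega⟩
    have h2 := Nat.add_one_mul_choose_eq L a
    simp only [Nat.add_sub_cancel]
    have h3 : ((L : ℝ) + 1) * L.choose a = (L + 1).choose (a + 1) * (a + 1) := by
      exact_mod_cast h2
    push_cast
    field_simp
    linarith

lemma card_mem2_slice {L a : ℕ} {i j : Fin L} (hij : i ≠ j) :
    (((powersetCard a (univ : Finset (Fin L))).filter (fun A => i ∈ A ∧ j ∈ A)).card : ℝ)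
      = L.choose a * (a * (a - 1) / (L * (L - 1))) := by
  have hL : 2 ≤ L := by
    have := i.2
    have := j.2
    by_contra h
    push Not at h
    apply hij
    ext
    omega
  rcases lt_or_ge a 2 with ha | ha
  · have : ((powersetCard a (univ : Finset (Fin L))).filter (fun A => i ∈ A ∧ j ∈ A)) = ∅ := by
      ext A
      simp only [mem_filter, mem_powersetCard, notMem_empty, iff_false]
      rintro ⟨⟨-, h1⟩, h2, h3⟩
      have : ({i, j} : Finset (Fin L)).card ≤ A.card := card_le_card (by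
        intro x hx
        rw [mem_insert, mem_singleton] at hx
        rcases hx with rfl | rfl
        · exact h2
        · exact h3)
      rw [card_pair hij] at this
      omega
    rw [this]
    have : a = 0 ∨ a = 1 := by omega
    rcases this with rfl | rfl <;> simp
  · have h := card_filter_powersetCard_subset {i, j} (univ : Finset (Fin L)) a (subset_univ _)
      (by rw [card_pair hij]; exact ha)
    rw [card_pair hij, card_univ, Fintype.card_fin] at h
    have e : (powersetCard a (univ : Finset (Fin L))).filter (fun A => i ∈ A ∧ j ∈ A)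
        = (powersetCard a (univ : Finset (Fin L))).filter ({i, j} ⊆ ·) := by
      ext A
      simp only [mem_filter, insert_subset_iff, singleton_subset_iff]
    rw [e, h]
    obtain ⟨L, rfl⟩ : ∃ L', L = L' + 2 := ⟨L - 2, by omega⟩
    obtain ⟨a, rfl⟩ : ∃ a', a = a' + 2 := ⟨a - 2, by omega⟩
    have h2 := Nat.add_one_mul_choose_eq L a
    have h3 := Nat.add_one_mul_choose_eq (L + 1) (a + 1)
    simp only [Nat.add_sub_cancel]
    have h2' : ((L : ℝ) + 1) * L.choose a = (L + 1).choose (a + 1) * (a + 1) := by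
      exact_mod_cast h2
    have h3' : ((L : ℝ) + 1 + 1) * (L + 1).choose (a + 1)
        = (L + 2).choose (a + 2) * (a + 1 + 1) := by
      exact_mod_cast h3
    push_cast
    have e1 : ((L : ℝ) + 2) * ((L : ℝ) + 2 - 1) = (L + 2) * (L + 1) := by ring
    have e2 : ((a : ℝ) + 2) * ((a : ℝ) + 2 - 1) = (a + 2) * (a + 1) := by ring
    rw [e1, e2]
    field_simp
    have h4 : ((L : ℝ) + 2) * (((L : ℝ) + 1) * L.choose a)
        = (L + 2).choose (a + 2) * (a + 2) * (a + 1) := by
      rw [h2']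
      have : ((L : ℝ) + 1 + 1) = L + 2 := by ring
      rw [this] at h3'
      have : ((a : ℝ) + 1 + 1) = a + 2 := by ring
      rw [this] at h3'
      linear_combination ((a : ℝ) + 1) * h3'
    linarith

lemma e1_IP {α : Type} [DecidableEq α] [Fintype α] (𝒜 ℬ : Finset (Finset α)) :
    e1 (IP 𝒜 ℬ) = ∑ i : α, ((𝒜.filter (fun A => i ∈ A)).card : ℝ)
      * (ℬ.filter (fun A => i ∈ A)).card := by
  have h1 : e1 (IP 𝒜 ℬ) = ∑ A ∈ 𝒜, ∑ B ∈ ℬ, ((A ∩ B).card : ℝ) := by
    unfold IP
    rw [e1_sum]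
    refine sum_congr rfl (fun A _ => ?_)
    rw [e1_sum]
    refine sum_congr rfl (fun B _ => ?_)
    have := e1_mon 1 (A ∩ B).card
    simpa using this
  rw [h1]
  have h2 : ∀ A B : Finset α, ((A ∩ B).card : ℝ)
      = ∑ i : α, (if i ∈ A then (1:ℝ) else 0) * (if i ∈ B then (1:ℝ) else 0) := by
    intro A B
    have : A ∩ B = univ.filter (fun i => i ∈ A ∧ i ∈ B) := by ext; simp
    rw [this, card_filter]
    push_cast
    refine sum_congr rfl (fun i _ => ?_)
    by_cases h1 : i ∈ A <;> by_cases h2 : i ∈ B <;> simp [h1, h2]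
  simp only [h2]
  have h3 : ∀ A : Finset α, ∑ B ∈ ℬ, ∑ i : α, (if i ∈ A then (1:ℝ) else 0)
      * (if i ∈ B then (1:ℝ) else 0)
      = ∑ i : α, (if i ∈ A then (1:ℝ) else 0) * ∑ B ∈ ℬ, (if i ∈ B then (1:ℝ) else 0) := by
    intro A
    rw [sum_comm]
    refine sum_congr rfl (fun i _ => ?_)
    rw [mul_sum]
  simp only [h3]
  rw [sum_comm]
  refine sum_congr rfl (fun i _ => ?_)
  rw [← sum_mul]
  congr 1
  · rw [card_filter]; push_cast; rfl
  · rw [card_filter]; push_cast; rfl

lemma e2_IP {α : Type} [DecidableEq α] [Fintype α] (𝒜 ℬ : Finset (Finset α)) :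
    e2 (IP 𝒜 ℬ) = ∑ p ∈ (univ : Finset α).offDiag,
      ((𝒜.filter (fun A => p.1 ∈ A ∧ p.2 ∈ A)).card : ℝ)
      * (ℬ.filter (fun A => p.1 ∈ A ∧ p.2 ∈ A)).card := by
  have h1 : e2 (IP 𝒜 ℬ) = ∑ A ∈ 𝒜, ∑ B ∈ ℬ, (((A ∩ B).card : ℝ) * ((A ∩ B).card - 1)) := by
    unfold IP
    rw [e2_sum]
    refine sum_congr rfl (fun A _ => ?_)
    rw [e2_sum]
    refine sum_congr rfl (fun B _ => ?_)
    have := e2_mon 1 (A ∩ B).card
    simpa using this
  rw [h1]
  have h2 : ∀ A B : Finset α, (((A ∩ B).card : ℝ) * ((A ∩ B).card - 1))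
      = ∑ p ∈ (univ : Finset α).offDiag, (if p.1 ∈ A ∧ p.2 ∈ A then (1:ℝ) else 0)
        * (if p.1 ∈ B ∧ p.2 ∈ B then (1:ℝ) else 0) := by
    intro A B
    have e : (((A ∩ B).card : ℝ) * ((A ∩ B).card - 1)) = (((A ∩ B).offDiag).card : ℝ) := by
      rw [offDiag_card, Nat.cast_sub (Nat.le_mul_self _)]
      push_cast
      ring
    have : (A ∩ B).offDiag = (univ : Finset α).offDiag.filter
        (fun p => (p.1 ∈ A ∧ p.2 ∈ A) ∧ (p.1 ∈ B ∧ p.2 ∈ B)) := by
      ext p
      simp only [mem_offDiag, mem_inter, mem_filter, mem_univ, true_and]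
      tauto
    rw [e, this, card_filter]
    push_cast
    refine sum_congr rfl (fun p _ => ?_)
    by_cases h1 : (p.1 ∈ A ∧ p.2 ∈ A) <;> by_cases h2 : (p.1 ∈ B ∧ p.2 ∈ B) <;> simp [h1, h2]
  simp only [h2]
  have h3 : ∀ A : Finset α, ∑ B ∈ ℬ, ∑ p ∈ (univ : Finset α).offDiag,
      (if p.1 ∈ A ∧ p.2 ∈ A then (1:ℝ) else 0) * (if p.1 ∈ B ∧ p.2 ∈ B then (1:ℝ) else 0)
      = ∑ p ∈ (univ : Finset α).offDiag, (if p.1 ∈ A ∧ p.2 ∈ A then (1:ℝ) else 0)
        * ∑ B ∈ ℬ, (if p.1 ∈ B ∧ p.2 ∈ B then (1:ℝ) else 0) := by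
    intro A
    rw [sum_comm]
    refine sum_congr rfl (fun i _ => ?_)
    rw [mul_sum]
  simp only [h3]
  rw [sum_comm]
  refine sum_congr rfl (fun i _ => ?_)
  rw [← sum_mul]
  congr 1
  · rw [card_filter]; push_cast; rfl
  · rw [card_filter]; push_cast; rfl

lemma e0_Zs_pos {L a b : ℕ} (ha : a ≤ L) (hb : b ≤ L) : 0 < e0 (Zs L a b) := by
  rw [e0_Zs]
  have h1 := Nat.choose_pos ha
  have h2 := Nat.choose_pos hb
  positivity

lemma mean_Zs {L a b : ℕ} (hL : 0 < L) (ha : a ≤ L) (hb : b ≤ L) :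
    mean (Zs L a b) = (a : ℝ) * b / L := by
  have h0 := e0_Zs_pos ha hb
  unfold mean
  rw [div_eq_iff h0.ne', e0_Zs]
  unfold Zs
  rw [e1_IP]
  simp only [card_mem_slice hL]
  rw [sum_const, card_univ, Fintype.card_fin, nsmul_eq_mul]
  have : (L : ℝ) ≠ 0 := by exact_mod_cast hL.ne'
  field_simp

lemma vari_Zs {L a b : ℕ} (hL : 2 ≤ L) (ha : a ≤ L) (hb : b ≤ L) :
    vari (Zs L a b) = (a : ℝ) * b * (L - a) * (L - b) / (L ^ 2 * (L - 1)) := by
  have h0 := e0_Zs_pos ha hb
  have hm := mean_Zs (by omega : 0 < L) ha hb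
  have h2 : e2 (Zs L a b) / e0 (Zs L a b)
      = (a : ℝ) * (a - 1) * (b * (b - 1)) / (L * (L - 1)) := by
    have hL2 : (2 : ℝ) ≤ L := by exact_mod_cast hL
    have hLne : (L : ℝ) ≠ 0 := by linarith
    have hLne1 : (L : ℝ) - 1 ≠ 0 := by linarith
    rw [div_eq_iff h0.ne', e0_Zs]
    unfold Zs
    rw [e2_IP]
    have : ∀ p ∈ (univ : Finset (Fin L)).offDiag,
        (((powersetCard a (univ : Finset (Fin L))).filter
          (fun A => p.1 ∈ A ∧ p.2 ∈ A)).card : ℝ)
        * ((powersetCard b (univ : Finset (Fin L))).filter (fun A => p.1 ∈ A ∧ p.2 ∈ A)).card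
        = (L.choose a * (a * (a - 1) / (L * (L - 1)))) *
          (L.choose b * (b * (b - 1) / (L * (L - 1)))) := by
      intro p hp
      rw [mem_offDiag] at hp
      rw [card_mem2_slice hp.2.2, card_mem2_slice hp.2.2]
    rw [sum_congr rfl this, sum_const, offDiag_card, card_univ, Fintype.card_fin, nsmul_eq_mul,
      Nat.cast_sub (Nat.le_mul_self _)]
    push_cast
    field_simp
  unfold vari
  unfold mean at hm
  rw [h2, hm]
  have hL2 : (2 : ℝ) ≤ L := by exact_mod_cast hL
  have hLne : (L : ℝ) ≠ 0 := by linarith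
  have hLne1 : (L : ℝ) - 1 ≠ 0 := by linarith
  field_simp
  ring

end BC
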