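import Pool.Agent.Lib_helper28.BCAsy
import Pool.Agent.Lib_helper28.BCRz
import Pool.Agent.Lib_helper28.BCGeo

/-!
# Blocks: realisable polynomials approximating a point of `Reg`
-/

open scoped BigOperators Topology
open Filter Polynomial

namespace BC

section one
/-! ### one component -/
variable (w : ℝ) (p : Bool × Bool → ℝ)

/-- block length -/
noncomputable def bL (L : ℕ) : ℕ := ⌊w * L⌋₊
/-- size of the sets on the left -/
noncomputable def bA (L : ℕ) : ℕ := ⌊sA p * bL w L⌋₊
/-- size of the sets on the right -/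
noncomputable def bB (L : ℕ) : ℕ := ⌊sB p * bL w L⌋₊
/-- size of the intersection -/
noncomputable def bU (L : ℕ) : ℕ := ⌊p (true, true) * bL w L⌋₊

variable {w p} (hw : 0 < w) (hp : p ∈ stdSimplex ℝ (Bool × Bool))

section
include hp

lemma bA_le (L : ℕ) : bA w p L ≤ bL w L := by
  obtain ⟨m1, m2, m3, m4⟩ := marg hp
  unfold bA
  apply Nat.floor_le_of_le
  have : (0:ℝ) ≤ bL w L := Nat.cast_nonneg _
  nlinarith

lemma bB_le (L : ℕ) : bB w p L ≤ bL w L := by
  obtain ⟨m1, m2, m3, m4⟩ := marg hp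
  unfold bB
  apply Nat.floor_le_of_le
  have : (0:ℝ) ≤ bL w L := Nat.cast_nonneg _
  nlinarith

lemma bU_leA (L : ℕ) : bU w p L ≤ bA w p L := by
  obtain ⟨h00, h01, h10, h11, hs⟩ := simplex_facts hp
  unfold bU bA sA
  apply Nat.floor_le_floor
  have : (0:ℝ) ≤ bL w L := Nat.cast_nonneg _
  nlinarith

lemma bU_leB (L : ℕ) : bU w p L ≤ bB w p L := by
  obtain ⟨h00, h01, h10, h11, hs⟩ := simplex_facts hp
  unfold bU bB sB
  apply Nat.floor_le_floor
  have : (0:ℝ) ≤ bL w L := Nat.cast_nonneg _
  nlinarith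

lemma bsum_le (L : ℕ) : bA w p L + bB w p L ≤ bL w L + bU w p L := by
  obtain ⟨h00, h01, h10, h11, hs⟩ := simplex_facts hp
  obtain ⟨m1, m2, m3, m4⟩ := marg hp
  have hL : (0:ℝ) ≤ bL w L := Nat.cast_nonneg _
  have h1 : (bA w p L : ℝ) ≤ sA p * bL w L := Nat.floor_le (by positivity)
  have h2 : (bB w p L : ℝ) ≤ sB p * bL w L := Nat.floor_le (by positivity)
  have h3 : p (true, true) * bL w L < (bU w p L : ℝ) + 1 := Nat.lt_floor_add_one _
  have h4 : sA p + sB p ≤ 1 + p (true, true) := by unfold sA sB; linarith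
  have h5 : (sA p + sB p) * bL w L ≤ (1 + p (true, true)) * bL w L :=
    mul_le_mul_of_nonneg_right h4 hL
  have h6 : ((bA w p L + bB w p L : ℕ) : ℝ) < ((bL w L + bU w p L + 1 : ℕ) : ℝ) := by
    push_cast
    nlinarith
  have h7 : bA w p L + bB w p L < bL w L + bU w p L + 1 := by exact_mod_cast h6
  omega

end

/-- number of good pairs in the block -/
noncomputable def bQ (w : ℝ) (p : Bool × Bool → ℝ) (L : ℕ) : ℕ :=
  (bL w L).choose (bA w p L) * ((bA w p L).choose (bU w p L)
    * (bL w L - bA w p L).choose (bB w p L - bU w p L))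

/-- number of pairs in the block -/
noncomputable def bP (w : ℝ) (p : Bool × Bool → ℝ) (L : ℕ) : ℕ :=
  (bL w L).choose (bA w p L) * (bL w L).choose (bB w p L)

/-- polynomial of the doubled block -/
noncomputable def bZ (w : ℝ) (p : Bool × Bool → ℝ) (L : ℕ) : ℕ[X] :=
  Zs (bL w L) (bA w p L) (bB w p L) * Zs (bL w L) (bB w p L) (bA w p L)

lemma bZ_Rz (w : ℝ) (p : Bool × Bool → ℝ) (L : ℕ) :
    Rz (bL w L + bL w L) (bP w p L) (bP w p L) (bZ w p L) := by
  have h := (Rz_Zs (bL w L) (bA w p L) (bB w p L)).mul (Rz_Zs (bL w L) (bB w p L) (bA w p L))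
  unfold bP bZ
  rw [mul_comm ((bL w L).choose (bB w p L)) ((bL w L).choose (bA w p L))] at h
  exact h

section
include hp

lemma bQ_pos (L : ℕ) : 0 < bQ w p L := by
  have h1 := bA_le (w := w) hp L
  have h2 := bU_leA (w := w) hp L
  have h3 := bU_leB (w := w) hp L
  have h4 := bsum_le (w := w) hp L
  unfold bQ
  exact Nat.mul_pos (Nat.choose_pos h1) (Nat.mul_pos (Nat.choose_pos h2)
    (Nat.choose_pos (by omega)))

lemma bP_pos (L : ℕ) : 0 < bP w p L := by
  have h1 := bA_le (w := w) hp L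
  have h2 := bB_le (w := w) hp L
  unfold bP
  exact Nat.mul_pos (Nat.choose_pos h1) (Nat.choose_pos h2)

lemma bZ_coeff (L : ℕ) :
    bQ w p L * bQ w p L ≤ (bZ w p L).coeff (bU w p L + bU w p L) := by
  have h3 := bU_leB (w := w) hp L
  have h := coeff_Zs_ge (L := bL w L) (a := bA w p L) h3
  unfold bZ bQ
  rw [Zs_swap (bL w L) (bB w p L) (bA w p L)]
  exact (Nat.mul_le_mul h h).trans (coeff_mul_ge _ _ _ _)

omit hp in
lemma e0_bZ (L : ℕ) : e0 (bZ w p L) = (bP w p L : ℝ) * bP w p L := by
  unfold bZ bP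
  rw [e0_mul, e0_Zs, e0_Zs]
  push_cast
  ring

lemma mean_bZ {L : ℕ} (hL : 2 ≤ bL w L) :
    mean (bZ w p L) = 2 * ((bA w p L : ℝ) * bB w p L / bL w L) := by
  have h1 := bA_le (w := w) hp L
  have h2 := bB_le (w := w) hp L
  unfold bZ
  rw [mean_mul (e0_Zs_pos h1 h2).ne' (e0_Zs_pos h2 h1).ne', mean_Zs (by omega) h1 h2,
    mean_Zs (by omega) h2 h1]
  ring

lemma vari_bZ {L : ℕ} (hL : 2 ≤ bL w L) :
    vari (bZ w p L) = 2 * ((bA w p L : ℝ) * bB w p L * (bL w L - bA w p L)
      * (bL w L - bB w p L) / (bL w L ^ 2 * (bL w L - 1))) := by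
  have h1 := bA_le (w := w) hp L
  have h2 := bB_le (w := w) hp L
  unfold bZ
  rw [vari_mul (e0_Zs_pos h1 h2).ne' (e0_Zs_pos h2 h1).ne', vari_Zs hL h1 h2,
    vari_Zs hL h2 h1]
  ring

end

section
include hw hp

omit hp in
lemma tendsto_bL : Tendsto (fun L : ℕ => (bL w L : ℝ) / L) atTop (𝓝 w) :=
  tendsto_floor w hw.le

lemma tendsto_bA : Tendsto (fun L : ℕ => (bA w p L : ℝ) / L) atTop (𝓝 (w * sA p)) :=
  tendsto_floor' _ _ (marg hp).1 hw _ (tendsto_bL hw)

lemma tendsto_bB : Tendsto (fun L : ℕ => (bB w p L : ℝ) / L) atTop (𝓝 (w * sB p)) :=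
  tendsto_floor' _ _ (marg hp).2.2.1 hw _ (tendsto_bL hw)

lemma tendsto_bU : Tendsto (fun L : ℕ => (bU w p L : ℝ) / L) atTop (𝓝 (w * p (true, true))) :=
  tendsto_floor' _ _ (hp.1 _) hw _ (tendsto_bL hw)

lemma bL_atTop : Tendsto (fun L : ℕ => (bL w L : ℝ)) atTop atTop := by
  have h1 : Tendsto (fun L : ℕ => (bL w L : ℝ) / L * L) atTop atTop :=
    Tendsto.pos_mul_atTop hw (tendsto_bL hw) tendsto_natCast_atTop_atTop
  refine h1.congr' ?_
  filter_upwards [eventually_gt_atTop 0] with L hL
  have hL' : (0:ℝ) < L := by exact_mod_cast hL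
  field_simp

lemma bL_ev : ∀ᶠ L : ℕ in atTop, 2 ≤ bL w L := by
  filter_upwards [(bL_atTop hw hp).eventually_ge_atTop 2] with L hL
  exact_mod_cast hL

lemma tendsto_bP : Tendsto (fun L : ℕ => Real.log (bP w p L : ℝ) / L) atTop
    (𝓝 (w * (Real.binEntropy (sA p) + Real.binEntropy (sB p)))) := by
  have h1 := tendsto_log_choose (bL w) (bA w p) w (w * sA p) (bA_le hp) (tendsto_bL hw)
    (tendsto_bA hw hp)
  have h2 := tendsto_log_choose (bL w) (bB w p) w (w * sB p) (bB_le hp) (tendsto_bL hw)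
    (tendsto_bB hw hp)
  have h3 := h1.add h2
  have key : ∀ s : ℝ, Real.negMulLog (w * s) + Real.negMulLog (w - w * s) - Real.negMulLog w
      = w * Real.binEntropy s := by
    intro s
    have e : w - w * s = w * (1 - s) := by ring
    rw [e, Real.negMulLog_mul, Real.negMulLog_mul,
      Real.binEntropy_eq_negMulLog_add_negMulLog_one_sub]
    ring
  rw [key, key, ← mul_add] at h3
  refine h3.congr (fun L => ?_)
  have h4 := Nat.choose_pos (bA_le (w := w) hp L)
  have h5 := Nat.choose_pos (bB_le (w := w) hp L)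
  unfold bP
  rw [Nat.cast_mul, Real.log_mul (by exact_mod_cast h4.ne') (by exact_mod_cast h5.ne')]
  ring

lemma tendsto_bQ : Tendsto (fun L : ℕ => Real.log (bQ w p L : ℝ) / L) atTop
    (𝓝 (w * H2 p)) := by
  obtain ⟨h00, h01, h10, h11, hs⟩ := simplex_facts hp
  have h1 := tendsto_log_choose (bL w) (bA w p) w (w * sA p) (bA_le hp) (tendsto_bL hw)
    (tendsto_bA hw hp)
  have h2 := tendsto_log_choose (bA w p) (bU w p) (w * sA p) (w * p (true, true)) (bU_leA hp)
    (tendsto_bA hw hp) (tendsto_bU hw hp)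
  have hd1 : Tendsto (fun L : ℕ => ((bL w L - bA w p L : ℕ) : ℝ) / L) atTop
      (𝓝 (w - w * sA p)) := by
    refine ((tendsto_bL hw).sub (tendsto_bA hw hp)).congr (fun L => ?_)
    rw [Nat.cast_sub (bA_le hp L)]
    ring
  have hd2 : Tendsto (fun L : ℕ => ((bB w p L - bU w p L : ℕ) : ℝ) / L) atTop
      (𝓝 (w * sB p - w * p (true, true))) := by
    refine ((tendsto_bB hw hp).sub (tendsto_bU hw hp)).congr (fun L => ?_)
    rw [Nat.cast_sub (bU_leB hp L)]
    ring
  have h3 := tendsto_log_choose (fun L => bL w L - bA w p L) (fun L => bB w p L - bU w p L)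
    _ _ (fun L => by
      have h1 := bA_le (w := w) hp L
      have h2 := bU_leA (w := w) hp L
      have h3 := bU_leB (w := w) hp L
      have h4 := bsum_le (w := w) hp L
      omega) hd1 hd2
  have h4 := h1.add (h2.add h3)
  have e : (Real.negMulLog (w * sA p) + Real.negMulLog (w - w * sA p) - Real.negMulLog w)
      + ((Real.negMulLog (w * p (true, true)) + Real.negMulLog (w * sA p - w * p (true, true))
        - Real.negMulLog (w * sA p))
      + (Real.negMulLog (w * sB p - w * p (true, true))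
        + Real.negMulLog (w - w * sA p - (w * sB p - w * p (true, true)))
        - Real.negMulLog (w - w * sA p))) = w * H2 p := by
    rw [H2_eq]
    have a1 : w * sA p - w * p (true, true) = w * p (true, false) := by unfold sA; ring
    have a2 : w * sB p - w * p (true, true) = w * p (false, true) := by unfold sB; ring
    have a3 : w - w * sA p - (w * p (false, true)) = w * p (false, false) := by
      unfold sA
      linear_combination w * (-hs)
    rw [a2, a1, a3, Real.negMulLog_mul w (p (true, true)), Real.negMulLog_mul w (p (true, false)),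
      Real.negMulLog_mul w (p (false, true)), Real.negMulLog_mul w (p (false, false))]
    linear_combination Real.negMulLog w * hs
  rw [e] at h4
  refine h4.congr (fun L => ?_)
  have h1 := bA_le (w := w) hp L
  have h2 := bU_leA (w := w) hp L
  have h3 := bU_leB (w := w) hp L
  have h4 := bsum_le (w := w) hp L
  have c1 := Nat.choose_pos h1
  have c2 := Nat.choose_pos h2
  have c3 := Nat.choose_pos (show bB w p L - bU w p L ≤ bL w L - bA w p L by omega)
  unfold bQ
  rw [Nat.cast_mul, Nat.cast_mul, Real.log_mul (by exact_mod_cast c1.ne') (by positivity),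
    Real.log_mul (by exact_mod_cast c2.ne') (by exact_mod_cast c3.ne')]
  ring

lemma tendsto_mean_bZ : Tendsto (fun L : ℕ => mean (bZ w p L) / L) atTop
    (𝓝 (2 * (w * (sA p * sB p)))) := by
  have h1 := (((tendsto_bA hw hp).mul (tendsto_bB hw hp)).div (tendsto_bL hw) hw.ne').const_mul 2
  have e : 2 * (w * sA p * (w * sB p) / w) = 2 * (w * (sA p * sB p)) := by field_simp
  rw [e] at h1
  refine h1.congr' ?_
  filter_upwards [bL_ev hw hp, eventually_gt_atTop 0] with L hL hL0
  have hL' : (0:ℝ) < L := by exact_mod_cast hL0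
  have hb : (0:ℝ) < bL w L := by
    have : 0 < bL w L := by omega
    exact_mod_cast this
  rw [mean_bZ hp hL]
  simp only [Pi.div_apply]
  field_simp

lemma tendsto_vari_bZ : Tendsto (fun L : ℕ => vari (bZ w p L) / L) atTop
    (𝓝 (2 * (w * (sA p * (1 - sA p) * (sB p * (1 - sB p)))))) := by
  have hA := tendsto_bA hw hp
  have hB := tendsto_bB hw hp
  have hLL := tendsto_bL hw
  have hinv : Tendsto (fun L : ℕ => 1 / (L : ℝ)) atTop (𝓝 0) :=
    tendsto_one_div_atTop_nhds_zero_nat
  have h1 := ((((hA.mul hB).mul (hLL.sub hA)).mul (hLL.sub hB)).div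
    ((hLL.mul hLL).mul (hLL.sub hinv)) (by
      rw [sub_zero]; positivity)).const_mul 2
  have e : 2 * (w * sA p * (w * sB p) * (w - w * sA p) * (w - w * sB p) / (w * w * (w - 0)))
      = 2 * (w * (sA p * (1 - sA p) * (sB p * (1 - sB p)))) := by
    rw [sub_zero]
    field_simp
  rw [e] at h1
  refine h1.congr' ?_
  filter_upwards [bL_ev hw hp, eventually_gt_atTop 0] with L hL hL0
  have hL' : (0:ℝ) < L := by exact_mod_cast hL0
  have hb : (2:ℝ) ≤ bL w L := by exact_mod_cast hL
  have hb1 : (0:ℝ) < (bL w L : ℝ) - 1 := by linarith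
  have hb2 : (0:ℝ) < (bL w L : ℝ) := by linarith
  rw [vari_bZ hp hL]
  simp only [Pi.div_apply]
  have e1 : (bL w L : ℝ) / L - 1 / L = (bL w L - 1) / L := by ring
  rw [e1]
  field_simp

end

/-- zero-variance components: all pairs are good -/
lemma bQ_eq_bP (hp : p ∈ stdSimplex ℝ (Bool × Bool))
    (hz : sA p * (1 - sA p) * (sB p * (1 - sB p)) = 0) (L : ℕ) : bQ w p L = bP w p L := by
  obtain ⟨h00, h01, h10, h11, hs⟩ := simplex_facts hp
  unfold bQ bP
  congr 1
  rcases mul_eq_zero.1 hz with h | h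
  · rcases mul_eq_zero.1 h with h | h
    · -- s = 0
      have hp11 : p (true, true) = 0 := by unfold sA at h; linarith
      have e1 : bA w p L = 0 := by unfold bA; rw [h]; simp
      have e2 : bU w p L = 0 := by unfold bU; rw [hp11]; simp
      rw [e1, e2]; simp
    · -- s = 1
      have hs1 : sA p = 1 := by linarith
      have ht : p (true, true) = sB p := by
        unfold sA at hs1; unfold sB; linarith
      have e1 : bA w p L = bL w L := by unfold bA; rw [hs1]; simp
      have e2 : bU w p L = bB w p L := by unfold bU bB; rw [ht]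
      rw [e1, e2]; simp
  · rcases mul_eq_zero.1 h with h | h
    · have hp11 : p (true, true) = 0 := by unfold sB at h; linarith
      have e1 : bB w p L = 0 := by unfold bB; rw [h]; simp
      have e2 : bU w p L = 0 := by unfold bU; rw [hp11]; simp
      rw [e1, e2]; simp
    · have hs1 : sB p = 1 := by linarith
      have ht : p (true, true) = sA p := by
        unfold sB at hs1; unfold sA; linarith
      have e1 : bB w p L = bL w L := by unfold bB; rw [hs1]; simp
      have e2 : bU w p L = bA w p L := by unfold bU bA; rw [ht]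
      rw [e1, e2]; simp

end one

end BC
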