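import Mathlib

/-!
# Definitions for MP_bc4c60_co

* `Good n lam c m`: there are families `𝒜, ℬ` of subsets of `[n]`, both of size `m`, with at
  least `c m²` pairs `(A,B)` satisfying `|A ∩ B| = lam`.
* `MM n lam c`: the largest `m²`.
* `Reg`: the convex hull in `ℝ⁴` of the vectors
  `(H(p), h(s)+h(t), p₁₁, s(1-s)t(1-t))`, where `p` runs over the probability distributions on
  `{0,1}²` with marginals `s,t`.
* `Psi l g v`: the value of the four-constraint optimisation problem.
-/

open scoped BigOperators

namespace BC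

/-- There are two families of `m` subsets of `[n]` with at least `c m²` pairs `(A,B)` such that
`|A ∩ B| = lam`. -/
def Good (n lam : ℕ) (c : ℝ) (m : ℕ) : Prop :=
  ∃ 𝒜 ℬ : Finset (Finset (Fin n)), 𝒜.card = m ∧ ℬ.card = m ∧
    c * (m : ℝ) ^ 2 ≤ (((𝒜 ×ˢ ℬ).filter (fun p => (p.1 ∩ p.2).card = lam)).card : ℝ)

/-- `M(n,lam,c)`: the largest value of `m²`. -/
noncomputable def MM (n lam : ℕ) (c : ℝ) : ℕ := sSup {k | ∃ m, Good n lam c m ∧ k = m ^ 2}

/-- first marginal: the probability that the first coordinate is `1` -/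
def sA (p : Bool × Bool → ℝ) : ℝ := p (true, false) + p (true, true)

/-- second marginal: the probability that the second coordinate is `1` -/
def sB (p : Bool × Bool → ℝ) : ℝ := p (false, true) + p (true, true)

/-- entropy (natural logarithm) of a distribution on `{0,1}²` -/
noncomputable def H2 (p : Bool × Bool → ℝ) : ℝ := ∑ z, Real.negMulLog (p z)

/-- The vector `(H(p), h(s)+h(t), p₁₁, s(1-s)t(1-t))`. -/
noncomputable def vec (p : Bool × Bool → ℝ) : ℝ × ℝ × ℝ × ℝ :=
  (H2 p, Real.binEntropy (sA p) + Real.binEntropy (sB p), p (true, true),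
    sA p * (1 - sA p) * (sB p * (1 - sB p)))

/-- The convex hull of the vectors `vec p`. -/
def Reg : Set (ℝ × ℝ × ℝ × ℝ) := convexHull ℝ (vec '' stdSimplex ℝ (Bool × Bool))

/-- The value of the single-letter optimisation problem (natural logarithms). -/
noncomputable def Psi (l g v : ℝ) : ℝ :=
  sSup {x | ∃ r ∈ Reg, r.2.1 - r.1 ≤ g ∧ r.2.2.1 = l ∧ r.2.2.2 ≤ v ∧
    x = min (2 * Real.log 2) (g + r.1)}

/-- size of the intersection of the sets with indicator functions `x` and `y` -/
def ic {n : ℕ} (x y : Fin n → Bool) : ℕ := ∑ i, (if x i && y i then 1 else 0)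

end BC
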