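import Pool.Agent.Lib_helper28.BCDefs

/-!
# More definitions for MP_bc4c60_co

* `MI p`: the mutual information of a distribution `p` on `{0,1}²`.
* `Ent l g`: the largest entropy of a distribution on `{0,1}²` with `p₁₁ = l` and mutual
  information at most `g`.
-/

set_option autoImplicit false

namespace BC

/-- the mutual information of a law on `{0,1}²` (natural logarithm) -/
noncomputable def MI (p : Bool × Bool → ℝ) : ℝ :=
  Real.binEntropy (sA p) + Real.binEntropy (sB p) - H2 p

/-- the largest entropy of a law on `{0,1}²` with `p₁₁ = l` and mutual information at most `g` -/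
noncomputable def Ent (l g : ℝ) : ℝ :=
  sSup {x | ∃ p ∈ stdSimplex ℝ (Bool × Bool), p (true, true) = l ∧ MI p ≤ g ∧ x = H2 p}

end BC
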