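import Pool.Agent.Lib_helper28.BCDefs

/-!
# The entropy upper bound
-/

open scoped BigOperators

namespace BC

lemma Reg_convex : Convex ℝ Reg := convex_convexHull ℝ _

lemma vec_mem_Reg {p : Bool × Bool → ℝ} (hp : p ∈ stdSimplex ℝ (Bool × Bool)) : vec p ∈ Reg :=
  subset_convexHull ℝ _ ⟨p, hp, rfl⟩

/-- log-sum inequality for two classes -/
lemma binEntropy_add_le {s : ℝ} (h0 : 0 ≤ s) (h1 : s ≤ 1) (a0 a1 : ℕ)
    (ha1 : 0 < s → 0 < a1) (ha0 : s < 1 → 0 < a0) :
    Real.binEntropy s + s * Real.log a1 + (1 - s) * Real.log a0 ≤ Real.log ((a0 : ℝ) + a1) := by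
  rcases h0.eq_or_lt with rfl | hs0
  · have := ha0 (by norm_num)
    have h2 : (0 : ℝ) < a0 := by exact_mod_cast this
    simp only [Real.binEntropy_zero, zero_mul, sub_zero, one_mul, zero_add]
    exact Real.log_le_log h2 (by linarith [Nat.cast_nonneg (α := ℝ) a1])
  rcases h1.eq_or_lt with rfl | hs1
  · have := ha1 (by norm_num)
    have h2 : (0 : ℝ) < a1 := by exact_mod_cast this
    simp only [Real.binEntropy_one, sub_self, zero_mul, add_zero, one_mul, zero_add]
    exact Real.log_le_log h2 (by linarith [Nat.cast_nonneg (α := ℝ) a0])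
  have h2 : (0 : ℝ) < a1 := by exact_mod_cast ha1 hs0
  have h3 : (0 : ℝ) < a0 := by exact_mod_cast ha0 hs1
  have hs1' : 0 < 1 - s := by linarith
  have key := (strictConcaveOn_log_Ioi.concaveOn).2
    (show (a1 / s : ℝ) ∈ Set.Ioi (0 : ℝ) from div_pos h2 hs0)
    (show (a0 / (1 - s) : ℝ) ∈ Set.Ioi (0 : ℝ) from div_pos h3 hs1') hs0.le hs1'.le (by ring)
  simp only [smul_eq_mul] at key
  rw [Real.log_div h2.ne' hs0.ne', Real.log_div h3.ne' hs1'.ne'] at key
  have e1 : s * (a1 / s : ℝ) + (1 - s) * (a0 / (1 - s)) = a0 + a1 := by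
    field_simp
    ring
  rw [e1] at key
  have e2 : Real.binEntropy s = - s * Real.log s - (1 - s) * Real.log (1 - s) := by
    rw [Real.binEntropy_eq_negMulLog_add_negMulLog_one_sub]
    simp only [Real.negMulLog]
    ring
  rw [e2]
  linarith

lemma ic_succ {n : ℕ} (x y : Fin (n + 1) → Bool) :
    ic x y = (if x 0 && y 0 then 1 else 0) + ic (Fin.tail x) (Fin.tail y) := by
  unfold ic
  rw [Fin.sum_univ_succ]
  rfl

/-- tails of the members of a family with given first coordinate -/
def sec {n : ℕ} (𝒜 : Finset (Fin (n + 1) → Bool)) (b : Bool) : Finset (Fin n → Bool) :=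
  (𝒜.filter (fun x => x 0 = b)).image Fin.tail

lemma mem_sec {n : ℕ} {𝒜 : Finset (Fin (n + 1) → Bool)} {x : Fin (n + 1) → Bool} (hx : x ∈ 𝒜) :
    Fin.tail x ∈ sec 𝒜 (x 0) :=
  Finset.mem_image_of_mem _ (Finset.mem_filter.2 ⟨hx, rfl⟩)

lemma tail_inj {n : ℕ} {x y : Fin (n + 1) → Bool} (h0 : x 0 = y 0) (h : Fin.tail x = Fin.tail y) :
    x = y := by
  rw [← Fin.cons_self_tail x, ← Fin.cons_self_tail y, h0, h]

lemma card_sec {n : ℕ} (𝒜 : Finset (Fin (n + 1) → Bool)) (b : Bool) :
    (sec 𝒜 b).card = (𝒜.filter (fun x => x 0 = b)).card := by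
  apply Finset.card_image_of_injOn
  intro x hx y hy h
  simp only [Finset.coe_filter, Set.mem_ofPred_eq] at hx hy
  exact tail_inj (hx.2.trans hy.2.symm) h

lemma card_sec_add {n : ℕ} (𝒜 : Finset (Fin (n + 1) → Bool)) :
    (sec 𝒜 false).card + (sec 𝒜 true).card = 𝒜.card := by
  rw [card_sec, card_sec]
  have := Finset.card_filter_add_card_filter_not (s := 𝒜) (fun x => x 0 = false)
  rw [← this]
  congr 2
  ext x
  simp

/-- sections of a set of pairs -/
def sec2 {n : ℕ} (N : Finset ((Fin (n + 1) → Bool) × (Fin (n + 1) → Bool))) (z : Bool × Bool) :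
    Finset ((Fin n → Bool) × (Fin n → Bool)) :=
  (N.filter (fun q => (q.1 0, q.2 0) = z)).image (fun q => (Fin.tail q.1, Fin.tail q.2))

lemma card_sec2 {n : ℕ} (N : Finset ((Fin (n + 1) → Bool) × (Fin (n + 1) → Bool)))
    (z : Bool × Bool) :
    (sec2 N z).card = (N.filter (fun q => (q.1 0, q.2 0) = z)).card := by
  apply Finset.card_image_of_injOn
  intro x hx y hy h
  simp only [Finset.coe_filter, Set.mem_ofPred_eq] at hx hy
  have h1 := hx.2.trans hy.2.symm
  rw [Prod.mk.injEq] at h1 h
  exact Prod.ext (tail_inj h1.1 h.1) (tail_inj h1.2 h.2)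

lemma sum_card_sec2 {n : ℕ} (N : Finset ((Fin (n + 1) → Bool) × (Fin (n + 1) → Bool))) :
    ∑ z, (sec2 N z).card = N.card := by
  simp_rw [card_sec2]
  exact (Finset.card_eq_sum_card_fiberwise
    (f := fun q : (Fin (n + 1) → Bool) × (Fin (n + 1) → Bool) => (q.1 0, q.2 0))
    (t := Finset.univ) (fun _ _ => Finset.mem_univ _)).symm

lemma avg_aux (n : ℕ) (a : ℝ) (p R : Bool × Bool → ℝ) :
    ((n : ℝ) + 1) * (1 / ((n : ℝ) + 1) * a + (n / ((n : ℝ) + 1)) * ∑ z, p z * R z)
      = a + ∑ z, p z * (n * R z) := by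
  have h : (n : ℝ) + 1 ≠ 0 := by positivity
  have e : ∑ z, p z * (n * R z) = n * ∑ z, p z * R z := by
    rw [Finset.mul_sum]
    exact Finset.sum_congr rfl (fun z _ => by ring)
  rw [e]
  field_simp

lemma nonempty_Reg : Reg.Nonempty :=
  ⟨_, vec_mem_Reg (single_mem_stdSimplex ℝ (true, true))⟩

/-- The entropy bound. -/
theorem ent (n : ℕ) : ∀ (𝒜 ℬ : Finset (Fin n → Bool))
    (N : Finset ((Fin n → Bool) × (Fin n → Bool))) (lam : ℕ), N.Nonempty →
    (∀ q ∈ N, q.1 ∈ 𝒜 ∧ q.2 ∈ ℬ ∧ ic q.1 q.2 = lam) →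
    ∃ r ∈ Reg, n * r.1 = Real.log N.card ∧
      n * r.2.1 ≤ Real.log 𝒜.card + Real.log ℬ.card ∧ n * r.2.2.1 = lam := by
  induction n with
  | zero =>
    intro 𝒜 ℬ N lam hN h
    obtain ⟨r, hr⟩ := nonempty_Reg
    refine ⟨r, hr, ?_, ?_, ?_⟩
    · have : N.card = 1 := by
        apply le_antisymm _ (Finset.card_pos.2 hN)
        refine (Finset.card_le_univ N).trans ?_
        simp
      simp [this]
    · simp only [Nat.cast_zero, zero_mul]
      have h1 : 0 ≤ Real.log (𝒜.card : ℝ) := Real.log_natCast_nonneg _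
      have h2 : 0 ≤ Real.log (ℬ.card : ℝ) := Real.log_natCast_nonneg _
      linarith
    · obtain ⟨q, hq⟩ := hN
      have := (h q hq).2.2
      simp only [ic, Finset.univ_eq_empty, Finset.sum_empty] at this
      simp [← this]
  | succ n ih =>
    intro 𝒜 ℬ N lam hN h
    have hNpos : (0 : ℝ) < N.card := by exact_mod_cast Finset.card_pos.2 hN
    set p : Bool × Bool → ℝ := fun z => (sec2 N z).card / N.card with hp
    have hp0 : ∀ z, 0 ≤ p z := fun z => by positivity
    have hpsum : ∑ z, p z = 1 := by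
      rw [hp, ← Finset.sum_div, ← Nat.cast_sum, sum_card_sec2, div_self hNpos.ne']
    have hpm : p ∈ stdSimplex ℝ (Bool × Bool) := ⟨hp0, hpsum⟩
    -- children
    have hchild : ∀ z : Bool × Bool, ∃ r ∈ Reg, (0 < p z →
        (n * r.1 = Real.log (sec2 N z).card ∧
        n * r.2.1 ≤ Real.log (sec 𝒜 z.1).card + Real.log (sec ℬ z.2).card ∧
        n * r.2.2.1 = lam - (if z.1 && z.2 then 1 else 0) ∧ 0 < (sec 𝒜 z.1).card ∧
          0 < (sec ℬ z.2).card)) := by
      intro z
      by_cases hz : (sec2 N z).Nonempty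
      · have hz' := hz
        obtain ⟨q, hq⟩ := hz'
        have hmem : ∀ q ∈ sec2 N z, q.1 ∈ sec 𝒜 z.1 ∧ q.2 ∈ sec ℬ z.2 ∧
            ic q.1 q.2 + (if z.1 && z.2 then 1 else 0) = lam := by
          intro q hq
          simp only [sec2, Finset.mem_image, Finset.mem_filter] at hq
          obtain ⟨q', ⟨hq', hz1⟩, rfl⟩ := hq
          obtain ⟨h1, h2, h3⟩ := h q' hq'
          subst hz1
          refine ⟨mem_sec h1, mem_sec h2, ?_⟩
          rw [← h3, ic_succ, add_comm]
        obtain ⟨r, hr, hr1, hr2, hr3⟩ := ih (sec 𝒜 z.1) (sec ℬ z.2) (sec2 N z)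
          (lam - (if z.1 && z.2 then 1 else 0)) hz (fun q hq => by
            obtain ⟨h1, h2, h3⟩ := hmem q hq
            exact ⟨h1, h2, by omega⟩)
        refine ⟨r, hr, fun _ => ⟨hr1, hr2, ?_, ?_, ?_⟩⟩
        · rw [hr3, Nat.cast_sub (by have := (hmem q hq).2.2; omega)]
          split_ifs <;> simp
        · exact Finset.card_pos.2 ⟨_, (hmem q hq).1⟩
        · exact Finset.card_pos.2 ⟨_, (hmem q hq).2.1⟩
      · obtain ⟨r, hr⟩ := nonempty_Reg
        refine ⟨r, hr, fun h0 => ?_⟩
        exfalso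
        rw [Finset.not_nonempty_iff_eq_empty] at hz
        simp [hp, hz] at h0
    choose R hR hRp using hchild
    set ρ : ℝ × ℝ × ℝ × ℝ := ∑ z, p z • R z with hρ
    have hρm : ρ ∈ Reg := Reg_convex.sum_mem (fun z _ => hp0 z) hpsum (fun z _ => hR z)
    have hn1 : (0 : ℝ) < (n : ℝ) + 1 := by positivity
    refine ⟨(1 / ((n : ℝ) + 1)) • vec p + (n / ((n : ℝ) + 1)) • ρ, ?_, ?_, ?_, ?_⟩
    · exact Reg_convex (vec_mem_Reg hpm) hρm (by positivity) (by positivity) (by field_simp; ring)
    · -- entropy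
      have e1 : ρ.1 = ∑ z, p z * (R z).1 := by
        rw [hρ, Prod.fst_sum]
        rfl
      have e2 : ((1 / ((n : ℝ) + 1)) • vec p + (n / ((n : ℝ) + 1)) • ρ).1
          = (1 / ((n : ℝ) + 1)) * H2 p + (n / ((n : ℝ) + 1)) * ρ.1 := rfl
      rw [e2, e1]
      push_cast
      have e3 := avg_aux n (H2 p) p (fun z => (R z).1)
      rw [H2, ← Finset.sum_add_distrib] at e3
      rw [H2]
      rw [e3]
      have e4 : ∀ z, Real.negMulLog (p z) + p z * (n * (R z).1) = p z * Real.log N.card := by
        intro z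
        rcases (hp0 z).eq_or_lt with h0 | h0
        · rw [← h0]; simp
        · rw [(hRp z h0).1]
          have hc : (0 : ℝ) < (sec2 N z).card := by
            by_contra hc
            have : ((sec2 N z).card : ℝ) = 0 := le_antisymm (not_lt.1 hc) (by positivity)
            simp [hp, this] at h0
          simp only [Real.negMulLog, hp]
          rw [Real.log_div hc.ne' hNpos.ne']
          ring
      rw [Finset.sum_congr rfl (fun z _ => e4 z), ← Finset.sum_mul, hpsum, one_mul]
    · have e1 : ρ.2.1 = ∑ z, p z * (R z).2.1 := by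
        rw [hρ, Prod.snd_sum, Prod.fst_sum]
        rfl
      have e2 : ((1 / ((n : ℝ) + 1)) • vec p + (n / ((n : ℝ) + 1)) • ρ).2.1
          = (1 / ((n : ℝ) + 1)) * (Real.binEntropy (sA p) + Real.binEntropy (sB p))
            + (n / ((n : ℝ) + 1)) * ρ.2.1 := rfl
      rw [e2, e1]
      push_cast
      have e3 := avg_aux n (Real.binEntropy (sA p) + Real.binEntropy (sB p)) p
        (fun z => (R z).2.1)
      rw [e3]
      have e4 : ∑ z, p z * (n * (R z).2.1) ≤ ∑ z, p z * (Real.log (sec 𝒜 z.1).card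
          + Real.log (sec ℬ z.2).card) := by
        apply Finset.sum_le_sum
        intro z _
        rcases (hp0 z).eq_or_lt with h0 | h0
        · rw [← h0]; simp
        · exact mul_le_mul_of_nonneg_left (hRp z h0).2.1 h0.le
      have hs4 : p (false, false) + p (false, true) + p (true, false) + p (true, true) = 1 := by
        rw [← hpsum, Fintype.sum_prod_type]
        simp [Fintype.sum_bool]
        ring
      have e5 : ∑ z : Bool × Bool, p z * (Real.log (sec 𝒜 z.1).card
          + Real.log (sec ℬ z.2).card) = (sA p * Real.log (sec 𝒜 true).card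
            + (1 - sA p) * Real.log (sec 𝒜 false).card)
            + (sB p * Real.log (sec ℬ true).card
            + (1 - sB p) * Real.log (sec ℬ false).card) := by
        have h1 : 1 - sA p = p (false, false) + p (false, true) := by unfold sA; linarith
        have h2 : 1 - sB p = p (false, false) + p (true, false) := by unfold sB; linarith
        rw [h1, h2, sA, sB, Fintype.sum_prod_type]
        simp only [Fintype.sum_bool]
        ring
      have q00 := hp0 (false, false)
      have q01 := hp0 (false, true)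
      have q10 := hp0 (true, false)
      have q11 := hp0 (true, true)
      have hA0 : 0 ≤ sA p := by unfold sA; linarith
      have hA1 : sA p ≤ 1 := by unfold sA; linarith
      have hB0 : 0 ≤ sB p := by unfold sB; linarith
      have hB1 : sB p ≤ 1 := by unfold sB; linarith
      have hA := binEntropy_add_le hA0 hA1 (sec 𝒜 false).card (sec 𝒜 true).card
        (by
          intro hs
          rcases lt_or_ge 0 (p (true, false)) with h0 | h0
          · exact (hRp _ h0).2.2.2.1
          · exact (hRp (true, true) (by unfold sA at hs; linarith)).2.2.2.1)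
        (by
          intro hs
          rcases lt_or_ge 0 (p (false, false)) with h0 | h0
          · exact (hRp _ h0).2.2.2.1
          · exact (hRp (false, true) (by unfold sA at hs; linarith)).2.2.2.1)
      have hB := binEntropy_add_le hB0 hB1 (sec ℬ false).card (sec ℬ true).card
        (by
          intro hs
          rcases lt_or_ge 0 (p (false, true)) with h0 | h0
          · exact (hRp _ h0).2.2.2.2
          · exact (hRp (true, true) (by unfold sB at hs; linarith)).2.2.2.2)
        (by
          intro hs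
          rcases lt_or_ge 0 (p (false, false)) with h0 | h0
          · exact (hRp _ h0).2.2.2.2
          · exact (hRp (true, false) (by unfold sB at hs; linarith)).2.2.2.2)
      rw [← Nat.cast_add, card_sec_add] at hA hB
      linarith
    · have e1 : ρ.2.2.1 = ∑ z, p z * (R z).2.2.1 := by
        rw [hρ, Prod.snd_sum, Prod.snd_sum, Prod.fst_sum]
        rfl
      have e2 : ((1 / ((n : ℝ) + 1)) • vec p + (n / ((n : ℝ) + 1)) • ρ).2.2.1
          = (1 / ((n : ℝ) + 1)) * p (true, true) + (n / ((n : ℝ) + 1)) * ρ.2.2.1 := rfl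
      rw [e2, e1]
      push_cast
      have e3 := avg_aux n (p (true, true)) p (fun z => (R z).2.2.1)
      rw [e3]
      have e4 : ∑ z, p z * (n * (R z).2.2.1) = ∑ z : Bool × Bool, p z * (lam -
          (if z.1 && z.2 then 1 else 0)) := by
        apply Finset.sum_congr rfl
        intro z _
        rcases (hp0 z).eq_or_lt with h0 | h0
        · rw [← h0]; simp
        · rw [(hRp z h0).2.2.1]
      rw [e4]
      have e5 : ∑ z : Bool × Bool, p z * ((lam : ℝ) - (if z.1 && z.2 then 1 else 0))
          = (∑ z, p z) * lam - p (true, true) := by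
        rw [Finset.sum_mul, Fintype.sum_prod_type, Fintype.sum_prod_type]
        simp [Fintype.sum_bool]
        ring
      rw [e5, hpsum]
      ring

end BC
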