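import Pool.Agent.Lib_helper28.BCFinal

/-!
# Closed forms and the dependence on `lam`
-/

open scoped BigOperators Topology
open Filter Polynomial

namespace BC

/-! ### closed form for small information budget and no variance -/

lemma half_mem : (1 / 2 : ℝ) ∈ Set.Icc (0:ℝ) 1 := ⟨by norm_num, by norm_num⟩

lemma h_half : Real.binEntropy (1 / 2) = Real.log 2 := by
  rw [one_div]; exact Real.binEntropy_two_inv

/-- for `l ≤ 1/2` one component `s = 0` and one component `s = 1` -/
lemma feas_half {l g v : ℝ} (hl0 : 0 ≤ l) (hl1 : l ≤ 1 / 2) (hg : 0 ≤ g) (hv : 0 ≤ v) :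
    Feas l g v (Real.log 2, Real.log 2, l, 0) := by
  have h0 := vec_mem_Reg (pr_mem (s := 0) ⟨le_refl 0, zero_le_one⟩ half_mem)
  have h1 := ev_mem half_mem
  rw [vec_pr] at h0
  have h2 := Reg_convex h0 h1 (by linarith : 0 ≤ 1 - 2 * l) (by linarith : 0 ≤ 2 * l) (by ring)
  have e : (1 - 2 * l) • ((Real.binEntropy 0 + Real.binEntropy (1 / 2),
      Real.binEntropy 0 + Real.binEntropy (1 / 2), (0:ℝ) * (1 / 2),
      (0:ℝ) * (1 - 0) * (1 / 2 * (1 - 1 / 2))) : ℝ × ℝ × ℝ × ℝ) + (2 * l) • ev (1 / 2)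
      = (Real.log 2, Real.log 2, l, 0) := by
    unfold ev
    simp only [Prod.smul_mk, smul_eq_mul, Prod.mk_add_mk, h_half, Real.binEntropy_zero]
    refine Prod.ext ?_ (Prod.ext ?_ (Prod.ext ?_ ?_))
    · ring
    · ring
    · show (1 - 2 * l) * (0 * (1 / 2)) + 2 * l * (1 / 2) = l
      ring
    · show (1 - 2 * l) * (0 * (1 - 0) * (1 / 2 * (1 - 1 / 2))) + 2 * l * 0 = 0
      ring
  rw [e] at h2
  exact ⟨h2, by simpa using hg, rfl, hv⟩

lemma Psi_zero {l : ℝ} (hl : l ∈ Set.Icc (0:ℝ) 1) :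
    Psi l 0 0 = Real.binEntropy (max l (1 / 2)) := by
  have hlog := log_two_bounds
  apply le_antisymm
  · refine Psi_le_of (ev_feas hl le_rfl le_rfl) ?_
    rintro r ⟨hr, hr1, hr2, hr3⟩
    rw [zero_add]
    refine (min_le_right _ _).trans ?_
    have hle : r.2.1 ≤ r.1 := by linarith
    have hz : r.2.2.2 = 0 := le_antisymm hr3 (Reg_subset_Box hr).2.2.2.2.2.1
    obtain ⟨ι, hι, w, p, hw, hw1, hp, h1, h2, h3, h4⟩ := decomp hr
    have hnn : ∀ i, 0 ≤ w i * (Real.binEntropy (sA (p i)) + Real.binEntropy (sB (p i))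
        - H2 (p i)) := fun i => mul_nonneg (hw i).le (by linarith [(gap (hp i)).1])
    have hsum : ∑ i, w i * (Real.binEntropy (sA (p i)) + Real.binEntropy (sB (p i))
        - H2 (p i)) = 0 := by
      apply le_antisymm
      · have : ∑ i, w i * (Real.binEntropy (sA (p i)) + Real.binEntropy (sB (p i))
            - H2 (p i)) = r.2.1 - r.1 := by
          rw [h1, h2, ← Finset.sum_sub_distrib]
          exact Finset.sum_congr rfl (fun i _ => by ring)
        rw [this]; linarith
      · exact Finset.sum_nonneg (fun i _ => hnn i)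
    have h5 := (Finset.sum_eq_zero_iff_of_nonneg (fun i _ => hnn i)).1 hsum
    rw [h4] at hz
    have h6 := (Finset.sum_eq_zero_iff_of_nonneg (fun i _ => by
      obtain ⟨m1, m2, m3, m4⟩ := marg (hp i)
      exact mul_nonneg (hw i).le (mul_nonneg (var_le m1 m2).1 (var_le m3 m4).1))).1 hz
    -- per component
    have comp : ∀ i, H2 (p i) ≤ Real.binEntropy (max (p i (true, true)) (1 / 2)) := by
      intro i
      obtain ⟨m1, m2, m3, m4⟩ := marg (hp i)
      have a1 : H2 (p i) = Real.binEntropy (sA (p i)) + Real.binEntropy (sB (p i)) := by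
        rcases mul_eq_zero.1 (h5 i (Finset.mem_univ i)) with h | h
        · exact absurd h (hw i).ne'
        · linarith
      have a2 : p i (true, true) = sA (p i) * sB (p i) := (gap (hp i)).2 a1.symm.le
      have a3 : sA (p i) * (1 - sA (p i)) * (sB (p i) * (1 - sB (p i))) = 0 := by
        rcases mul_eq_zero.1 (h6 i (Finset.mem_univ i)) with h | h
        · exact absurd h (hw i).ne'
        · exact h
      have key : ∀ x : ℝ, Real.binEntropy x ≤ Real.binEntropy (max x (1 / 2)) := by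
        intro x
        rcases le_total x (1 / 2) with h | h
        · rw [max_eq_right h, h_half]; exact Real.binEntropy_le_log_two
        · rw [max_eq_left h]
      have key0 : ∀ x : ℝ, Real.binEntropy x ≤ Real.binEntropy (max 0 (1 / 2)) := by
        intro x
        rw [max_eq_right (by norm_num), h_half]; exact Real.binEntropy_le_log_two
      rw [a1, a2]
      rcases mul_eq_zero.1 a3 with h | h
      · rcases mul_eq_zero.1 h with h | h
        · rw [h, Real.binEntropy_zero, zero_mul, zero_add]; exact key0 _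
        · have : sA (p i) = 1 := by linarith
          rw [this, Real.binEntropy_one, one_mul, zero_add]; exact key _
      · rcases mul_eq_zero.1 h with h | h
        · rw [h, Real.binEntropy_zero, mul_zero, add_zero]; exact key0 _
        · have : sB (p i) = 1 := by linarith
          rw [this, Real.binEntropy_one, mul_one, add_zero]; exact key _
    have hle1 : ∀ i, p i (true, true) ≤ 1 := by
      intro i
      obtain ⟨h00, h01, h10, h11, hs⟩ := simplex_facts (hp i)
      linarith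
    have hJ := Real.strictConcave_binEntropy.concaveOn.le_map_sum (t := Finset.univ) (w := w)
      (p := fun i => max (p i (true, true)) (1 / 2)) (fun i _ => (hw i).le) hw1
      (fun i _ => ⟨le_max_of_le_right (by norm_num), max_le (hle1 i) (by norm_num)⟩)
    simp only [smul_eq_mul] at hJ
    set y := ∑ i, w i * max (p i (true, true)) (1 / 2) with hy
    have hy1 : max l (1 / 2) ≤ y := by
      apply max_le
      · rw [← hr2, h3]
        exact Finset.sum_le_sum (fun i _ => mul_le_mul_of_nonneg_left (le_max_left _ _) (hw i).le)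
      · calc (1 / 2 : ℝ) = ∑ i, w i * (1 / 2) := by rw [← Finset.sum_mul, hw1, one_mul]
          _ ≤ _ := Finset.sum_le_sum
              (fun i _ => mul_le_mul_of_nonneg_left (le_max_right _ _) (hw i).le)
    have hy2 : y ≤ 1 := by
      calc y ≤ ∑ i, w i * 1 := Finset.sum_le_sum
              (fun i _ => mul_le_mul_of_nonneg_left (max_le (hle1 i) (by norm_num)) (hw i).le)
        _ = 1 := by rw [← Finset.sum_mul, hw1, one_mul]
    calc r.1 = ∑ i, w i * H2 (p i) := h1
      _ ≤ ∑ i, w i * Real.binEntropy (max (p i (true, true)) (1 / 2)) :=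
          Finset.sum_le_sum (fun i _ => mul_le_mul_of_nonneg_left (comp i) (hw i).le)
      _ ≤ Real.binEntropy y := hJ
      _ ≤ Real.binEntropy (max l (1 / 2)) := by
          apply Real.binEntropy_strictAntiOn.antitoneOn _ _ hy1
          · exact ⟨le_max_of_le_right (by norm_num), max_le hl.2 (by norm_num)⟩
          · exact ⟨by rw [← one_div]; exact (le_max_right l (1/2)).trans hy1, hy2⟩
  · rcases le_total l (1 / 2) with h | h
    · have h1 := le_Psi (feas_half hl.1 h (le_refl (0:ℝ)) (le_refl (0:ℝ)))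
      rw [max_eq_right h, h_half]
      refine le_trans (le_min (by linarith) ?_) h1
      show Real.log 2 ≤ 0 + Real.log 2
      linarith
    · have h1 := le_Psi (ev_feas hl (le_refl (0:ℝ)) (le_refl (0:ℝ)))
      rw [max_eq_left h]
      have h2 := (binEntropy_bounds hl.1 hl.2).2
      refine le_trans (le_min (by linarith) ?_) h1
      show Real.binEntropy l ≤ 0 + Real.binEntropy l
      linarith

/-! ### closed form for large information budget -/

/-- `h(l) + (1-l) log 3` -/
noncomputable def hq (l : ℝ) : ℝ := Real.binEntropy l + (1 - l) * Real.log 3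

lemma H2_le_hq {p : Bool × Bool → ℝ} (hp : p ∈ stdSimplex ℝ (Bool × Bool)) :
    H2 p ≤ hq (p (true, true)) := by
  obtain ⟨h00, h01, h10, h11, hs⟩ := simplex_facts hp
  rw [H2_eq, hq, Real.binEntropy_eq_negMulLog_add_negMulLog_one_sub]
  generalize p (false, false) = a at *
  generalize p (false, true) = b at *
  generalize p (true, false) = c at *
  generalize p (true, true) = d at *
  have hJ := Real.concaveOn_negMulLog.le_map_sum (t := (Finset.univ : Finset (Fin 3)))
    (w := fun _ => (1 / 3 : ℝ)) (p := ![a, b, c]) (fun i _ => by norm_num) (by simp)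
    (by
      intro i _
      fin_cases i
      · exact h00
      · exact h01
      · exact h10)
  simp only [Fin.sum_univ_three, smul_eq_mul, Matrix.cons_val_zero, Matrix.cons_val_one,
    Matrix.cons_val_two, Matrix.head_cons, Matrix.tail_cons] at hJ
  have e : 1 / 3 * a + 1 / 3 * b + 1 / 3 * c = (1 / 3) * (1 - d) := by linarith
  rw [e, Real.negMulLog_mul] at hJ
  have e3 : Real.negMulLog (1 / 3) = 1 / 3 * Real.log 3 := by
    unfold Real.negMulLog
    rw [one_div, Real.log_inv]
    ring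
  rw [e3] at hJ
  linarith

lemma hq_concave : ConcaveOn ℝ (Set.Icc (0:ℝ) 1) hq := by
  refine Real.strictConcave_binEntropy.concaveOn.add ?_
  refine ⟨convex_Icc _ _, ?_⟩
  intro x _ y _ a b _ _ hab
  simp only [smul_eq_mul]
  apply le_of_eq
  have : a = 1 - b := by linarith
  rw [this]
  ring

lemma Reg_le_hq {r : ℝ × ℝ × ℝ × ℝ} (hr : r ∈ Reg) : r.1 ≤ hq r.2.2.1 := by
  obtain ⟨ι, hι, w, p, hw, hw1, hp, h1, h2, h3, h4⟩ := decomp hr
  have hle1 : ∀ i, p i (true, true) ≤ 1 := by
    intro i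
    obtain ⟨h00, h01, h10, h11, hs⟩ := simplex_facts (hp i)
    linarith
  have hJ := hq_concave.le_map_sum (t := Finset.univ) (w := w)
    (p := fun i => p i (true, true)) (fun i _ => (hw i).le) hw1
    (fun i _ => ⟨(hp i).1 _, hle1 i⟩)
  simp only [smul_eq_mul] at hJ
  rw [h1, h3]
  exact (Finset.sum_le_sum (fun i _ => mul_le_mul_of_nonneg_left (H2_le_hq (hp i)) (hw i).le)).trans
    hJ

/-- the distribution with `p₁₁ = l` and the other three values equal -/
noncomputable def pst (l : ℝ) : Bool × Bool → ℝ :=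
  fun z => if z = (true, true) then l else (1 - l) / 3

lemma pst_mem {l : ℝ} (hl : l ∈ Set.Icc (0:ℝ) 1) : pst l ∈ stdSimplex ℝ (Bool × Bool) := by
  refine ⟨?_, ?_⟩
  · intro z
    unfold pst
    split_ifs
    · exact hl.1
    · have := hl.2
      apply div_nonneg <;> linarith
  · rw [Fintype.sum_prod_type]
    simp [pst]
    ring

/-- the mutual information of `pst l` -/
noncomputable def Il (l : ℝ) : ℝ := 2 * Real.binEntropy ((1 + 2 * l) / 3) - hq l

lemma vec_pst {l : ℝ} : vec (pst l) = (hq l, 2 * Real.binEntropy ((1 + 2 * l) / 3), l,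
    ((1 + 2 * l) / 3 * (1 - (1 + 2 * l) / 3)) * ((1 + 2 * l) / 3 * (1 - (1 + 2 * l) / 3))) := by
  have e1 : sA (pst l) = (1 + 2 * l) / 3 := by
    simp [sA, pst]; ring
  have e2 : sB (pst l) = (1 + 2 * l) / 3 := by
    simp [sB, pst]; ring
  have e3 : H2 (pst l) = hq l := by
    rw [H2_eq, hq, Real.binEntropy_eq_negMulLog_add_negMulLog_one_sub]
    have a0 : pst l (false, false) = (1 / 3) * (1 - l) := by simp [pst]; ring
    have a1 : pst l (false, true) = (1 / 3) * (1 - l) := by simp [pst]; ring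
    have a2 : pst l (true, false) = (1 / 3) * (1 - l) := by simp [pst]; ring
    have a3 : pst l (true, true) = l := by simp [pst]
    have e3 : Real.negMulLog (1 / 3) = 1 / 3 * Real.log 3 := by
      unfold Real.negMulLog
      rw [one_div, Real.log_inv]
      ring
    rw [a0, a1, a2, a3, Real.negMulLog_mul, e3]
    ring
  have e4 : pst l (true, true) = l := by simp [pst]
  unfold vec
  rw [e1, e2, e3, e4]
  refine Prod.ext rfl (Prod.ext ?_ rfl)
  show Real.binEntropy ((1 + 2 * l) / 3) + Real.binEntropy ((1 + 2 * l) / 3) = _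
  ring

lemma Psi_big {l g v : ℝ} (hl : l ∈ Set.Icc (0:ℝ) 1) (hg : Il l ≤ g) (hv : 1 / 16 ≤ v) :
    Psi l g v = min (2 * Real.log 2) (g + hq l) := by
  have hf : Feas l g v (vec (pst l)) := by
    have hR := vec_mem_Reg (pst_mem hl)
    refine ⟨hR, ?_, ?_, (Reg_subset_Box hR).2.2.2.2.2.2.trans hv⟩
    · rw [vec_pst]; exact hg
    · rw [vec_pst]
  apply le_antisymm
  · refine Psi_le_of hf ?_
    rintro r ⟨hr, hr1, hr2, hr3⟩
    have := Reg_le_hq hr
    rw [hr2] at this
    exact min_le_min_left _ (by linarith)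
  · have h := le_Psi hf
    rw [vec_pst] at h
    exact h

/-! ### consequences for `M` -/

lemma seq_tool (P : ℕ → ℕ → ℝ → Prop) (G : ℕ → ℕ → ℝ → ℝ)
    (hG : ∀ (n lam : ℕ → ℕ) (c : ℕ → ℝ), Tendsto n atTop atTop → (∀ k, 0 < n k) →
      (∀ k, lam k ≤ n k) → (∀ k, c k ≤ 1) → (∀ k, (1 / 2 : ℝ) ^ (n k) ≤ c k) →
      (∀ k, P (n k) (lam k) (c k)) →
      Tendsto (fun k => Psi ((lam k : ℝ) / n k) (Real.log (1 / c k) / n k)
        (1 / (2 * Real.pi * n k * c k ^ 2)) - G (n k) (lam k) (c k)) atTop (𝓝 0))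
    (ε : ℝ) (hε : 0 < ε) : ∃ N : ℕ, ∀ n ≥ N, ∀ lam : ℕ, 1 ≤ lam → lam ≤ n →
    ∀ c : ℝ, (1 / 2 : ℝ) ^ n ≤ c → c ≤ 1 → P n lam c →
      |Real.logb 2 (MM n lam c) - n * (G n lam c / Real.log 2)| ≤ ε * n := by
  by_contra hcon
  push Not at hcon
  have hlog := log_two_bounds
  choose n0 hn lam0 hl1 hl2 c0 hc2 hc1 hP hbad using hcon
  set n : ℕ → ℕ := fun k => n0 (k + 1) with hnd
  set lam : ℕ → ℕ := fun k => lam0 (k + 1) with hlamd
  set c : ℕ → ℝ := fun k => c0 (k + 1) with hcd
  have hnk : ∀ k, k + 1 ≤ n k := fun k => hn (k + 1)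
  have hn0' : ∀ k, 0 < n k := fun k => lt_of_lt_of_le (Nat.succ_pos k) (hnk k)
  have hntop : Tendsto n atTop atTop :=
    tendsto_atTop_mono (fun k => (Nat.le_succ k).trans (hnk k)) tendsto_id
  have h := seq_main n lam c hntop hn0' (fun k => hl2 (k + 1)) (fun k => hc1 (k + 1))
    (fun k => hc2 (k + 1))
  have h' := hG n lam c hntop hn0' (fun k => hl2 (k + 1)) (fun k => hc1 (k + 1))
    (fun k => hc2 (k + 1)) (fun k => hP (k + 1))
  have h'' := h.add h'
  rw [add_zero] at h''
  have h2 := (Metric.tendsto_nhds.1 h'') (ε * Real.log 2) (by positivity)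
  obtain ⟨k, hk⟩ := h2.exists
  rw [Real.dist_eq, sub_zero] at hk
  have h3 := hbad (k + 1)
  have hnk' : (0:ℝ) < n k := by exact_mod_cast hn0' k
  have e : Real.logb 2 (MM (n k) (lam k) (c k)) - (n k) * (G (n k) (lam k) (c k) / Real.log 2)
      = (n k / Real.log 2) * (Real.log (MM (n k) (lam k) (c k) : ℝ) / n k
      - Psi ((lam k : ℝ) / n k) (Real.log (1 / c k) / n k)
        (1 / (2 * Real.pi * n k * c k ^ 2)) + (Psi ((lam k : ℝ) / n k) (Real.log (1 / c k) / n k)
        (1 / (2 * Real.pi * n k * c k ^ 2)) - G (n k) (lam k) (c k))) := by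
    unfold Real.logb
    field_simp
    ring
  have h4 : ε * n k < |(n k / Real.log 2) * (Real.log (MM (n k) (lam k) (c k) : ℝ) / n k
      - Psi ((lam k : ℝ) / n k) (Real.log (1 / c k) / n k)
        (1 / (2 * Real.pi * n k * c k ^ 2)) + (Psi ((lam k : ℝ) / n k) (Real.log (1 / c k) / n k)
        (1 / (2 * Real.pi * n k * c k ^ 2)) - G (n k) (lam k) (c k)))| := by
    rw [← e]
    exact h3
  rw [abs_mul, abs_of_pos (by positivity : 0 < (n k : ℝ) / Real.log 2)] at h4
  have h5 := mul_lt_mul_of_pos_left hk (by positivity : 0 < (n k : ℝ) / Real.log 2)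
  have h6 : (n k : ℝ) / Real.log 2 * (ε * Real.log 2) = ε * n k := by
    field_simp
  linarith

/-- explicit form when `c ≤ n^{-1/2}` and `log(1/c) ≥ n I(lam/n)` -/
theorem explicit_small (ε : ℝ) (hε : 0 < ε) : ∃ N : ℕ, ∀ n ≥ N, ∀ lam : ℕ, 1 ≤ lam → lam ≤ n →
    ∀ c : ℝ, (1 / 2 : ℝ) ^ n ≤ c → c ≤ 1 →
      (c ^ 2 * n ≤ 1 ∧ n * Il ((lam : ℝ) / n) ≤ Real.log (1 / c)) →
      |Real.logb 2 (MM n lam c)
        - n * (min (2 * Real.log 2) (Real.log (1 / c) / n + hq ((lam : ℝ) / n)) / Real.log 2)|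
        ≤ ε * n := by
  refine seq_tool (fun n lam c => c ^ 2 * n ≤ 1 ∧ n * Il ((lam : ℝ) / n) ≤ Real.log (1 / c))
    (fun n lam c => min (2 * Real.log 2) (Real.log (1 / c) / n + hq ((lam : ℝ) / n))) ?_ ε hε
  intro n lam c hn hn0 hlam hc1 hc2 hP
  refine tendsto_const_nhds.congr (fun k => ?_)
  have hnk : (0:ℝ) < n k := by exact_mod_cast hn0 k
  have hck : 0 < c k := lt_of_lt_of_le (by positivity) (hc2 k)
  have hl : (lam k : ℝ) / n k ∈ Set.Icc (0:ℝ) 1 := by
    refine ⟨by positivity, ?_⟩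
    rw [div_le_one hnk]
    exact_mod_cast hlam k
  rw [Psi_big hl, sub_self]
  · rw [le_div_iff₀ hnk, mul_comm]
    exact (hP k).2
  · have h1 := (hP k).1
    have hpi := Real.pi_lt_four
    have hpi0 := Real.pi_pos
    rw [div_le_div_iff₀ (by norm_num) (by positivity)]
    have : 2 * Real.pi * n k * c k ^ 2 = 2 * Real.pi * (c k ^ 2 * n k) := by ring
    rw [this]
    nlinarith

/-- explicit form when `c` is much larger than `n^{-1/2}` -/
theorem explicit_large (ε : ℝ) (hε : 0 < ε) : ∃ N : ℕ, ∀ n ≥ N, ∀ lam : ℕ, 1 ≤ lam → lam ≤ n →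
    ∀ c : ℝ, (1 / 2 : ℝ) ^ n ≤ c → c ≤ 1 → (N : ℝ) ≤ c ^ 2 * n →
      |Real.logb 2 (MM n lam c)
        - n * (Real.binEntropy (max ((lam : ℝ) / n) (1 / 2)) / Real.log 2)| ≤ ε * n := by
  by_contra hcon
  push Not at hcon
  have hlog := log_two_bounds
  have hpi := Real.pi_pos
  choose n0 hn lam0 hl1 hl2 c0 hc2 hc1 hP hbad using hcon
  set n : ℕ → ℕ := fun k => n0 (k + 1) with hnd
  set lam : ℕ → ℕ := fun k => lam0 (k + 1) with hlamd
  set c : ℕ → ℝ := fun k => c0 (k + 1) with hcd
  have hnk : ∀ k, k + 1 ≤ n k := fun k => hn (k + 1)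
  have hn0' : ∀ k, 0 < n k := fun k => lt_of_lt_of_le (Nat.succ_pos k) (hnk k)
  have hntop : Tendsto n atTop atTop :=
    tendsto_atTop_mono (fun k => (Nat.le_succ k).trans (hnk k)) tendsto_id
  have hn' : ∀ k, (0:ℝ) < n k := fun k => by exact_mod_cast hn0' k
  have hc0' : ∀ k, 0 < c k := fun k => lt_of_lt_of_le (by positivity) (hc2 (k + 1))
  have hc1' : ∀ k, c k ≤ 1 := fun k => hc1 (k + 1)
  have h := seq_main n lam c hntop hn0' (fun k => hl2 (k + 1)) hc1' (fun k => hc2 (k + 1))
  have hPk : ∀ k : ℕ, ((k : ℝ) + 1) ≤ c k ^ 2 * n k := by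
    intro k
    have := hP (k + 1)
    push_cast at this
    exact this
  -- the arguments tend to zero
  have tv : Tendsto (fun k => 1 / (2 * Real.pi * n k * c k ^ 2)) atTop (𝓝 0) := by
    have h1 : Tendsto (fun k : ℕ => 1 / ((k : ℝ) + 1)) atTop (𝓝 0) :=
      tendsto_one_div_add_atTop_nhds_zero_nat
    refine squeeze_zero (fun k => by have := hn' k; have := hc0' k; positivity) (fun k => ?_) h1
    have h2 := hPk k
    have h3 := hn' k
    have h4 := hc0' k
    apply one_div_le_one_div_of_le (by positivity)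
    have h5 : (1:ℝ) ≤ 2 * Real.pi := by linarith [Real.pi_gt_three]
    calc (k : ℝ) + 1 ≤ c k ^ 2 * n k := h2
      _ = 1 * (c k ^ 2 * n k) := by ring
      _ ≤ 2 * Real.pi * (c k ^ 2 * n k) := mul_le_mul_of_nonneg_right h5 (by positivity)
      _ = _ := by ring
  have tg : Tendsto (fun k => Real.log (1 / c k) / n k) atTop (𝓝 0) := by
    have hnR : Tendsto (fun k => (n k : ℝ)) atTop atTop := tendsto_natCast_atTop_atTop.comp hntop
    have h1 : Tendsto (fun k => Real.log (n k) / n k) atTop (𝓝 0) :=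
      (Real.isLittleO_log_id_atTop.tendsto_div_nhds_zero).comp hnR
    refine squeeze_zero (fun k => ?_) (fun k => ?_) h1
    · refine div_nonneg (Real.log_nonneg ?_) (hn' k).le
      rw [le_div_iff₀ (hc0' k), one_mul]; exact hc1' k
    · apply div_le_div_of_nonneg_right _ (hn' k).le
      have h2 := hPk k
      have h4 := hc0' k
      have h5 : (0:ℝ) ≤ k := Nat.cast_nonneg k
      apply Real.log_le_log (by positivity)
      rw [div_le_iff₀ h4]
      have h6 : 1 ≤ c k ^ 2 * n k := by linarith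
      have h7 : c k ^ 2 * n k ≤ c k * n k := by
        apply mul_le_mul_of_nonneg_right _ (hn' k).le
        have := hc1' k
        nlinarith
      linarith
  have hlim : Tendsto (fun k => Psi ((lam k : ℝ) / n k) (Real.log (1 / c k) / n k)
        (1 / (2 * Real.pi * n k * c k ^ 2)) - Real.binEntropy (max ((lam k : ℝ) / n k) (1 / 2)))
        atTop (𝓝 0) := by
    rw [tendsto_iff_ultrafilter]
    intro 𝒰 h𝒰
    have bl : ∀ k, (lam k : ℝ) / n k ∈ Set.Icc (0:ℝ) 1 := by
      intro k
      refine ⟨by positivity, ?_⟩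
      rw [div_le_one (hn' k)]
      exact_mod_cast hl2 (k + 1)
    obtain ⟨l, hl, tl⟩ := ultra_lim (𝒰 := 𝒰) bl
    have hPs := Psi_lim 𝒰 _ _ _ l 0 0 bl (fun k => (div_nonneg (Real.log_nonneg (by
      rw [le_div_iff₀ (hc0' k), one_mul]; exact hc1' k)) (hn' k).le))
      (fun k => by have := hn' k; have := hc0' k; positivity) tl (tg.mono_left h𝒰)
      (tv.mono_left h𝒰)
    have hh : Tendsto (fun k => Real.binEntropy (max ((lam k : ℝ) / n k) (1 / 2))) 𝒰
        (𝓝 (Real.binEntropy (max l (1 / 2)))) :=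
      (Real.binEntropy_continuous.tendsto _).comp (tl.max tendsto_const_nhds)
    have := hPs.sub hh
    rw [Psi_zero hl, sub_self] at this
    exact this
  have h'' := h.add hlim
  rw [add_zero] at h''
  have h2 := (Metric.tendsto_nhds.1 h'') (ε * Real.log 2) (by positivity)
  obtain ⟨k, hk⟩ := h2.exists
  rw [Real.dist_eq, sub_zero] at hk
  have h3 := hbad (k + 1)
  have hnk' := hn' k
  have e : Real.logb 2 (MM (n k) (lam k) (c k))
      - (n k) * (Real.binEntropy (max ((lam k : ℝ) / n k) (1 / 2)) / Real.log 2)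
      = (n k / Real.log 2) * (Real.log (MM (n k) (lam k) (c k) : ℝ) / n k
      - Psi ((lam k : ℝ) / n k) (Real.log (1 / c k) / n k)
        (1 / (2 * Real.pi * n k * c k ^ 2)) + (Psi ((lam k : ℝ) / n k) (Real.log (1 / c k) / n k)
        (1 / (2 * Real.pi * n k * c k ^ 2))
          - Real.binEntropy (max ((lam k : ℝ) / n k) (1 / 2)))) := by
    unfold Real.logb
    field_simp
    ring
  have h4 : ε * n k < |(n k / Real.log 2) * (Real.log (MM (n k) (lam k) (c k) : ℝ) / n k
      - Psi ((lam k : ℝ) / n k) (Real.log (1 / c k) / n k)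
        (1 / (2 * Real.pi * n k * c k ^ 2)) + (Psi ((lam k : ℝ) / n k) (Real.log (1 / c k) / n k)
        (1 / (2 * Real.pi * n k * c k ^ 2))
          - Real.binEntropy (max ((lam k : ℝ) / n k) (1 / 2))))| := by
    rw [← e]
    exact h3
  rw [abs_mul, abs_of_pos (by positivity : 0 < (n k : ℝ) / Real.log 2)] at h4
  have h5 := mul_lt_mul_of_pos_left hk (by positivity : 0 < (n k : ℝ) / Real.log 2)
  have h6 : (n k : ℝ) / Real.log 2 * (ε * Real.log 2) = ε * n k := by
    field_simp
  linarith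

/-- no function of `n` and `c` alone -/
theorem no_function : ¬ ∃ F : ℕ → ℝ → ℝ, ∀ ε : ℝ, 0 < ε → ∃ N : ℕ, ∀ n ≥ N, ∀ lam : ℕ,
    1 ≤ lam → lam ≤ n → ∀ c : ℝ, (1 / 2 : ℝ) ^ n ≤ c → c ≤ 1 →
      |Real.logb 2 (MM n lam c) - F n c| ≤ ε * n := by
  rintro ⟨F, hF⟩
  have hlog := log_two_bounds
  obtain ⟨N1, h1⟩ := hF (1 / 8) (by norm_num)
  obtain ⟨N2, h2⟩ := explicit_large (1 / 8) (by norm_num)
  set n := N1 + N2 + 2 with hn
  have hn' : (0:ℝ) < n := by positivity
  have hpow : (1 / 2 : ℝ) ^ n ≤ 1 := pow_le_one₀ (by norm_num) (by norm_num)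
  have a1 := h1 n (by omega) 1 (le_refl _) (by omega) 1 hpow (le_refl _)
  have a2 := h1 n (by omega) n (by omega) (le_refl _) 1 hpow (le_refl _)
  have hN2 : (N2 : ℝ) ≤ 1 ^ 2 * n := by
    have : N2 ≤ n := by omega
    have : (N2 : ℝ) ≤ n := by exact_mod_cast this
    linarith
  have b1 := h2 n (by omega) 1 (le_refl _) (by omega) 1 hpow (le_refl _) hN2
  have b2 := h2 n (by omega) n (by omega) (le_refl _) 1 hpow (le_refl _) hN2
  have e1 : max (((1 : ℕ) : ℝ) / n) (1 / 2) = 1 / 2 := by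
    apply max_eq_right
    rw [Nat.cast_one]
    apply one_div_le_one_div_of_le (by norm_num)
    have : 2 ≤ n := by omega
    exact_mod_cast this
  have e2 : max ((n : ℝ) / n) (1 / 2) = 1 := by
    rw [div_self hn'.ne']
    norm_num
  rw [e1, h_half, div_self hlog.ne'] at b1
  rw [e2, Real.binEntropy_one, zero_div, mul_zero, sub_zero] at b2
  rw [abs_le] at a1 a2 b1 b2
  linarith [a1.1, a1.2, a2.1, a2.2, b1.1, b1.2, b2.1, b2.2]

end BC
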