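import Mathlib

/-!
# Fourier analytic tools: scaled dominated convergence, coefficient extraction along a curve
-/

open scoped BigOperators Topology
open MeasureTheory Filter Set

namespace BC

lemma scaled_dct {E : Type*} [NormedAddCommGroup E] [NormedSpace ℝ E]
    (F : ℕ → ℝ → E) (G : ℝ → E) (C c : ℝ) (hc : 0 < c)
    (hF : ∀ n, Continuous (F n))
    (hb : ∀ (n : ℕ) (θ : ℝ), |θ| ≤ Real.pi → ‖F n θ‖ ≤ C * Real.exp (-c * (n * θ ^ 2)))
    (hl : ∀ t : ℝ, Tendsto (fun n : ℕ => F n (t / Real.sqrt n)) atTop (𝓝 (G t))) :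
    Tendsto (fun n : ℕ => Real.sqrt n • ∫ θ in (-Real.pi)..Real.pi, F n θ) atTop
      (𝓝 (∫ t, G t)) := by
  have hC : 0 ≤ C := by
    have h := hb 0 0 (by simpa using Real.pi_pos.le)
    have := norm_nonneg (F 0 0)
    simp at h
    linarith
  set H : ℕ → ℝ → E := fun n => (Ioc (-(Real.pi * Real.sqrt n)) (Real.pi * Real.sqrt n)).indicator
    (fun t => F n (t / Real.sqrt n)) with hH
  have e1 : ∀ᶠ n : ℕ in atTop,
      (∫ t, H n t) = Real.sqrt n • ∫ θ in (-Real.pi)..Real.pi, F n θ := by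
    filter_upwards [eventually_gt_atTop 0] with n hn
    have hs : 0 < Real.sqrt n := Real.sqrt_pos.2 (by exact_mod_cast hn)
    rw [hH]
    simp only []
    rw [integral_indicator measurableSet_Ioc, ← intervalIntegral.integral_of_le
      (by nlinarith [Real.pi_pos]), intervalIntegral.integral_comp_div _ hs.ne']
    congr 2
    all_goals field_simp
  refine Tendsto.congr' e1 ?_
  refine tendsto_integral_of_dominated_convergence (fun t => C * Real.exp (-c * t ^ 2)) ?_ ?_ ?_ ?_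
  · intro n
    exact (((hF n).comp (continuous_id.div_const _)).aestronglyMeasurable).indicator
      measurableSet_Ioc
  · exact (integrable_exp_neg_mul_sq hc).const_mul C
  · intro n
    refine Filter.Eventually.of_forall (fun t => ?_)
    simp only [hH]
    by_cases ht : t ∈ Ioc (-(Real.pi * Real.sqrt n)) (Real.pi * Real.sqrt n)
    · rw [indicator_of_mem ht]
      rcases Nat.eq_zero_or_pos n with hn | hn
      · subst hn
        simp at ht
      have hs : 0 < Real.sqrt n := Real.sqrt_pos.2 (by exact_mod_cast hn)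
      have h1 : |t / Real.sqrt n| ≤ Real.pi := by
        rw [abs_div, abs_of_pos hs, div_le_iff₀ hs, abs_le]
        exact ⟨ht.1.le, ht.2⟩
      refine (hb n _ h1).trans (le_of_eq ?_)
      congr 2
      rw [div_pow, Real.sq_sqrt (Nat.cast_nonneg n)]
      have : (n : ℝ) ≠ 0 := by exact_mod_cast hn.ne'
      field_simp
    · rw [indicator_of_notMem ht, norm_zero]
      positivity
  · refine Filter.Eventually.of_forall (fun t => ?_)
    refine (hl t).congr' ?_
    have h1 : Tendsto (fun n : ℕ => Real.pi * Real.sqrt n) atTop atTop :=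
      (Real.tendsto_sqrt_atTop.comp tendsto_natCast_atTop_atTop).const_mul_atTop Real.pi_pos
    filter_upwards [h1.eventually_gt_atTop |t|] with n hn
    simp only [hH]
    rw [indicator_of_mem]
    rw [abs_lt] at hn
    exact ⟨hn.1, hn.2.le⟩

/-- the regularised square -/
noncomputable def qf (ρ θ : ℝ) : ℝ := ρ * θ ^ 2 / (ρ + θ ^ 2)

/-- its derivative -/
noncomputable def qf' (ρ θ : ℝ) : ℝ := 2 * ρ ^ 2 * θ / (ρ + θ ^ 2) ^ 2

section
variable {ρ : ℝ} (hρ : 0 < ρ)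
include hρ

lemma qf_nonneg (θ : ℝ) : 0 ≤ qf ρ θ := by unfold qf; positivity

lemma qf_le_sq (θ : ℝ) : qf ρ θ ≤ θ ^ 2 := by
  unfold qf
  rw [div_le_iff₀ (by positivity)]
  nlinarith [sq_nonneg θ, sq_nonneg (θ ^ 2)]

lemma qf_le (θ : ℝ) : qf ρ θ ≤ ρ := by
  unfold qf
  rw [div_le_iff₀ (by positivity)]
  nlinarith [sq_nonneg θ, sq_nonneg (θ ^ 2)]

lemma qf_ge {θ : ℝ} (hθ : |θ| ≤ Real.pi) : ρ / (ρ + Real.pi ^ 2) * θ ^ 2 ≤ qf ρ θ := by
  unfold qf
  rw [div_mul_eq_mul_div]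
  have : θ ^ 2 ≤ Real.pi ^ 2 := by
    rw [← sq_abs θ]
    exact pow_le_pow_left₀ (abs_nonneg _) hθ 2
  exact div_le_div_of_nonneg_left (by positivity) (by positivity) (by linarith)

lemma hasDerivAt_qf (θ : ℝ) : HasDerivAt (qf ρ) (qf' ρ θ) θ := by
  unfold qf qf'
  have h1 : HasDerivAt (fun θ : ℝ => ρ * θ ^ 2) (ρ * (2 * θ)) θ := by
    have := (hasDerivAt_pow 2 θ).const_mul ρ
    simpa using this
  have h2 : HasDerivAt (fun θ : ℝ => ρ + θ ^ 2) (2 * θ) θ := by
    have := (hasDerivAt_pow 2 θ).const_add ρ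
    simpa using this
  have h3 := h1.div h2 (by positivity)
  refine h3.congr_deriv ?_
  have : ρ + θ ^ 2 ≠ 0 := by positivity
  field_simp
  ring

lemma continuous_qf : Continuous (qf ρ) := by
  unfold qf
  refine Continuous.div (by fun_prop) (by fun_prop) (fun x => by positivity)

lemma continuous_qf' : Continuous (qf' ρ) := by
  unfold qf'
  refine Continuous.div (by fun_prop) (by fun_prop) (fun x => by positivity)

lemma abs_qf'_le (θ : ℝ) : |qf' ρ θ| ≤ 2 * |θ| := by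
  unfold qf'
  rw [abs_div, abs_mul, abs_of_nonneg (by positivity : (0:ℝ) ≤ 2 * ρ ^ 2),
    abs_of_nonneg (by positivity : (0:ℝ) ≤ (ρ + θ ^ 2) ^ 2), div_le_iff₀ (by positivity)]
  have : ρ ^ 2 ≤ (ρ + θ ^ 2) ^ 2 := pow_le_pow_left₀ hρ.le (by nlinarith [sq_nonneg θ]) 2
  nlinarith [abs_nonneg θ]

lemma tendsto_qf (t : ℝ) :
    Tendsto (fun n : ℕ => (n : ℝ) * qf ρ (t / Real.sqrt n)) atTop (𝓝 (t ^ 2)) := by
  have h0 : Tendsto (fun n : ℕ => t ^ 2 / (n : ℝ)) atTop (𝓝 0) :=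
    tendsto_const_div_atTop_nhds_zero_nat _
  have h1 : Tendsto (fun n : ℕ => ρ * t ^ 2 / (ρ + t ^ 2 / (n : ℝ))) atTop
      (𝓝 (ρ * t ^ 2 / (ρ + 0))) :=
    Tendsto.div tendsto_const_nhds (tendsto_const_nhds.add h0) (by simpa using hρ.ne')
  have h2 : ρ * t ^ 2 / (ρ + 0) = t ^ 2 := by
    rw [add_zero]; field_simp
  rw [h2] at h1
  refine h1.congr' ?_
  filter_upwards [eventually_gt_atTop 0] with n hn
  have hn' : (n : ℝ) ≠ 0 := by exact_mod_cast hn.ne'
  unfold qf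
  rw [div_pow, Real.sq_sqrt (Nat.cast_nonneg n)]
  have hpos : 0 < ρ + t ^ 2 / (n : ℝ) := by positivity
  field_simp

/-- integral of a character along the curve `κ qf(θ) + i θ` -/
lemma char_int (κ : ℝ) (m : ℤ) :
    ∫ θ in (-Real.pi)..Real.pi,
      Complex.exp ((m : ℂ) * (((κ * qf ρ θ : ℝ) : ℂ) + θ * Complex.I))
        * (1 - Complex.I * ((κ * qf' ρ θ : ℝ) : ℂ))
      = if m = 0 then 2 * (Real.pi : ℂ) else 0 := by
  have hd : ∀ θ : ℝ, HasDerivAt (fun θ : ℝ => (((κ * qf ρ θ : ℝ) : ℂ) + θ * Complex.I))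
      (((κ * qf' ρ θ : ℝ) : ℂ) + Complex.I) θ := by
    intro θ
    have h1 : HasDerivAt (fun θ : ℝ => ((κ * qf ρ θ : ℝ) : ℂ)) ((κ * qf' ρ θ : ℝ) : ℂ) θ :=
      ((hasDerivAt_qf hρ θ).const_mul κ).ofReal_comp
    have h2 : HasDerivAt (fun θ : ℝ => (θ : ℂ) * Complex.I) Complex.I θ := by
      have := (Complex.ofRealCLM.hasDerivAt (x := θ)).mul_const Complex.I
      simpa using this
    exact h1.add h2
  have hqe : qf ρ (-Real.pi) = qf ρ Real.pi := by unfold qf; simp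
  have cqf := continuous_qf hρ
  have cqf' := continuous_qf' hρ
  have cI : Continuous fun θ : ℝ =>
      Complex.exp ((m : ℂ) * (((κ * qf ρ θ : ℝ) : ℂ) + θ * Complex.I))
        * (1 - Complex.I * ((κ * qf' ρ θ : ℝ) : ℂ)) := by fun_prop
  split_ifs with hm
  · subst hm
    have h := intervalIntegral.integral_eq_sub_of_hasDerivAt
      (f := fun θ : ℝ => -Complex.I * (((κ * qf ρ θ : ℝ) : ℂ) + θ * Complex.I))
      (f' := fun θ : ℝ => -Complex.I * (((κ * qf' ρ θ : ℝ) : ℂ) + Complex.I))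
      (a := -Real.pi) (b := Real.pi)
      (fun θ _ => (hd θ).const_mul _)
      ((by fun_prop : Continuous fun θ : ℝ =>
        -Complex.I * (((κ * qf' ρ θ : ℝ) : ℂ) + Complex.I)).intervalIntegrable _ _)
    have e : ∀ θ : ℝ, Complex.exp (((0 : ℤ) : ℂ) * (((κ * qf ρ θ : ℝ) : ℂ) + θ * Complex.I))
        * (1 - Complex.I * ((κ * qf' ρ θ : ℝ) : ℂ))
        = -Complex.I * (((κ * qf' ρ θ : ℝ) : ℂ) + Complex.I) := by
      intro θ
      simp only [Int.cast_zero, zero_mul, Complex.exp_zero, one_mul]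
      ring_nf
      rw [Complex.I_sq]
      ring
    simp only [e]
    rw [h, hqe]
    push_cast
    ring_nf
    rw [Complex.I_sq]
    ring
  · have hmc : (m : ℂ) ≠ 0 := by exact_mod_cast hm
    have h := intervalIntegral.integral_eq_sub_of_hasDerivAt
      (f := fun θ : ℝ => (-Complex.I / (m : ℂ)) *
        Complex.exp ((m : ℂ) * (((κ * qf ρ θ : ℝ) : ℂ) + θ * Complex.I)))
      (f' := fun θ : ℝ => (-Complex.I / (m : ℂ)) *
        (Complex.exp ((m : ℂ) * (((κ * qf ρ θ : ℝ) : ℂ) + θ * Complex.I))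
        * ((m : ℂ) * (((κ * qf' ρ θ : ℝ) : ℂ) + Complex.I))))
      (a := -Real.pi) (b := Real.pi)
      (fun θ _ => (((hd θ).const_mul (m : ℂ)).cexp).const_mul _)
      ((by fun_prop : Continuous fun θ : ℝ => (-Complex.I / (m : ℂ)) *
        (Complex.exp ((m : ℂ) * (((κ * qf ρ θ : ℝ) : ℂ) + θ * Complex.I))
        * ((m : ℂ) * (((κ * qf' ρ θ : ℝ) : ℂ) + Complex.I)))).intervalIntegrable _ _)
    have e : ∀ θ : ℝ, Complex.exp ((m : ℂ) * (((κ * qf ρ θ : ℝ) : ℂ) + θ * Complex.I))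
        * (1 - Complex.I * ((κ * qf' ρ θ : ℝ) : ℂ))
        = (-Complex.I / (m : ℂ)) *
        (Complex.exp ((m : ℂ) * (((κ * qf ρ θ : ℝ) : ℂ) + θ * Complex.I))
        * ((m : ℂ) * (((κ * qf' ρ θ : ℝ) : ℂ) + Complex.I))) := by
      intro θ
      field_simp
      ring_nf
      rw [Complex.I_sq]
      ring
    simp only [e]
    rw [h, hqe]
    have e2 : Complex.exp ((m : ℂ) * (((κ * qf ρ Real.pi : ℝ) : ℂ) + ((Real.pi : ℝ) : ℂ) * Complex.I))
        = Complex.exp ((m : ℂ) * (((κ * qf ρ Real.pi : ℝ) : ℂ)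
          + ((-Real.pi : ℝ) : ℂ) * Complex.I)) := by
      rw [Complex.exp_eq_exp_iff_exists_int]
      refine ⟨m, ?_⟩
      push_cast
      ring
    rw [e2, sub_self]

/-- coefficient extraction -/
lemma coeff_int {ι : Type*} (κ : ℝ) (S : Finset ι) (e : ι → ℕ) (lam : ℕ) :
    ∫ θ in (-Real.pi)..Real.pi,
      (∑ i ∈ S, Complex.exp (((κ * qf ρ θ : ℝ) : ℂ) + θ * Complex.I) ^ (e i))
        * Complex.exp (-((lam : ℂ) * (((κ * qf ρ θ : ℝ) : ℂ) + θ * Complex.I)))
        * (1 - Complex.I * ((κ * qf' ρ θ : ℝ) : ℂ))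
      = 2 * (Real.pi : ℂ) * ((S.filter (fun i => e i = lam)).card : ℂ) := by
  have cqf := continuous_qf hρ
  have cqf' := continuous_qf' hρ
  have e1 : ∀ θ : ℝ,
      (∑ i ∈ S, Complex.exp (((κ * qf ρ θ : ℝ) : ℂ) + θ * Complex.I) ^ (e i))
        * Complex.exp (-((lam : ℂ) * (((κ * qf ρ θ : ℝ) : ℂ) + θ * Complex.I)))
        * (1 - Complex.I * ((κ * qf' ρ θ : ℝ) : ℂ))
      = ∑ i ∈ S, Complex.exp ((((e i : ℤ) - (lam : ℤ) : ℤ) : ℂ)
          * (((κ * qf ρ θ : ℝ) : ℂ) + θ * Complex.I))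
        * (1 - Complex.I * ((κ * qf' ρ θ : ℝ) : ℂ)) := by
    intro θ
    rw [Finset.sum_mul, Finset.sum_mul]
    refine Finset.sum_congr rfl (fun i _ => ?_)
    rw [← Complex.exp_nat_mul, ← Complex.exp_add]
    congr 2
    push_cast
    ring
  simp only [e1]
  rw [intervalIntegral.integral_finsetSum]
  · simp only [char_int hρ κ]
    rw [← Finset.sum_filter, Finset.sum_const, nsmul_eq_mul]
    have : S.filter (fun i => ((e i : ℤ) - (lam : ℤ)) = 0) = S.filter (fun i => e i = lam) := by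
      ext i
      simp only [Finset.mem_filter]
      refine and_congr_right (fun _ => ?_)
      omega
    rw [this]
    ring
  · intro i _
    exact (by fun_prop : Continuous fun θ : ℝ => Complex.exp ((((e i : ℤ) - (lam : ℤ) : ℤ) : ℂ)
          * (((κ * qf ρ θ : ℝ) : ℂ) + θ * Complex.I))
        * (1 - Complex.I * ((κ * qf' ρ θ : ℝ) : ℂ))).intervalIntegrable _ _

/-- the limiting Gaussian integral -/
lemma gauss_limit (κ K v : ℝ) (hv : 0 < v) (hK : 0 ≤ K) (hKρ : K * ρ ≤ v / 4) :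
    Tendsto (fun n : ℕ => Real.sqrt n * ∫ θ in (-Real.pi)..Real.pi,
      (1 + 2 * |κ| * |θ|) * Real.exp (-(n * (1 / 2 * v * qf ρ θ - K * qf ρ θ ^ 2)))) atTop
      (𝓝 (Real.sqrt (2 * Real.pi / v))) := by
  have cqf := continuous_qf hρ
  have e : ∫ t : ℝ, Real.exp (-(v / 2) * t ^ 2) = Real.sqrt (2 * Real.pi / v) := by
    rw [integral_gaussian]
    congr 1
    field_simp
  rw [← e]
  have := scaled_dct (F := fun (n : ℕ) (θ : ℝ) =>
      (1 + 2 * |κ| * |θ|) * Real.exp (-(n * (1 / 2 * v * qf ρ θ - K * qf ρ θ ^ 2))))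
    (G := fun t => Real.exp (-(v / 2) * t ^ 2)) (1 + 2 * |κ| * Real.pi)
    (v / 4 * (ρ / (ρ + Real.pi ^ 2))) (by positivity) (fun n => by fun_prop) ?_ ?_
  · simpa only [smul_eq_mul] using this
  · intro n θ hθ
    rw [norm_mul, Real.norm_of_nonneg (by positivity), Real.norm_of_nonneg (Real.exp_nonneg _)]
    refine mul_le_mul ?_ ?_ (Real.exp_nonneg _) (by positivity)
    · have := mul_le_mul_of_nonneg_left hθ (by positivity : 0 ≤ 2 * |κ|)
      linarith
    · rw [Real.exp_le_exp]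
      have h1 := qf_ge hρ hθ
      have h2 := qf_nonneg hρ θ
      have h3 := qf_le hρ θ
      have h4 : K * qf ρ θ ^ 2 ≤ v / 4 * qf ρ θ := by
        calc K * qf ρ θ ^ 2 = K * qf ρ θ * qf ρ θ := by ring
          _ ≤ K * ρ * qf ρ θ := by gcongr
          _ ≤ v / 4 * qf ρ θ := by gcongr
      have h5 : v / 4 * (ρ / (ρ + Real.pi ^ 2) * θ ^ 2) ≤ v / 4 * qf ρ θ := by gcongr
      have h6 : (0 : ℝ) ≤ n := Nat.cast_nonneg n
      nlinarith
  · intro t
    have h1 := tendsto_qf hρ t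
    have hs : Tendsto (fun n : ℕ => t / Real.sqrt n) atTop (𝓝 0) :=
      Tendsto.div_atTop tendsto_const_nhds
        (Real.tendsto_sqrt_atTop.comp tendsto_natCast_atTop_atTop)
    have h2 : Tendsto (fun n : ℕ => qf ρ (t / Real.sqrt n)) atTop (𝓝 0) := by
      have h := (cqf.tendsto 0).comp hs
      have e0 : qf ρ 0 = 0 := by simp [qf]
      rw [e0] at h
      exact h
    have h3 : Tendsto (fun n : ℕ => (1 + 2 * |κ| * |t / Real.sqrt n|)) atTop
        (𝓝 (1 + 2 * |κ| * |0|)) := (hs.abs.const_mul _).const_add _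
    have h4 : Tendsto (fun n : ℕ => -(1 / 2 * v * ((n : ℝ) * qf ρ (t / Real.sqrt n))
        - K * (((n : ℝ) * qf ρ (t / Real.sqrt n)) * qf ρ (t / Real.sqrt n)))) atTop
        (𝓝 (-(1 / 2 * v * t ^ 2 - K * (t ^ 2 * 0)))) :=
      ((h1.const_mul _).sub ((h1.mul h2).const_mul K)).neg
    have h5 := h3.mul ((Real.continuous_exp.tendsto _).comp h4)
    have e5 : (1 + 2 * |κ| * |(0:ℝ)|) * Real.exp (-(1 / 2 * v * t ^ 2 - K * (t ^ 2 * 0)))
        = Real.exp (-(v / 2) * t ^ 2) := by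
      simp only [abs_zero, mul_zero, add_zero, one_mul, sub_zero]
      congr 1
      ring
    rw [e5] at h5
    refine h5.congr (fun n => ?_)
    simp only [Function.comp]
    congr 2
    ring

end

end BC
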