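import Pool.Agent.Lib_helper28.BCTens2
import Pool.Agent.Lib_helper28.BCFour

/-!
# The Fourier upper bound for the density
-/

open scoped BigOperators Topology
open Filter Set

namespace BC

/-- number of pairs with intersection size `lam` -/
def NN {n : ℕ} (𝒜 ℬ : Finset (Fin n → Bool)) (lam : ℕ) : ℕ :=
  ((𝒜 ×ˢ ℬ).filter (fun p => ic p.1 p.2 = lam)).card

/-- pointwise bound on the integrand -/
lemma integrand_bound (σ κ M0 : ℝ) (hσ : 0 < σ)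
    (hM : ∀ s t : ℝ, 0 ≤ s → s ≤ 1 → 0 ≤ t → t ≤ 1 →
      σ * (Real.binEntropy s + Real.binEntropy t) + κ * (s * t)
        - 1 / 2 * (s * (1 - s) * (t * (1 - t))) ≤ M0)
    {q θ : ℝ} (hq0 : 0 ≤ q) (hq1 : q ≤ 1) (hq2 : σ * q ≤ 1 / 10) (hq3 : |κ| * q ≤ 1 / 10)
    (hθ1 : q ≤ θ ^ 2) (hθ2 : |θ| ≤ Real.pi) {n : ℕ} (𝒜 ℬ : Finset (Fin n → Bool))
    (hA : 0 < 𝒜.card) (hB : 0 < ℬ.card) :
    ‖∑ x ∈ 𝒜, ∑ y ∈ ℬ, Complex.exp (((κ * q : ℝ) : ℂ) + θ * Complex.I) ^ (ic x y)‖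
      ≤ (𝒜.card : ℝ) * ℬ.card
        * Real.exp (n * (q * M0 + Kc σ κ * q ^ 2) - σ * q * Real.log (𝒜.card * ℬ.card)) := by
  have hAB : (0:ℝ) < (𝒜.card : ℝ) * ℬ.card := by positivity
  rcases hq0.eq_or_lt with h0 | hqpos
  · subst_vars
    have : Real.exp (n * (0 * M0 + Kc σ κ * 0 ^ 2)
        - σ * 0 * Real.log (𝒜.card * ℬ.card)) = 1 := by simp
    rw [this, mul_one]
    refine (norm_sum_le _ _).trans ?_
    have : ∀ x ∈ 𝒜, ‖∑ y ∈ ℬ, Complex.exp (((κ * 0 : ℝ) : ℂ) + θ * Complex.I) ^ (ic x y)‖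
        ≤ ℬ.card := by
      intro x _
      refine (norm_sum_le _ _).trans ?_
      rw [← nsmul_one]
      refine (Finset.sum_le_card_nsmul _ _ 1 (fun y _ => ?_))
      rw [norm_pow, Complex.norm_exp]
      simp
    refine (Finset.sum_le_card_nsmul _ _ _ this).trans ?_
    rw [nsmul_eq_mul]
  have h2 := two_point_norm σ κ M0 hσ.le hM hq0 hq1 hq2 hq3 hθ1 hθ2
  have h3 := tens_indicator (((Real.exp (κ * q) : ℝ) : ℂ) * Complex.exp (θ * Complex.I))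
    (Real.exp (q * M0 + Kc σ κ * q ^ 2)) (σ * q) (Real.exp_nonneg _) (by positivity)
    (by linarith) h2 n 𝒜 ℬ
  have e1 : ((Real.exp (κ * q) : ℝ) : ℂ) * Complex.exp (θ * Complex.I)
      = Complex.exp (((κ * q : ℝ) : ℂ) + θ * Complex.I) := by
    rw [Complex.exp_add, Complex.ofReal_exp]
  rw [e1] at h3
  refine h3.trans (le_of_eq ?_)
  rw [← Real.exp_nat_mul, Real.rpow_sub hAB, Real.rpow_one, Real.rpow_def_of_pos hAB, Real.exp_sub]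
  have : Real.log (𝒜.card * ℬ.card) * (σ * q) = σ * q * Real.log (𝒜.card * ℬ.card) := by ring
  rw [this]
  have := (Real.exp_pos (σ * q * Real.log (𝒜.card * ℬ.card))).ne'
  field_simp

theorem density_le (σ κ M0 : ℝ) (hσ : 0 < σ)
    (hM : ∀ s t : ℝ, 0 ≤ s → s ≤ 1 → 0 ≤ t → t ≤ 1 →
      σ * (Real.binEntropy s + Real.binEntropy t) + κ * (s * t)
        - 1 / 2 * (s * (1 - s) * (t * (1 - t))) ≤ M0)
    (v : ℝ) {ρ : ℝ} (hρ : 0 < ρ) (hρ1 : ρ ≤ 1) (hρ2 : σ * ρ ≤ 1 / 10)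
    (hρ3 : |κ| * ρ ≤ 1 / 10) {n : ℕ} (lam : ℕ) (𝒜 ℬ : Finset (Fin n → Bool))
    (hA : 0 < 𝒜.card) (hB : 0 < ℬ.card)
    (hgap : n * M0 - σ * Real.log (𝒜.card * ℬ.card) - κ * lam ≤ -(1 / 2 * v * n)) :
    2 * Real.pi * (NN 𝒜 ℬ lam : ℝ) ≤ (𝒜.card : ℝ) * ℬ.card
      * ∫ θ in (-Real.pi)..Real.pi,
      (1 + 2 * |κ| * |θ|) * Real.exp (-(n * (1 / 2 * v * qf ρ θ - Kc σ κ * qf ρ θ ^ 2))) := by
  have cqf := continuous_qf hρ
  have cqf' := continuous_qf' hρ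
  have h := coeff_int hρ κ (𝒜 ×ˢ ℬ) (fun p => ic p.1 p.2) lam
  have e0 : 2 * Real.pi * (NN 𝒜 ℬ lam : ℝ)
      = ‖2 * (Real.pi : ℂ) * (((𝒜 ×ˢ ℬ).filter (fun p => ic p.1 p.2 = lam)).card : ℂ)‖ := by
    rw [norm_mul, norm_mul, Complex.norm_real, Complex.norm_natCast, Real.norm_of_nonneg
      Real.pi_pos.le]
    simp [NN]
  rw [e0, ← h]
  rw [← intervalIntegral.integral_const_mul]
  have hpi : -Real.pi ≤ Real.pi := by linarith [Real.pi_pos]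
  refine intervalIntegral.norm_integral_le_of_norm_le hpi ?_ ?_
  · refine MeasureTheory.ae_of_all _ (fun θ hθ => ?_)
    have hθ' : |θ| ≤ Real.pi := by rw [abs_le]; exact ⟨hθ.1.le, hθ.2⟩
    have hq0 := qf_nonneg hρ θ
    have hq1 := qf_le hρ θ
    have hq2 := qf_le_sq hρ θ
    have hb := integrand_bound σ κ M0 hσ hM hq0 (hq1.trans hρ1)
      ((mul_le_mul_of_nonneg_left hq1 hσ.le).trans hρ2)
      ((mul_le_mul_of_nonneg_left hq1 (abs_nonneg _)).trans hρ3) hq2 hθ' 𝒜 ℬ hA hB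
    rw [← Finset.sum_product'] at hb
    rw [norm_mul, norm_mul]
    have e1 : ‖Complex.exp (-((lam : ℂ) * (((κ * qf ρ θ : ℝ) : ℂ) + θ * Complex.I)))‖
        = Real.exp (-(lam * (κ * qf ρ θ))) := by
      rw [Complex.norm_exp]
      congr 1
      simp
    have e2 : ‖1 - Complex.I * ((κ * qf' ρ θ : ℝ) : ℂ)‖ ≤ 1 + 2 * |κ| * |θ| := by
      refine (norm_sub_le _ _).trans ?_
      rw [norm_one, norm_mul, Complex.norm_I, one_mul, Complex.norm_real, Real.norm_eq_abs,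
        abs_mul]
      have := mul_le_mul_of_nonneg_left (abs_qf'_le hρ θ) (abs_nonneg κ)
      linarith
    rw [e1]
    have hAB : (0:ℝ) < (𝒜.card : ℝ) * ℬ.card := by positivity
    calc _ ≤ ((𝒜.card : ℝ) * ℬ.card
        * Real.exp (n * (qf ρ θ * M0 + Kc σ κ * qf ρ θ ^ 2)
          - σ * qf ρ θ * Real.log (𝒜.card * ℬ.card))) * Real.exp (-(lam * (κ * qf ρ θ)))
          * (1 + 2 * |κ| * |θ|) := by
          gcongr
      _ = (𝒜.card : ℝ) * ℬ.card * ((1 + 2 * |κ| * |θ|)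
          * (Real.exp (n * (qf ρ θ * M0 + Kc σ κ * qf ρ θ ^ 2)
          - σ * qf ρ θ * Real.log (𝒜.card * ℬ.card)) * Real.exp (-(lam * (κ * qf ρ θ))))) := by
          ring
      _ ≤ _ := by
          rw [← Real.exp_add]
          refine mul_le_mul_of_nonneg_left (mul_le_mul_of_nonneg_left ?_ (by positivity)) hAB.le
          rw [Real.exp_le_exp]
          have := mul_le_mul_of_nonneg_left hgap hq0
          nlinarith
  · exact (by fun_prop : Continuous fun θ : ℝ => (𝒜.card : ℝ) * ℬ.card *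
      ((1 + 2 * |κ| * |θ|) * Real.exp (-(n * (1 / 2 * v * qf ρ θ
        - Kc σ κ * qf ρ θ ^ 2))))).intervalIntegrable _ _

lemma Kc_pos (σ κ : ℝ) (hσ : 0 ≤ σ) : 0 < Kc σ κ := by
  unfold Kc
  have := abs_nonneg κ
  positivity

/-- the asymptotic form -/
theorem density_asymp (σ κ M0 : ℝ) (hσ : 0 < σ)
    (hM : ∀ s t : ℝ, 0 ≤ s → s ≤ 1 → 0 ≤ t → t ≤ 1 →
      σ * (Real.binEntropy s + Real.binEntropy t) + κ * (s * t)
        - 1 / 2 * (s * (1 - s) * (t * (1 - t))) ≤ M0)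
    (v v1 : ℝ) (hv1 : 0 < v1) (hv : v1 < v) :
    ∃ n0 : ℕ, ∀ n ≥ n0, ∀ (lam : ℕ) (𝒜 ℬ : Finset (Fin n → Bool)),
      0 < 𝒜.card → 0 < ℬ.card →
      n * M0 - σ * Real.log (𝒜.card * ℬ.card) - κ * lam ≤ -(1 / 2 * v * n) →
      (NN 𝒜 ℬ lam : ℝ) ^ 2 * (2 * Real.pi * n * v1) ≤ ((𝒜.card : ℝ) * ℬ.card) ^ 2 := by
  have hv0 : 0 < v := hv1.trans hv
  have hK := Kc_pos σ κ hσ.le
  obtain ⟨ρ, hρ, hρ1, hρ2, hρ3, hρ4⟩ : ∃ ρ : ℝ, 0 < ρ ∧ ρ ≤ 1 ∧ σ * ρ ≤ 1 / 10 ∧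
      |κ| * ρ ≤ 1 / 10 ∧ Kc σ κ * ρ ≤ v / 4 := by
    refine ⟨min (min 1 (1 / (10 * σ))) (min (1 / (10 * (|κ| + 1))) (v / (4 * Kc σ κ))), ?_, ?_,
      ?_, ?_, ?_⟩
    · refine lt_min (lt_min one_pos (by positivity)) (lt_min ?_ (by positivity))
      have := abs_nonneg κ
      positivity
    · exact (min_le_left _ _).trans (min_le_left _ _)
    · calc σ * _ ≤ σ * (1 / (10 * σ)) :=
            mul_le_mul_of_nonneg_left ((min_le_left _ _).trans (min_le_right _ _)) hσ.le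
        _ = 1 / 10 := by field_simp
    · have hk := abs_nonneg κ
      calc |κ| * _ ≤ |κ| * (1 / (10 * (|κ| + 1))) :=
            mul_le_mul_of_nonneg_left ((min_le_right _ _).trans (min_le_left _ _)) hk
        _ ≤ 1 / 10 := by
            rw [mul_one_div, div_le_div_iff₀ (by positivity) (by norm_num)]
            linarith
    · calc Kc σ κ * _ ≤ Kc σ κ * (v / (4 * Kc σ κ)) :=
            mul_le_mul_of_nonneg_left ((min_le_right _ _).trans (min_le_right _ _)) hK.le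
        _ = v / 4 := by field_simp
  have hlim := gauss_limit hρ κ (Kc σ κ) v hv0 hK.le hρ4
  have hlt : Real.sqrt (2 * Real.pi / v) < Real.sqrt (2 * Real.pi / v1) := by
    apply Real.sqrt_lt_sqrt (by positivity)
    have := Real.pi_pos
    gcongr
  have hev := (hlim.eventually_lt_const hlt)
  obtain ⟨n0, hn0⟩ := eventually_atTop.1 hev
  refine ⟨n0 + 1, fun n hn lam 𝒜 ℬ hA hB hgap => ?_⟩
  have h1 := hn0 n (by omega)
  have h2 := density_le σ κ M0 hσ hM v hρ hρ1 hρ2 hρ3 lam 𝒜 ℬ hA hB hgap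
  set I := ∫ θ in (-Real.pi)..Real.pi,
      (1 + 2 * |κ| * |θ|) * Real.exp (-(n * (1 / 2 * v * qf ρ θ - Kc σ κ * qf ρ θ ^ 2))) with hI
  have hn1 : (0:ℝ) < n := by
    have : 0 < n := by omega
    exact_mod_cast this
  have hs : 0 < Real.sqrt n := Real.sqrt_pos.2 hn1
  have hAB : (0:ℝ) < (𝒜.card : ℝ) * ℬ.card := by positivity
  have hN : (0:ℝ) ≤ (NN 𝒜 ℬ lam : ℝ) := Nat.cast_nonneg _
  have h3 : 2 * Real.pi * (NN 𝒜 ℬ lam : ℝ) * Real.sqrt n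
      ≤ (𝒜.card : ℝ) * ℬ.card * Real.sqrt (2 * Real.pi / v1) := by
    calc 2 * Real.pi * (NN 𝒜 ℬ lam : ℝ) * Real.sqrt n
        ≤ (𝒜.card : ℝ) * ℬ.card * I * Real.sqrt n := mul_le_mul_of_nonneg_right h2 hs.le
      _ = (𝒜.card : ℝ) * ℬ.card * (Real.sqrt n * I) := by ring
      _ ≤ (𝒜.card : ℝ) * ℬ.card * Real.sqrt (2 * Real.pi / v1) :=
          mul_le_mul_of_nonneg_left h1.le hAB.le
  have h4 := pow_le_pow_left₀ (by positivity) h3 2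
  rw [mul_pow, mul_pow, mul_pow (_ * _) (Real.sqrt _) 2, Real.sq_sqrt hn1.le,
    Real.sq_sqrt (by positivity)] at h4
  have hpi := Real.pi_pos
  have h5 : (NN 𝒜 ℬ lam : ℝ) ^ 2 * (2 * Real.pi * n * v1)
      = (2 * Real.pi) ^ 2 * (NN 𝒜 ℬ lam : ℝ) ^ 2 * n * (v1 / (2 * Real.pi)) := by
    field_simp
  rw [h5]
  calc (2 * Real.pi) ^ 2 * (NN 𝒜 ℬ lam : ℝ) ^ 2 * n * (v1 / (2 * Real.pi))
      ≤ (((𝒜.card : ℝ) * ℬ.card) ^ 2 * (2 * Real.pi / v1)) * (v1 / (2 * Real.pi)) :=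
        mul_le_mul_of_nonneg_right h4 (by positivity)
    _ = ((𝒜.card : ℝ) * ℬ.card) ^ 2 := by field_simp

end BC
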