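import Pool.Agent.Lib_helper28.BCPsi
import Pool.Agent.Lib_helper28.BCUp

/-!
# The upper bound
-/

open scoped BigOperators Topology
open Set Filter

namespace BC

/-- indicator function of a set -/
def ind {n : ℕ} (A : Finset (Fin n)) : Fin n → Bool := fun i => decide (i ∈ A)

lemma ind_inj {n : ℕ} : Function.Injective (ind (n := n)) := by
  intro A B h
  ext i
  have := congrFun h i
  simpa [ind] using this

lemma ic_ind {n : ℕ} (A B : Finset (Fin n)) : ic (ind A) (ind B) = (A ∩ B).card := by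
  unfold ic ind
  rw [← Finset.sum_filter, Finset.sum_const, smul_eq_mul, mul_one]
  congr 1
  ext i
  simp

lemma good_families {n lam : ℕ} {c : ℝ} {m : ℕ} (h : Good n lam c m) :
    ∃ 𝒜 ℬ : Finset (Fin n → Bool), 𝒜.card = m ∧ ℬ.card = m ∧
      c * (m : ℝ) ^ 2 ≤ (NN 𝒜 ℬ lam : ℝ) := by
  classical
  obtain ⟨𝒜, ℬ, hA, hB, hc⟩ := h
  refine ⟨𝒜.image ind, ℬ.image ind, ?_, ?_, ?_⟩
  · rw [Finset.card_image_of_injective _ ind_inj, hA]
  · rw [Finset.card_image_of_injective _ ind_inj, hB]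
  · refine hc.trans (le_of_eq ?_)
    unfold NN
    congr 1
    refine Finset.card_bij (fun p _ => (ind p.1, ind p.2)) ?_ ?_ ?_
    · rintro ⟨A, B⟩ hp
      rw [Finset.mem_filter, Finset.mem_product] at hp ⊢
      exact ⟨⟨Finset.mem_image_of_mem _ hp.1.1, Finset.mem_image_of_mem _ hp.1.2⟩,
        by simpa [ic_ind] using hp.2⟩
    · rintro ⟨A, B⟩ _ ⟨A', B'⟩ _ hh
      rw [Prod.mk.injEq] at hh
      exact Prod.ext (ind_inj hh.1) (ind_inj hh.2)
    · rintro ⟨x, y⟩ hp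
      rw [Finset.mem_filter, Finset.mem_product] at hp
      obtain ⟨⟨hx, hy⟩, hxy⟩ := hp
      obtain ⟨A, hA', rfl⟩ := Finset.mem_image.1 hx
      obtain ⟨B, hB', rfl⟩ := Finset.mem_image.1 hy
      exact ⟨(A, B), by
        rw [Finset.mem_filter, Finset.mem_product]
        exact ⟨⟨hA', hB'⟩, by simpa [ic_ind] using hxy⟩, rfl⟩

lemma good_card_le {n lam : ℕ} {c : ℝ} {m : ℕ} (h : Good n lam c m) : m ≤ 2 ^ n := by
  obtain ⟨𝒜, ℬ, hA, hB, hc⟩ := h
  rw [← hA]
  calc 𝒜.card ≤ (Finset.univ : Finset (Finset (Fin n))).card :=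
        Finset.card_le_card (Finset.subset_univ _)
    _ = 2 ^ n := by simp

lemma log_sq_bounds {n m : ℕ} (hm : 1 ≤ m) (hm2 : m ≤ 2 ^ n) :
    0 ≤ Real.log ((m : ℝ) ^ 2) ∧ Real.log ((m : ℝ) ^ 2) ≤ n * (2 * Real.log 2) := by
  have h1 : (1:ℝ) ≤ m := by exact_mod_cast hm
  have h2 : (m : ℝ) ≤ 2 ^ n := by exact_mod_cast hm2
  constructor
  · exact Real.log_nonneg (one_le_pow₀ h1)
  · rw [Real.log_pow]
    have := Real.log_le_log (by linarith) h2
    rw [Real.log_pow] at this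
    push_cast
    nlinarith

/-- entropy bound for `Good` families -/
lemma good_ent {n lam : ℕ} {c : ℝ} {m : ℕ} (hn : 0 < n) (hc : 0 < c) (hm : 1 ≤ m)
    (h : Good n lam c m) :
    ∃ r, Feas ((lam : ℝ) / n) (Real.log (1 / c) / n) (1 / 16) r ∧
      Real.log ((m : ℝ) ^ 2) / n ≤ Real.log (1 / c) / n + r.1 := by
  obtain ⟨𝒜, ℬ, hA, hB, hcN⟩ := good_families h
  have hn' : (0:ℝ) < n := by exact_mod_cast hn
  have hm' : (0:ℝ) < m := by exact_mod_cast hm
  have hNpos : (0:ℝ) < (NN 𝒜 ℬ lam : ℝ) := lt_of_lt_of_le (by positivity) hcN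
  have hNpos' : 0 < NN 𝒜 ℬ lam := by exact_mod_cast hNpos
  obtain ⟨r, hr, h1, h2, h3⟩ := ent n 𝒜 ℬ ((𝒜 ×ˢ ℬ).filter (fun p => ic p.1 p.2 = lam)) lam
    (Finset.card_pos.1 hNpos') (by
      rintro ⟨x, y⟩ hq
      rw [Finset.mem_filter, Finset.mem_product] at hq
      exact ⟨hq.1.1, hq.1.2, hq.2⟩)
  rw [hA, hB] at h2
  have e : ((((𝒜 ×ˢ ℬ).filter (fun p => ic p.1 p.2 = lam)).card : ℕ) : ℝ) = (NN 𝒜 ℬ lam : ℝ) := rfl
  rw [e] at h1
  have h4 : Real.log (c * (m : ℝ) ^ 2) ≤ Real.log (NN 𝒜 ℬ lam : ℝ) :=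
    Real.log_le_log (by positivity) hcN
  rw [Real.log_mul hc.ne' (by positivity)] at h4
  have h5 : Real.log (1 / c) = -Real.log c := by rw [one_div, Real.log_inv]
  have h6 : Real.log ((m : ℝ) ^ 2) = Real.log m + Real.log m := by
    rw [Real.log_pow]; push_cast; ring
  refine ⟨r, ⟨hr, ?_, ?_, (Reg_subset_Box hr).2.2.2.2.2.2⟩, ?_⟩
  · rw [h5, le_div_iff₀ hn']
    nlinarith
  · rw [eq_div_iff hn'.ne']
    linarith
  · rw [h5, ← sub_le_iff_le_add', ← sub_div, div_le_iff₀ hn']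
    linarith

theorem upper (𝒰 : Ultrafilter ℕ) (n lam m : ℕ → ℕ) (c : ℕ → ℝ)
    (hn : Tendsto n 𝒰 atTop) (hn0 : ∀ k, 0 < n k)
    (hc0 : ∀ k, 0 < c k) (hc1 : ∀ k, c k ≤ 1) (hm : ∀ k, 1 ≤ m k)
    (hgood : ∀ k, Good (n k) (lam k) (c k) (m k))
    (l g v R : ℝ)
    (tl : Tendsto (fun k => (lam k : ℝ) / n k) 𝒰 (𝓝 l))
    (tg : Tendsto (fun k => Real.log (1 / c k) / n k) 𝒰 (𝓝 g))
    (tv : Tendsto (fun k => min (1 / (2 * Real.pi * n k * c k ^ 2)) 1) 𝒰 (𝓝 v))
    (tR : Tendsto (fun k => Real.log ((m k : ℝ) ^ 2) / n k) 𝒰 (𝓝 R)) :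
    R ≤ Psi l g v := by
  have hn' : ∀ k, (0:ℝ) < n k := fun k => by exact_mod_cast hn0 k
  have hpi := Real.pi_pos
  have hR2 : R ≤ 2 * Real.log 2 := by
    refine le_of_tendsto' tR (fun k => ?_)
    rw [div_le_iff₀ (hn' k), mul_comm]
    exact (log_sq_bounds (hm k) (good_card_le (hgood k))).2
  have hR0 : 0 ≤ R := by
    refine ge_of_tendsto' tR (fun k => ?_)
    exact div_nonneg (log_sq_bounds (hm k) (good_card_le (hgood k))).1 (hn' k).le
  have hv0 : 0 ≤ v := by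
    refine ge_of_tendsto' tv (fun k => le_min ?_ zero_le_one)
    have := hn' k
    positivity
  -- entropy bound
  have hch : ∀ k, ∃ r, Feas ((lam k : ℝ) / n k) (Real.log (1 / c k) / n k) (1 / 16) r ∧
      Real.log ((m k : ℝ) ^ 2) / n k ≤ Real.log (1 / c k) / n k + r.1 :=
    fun k => good_ent (hn0 k) (hc0 k) (hm k) (hgood k)
  choose r hr hr2 using hch
  have hmem : ∀ i, r i ∈ Reg := fun i => (hr i).1
  obtain ⟨ρ, hρ, hlim⟩ := compact_Reg.ultrafilter_le_nhds (𝒰.map r)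
    (by
      rw [Ultrafilter.coe_map, le_principal_iff]
      exact mem_map.2 (Eventually.of_forall hmem))
  have hlim' : Tendsto r 𝒰 (𝓝 ρ) := hlim
  have t1 : Tendsto (fun i => (r i).1) 𝒰 (𝓝 ρ.1) := (continuous_fst.tendsto _).comp hlim'
  have t2 : Tendsto (fun i => (r i).2.1) 𝒰 (𝓝 ρ.2.1) :=
    ((continuous_fst.comp continuous_snd).tendsto _).comp hlim'
  have t3 : Tendsto (fun i => (r i).2.2.1) 𝒰 (𝓝 ρ.2.2.1) :=
    ((continuous_fst.comp (continuous_snd.comp continuous_snd)).tendsto _).comp hlim'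
  have f1 : ρ.2.1 - ρ.1 ≤ g := le_of_tendsto_of_tendsto' (t2.sub t1) tg (fun i => (hr i).2.1)
  have f2 : ρ.2.2.1 = l := by
    have e : (fun i => (r i).2.2.1) = (fun k => (lam k : ℝ) / n k) :=
      funext (fun i => (hr i).2.2.1)
    rw [e] at t3
    exact tendsto_nhds_unique t3 tl
  have f3 : R ≤ g + ρ.1 := le_of_tendsto_of_tendsto' tR (tg.add t1) hr2
  rcases le_or_gt (1 / 16) v with hv | hv
  · refine le_trans (le_min hR2 f3) (le_Psi ⟨hρ, f1, f2, ?_⟩)
    exact (Reg_subset_Box hρ).2.2.2.2.2.2.trans hv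
  -- window regime
  have hnR : Tendsto (fun k => (n k : ℝ)) 𝒰 atTop := tendsto_natCast_atTop_atTop.comp hn
  have hg0 : g = 0 := by
    have hgnn : 0 ≤ g := by
      refine ge_of_tendsto' tg (fun k => div_nonneg (Real.log_nonneg ?_) (hn' k).le)
      rw [le_div_iff₀ (hc0 k), one_mul]
      exact hc1 k
    refine le_antisymm ?_ hgnn
    have hsm : Tendsto (fun k => Real.log (2 * Real.pi * n k) / n k) 𝒰 (𝓝 0) := by
      have h1 : Tendsto (fun x : ℝ => Real.log (2 * Real.pi * x) / x) atTop (𝓝 0) := by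
        have h2 : Tendsto (fun x : ℝ => Real.log (2 * Real.pi) / x + Real.log x / x) atTop
            (𝓝 (0 + 0)) := by
          refine Tendsto.add (tendsto_const_nhds.div_atTop tendsto_id) ?_
          have := Real.isLittleO_log_id_atTop.tendsto_div_nhds_zero
          exact this
        rw [add_zero] at h2
        refine h2.congr' ?_
        filter_upwards [eventually_gt_atTop 0] with x hx
        rw [Real.log_mul (by positivity) hx.ne']
        ring
      exact h1.comp hnR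
    refine le_of_tendsto_of_tendsto tg hsm ?_
    filter_upwards [tv.eventually_lt_const hv] with k hk
    have h1 : 1 / (2 * Real.pi * n k * c k ^ 2) < 1 / 16 := by
      rcases min_lt_iff.1 hk with h | h
      · exact h
      · norm_num at h
    have hck := hc0 k
    have hnk := hn' k
    refine div_le_div_of_nonneg_right ?_ hnk.le
    have h2 : (1 / c k) ^ 2 ≤ 2 * Real.pi * n k := by
      rw [div_lt_div_iff₀ (by positivity) (by norm_num)] at h1
      rw [div_pow, one_pow, div_le_iff₀ (by positivity)]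
      linarith
    have h3 : 1 ≤ 1 / c k := by
      rw [le_div_iff₀ hck, one_mul]; exact hc1 k
    apply Real.log_le_log (by positivity)
    calc 1 / c k = (1 / c k) * 1 := by ring
      _ ≤ (1 / c k) * (1 / c k) := mul_le_mul_of_nonneg_left h3 (by positivity)
      _ = (1 / c k) ^ 2 := by ring
      _ ≤ _ := h2
  subst hg0
  by_contra hlt
  push Not at hlt
  have hno : ∀ p ∈ TT, p.2.1 = l → p.2.2 ≤ v → p.1 < R := by
    intro p hp h1 h2
    have h3 := lift_TT hp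
    have h4 := le_Psi (l := l) (g := 0) (v := v) (r := (p.1, p.1, p.2.1, p.2.2))
      ⟨h3, by simp, h1, h2⟩
    have h5 := (Reg_subset_Box h3).2.2.1
    simp only [zero_add] at h4
    rw [min_eq_right h5] at h4
    linarith
  obtain ⟨σ, κ, M0, v1, hσ, hM, hvv1, hsep⟩ := separation hR0 hv0 hno
  obtain ⟨v2, hv2a, hv2b⟩ := exists_between (lt_min hvv1 (lt_trans hv (by norm_num : (1:ℝ)/16 < 1)))
  obtain ⟨v3, hv3a, hv3b⟩ := exists_between hv2a
  have hv2c := hv2b.trans_le (min_le_left _ _)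
  have hv2d := hv2b.trans_le (min_le_right _ _)
  obtain ⟨n0, hn00⟩ := density_asymp σ κ M0 hσ hM v2 v3 (by linarith) hv3b
  have e1 : ∀ᶠ k in (𝒰 : Filter ℕ), n0 ≤ n k := hn.eventually_ge_atTop n0
  have tlim : Tendsto (fun k => M0 - σ * (Real.log ((m k : ℝ) ^ 2) / n k)
      - κ * ((lam k : ℝ) / n k)) 𝒰 (𝓝 (M0 - σ * R - κ * l)) :=
    ((tR.const_mul σ).const_sub M0).sub (tl.const_mul κ)
  have e2 : ∀ᶠ k in (𝒰 : Filter ℕ), M0 - σ * (Real.log ((m k : ℝ) ^ 2) / n k)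
      - κ * ((lam k : ℝ) / n k) < -(1 / 2 * v2) := tlim.eventually_lt_const (by linarith)
  have e3 : ∀ᶠ k in (𝒰 : Filter ℕ), v3 ≤ min (1 / (2 * Real.pi * n k * c k ^ 2)) 1 := by
    filter_upwards [e1, e2] with k hk1 hk2
    obtain ⟨𝒜, ℬ, hA, hB, hcN⟩ := good_families (hgood k)
    have hmk : (0:ℝ) < m k := by exact_mod_cast hm k
    have hnk := hn' k
    have hck := hc0 k
    have h1 := hn00 (n k) hk1 (lam k) 𝒜 ℬ (by rw [hA]; exact hm k) (by rw [hB]; exact hm k) (by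
      rw [hA, hB]
      have e : Real.log ((m k : ℝ) * m k) = Real.log ((m k : ℝ) ^ 2) := by rw [sq]
      rw [e]
      have h3 : (M0 - σ * (Real.log ((m k : ℝ) ^ 2) / n k) - κ * ((lam k : ℝ) / n k)) * n k
          ≤ -(1 / 2 * v2) * n k := mul_le_mul_of_nonneg_right hk2.le hnk.le
      have h4 : (M0 - σ * (Real.log ((m k : ℝ) ^ 2) / n k) - κ * ((lam k : ℝ) / n k)) * n k
          = n k * M0 - σ * Real.log ((m k : ℝ) ^ 2) - κ * lam k := by
        field_simp
      linarith)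
    rw [hA, hB] at h1
    refine le_min ?_ (by linarith)
    rw [le_div_iff₀ (by positivity)]
    have h2 : (c k * (m k : ℝ) ^ 2) ^ 2 ≤ (NN 𝒜 ℬ (lam k) : ℝ) ^ 2 :=
      pow_le_pow_left₀ (by positivity) hcN 2
    have h3 : (c k * (m k : ℝ) ^ 2) ^ 2 * (2 * Real.pi * n k * v3) ≤ ((m k : ℝ) * m k) ^ 2 :=
      (mul_le_mul_of_nonneg_right h2 (by
        have : 0 < v3 := by linarith
        positivity)).trans h1
    have h4 : 0 < ((m k : ℝ) * m k) ^ 2 := by positivity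
    have h5 : (v3 * (2 * Real.pi * n k * c k ^ 2)) * ((m k : ℝ) * m k) ^ 2
        ≤ 1 * ((m k : ℝ) * m k) ^ 2 := by
      calc _ = (c k * (m k : ℝ) ^ 2) ^ 2 * (2 * Real.pi * n k * v3) := by ring
        _ ≤ _ := h3
        _ = _ := by ring
    exact le_of_mul_le_mul_right h5 h4
  have := ge_of_tendsto tv e3
  linarith

end BC
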