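import Pool.Agent.Lib_helper28.BCLower
import Pool.Agent.Lib_helper28.BCUpper

/-!
# Assembly of the main theorem
-/

open scoped BigOperators Topology
open Filter Polynomial

namespace BC

lemma Reg_one {r : ℝ × ℝ × ℝ × ℝ} (hr : r ∈ Reg) (h : r.2.2.1 = 1) : r.1 = 0 := by
  obtain ⟨ι, hι, w, p, hw, hw1, hp, h1, h2, h3, h4⟩ := decomp hr
  have hle : ∀ i, p i (true, true) ≤ 1 := by
    intro i
    obtain ⟨h00, h01, h10, h11, hs⟩ := simplex_facts (hp i)
    linarith
  have hsum : ∑ i, w i * (1 - p i (true, true)) = 0 := by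
    have : ∑ i, w i * (1 - p i (true, true)) = (∑ i, w i) - ∑ i, w i * p i (true, true) := by
      rw [← Finset.sum_sub_distrib]
      exact Finset.sum_congr rfl (fun i _ => by ring)
    rw [this, hw1, ← h3, h]; ring
  have h5 := (Finset.sum_eq_zero_iff_of_nonneg (fun i _ =>
    mul_nonneg (hw i).le (by linarith [hle i]))).1 hsum
  rw [h1]
  refine Finset.sum_eq_zero (fun i hi => ?_)
  have h6 : p i (true, true) = 1 := by
    rcases mul_eq_zero.1 (h5 i hi) with h | h
    · exact absurd h (hw i).ne'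
    · linarith
  obtain ⟨h00, h01, h10, h11, hs⟩ := simplex_facts (hp i)
  have a0 : p i (false, false) = 0 := by linarith
  have a1 : p i (false, true) = 0 := by linarith
  have a2 : p i (true, false) = 0 := by linarith
  rw [H2_eq, h6, a0, a1, a2]
  simp

lemma Reg_prod {r : ℝ × ℝ × ℝ × ℝ} (hr : r ∈ Reg) (h : r.2.1 ≤ r.1) : r.2.2.2 ≤ r.2.2.1 := by
  obtain ⟨ι, hι, w, p, hw, hw1, hp, h1, h2, h3, h4⟩ := decomp hr
  have hnn : ∀ i, 0 ≤ w i * (Real.binEntropy (sA (p i)) + Real.binEntropy (sB (p i))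
      - H2 (p i)) := fun i => mul_nonneg (hw i).le (by linarith [(gap (hp i)).1])
  have hsum : ∑ i, w i * (Real.binEntropy (sA (p i)) + Real.binEntropy (sB (p i))
      - H2 (p i)) = 0 := by
    apply le_antisymm
    · have : ∑ i, w i * (Real.binEntropy (sA (p i)) + Real.binEntropy (sB (p i))
          - H2 (p i)) = r.2.1 - r.1 := by
        rw [h1, h2, ← Finset.sum_sub_distrib]
        exact Finset.sum_congr rfl (fun i _ => by ring)
      rw [this]; linarith
    · exact Finset.sum_nonneg (fun i _ => hnn i)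
  have h5 := (Finset.sum_eq_zero_iff_of_nonneg (fun i _ => hnn i)).1 hsum
  rw [h3, h4]
  refine Finset.sum_le_sum (fun i hi => mul_le_mul_of_nonneg_left ?_ (hw i).le)
  have h6 : p i (true, true) = sA (p i) * sB (p i) := by
    apply (gap (hp i)).2
    rcases mul_eq_zero.1 (h5 i hi) with h | h
    · exact absurd h (hw i).ne'
    · linarith
  obtain ⟨m1, m2, m3, m4⟩ := marg (hp i)
  rw [h6]
  have e1 : sA (p i) * (1 - sA (p i)) ≤ sA (p i) := by nlinarith
  have e2 : sB (p i) * (1 - sB (p i)) ≤ sB (p i) := by nlinarith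
  exact mul_le_mul e1 e2 (var_le m3 m4).1 m1

section seq
variable (𝒰 : Ultrafilter ℕ) (n lam : ℕ → ℕ) (c : ℕ → ℝ)
    (hn : Tendsto n 𝒰 atTop) (hn0 : ∀ k, 0 < n k) (hlam : ∀ k, lam k ≤ n k)
    (hc0 : ∀ k, 0 < c k) (hc1 : ∀ k, c k ≤ 1) (hc2 : ∀ k, (1 / 2 : ℝ) ^ (n k) ≤ c k)
    (l g v : ℝ)
    (tl : Tendsto (fun k => (lam k : ℝ) / n k) 𝒰 (𝓝 l))
    (tg : Tendsto (fun k => Real.log (1 / c k) / n k) 𝒰 (𝓝 g))
    (tv : Tendsto (fun k => min (1 / (2 * Real.pi * n k * c k ^ 2)) 1) 𝒰 (𝓝 v))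

include hn hn0 hlam hc0 hc1 hc2 tl tg tv in
theorem lower (hl : l ∈ Set.Icc (0:ℝ) 1) (hg : 0 ≤ g) (hv : 0 ≤ v) {B : ℝ}
    (hB : B < Psi l g v) : Ach 𝒰 n lam c B := by
  obtain ⟨r, hr, hBr⟩ := exists_near (ev_feas hl hg hv) hB
  obtain ⟨hrR, hr1, hr2, hr3⟩ := hr
  obtain ⟨b1, b2, b3, b4, b5, b6, b7⟩ := Reg_subset_Box hrR
  have hlog := log_two_bounds
  rcases hl.2.eq_or_lt with hl1 | hl1
  · -- l = 1
    have h0 := Reg_one hrR (by rw [hr2, hl1])
    rw [h0, add_zero] at hBr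
    exact ach_trivial 𝒰 n lam c hn hn0 hlam hc0 hc1 hc2 g tg
      (hBr.trans_le (min_le_right _ _))
  set δ := min (2 * Real.log 2) (g + r.1) - B with hδ
  have hδ0 : 0 < δ := by linarith
  have hδ1 : B + δ ≤ 2 * Real.log 2 := by
    rw [hδ]; linarith [min_le_left (2 * Real.log 2) (g + r.1)]
  have hδ2 : B + δ ≤ g + r.1 := by
    rw [hδ]; linarith [min_le_right (2 * Real.log 2) (g + r.1)]
  -- the parameter α = β
  obtain ⟨α, hα0, hα1, hα2⟩ : ∃ α : ℝ, 0 < α ∧ α < 1 ∧ α * (2 * Real.log 2) ≤ δ / 8 := by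
    refine ⟨min (1 / 2) (δ / 8 / (2 * Real.log 2)), by positivity,
      (min_le_left _ _).trans_lt (by norm_num), ?_⟩
    calc _ ≤ δ / 8 / (2 * Real.log 2) * (2 * Real.log 2) :=
          mul_le_mul_of_nonneg_right (min_le_right _ _) (by positivity)
      _ = δ / 8 := by field_simp
  have hl1' : 0 < α * (1 - l) := mul_pos hα0 (by linarith)
  -- the mixed vector
  set r' : ℝ × ℝ × ℝ × ℝ := ((1 - α) * r.1 + α * Real.binEntropy l,
    (1 - α) * r.2.1 + α * Real.binEntropy l, (1 - α) * r.2.2.1 + α * l,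
    (1 - α) * r.2.2.2) with hr'
  have hr'R : r' ∈ Reg := mix_mem hrR hl hα0.le hα1.le
  have hhl := binEntropy_bounds hl.1 hl.2
  have q1 : r'.2.2.1 = l := by
    show (1 - α) * r.2.2.1 + α * l = l
    rw [hr2]; ring
  have q2 : r.1 - δ / 8 ≤ r'.1 := by
    show r.1 - δ / 8 ≤ (1 - α) * r.1 + α * Real.binEntropy l
    have h1 : α * r.1 ≤ α * (2 * Real.log 2) := mul_le_mul_of_nonneg_left (by linarith) hα0.le
    have h2 : 0 ≤ α * Real.binEntropy l := mul_nonneg hα0.le hhl.1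
    linarith
  have q3 : r'.2.1 - r'.1 = (1 - α) * (r.2.1 - r.1) := by
    show (1 - α) * r.2.1 + α * Real.binEntropy l - ((1 - α) * r.1 + α * Real.binEntropy l) = _
    ring
  have q4 : r'.2.2.2 = (1 - α) * r.2.2.2 := rfl
  obtain ⟨c1, c2, c3, c4, c5, c6, c7⟩ := Reg_subset_Box hr'R
  -- arithmetic of the forced coordinates
  have room : ∀ (x ε' : ℝ), |x - l| < ε' → 0 < ε' → ε' ≤ α * (1 - l) / 2 →
      l - (1 - α) * x < α := by
    intro x ε' hx hε hε2
    rw [abs_lt] at hx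
    have h1 : (1 - α) * (l - ε') ≤ (1 - α) * x :=
      mul_le_mul_of_nonneg_left (by linarith) (by linarith)
    have h2 : 0 ≤ α * ε' := by positivity
    nlinarith
  have room2 : 0 < l → ∀ (x ε' : ℝ), |x - l| < ε' → 0 < ε' → ε' ≤ α * l / 2 →
      (1 - α) * x < l := by
    intro hlpos x ε' hx hε hε2
    rw [abs_lt] at hx
    have h1 : (1 - α) * x ≤ (1 - α) * (l + ε') :=
      mul_le_mul_of_nonneg_left (by linarith) (by linarith)
    have h2 : 0 ≤ α * ε' := by positivity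
    have h3 : 0 < α * l := mul_pos hα0 hlpos
    nlinarith
  rcases hg.eq_or_lt with hg0 | hgpos
  · -- g = 0
    subst hg0
    have hle : r.2.1 ≤ r.1 := by linarith
    have heq : r.2.1 = r.1 := le_antisymm hle b2
    rcases b6.eq_or_lt with hz | hz
    · -- zero variance
      obtain ⟨ε', hε0, hε1, hε2, hε3⟩ : ∃ ε' : ℝ, 0 < ε' ∧ ε' ≤ δ / 8 ∧ ε' ≤ α * (1 - l) / 2 ∧
          (0 < l → ε' ≤ α * l / 2) := by
        rcases hl.1.eq_or_lt with h | h
        · refine ⟨min (δ / 8) (α * (1 - l) / 2), by positivity, min_le_left _ _,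
            min_le_right _ _, fun h' => ?_⟩
          rw [← h] at h'; exact absurd h' (lt_irrefl _)
        · have := mul_pos hα0 h
          exact ⟨min (min (δ / 8) (α * (1 - l) / 2)) (α * l / 2), by positivity,
            (min_le_left _ _).trans (min_le_left _ _),
            (min_le_left _ _).trans (min_le_right _ _), fun _ => min_le_right _ _⟩
      obtain ⟨D, a, u, q, Z, hD, ha, hq0, hR, hq, h1, h2, h3, h4, h5⟩ := superblock hrR hε0
      have hqa := h5 hz.symm
      rw [hr2] at h3 h4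
      have e1 : (1 - α) / D * (u : ℝ) = (1 - α) * ((u : ℝ) / D) := by ring
      refine ach_all 𝒰 n lam c hn hn0 hc0 hc1 l tl (u := u) (α := α) hD ha hR
        (by rw [← hqa]; exact hq) hα1.le ?_ ?_ ?_
      · rcases hl.1.eq_or_lt with h | h
        · exact Or.inr (h4 h.symm)
        · left
          rw [e1]
          exact room2 h _ ε' h3 hε0 (hε3 h)
      · rw [e1]
        exact room _ ε' h3 hε0 hε2
      · rw [abs_lt] at h1
        have h6 : (1 - α) * (r.2.1 - ε') ≤ (1 - α) * (Real.log ((a : ℝ) ^ 2) / D) :=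
          mul_le_mul_of_nonneg_left (by linarith) (by linarith)
        have h7 : α * r.2.1 ≤ α * (2 * Real.log 2) := mul_le_mul_of_nonneg_left b3 hα0.le
        have h8 : 0 ≤ α * ε' := by positivity
        nlinarith
    · -- positive variance
      have hlpos : 0 < l := by
        have := Reg_prod hrR hle
        rw [hr2] at this
        linarith
      have hαv : 0 < α * r.2.2.2 := mul_pos hα0 hz
      have hαl : 0 < α * l := mul_pos hα0 hlpos
      obtain ⟨ε', hε0, hε1, hε2, hε3, hε4⟩ : ∃ ε' : ℝ, 0 < ε' ∧ ε' ≤ δ / 8 ∧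
          ε' ≤ α * (1 - l) / 2 ∧ ε' ≤ α * l / 2 ∧ ε' ≤ α * r.2.2.2 :=
        ⟨min (min (δ / 8) (α * (1 - l) / 2)) (min (α * l / 2) (α * r.2.2.2)), by positivity,
          (min_le_left _ _).trans (min_le_left _ _), (min_le_left _ _).trans (min_le_right _ _),
          (min_le_right _ _).trans (min_le_left _ _), (min_le_right _ _).trans (min_le_right _ _)⟩
      have hr'le : r'.2.1 ≤ r'.1 := by
        have : r'.2.1 - r'.1 = 0 := by rw [q3, heq]; ring
        linarith
      obtain ⟨D, a, Z, hD, ha, hR, h1, h2, h3, h4, h5⟩ := superblock_win hr'R hr'le hε0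
      rw [q1] at h2
      refine ach_win 𝒰 n lam c hn hn0 hc0 l v tl tv (α := α) hD ha hR h3 h5 hα0.le hα1 ?_ ?_ ?_ ?_
      · exact room2 hlpos _ ε' h2 hε0 hε3
      · exact room _ ε' h2 hε0 hε2
      · rw [q4] at h4
        linarith
      · rw [abs_lt] at h1
        have h6 : (1 - α) * (r'.2.1 - ε') ≤ (1 - α) * (Real.log ((a : ℝ) ^ 2) / D) :=
          mul_le_mul_of_nonneg_left (by linarith) (by linarith)
        have h7 : α * r'.2.1 ≤ α * (2 * Real.log 2) := mul_le_mul_of_nonneg_left c3 hα0.le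
        have h8 : 0 ≤ α * ε' := by positivity
        nlinarith
  · -- g > 0
    have hαg : 0 < α * g := mul_pos hα0 hgpos
    obtain ⟨ε', hε0, hε1, hε2, hε3, hε4⟩ : ∃ ε' : ℝ, 0 < ε' ∧ ε' ≤ δ / 8 ∧
        ε' ≤ α * (1 - l) / 2 ∧ (0 < l → ε' ≤ α * l / 2) ∧ ε' ≤ α * g / 4 := by
      rcases hl.1.eq_or_lt with h | h
      · refine ⟨min (min (δ / 8) (α * (1 - l) / 2)) (α * g / 4), by positivity,
          (min_le_left _ _).trans (min_le_left _ _), (min_le_left _ _).trans (min_le_right _ _),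
          fun h' => ?_, min_le_right _ _⟩
        rw [← h] at h'; exact absurd h' (lt_irrefl _)
      · have := mul_pos hα0 h
        exact ⟨min (min (δ / 8) (α * (1 - l) / 2)) (min (α * l / 2) (α * g / 4)), by positivity,
          (min_le_left _ _).trans (min_le_left _ _),
          (min_le_left _ _).trans (min_le_right _ _),
          fun _ => (min_le_right _ _).trans (min_le_left _ _),
          (min_le_right _ _).trans (min_le_right _ _)⟩
    obtain ⟨D, a, u, q, Z, hD, ha, hq0, hR, hq, h1, h2, h3, h4, h5⟩ := superblock hr'R hε0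
    rw [q1] at h3 h4
    rw [abs_lt] at h1 h2
    have e1 : (1 - α) / D * (u : ℝ) = (1 - α) * ((u : ℝ) / D) := by ring
    refine ach_exp 𝒰 n lam c hn hn0 hc0 l g tl tg (u := u) (q := q) (α := α) hD ha hR
      hq0 hq hα1.le ?_ ?_ ?_ ?_ ?_
    · rcases hl.1.eq_or_lt with h | h
      · exact Or.inr (h4 h.symm)
      · left
        rw [e1]
        exact room2 h _ ε' h3 hε0 (hε3 h)
    · rw [e1]
      exact room _ ε' h3 hε0 hε2
    · have h6 : (1 - α) * (Real.log ((a : ℝ) ^ 2) / D) ≤ (1 - α) * (r'.2.1 + ε') :=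
        mul_le_mul_of_nonneg_left (by linarith) (by linarith)
      have h7 : (1 - α) * (r'.1 - ε') ≤ (1 - α) * (Real.log (q : ℝ) / D) :=
        mul_le_mul_of_nonneg_left (by linarith) (by linarith)
      have h8 : (1 - α) * (r'.2.1 - r'.1) ≤ (1 - α) * g := by
        apply mul_le_mul_of_nonneg_left _ (by linarith)
        rw [q3]
        have : (1 - α) * (r.2.1 - r.1) ≤ 1 * (r.2.1 - r.1) :=
          mul_le_mul_of_nonneg_right (by linarith) (by linarith)
        linarith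
      have h9 : 0 ≤ α * ε' := by positivity
      nlinarith
    · linarith
    · have h7 : (1 - α) * (r'.1 - ε') ≤ (1 - α) * (Real.log (q : ℝ) / D) :=
        mul_le_mul_of_nonneg_left (by linarith) (by linarith)
      have h8 : α * r'.1 ≤ α * (2 * Real.log 2) :=
        mul_le_mul_of_nonneg_left (by linarith) hα0.le
      have h9 : 0 ≤ α * ε' := by positivity
      nlinarith

end seq

/-- the maximum is attained -/
lemma MM_spec {n lam : ℕ} {c : ℝ} (hlam : lam ≤ n) (hc1 : c ≤ 1) :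
    ∃ m : ℕ, 1 ≤ m ∧ Good n lam c m ∧ MM n lam c = m ^ 2 ∧ ∀ m', Good n lam c m' → m' ≤ m := by
  set S : Set ℕ := {k | ∃ m, Good n lam c m ∧ k = m ^ 2} with hS
  have hg1 : Good n lam c 1 := by
    have hR : Rz n 1 1 (X ^ lam) := by
      have := (Rz.full lam).mul (Rz.empty (n - lam))
      rw [show lam + (n - lam) = n by omega] at this
      simpa using this
    refine hR.good (le_refl _) (le_refl _) Nat.one_le_two_pow ?_
    rw [coeff_X_pow, if_pos rfl]
    push_cast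
    linarith
  have hne : S.Nonempty := ⟨1, 1, hg1, by norm_num⟩
  have hbdd : BddAbove S := by
    refine ⟨(2 ^ n) ^ 2, ?_⟩
    rintro k ⟨m, hm, rfl⟩
    exact Nat.pow_le_pow_left (good_card_le hm) 2
  obtain ⟨m, hm, he⟩ := Nat.sSup_mem hne hbdd
  have hMM : MM n lam c = m ^ 2 := he
  have hmax : ∀ m', Good n lam c m' → m' ≤ m := by
    intro m' hm'
    have h1 : m' ^ 2 ≤ MM n lam c := le_csSup hbdd ⟨m', hm', rfl⟩
    rw [hMM] at h1
    exact (Nat.pow_le_pow_iff_left two_ne_zero).1 h1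
  exact ⟨m, hmax 1 hg1, hm, hMM, hmax⟩

lemma ultra_lim {𝒰 : Ultrafilter ℕ} {f : ℕ → ℝ} {a b : ℝ} (h : ∀ k, f k ∈ Set.Icc a b) :
    ∃ x ∈ Set.Icc a b, Tendsto f 𝒰 (𝓝 x) := by
  obtain ⟨x, hx, hlim⟩ := (isCompact_Icc (a := a) (b := b)).ultrafilter_le_nhds (𝒰.map f)
    (by
      rw [Ultrafilter.coe_map, le_principal_iff]
      exact mem_map.2 (Eventually.of_forall h))
  exact ⟨x, hx, hlim⟩

/-- Sequential form: for any sequence of parameters, the normalised logarithms of `M` and of the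
single-letter formula have the same limit along any ultrafilter. -/
theorem seq_main (n lam : ℕ → ℕ) (c : ℕ → ℝ) (hn : Tendsto n atTop atTop) (hn0 : ∀ k, 0 < n k)
    (hlam : ∀ k, lam k ≤ n k) (hc1 : ∀ k, c k ≤ 1) (hc2 : ∀ k, (1 / 2 : ℝ) ^ (n k) ≤ c k) :
    Tendsto (fun k => Real.log (MM (n k) (lam k) (c k) : ℝ) / n k
      - Psi ((lam k : ℝ) / n k) (Real.log (1 / c k) / n k) (1 / (2 * Real.pi * n k * c k ^ 2)))
      atTop (𝓝 0) := by
  rw [tendsto_iff_ultrafilter]
  intro 𝒰 h𝒰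
  have hpi := Real.pi_pos
  have hlog := log_two_bounds
  have hn' : ∀ k, (0:ℝ) < n k := fun k => by exact_mod_cast hn0 k
  have hc0 : ∀ k, 0 < c k := fun k => lt_of_lt_of_le (by positivity) (hc2 k)
  have hnU : Tendsto n 𝒰 atTop := hn.mono_left h𝒰
  choose m hm1 hmg hmM hmax using fun k => MM_spec (c := c k) (hlam k) (hc1 k)
  -- limits
  have bl : ∀ k, (lam k : ℝ) / n k ∈ Set.Icc (0:ℝ) 1 := by
    intro k
    refine ⟨by positivity, ?_⟩
    rw [div_le_one (hn' k)]
    exact_mod_cast hlam k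
  have bg : ∀ k, Real.log (1 / c k) / n k ∈ Set.Icc (0:ℝ) (Real.log 2) := by
    intro k
    have h1 : 1 ≤ 1 / c k := by rw [le_div_iff₀ (hc0 k), one_mul]; exact hc1 k
    refine ⟨div_nonneg (Real.log_nonneg h1) (hn' k).le, ?_⟩
    rw [div_le_iff₀ (hn' k)]
    have h2 : (1 / c k) ≤ 2 ^ (n k) := by
      rw [div_le_iff₀ (hc0 k)]
      have := hc2 k
      calc (1:ℝ) = 2 ^ (n k) * (1 / 2) ^ (n k) := by rw [← mul_pow]; norm_num
        _ ≤ 2 ^ (n k) * c k := mul_le_mul_of_nonneg_left this (by positivity)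
    have h3 := Real.log_le_log (by positivity) h2
    rw [Real.log_pow] at h3
    linarith
  have bv : ∀ k, min (1 / (2 * Real.pi * n k * c k ^ 2)) 1 ∈ Set.Icc (0:ℝ) 1 := by
    intro k
    refine ⟨le_min ?_ zero_le_one, min_le_right _ _⟩
    have := hn' k
    have := hc0 k
    positivity
  have bR : ∀ k, Real.log ((m k : ℝ) ^ 2) / n k ∈ Set.Icc (0:ℝ) (2 * Real.log 2) := by
    intro k
    have h1 := log_sq_bounds (hm1 k) (good_card_le (hmg k))
    refine ⟨div_nonneg h1.1 (hn' k).le, ?_⟩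
    rw [div_le_iff₀ (hn' k), mul_comm]
    exact h1.2
  obtain ⟨l, hl, tl⟩ := ultra_lim (𝒰 := 𝒰) bl
  obtain ⟨g, hg, tg⟩ := ultra_lim (𝒰 := 𝒰) bg
  obtain ⟨v, hv, tv⟩ := ultra_lim (𝒰 := 𝒰) bv
  obtain ⟨R, hR, tR⟩ := ultra_lim (𝒰 := 𝒰) bR
  have hup : R ≤ Psi l g v := upper 𝒰 n lam m c hnU hn0 hc0 hc1 hm1 hmg l g v R tl tg tv tR
  have hlo : Psi l g v ≤ R := by
    apply le_of_forall_lt
    intro B hB
    obtain ⟨B', hB1, hB2⟩ := exists_between hB
    have h1 := lower 𝒰 n lam c hnU hn0 hlam hc0 hc1 hc2 l g v tl tg tv hl hg.1 hv.1 hB2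
    have h2 : ∀ᶠ k in (𝒰 : Filter ℕ), B' ≤ Real.log ((m k : ℝ) ^ 2) / n k := by
      filter_upwards [h1] with k hk
      obtain ⟨m', h1', h2', h3'⟩ := hk
      refine h3'.le.trans (div_le_div_of_nonneg_right ?_ (hn' k).le)
      have h4 : (1:ℝ) ≤ m' := by exact_mod_cast h1'
      have h5 : (m' : ℝ) ≤ m k := by exact_mod_cast hmax k m' h2'
      exact Real.log_le_log (by positivity) (pow_le_pow_left₀ (by positivity) h5 2)
    exact hB1.trans_le (ge_of_tendsto tR h2)
  have hRe : R = Psi l g v := le_antisymm hup hlo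
  have hP := Psi_lim 𝒰 _ _ _ l g v bl (fun k => (bg k).1) (fun k => (bv k).1) tl tg tv
  have h := tR.sub hP
  rw [hRe, sub_self] at h
  refine h.congr (fun k => ?_)
  rw [Psi_cap, hmM k]
  push_cast
  rfl

/-- The main theorem. -/
theorem main (ε : ℝ) (hε : 0 < ε) : ∃ N : ℕ, ∀ n ≥ N, ∀ lam : ℕ, 1 ≤ lam → lam ≤ n →
    ∀ c : ℝ, (1 / 2 : ℝ) ^ n ≤ c → c ≤ 1 →
      |Real.logb 2 (MM n lam c) - n * (Psi ((lam : ℝ) / n) (Real.log (1 / c) / n)
        (1 / (2 * Real.pi * n * c ^ 2)) / Real.log 2)| ≤ ε * n := by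
  by_contra hcon
  push Not at hcon
  have hlog := log_two_bounds
  choose n0 hn lam0 hl1 hl2 c0 hc2 hc1 hbad using hcon
  set n : ℕ → ℕ := fun k => n0 (k + 1) with hnd
  set lam : ℕ → ℕ := fun k => lam0 (k + 1) with hlamd
  set c : ℕ → ℝ := fun k => c0 (k + 1) with hcd
  have hnk : ∀ k, k + 1 ≤ n k := fun k => hn (k + 1)
  have hn0' : ∀ k, 0 < n k := fun k => lt_of_lt_of_le (Nat.succ_pos k) (hnk k)
  have hntop : Tendsto n atTop atTop :=
    tendsto_atTop_mono (fun k => (Nat.le_succ k).trans (hnk k)) tendsto_id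
  have h := seq_main n lam c hntop hn0' (fun k => hl2 (k + 1)) (fun k => hc1 (k + 1))
    (fun k => hc2 (k + 1))
  have h2 := (Metric.tendsto_nhds.1 h) (ε * Real.log 2) (by positivity)
  obtain ⟨k, hk⟩ := h2.exists
  rw [Real.dist_eq, sub_zero] at hk
  have h3 := hbad (k + 1)
  have hnk' : (0:ℝ) < n k := by exact_mod_cast hn0' k
  have e : Real.logb 2 (MM (n k) (lam k) (c k)) - (n k) * (Psi ((lam k : ℝ) / n k)
      (Real.log (1 / c k) / n k) (1 / (2 * Real.pi * n k * c k ^ 2)) / Real.log 2)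
      = (n k / Real.log 2) * (Real.log (MM (n k) (lam k) (c k) : ℝ) / n k
      - Psi ((lam k : ℝ) / n k) (Real.log (1 / c k) / n k)
        (1 / (2 * Real.pi * n k * c k ^ 2))) := by
    unfold Real.logb
    field_simp
  have h4 : ε * n k < |(n k / Real.log 2) * (Real.log (MM (n k) (lam k) (c k) : ℝ) / n k
      - Psi ((lam k : ℝ) / n k) (Real.log (1 / c k) / n k)
        (1 / (2 * Real.pi * n k * c k ^ 2)))| := by
    rw [← e]
    exact h3
  rw [abs_mul, abs_of_pos (by positivity : 0 < (n k : ℝ) / Real.log 2)] at h4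
  have h5 := mul_lt_mul_of_pos_left hk (by positivity : 0 < (n k : ℝ) / Real.log 2)
  have h6 : (n k : ℝ) / Real.log 2 * (ε * Real.log 2) = ε * n k := by
    field_simp
  linarith

end BC
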