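import Pool.Agent.Lib_helper28.BCGeo

/-!
# Basic facts on `Psi` and its continuity along ultrafilters
-/

open scoped BigOperators Topology
open Set Filter

namespace BC

/-- feasibility -/
def Feas (l g v : ℝ) (r : ℝ × ℝ × ℝ × ℝ) : Prop :=
  r ∈ Reg ∧ r.2.1 - r.1 ≤ g ∧ r.2.2.1 = l ∧ r.2.2.2 ≤ v

/-- the vector of a pair with `s = 1` -/
noncomputable def ev (t : ℝ) : ℝ × ℝ × ℝ × ℝ := (Real.binEntropy t, Real.binEntropy t, t, 0)

lemma ev_mem {t : ℝ} (ht : t ∈ Icc (0:ℝ) 1) : ev t ∈ Reg := by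
  have := vec_mem_Reg (pr_mem (s := 1) ⟨zero_le_one, le_refl 1⟩ ht)
  rw [vec_pr] at this
  simpa [ev] using this

lemma ev_feas {t g v : ℝ} (ht : t ∈ Icc (0:ℝ) 1) (hg : 0 ≤ g) (hv : 0 ≤ v) :
    Feas t g v (ev t) := ⟨ev_mem ht, by simp [ev, hg], rfl, hv⟩

lemma Psi_bdd (l g v : ℝ) : BddAbove {x | ∃ r ∈ Reg, r.2.1 - r.1 ≤ g ∧ r.2.2.1 = l ∧ r.2.2.2 ≤ v ∧
    x = min (2 * Real.log 2) (g + r.1)} := by
  refine ⟨2 * Real.log 2, ?_⟩
  rintro x ⟨r, _, _, _, _, rfl⟩
  exact min_le_left _ _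

lemma le_Psi {l g v : ℝ} {r : ℝ × ℝ × ℝ × ℝ} (h : Feas l g v r) :
    min (2 * Real.log 2) (g + r.1) ≤ Psi l g v :=
  le_csSup (Psi_bdd l g v) ⟨r, h.1, h.2.1, h.2.2.1, h.2.2.2, rfl⟩

lemma exists_near {l g v : ℝ} {r0 : ℝ × ℝ × ℝ × ℝ} (h0 : Feas l g v r0) {x : ℝ}
    (hx : x < Psi l g v) : ∃ r, Feas l g v r ∧ x < min (2 * Real.log 2) (g + r.1) := by
  have hne : {x | ∃ r ∈ Reg, r.2.1 - r.1 ≤ g ∧ r.2.2.1 = l ∧ r.2.2.2 ≤ v ∧
    x = min (2 * Real.log 2) (g + r.1)}.Nonempty :=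
    ⟨_, r0, h0.1, h0.2.1, h0.2.2.1, h0.2.2.2, rfl⟩
  obtain ⟨y, ⟨r, h1, h2, h3, h4, rfl⟩, hy⟩ := exists_lt_of_lt_csSup hne hx
  exact ⟨r, ⟨h1, h2, h3, h4⟩, hy⟩

lemma Psi_le_of {l g v B : ℝ} {r0 : ℝ × ℝ × ℝ × ℝ} (h0 : Feas l g v r0)
    (h : ∀ r, Feas l g v r → min (2 * Real.log 2) (g + r.1) ≤ B) : Psi l g v ≤ B := by
  by_contra hlt
  push Not at hlt
  obtain ⟨r, hr, hx⟩ := exists_near h0 hlt
  exact absurd (h r hr) (not_le.2 hx)

lemma Psi_mem {l g v : ℝ} (hl : l ∈ Icc (0:ℝ) 1) (hg : 0 ≤ g) (hv : 0 ≤ v) :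
    Psi l g v ∈ Icc 0 (2 * Real.log 2) := by
  have h0 := ev_feas hl hg hv
  have hb := (Reg_subset_Box (ev_mem hl)).1
  refine ⟨?_, Psi_le_of h0 (fun r _ => min_le_left _ _)⟩
  refine le_trans (le_min ?_ ?_) (le_Psi h0)
  · have := log_two_bounds; linarith
  · linarith

/-- capping the last argument does not change the value -/
lemma Psi_cap (l g v : ℝ) : Psi l g (min v 1) = Psi l g v := by
  unfold Psi
  congr 1
  ext x
  constructor
  · rintro ⟨r, h1, h2, h3, h4, h5⟩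
    exact ⟨r, h1, h2, h3, h4.trans (min_le_left _ _), h5⟩
  · rintro ⟨r, h1, h2, h3, h4, h5⟩
    refine ⟨r, h1, h2, h3, le_min h4 ?_, h5⟩
    have := (Reg_subset_Box h1).2.2.2.2.2.2
    linarith

/-- mixing with `ev t` -/
lemma mix_mem {r : ℝ × ℝ × ℝ × ℝ} (hr : r ∈ Reg) {t α : ℝ} (ht : t ∈ Icc (0:ℝ) 1)
    (h0 : 0 ≤ α) (h1 : α ≤ 1) :
    ((1 - α) * r.1 + α * Real.binEntropy t, (1 - α) * r.2.1 + α * Real.binEntropy t,
      (1 - α) * r.2.2.1 + α * t, (1 - α) * r.2.2.2) ∈ Reg := by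
  have := Reg_convex hr (ev_mem ht) (by linarith : 0 ≤ 1 - α) h0 (by ring)
  obtain ⟨r1, r2, r3, r4⟩ := r
  simpa [ev] using this

theorem Psi_lim (𝒰 : Ultrafilter ℕ) (l g v : ℕ → ℝ) (l0 g0 v0 : ℝ)
    (hl : ∀ i, l i ∈ Icc (0:ℝ) 1) (hg : ∀ i, 0 ≤ g i) (hv : ∀ i, 0 ≤ v i)
    (tl : Tendsto l 𝒰 (𝓝 l0)) (tg : Tendsto g 𝒰 (𝓝 g0)) (tv : Tendsto v 𝒰 (𝓝 v0)) :
    Tendsto (fun i => Psi (l i) (g i) (v i)) 𝒰 (𝓝 (Psi l0 g0 v0)) := by
  have hl0 : l0 ∈ Icc (0:ℝ) 1 := isClosed_Icc.mem_of_tendsto tl (Eventually.of_forall hl)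
  have hg0 : 0 ≤ g0 := ge_of_tendsto' tg hg
  have hv0 : 0 ≤ v0 := ge_of_tendsto' tv hv
  rw [Metric.tendsto_nhds]
  intro ε hε
  have hlog := log_two_bounds
  -- upper semicontinuity
  have up : ∀ᶠ i in (𝒰 : Filter ℕ), Psi (l i) (g i) (v i) < Psi l0 g0 v0 + ε := by
    by_contra hcon
    have hcon' : ∀ᶠ i in (𝒰 : Filter ℕ), ¬ (Psi (l i) (g i) (v i) < Psi l0 g0 v0 + ε) := by
      rw [Ultrafilter.eventually_not]
      exact hcon
    have hch : ∀ i, ∃ r, Feas (l i) (g i) (v i) r ∧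
        Psi (l i) (g i) (v i) - ε / 2 < min (2 * Real.log 2) (g i + r.1) :=
      fun i => exists_near (ev_feas (hl i) (hg i) (hv i)) (by linarith)
    choose r hr hr2 using hch
    have hmem : ∀ i, r i ∈ Reg := fun i => (hr i).1
    obtain ⟨ρ, hρ, hlim⟩ := compact_Reg.ultrafilter_le_nhds (𝒰.map r)
      (by
        rw [Ultrafilter.coe_map, le_principal_iff]
        exact mem_map.2 (Eventually.of_forall hmem))
    have hlim' : Tendsto r 𝒰 (𝓝 ρ) := hlim
    have t1 : Tendsto (fun i => (r i).1) 𝒰 (𝓝 ρ.1) := (continuous_fst.tendsto _).comp hlim'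
    have t2 : Tendsto (fun i => (r i).2.1) 𝒰 (𝓝 ρ.2.1) :=
      ((continuous_fst.comp continuous_snd).tendsto _).comp hlim'
    have t3 : Tendsto (fun i => (r i).2.2.1) 𝒰 (𝓝 ρ.2.2.1) :=
      ((continuous_fst.comp (continuous_snd.comp continuous_snd)).tendsto _).comp hlim'
    have t4 : Tendsto (fun i => (r i).2.2.2) 𝒰 (𝓝 ρ.2.2.2) :=
      ((continuous_snd.comp (continuous_snd.comp continuous_snd)).tendsto _).comp hlim'
    have hfe : Feas l0 g0 v0 ρ := by
      refine ⟨hρ, ?_, ?_, ?_⟩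
      · exact le_of_tendsto_of_tendsto' (t2.sub t1) tg (fun i => (hr i).2.1)
      · have e : (fun i => (r i).2.2.1) = l := funext (fun i => (hr i).2.2.1)
        rw [e] at t3
        exact tendsto_nhds_unique t3 tl
      · exact le_of_tendsto_of_tendsto' t4 tv (fun i => (hr i).2.2.2)
    have h3 := le_Psi hfe
    have t5 : Tendsto (fun i => min (2 * Real.log 2) (g i + (r i).1)) 𝒰
        (𝓝 (min (2 * Real.log 2) (g0 + ρ.1))) := tendsto_const_nhds.min (tg.add t1)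
    have h4 : ∀ᶠ i in (𝒰 : Filter ℕ),
        min (2 * Real.log 2) (g i + (r i).1) < min (2 * Real.log 2) (g0 + ρ.1) + ε / 2 :=
      t5.eventually_lt_const (by linarith)
    obtain ⟨i, hi1, hi2⟩ := (hcon'.and h4).exists
    have := hr2 i
    push Not at hi1
    linarith
  -- lower semicontinuity
  have lo : ∀ᶠ i in (𝒰 : Filter ℕ), Psi l0 g0 v0 - ε < Psi (l i) (g i) (v i) := by
    obtain ⟨r, hr, hr2⟩ := exists_near (ev_feas hl0 hg0 hv0)
      (show Psi l0 g0 v0 - ε / 2 < Psi l0 g0 v0 by linarith)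
    obtain ⟨b1, b2, b3, b4, b5, b6, b7⟩ := Reg_subset_Box hr.1
    -- choose α small
    obtain ⟨α, hα0, hα1, hα2⟩ : ∃ α : ℝ, 0 < α ∧ α < 1 ∧ α * (2 * Real.log 2) ≤ ε / 4 := by
      refine ⟨min (1 / 2) (ε / 4 / (2 * Real.log 2)), by positivity,
        (min_le_left _ _).trans_lt (by norm_num), ?_⟩
      calc _ ≤ ε / 4 / (2 * Real.log 2) * (2 * Real.log 2) :=
            mul_le_mul_of_nonneg_right (min_le_right _ _) (by positivity)
        _ = ε / 4 := by field_simp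
    -- the required parameter
    set t : ℕ → ℝ := fun i => (l i - (1 - α) * l0) / α with ht
    have tt : Tendsto t 𝒰 (𝓝 l0) := by
      have h1 := (tl.sub_const ((1 - α) * l0)).div_const α
      have h2 : (l0 - (1 - α) * l0) / α = l0 := by field_simp; ring
      rw [h2] at h1
      exact h1
    have ht01 : ∀ᶠ i in (𝒰 : Filter ℕ), t i ∈ Icc (0:ℝ) 1 := by
      have ha : ∀ᶠ i in (𝒰 : Filter ℕ), 0 ≤ t i := by
        rcases hl0.1.eq_or_lt with h | h
        · refine Eventually.of_forall (fun i => ?_)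
          simp only [ht]
          rw [← h]
          have := (hl i).1
          simp only [mul_zero, sub_zero]
          positivity
        · filter_upwards [tt.eventually_const_lt h] with i hi using hi.le
      have hb : ∀ᶠ i in (𝒰 : Filter ℕ), t i ≤ 1 := by
        rcases hl0.2.eq_or_lt with h | h
        · refine Eventually.of_forall (fun i => ?_)
          simp only [ht]
          rw [h, div_le_iff₀ hα0]
          have := (hl i).2
          linarith
        · filter_upwards [tt.eventually_lt_const h] with i hi using hi.le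
      filter_upwards [ha, hb] with i h1 h2 using ⟨h1, h2⟩
    have hgi : ∀ᶠ i in (𝒰 : Filter ℕ), (1 - α) * g0 ≤ g i := by
      rcases hg0.eq_or_lt with h | h
      · refine Eventually.of_forall (fun i => ?_)
        rw [← h, mul_zero]
        exact hg i
      · have : (1 - α) * g0 < g0 := by nlinarith
        filter_upwards [tg.eventually_const_lt this] with i hi using hi.le
    have hvi : ∀ᶠ i in (𝒰 : Filter ℕ), (1 - α) * v0 ≤ v i := by
      rcases hv0.eq_or_lt with h | h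
      · refine Eventually.of_forall (fun i => ?_)
        rw [← h, mul_zero]
        exact hv i
      · have : (1 - α) * v0 < v0 := by nlinarith
        filter_upwards [tv.eventually_const_lt this] with i hi using hi.le
    have hgi2 : ∀ᶠ i in (𝒰 : Filter ℕ), g0 - ε / 4 < g i :=
      tg.eventually_const_lt (by linarith)
    filter_upwards [ht01, hgi, hvi, hgi2] with i h1 h2 h3 h4
    have hfe : Feas (l i) (g i) (v i) ((1 - α) * r.1 + α * Real.binEntropy (t i),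
        (1 - α) * r.2.1 + α * Real.binEntropy (t i),
        (1 - α) * r.2.2.1 + α * (t i), (1 - α) * r.2.2.2) := by
      refine ⟨mix_mem hr.1 h1 hα0.le hα1.le, ?_, ?_, ?_⟩
      · show (1 - α) * r.2.1 + α * Real.binEntropy (t i)
          - ((1 - α) * r.1 + α * Real.binEntropy (t i)) ≤ g i
        have : (1 - α) * (r.2.1 - r.1) ≤ (1 - α) * g0 :=
          mul_le_mul_of_nonneg_left hr.2.1 (by linarith)
        linarith
      · show (1 - α) * r.2.2.1 + α * t i = l i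
        rw [hr.2.2.1]
        simp only [ht]
        field_simp
        ring
      · show (1 - α) * r.2.2.2 ≤ v i
        exact (mul_le_mul_of_nonneg_left hr.2.2.2 (by linarith)).trans h3
    have h5 := le_Psi hfe
    have h6 := (binEntropy_bounds h1.1 h1.2).1
    refine lt_of_lt_of_le ?_ h5
    have h7 : Psi l0 g0 v0 - ε / 2 < 2 * Real.log 2 := lt_of_lt_of_le hr2 (min_le_left _ _)
    have h8 : Psi l0 g0 v0 - ε / 2 < g0 + r.1 := lt_of_lt_of_le hr2 (min_le_right _ _)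
    refine lt_min (by linarith) ?_
    show Psi l0 g0 v0 - ε < g i + ((1 - α) * r.1 + α * Real.binEntropy (t i))
    have h9 : α * r.1 ≤ α * (2 * Real.log 2) :=
      mul_le_mul_of_nonneg_left (by linarith) hα0.le
    have h10 : 0 ≤ α * Real.binEntropy (t i) := mul_nonneg hα0.le h6
    linarith
  filter_upwards [up, lo] with i h1 h2
  rw [Real.dist_eq, abs_lt]
  constructor <;> linarith

end BC
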