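import Pool.Agent.Lib_helper28.BCSup
import Pool.Agent.Lib_helper28.BCPsi

/-!
# The lower bound
-/

open scoped BigOperators Topology
open Filter Polynomial

namespace BC

lemma Rz.card_le {n a b : ℕ} {Z : ℕ[X]} (h : Rz n a b Z) : a ≤ 2 ^ n := by
  obtain ⟨𝒜, ℬ, hA, hB, hZ⟩ := h
  rw [← hA]
  calc 𝒜.card ≤ (Finset.univ : Finset (Finset (Fin n))).card :=
        Finset.card_le_card (Finset.subset_univ _)
    _ = 2 ^ n := by simp

lemma Rz.e0 {n a b : ℕ} {Z : ℕ[X]} (h : Rz n a b Z) : e0 Z = (a : ℝ) * b := by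
  obtain ⟨𝒜, ℬ, hA, hB, hZ⟩ := h
  rw [← hZ, e0_IP, hA, hB]

/-- filling up the remaining coordinates -/
lemma Rz.fill {D a n lam K x : ℕ} {Z : ℕ[X]} (h : Rz D a a Z) (hx : x ≤ lam)
    (hn : K * D + (lam - x) ≤ n) :
    ∃ Z', Rz n (a ^ K) (a ^ K) Z' ∧ (Z ^ K).coeff x ≤ Z'.coeff lam := by
  have h1 := ((h.pow K).mul (Rz.full (lam - x))).mul (Rz.empty (n - (K * D + (lam - x))))
  have e : K * D + (lam - x) + (n - (K * D + (lam - x))) = n := by omega
  rw [e, mul_one, mul_one, mul_one] at h1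
  refine ⟨_, h1, ?_⟩
  have h2 := coeff_mul_ge (Z ^ K) (X ^ (lam - x)) x (lam - x)
  rw [coeff_X_pow, if_pos rfl, mul_one, show x + (lam - x) = lam by omega] at h2
  exact h2

/-- the integer part of the square root is large -/
lemma floor_sqrt {y : ℝ} (hy : 1 ≤ y) :
    1 ≤ ⌊Real.sqrt y⌋₊ ∧ ((⌊Real.sqrt y⌋₊ : ℕ) : ℝ) ^ 2 ≤ y ∧
      Real.log y - Real.log 4 ≤ Real.log ((⌊Real.sqrt y⌋₊ : ℝ) ^ 2) := by
  have h1 : 1 ≤ Real.sqrt y := by rw [Real.one_le_sqrt]; exact hy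
  have h2 : 1 ≤ ⌊Real.sqrt y⌋₊ := by
    rw [Nat.one_le_floor_iff]; exact h1
  have h3 : ((⌊Real.sqrt y⌋₊ : ℕ) : ℝ) ≤ Real.sqrt y := Nat.floor_le (by positivity)
  have h4 : Real.sqrt y < (⌊Real.sqrt y⌋₊ : ℝ) + 1 := Nat.lt_floor_add_one _
  have h5 : (1:ℝ) ≤ (⌊Real.sqrt y⌋₊ : ℝ) := by exact_mod_cast h2
  refine ⟨h2, ?_, ?_⟩
  · calc ((⌊Real.sqrt y⌋₊ : ℕ) : ℝ) ^ 2 ≤ Real.sqrt y ^ 2 :=
        pow_le_pow_left₀ (by positivity) h3 2
      _ = y := Real.sq_sqrt (by linarith)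
  · rw [← Real.log_div (by linarith) (by norm_num)]
    apply Real.log_le_log (by linarith)
    have h6 : Real.sqrt y ≤ 2 * (⌊Real.sqrt y⌋₊ : ℝ) := by linarith
    have h7 : Real.sqrt y ^ 2 ≤ (2 * (⌊Real.sqrt y⌋₊ : ℝ)) ^ 2 :=
      pow_le_pow_left₀ (Real.sqrt_nonneg _) h6 2
    rw [Real.sq_sqrt (by linarith)] at h7
    linarith

section seq
variable (𝒰 : Ultrafilter ℕ) (n lam : ℕ → ℕ) (c : ℕ → ℝ)
    (hn : Tendsto n 𝒰 atTop) (hn0 : ∀ k, 0 < n k) (hlam : ∀ k, lam k ≤ n k)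
    (hc0 : ∀ k, 0 < c k) (hc1 : ∀ k, c k ≤ 1) (hc2 : ∀ k, (1 / 2 : ℝ) ^ (n k) ≤ c k)
    (l g v : ℝ)
    (tl : Tendsto (fun k => (lam k : ℝ) / n k) 𝒰 (𝓝 l))
    (tg : Tendsto (fun k => Real.log (1 / c k) / n k) 𝒰 (𝓝 g))
    (tv : Tendsto (fun k => min (1 / (2 * Real.pi * n k * c k ^ 2)) 1) 𝒰 (𝓝 v))

/-- the conclusion: eventually `log m² > B n` for some good `m` -/
def Ach (B : ℝ) : Prop := ∀ᶠ k in (𝒰 : Filter ℕ), ∃ m : ℕ, 1 ≤ m ∧
  Good (n k) (lam k) (c k) m ∧ B < Real.log ((m : ℝ) ^ 2) / n k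

include hn in
lemma tn : Tendsto (fun k => (n k : ℝ)) 𝒰 atTop := tendsto_natCast_atTop_atTop.comp hn

include hn in
lemma tconst (y : ℝ) : Tendsto (fun k => y / (n k : ℝ)) 𝒰 (𝓝 0) :=
  tendsto_const_nhds.div_atTop (tn 𝒰 n hn)

include hn hn0 hlam hc0 hc1 hc2 tg in
lemma ach_trivial {B : ℝ} (hB : B < g) : Ach 𝒰 n lam c B := by
  have t1 : Tendsto (fun k => Real.log (1 / c k) / n k - Real.log 4 / n k) 𝒰 (𝓝 (g - 0)) :=
    tg.sub (tconst 𝒰 n hn _)
  rw [sub_zero] at t1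
  filter_upwards [t1.eventually_const_lt hB] with k hk
  have hck := hc0 k
  have hnk : (0:ℝ) < n k := by exact_mod_cast hn0 k
  have h1 : 1 ≤ 1 / c k := by rw [le_div_iff₀ hck, one_mul]; exact hc1 k
  obtain ⟨a1, a2, a3⟩ := floor_sqrt h1
  refine ⟨_, a1, ?_, ?_⟩
  · have hR : Rz (n k) 1 1 (X ^ (lam k)) := by
      have := (Rz.full (lam k)).mul (Rz.empty (n k - lam k))
      rw [show lam k + (n k - lam k) = n k by have := hlam k; omega] at this
      simpa using this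
    refine hR.good a1 a1 ?_ ?_
    · have h2 : (1 / c k) ≤ 2 ^ (n k) := by
        rw [div_le_iff₀ hck]
        have := hc2 k
        calc (1:ℝ) = 2 ^ (n k) * (1 / 2) ^ (n k) := by rw [← mul_pow]; norm_num
          _ ≤ 2 ^ (n k) * c k := mul_le_mul_of_nonneg_left this (by positivity)
      have h3 : ((⌊Real.sqrt (1 / c k)⌋₊ : ℕ) : ℝ) ≤ ((2 ^ (n k) : ℕ) : ℝ) := by
        push_cast
        have h4 : (1:ℝ) ≤ (⌊Real.sqrt (1 / c k)⌋₊ : ℝ) := by exact_mod_cast a1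
        calc ((⌊Real.sqrt (1 / c k)⌋₊ : ℕ) : ℝ) = (⌊Real.sqrt (1 / c k)⌋₊ : ℝ) * 1 := by ring
          _ ≤ (⌊Real.sqrt (1 / c k)⌋₊ : ℝ) * (⌊Real.sqrt (1 / c k)⌋₊ : ℝ) :=
              mul_le_mul_of_nonneg_left h4 (by positivity)
          _ = (⌊Real.sqrt (1 / c k)⌋₊ : ℝ) ^ 2 := by ring
          _ ≤ 1 / c k := a2
          _ ≤ _ := h2
      exact_mod_cast h3
    · rw [coeff_X_pow, if_pos rfl]
      push_cast
      calc c k * ((⌊Real.sqrt (1 / c k)⌋₊ : ℕ) : ℝ) ^ 2 ≤ c k * (1 / c k) :=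
            mul_le_mul_of_nonneg_left a2 hck.le
        _ = 1 := by field_simp
  · rw [← sub_div] at hk
    exact hk.trans_le (div_le_div_of_nonneg_right a3 hnk.le)

/-! ### the exponential regime -/

variable {D a u q : ℕ} {Z : ℕ[X]} {α : ℝ}

/-- number of copies -/
noncomputable def Kk (n : ℕ → ℕ) (D : ℕ) (α : ℝ) (k : ℕ) : ℕ := ⌊(1 - α) / D * n k⌋₊

include hn in
lemma tKk (hα : α ≤ 1) : Tendsto (fun k => (Kk n D α k : ℝ) / n k) 𝒰 (𝓝 ((1 - α) / D)) :=
  (tendsto_nat_floor_mul_div_atTop (div_nonneg (by linarith) (Nat.cast_nonneg _))).comp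
    (tn 𝒰 n hn)

include hn tl in
/-- eventually there is room for the copies and the forced coordinates -/
lemma ev_room (hD : 0 < D) (hα1 : α ≤ 1) (x : ℕ → ℕ) (ξ : ℝ)
    (tx : Tendsto (fun k => (x k : ℝ) / n k) 𝒰 (𝓝 ξ))
    (hpos : ξ < l ∨ ∀ k, x k = 0) (hlt : l - ξ < α) :
    ∀ᶠ k in (𝒰 : Filter ℕ), x k ≤ lam k ∧ Kk n D α k * D + (lam k - x k) ≤ n k := by
  have hnpos : ∀ᶠ k in (𝒰 : Filter ℕ), (0:ℝ) < n k := (tn 𝒰 n hn).eventually_gt_atTop 0
  have h1 : ∀ᶠ k in (𝒰 : Filter ℕ), x k ≤ lam k := by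
    rcases hpos with h | h
    · filter_upwards [(tx.eventually_lt tl h), hnpos] with k hk hk2
      rw [div_lt_div_iff_of_pos_right hk2] at hk
      have : x k < lam k := by exact_mod_cast hk
      omega
    · exact Eventually.of_forall (fun k => by rw [h k]; omega)
  have hD' : (0:ℝ) < D := by exact_mod_cast hD
  have t2 : Tendsto (fun k => (Kk n D α k : ℝ) / n k * D + ((lam k : ℝ) / n k - (x k : ℝ) / n k))
      𝒰 (𝓝 ((1 - α) / D * D + (l - ξ))) :=
    ((tKk 𝒰 n hn hα1).mul_const _).add (tl.sub tx)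
  have e : (1 - α) / D * D + (l - ξ) < 1 := by
    have : (1 - α) / D * D = 1 - α := by field_simp
    linarith
  filter_upwards [h1, t2.eventually_lt_const e, hnpos] with k hk1 hk2 hk3
  refine ⟨hk1, ?_⟩
  have h3 : (Kk n D α k : ℝ) / n k * D + ((lam k : ℝ) / n k - (x k : ℝ) / n k)
      = ((Kk n D α k : ℝ) * D + ((lam k : ℝ) - x k)) / n k := by ring
  rw [h3, div_lt_one hk3] at hk2
  have h4 : ((Kk n D α k * D + (lam k - x k) : ℕ) : ℝ) < n k := by
    push_cast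
    rw [Nat.cast_sub hk1]
    exact hk2
  have : Kk n D α k * D + (lam k - x k) < n k := by exact_mod_cast h4
  omega

include hn tl hn0 hc0 hc1 in
/-- all pairs are good -/
lemma ach_all (hD : 0 < D) (ha : 0 < a) (hR : Rz D a a Z) (hq : a ^ 2 ≤ Z.coeff u)
    (hα1 : α ≤ 1)
    (hpos : (1 - α) / D * u < l ∨ u = 0) (hlt : l - (1 - α) / D * u < α)
    {B : ℝ} (hB : B < (1 - α) * (Real.log ((a : ℝ) ^ 2) / D)) : Ach 𝒰 n lam c B := by
  have tx : Tendsto (fun k => ((Kk n D α k * u : ℕ) : ℝ) / n k) 𝒰 (𝓝 ((1 - α) / D * u)) := by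
    refine ((tKk 𝒰 n hn (D := D) hα1).mul_const (u : ℝ)).congr (fun k => ?_)
    push_cast; ring
  have hroom := ev_room 𝒰 n lam hn l tl hD hα1 (fun k => Kk n D α k * u) _ tx
    (by rcases hpos with h | h
        · exact Or.inl h
        · exact Or.inr (fun k => by rw [h, mul_zero])) hlt
  have t1 : Tendsto (fun k => (Kk n D α k : ℝ) / n k * Real.log ((a : ℝ) ^ 2)) 𝒰
      (𝓝 ((1 - α) / D * Real.log ((a : ℝ) ^ 2))) := (tKk 𝒰 n hn hα1).mul_const _
  have e : (1 - α) / D * Real.log ((a : ℝ) ^ 2) = (1 - α) * (Real.log ((a : ℝ) ^ 2) / D) := by ring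
  rw [e] at t1
  filter_upwards [hroom, t1.eventually_const_lt hB] with k hk1 hk2
  obtain ⟨Z', hZ', hco⟩ := hR.fill hk1.1 hk1.2
  refine ⟨a ^ Kk n D α k, Nat.one_le_pow _ _ ha, ?_, ?_⟩
  · refine hZ'.good (le_refl _) (le_refl _) hZ'.card_le ?_
    have h1 : (a ^ Kk n D α k) ^ 2 ≤ Z'.coeff (lam k) := by
      calc (a ^ Kk n D α k) ^ 2 = (a ^ 2) ^ Kk n D α k := by rw [← pow_mul, ← pow_mul, mul_comm]
        _ ≤ (Z.coeff u) ^ Kk n D α k := Nat.pow_le_pow_left hq _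
        _ ≤ _ := coeff_pow_ge _ _ _
        _ ≤ _ := hco
    calc c k * ((a ^ Kk n D α k : ℕ) : ℝ) ^ 2 ≤ 1 * ((a ^ Kk n D α k : ℕ) : ℝ) ^ 2 :=
          mul_le_mul_of_nonneg_right (hc1 k) (by positivity)
      _ = (((a ^ Kk n D α k) ^ 2 : ℕ) : ℝ) := by push_cast; ring
      _ ≤ _ := by exact_mod_cast h1
  · refine hk2.trans_le (le_of_eq ?_)
    have h1 : Real.log (((a ^ Kk n D α k : ℕ) : ℝ) ^ 2)
        = Kk n D α k * Real.log ((a : ℝ) ^ 2) := by
      push_cast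
      rw [← pow_mul, mul_comm (Kk n D α k) 2, pow_mul, Real.log_pow]
    rw [h1]
    ring

include hn tl hn0 hc0 tg in
/-- the exponential regime -/
lemma ach_exp (hD : 0 < D) (ha : 0 < a) (hR : Rz D a a Z) (hq0 : 0 < q) (hq : q ≤ Z.coeff u)
    (hα1 : α ≤ 1)
    (hpos : (1 - α) / D * u < l ∨ u = 0) (hlt : l - (1 - α) / D * u < α)
    (hgap : (1 - α) * (Real.log ((a : ℝ) ^ 2) / D) < (1 - α) * (Real.log (q : ℝ) / D) + g)
    {B : ℝ} (hB1 : B < 2 * Real.log 2) (hB2 : B < (1 - α) * (Real.log (q : ℝ) / D) + g) :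
    Ach 𝒰 n lam c B := by
  have tx : Tendsto (fun k => ((Kk n D α k * u : ℕ) : ℝ) / n k) 𝒰 (𝓝 ((1 - α) / D * u)) := by
    refine ((tKk 𝒰 n hn (D := D) hα1).mul_const (u : ℝ)).congr (fun k => ?_)
    push_cast; ring
  have hroom := ev_room 𝒰 n lam hn l tl hD hα1 (fun k => Kk n D α k * u) _ tx
    (by rcases hpos with h | h
        · exact Or.inl h
        · exact Or.inr (fun k => by rw [h, mul_zero])) hlt
  have t1 : Tendsto (fun k => (Kk n D α k : ℝ) / n k * Real.log ((a : ℝ) ^ 2)) 𝒰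
      (𝓝 ((1 - α) * (Real.log ((a : ℝ) ^ 2) / D))) := by
    have := (tKk 𝒰 n hn (D := D) hα1).mul_const (Real.log ((a : ℝ) ^ 2))
    rw [show (1 - α) / D * Real.log ((a : ℝ) ^ 2) = (1 - α) * (Real.log ((a : ℝ) ^ 2) / D) by ring]
      at this
    exact this
  have t2 : Tendsto (fun k => (Kk n D α k : ℝ) / n k * Real.log (q : ℝ)
      + Real.log (1 / c k) / n k) 𝒰 (𝓝 ((1 - α) * (Real.log (q : ℝ) / D) + g)) := by
    have := (tKk 𝒰 n hn (D := D) hα1).mul_const (Real.log (q : ℝ))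
    rw [show (1 - α) / D * Real.log (q : ℝ) = (1 - α) * (Real.log (q : ℝ) / D) by ring] at this
    exact this.add tg
  have t3 : Tendsto (fun k => 2 * Real.log 2 - Real.log 4 / n k) 𝒰 (𝓝 (2 * Real.log 2 - 0)) :=
    (tconst 𝒰 n hn _).const_sub _
  have t4 := t2.sub (tconst 𝒰 n hn (Real.log 4))
  rw [sub_zero] at t3 t4
  filter_upwards [hroom, t1.eventually_lt t2 hgap, t3.eventually_const_lt hB1,
    t4.eventually_const_lt hB2] with k hk1 hk2 hk3 hk4
  have hck := hc0 k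
  have hnk : (0:ℝ) < n k := by exact_mod_cast hn0 k
  obtain ⟨Z', hZ', hco⟩ := hR.fill hk1.1 hk1.2
  set K := Kk n D α k with hK
  have hqK : (q : ℝ) ^ K ≤ (Z'.coeff (lam k) : ℝ) := by
    have : q ^ K ≤ Z'.coeff (lam k) :=
      (Nat.pow_le_pow_left hq _).trans ((coeff_pow_ge _ _ _).trans hco)
    exact_mod_cast this
  have hqpos : (0:ℝ) < q := by exact_mod_cast hq0
  have hapos : (0:ℝ) < a := by exact_mod_cast ha
  -- the target
  set y : ℝ := min ((4:ℝ) ^ (n k)) ((q : ℝ) ^ K / c k) with hy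
  have ha1 : ((a : ℝ) ^ K) ^ 2 ≤ y := by
    refine le_min ?_ ?_
    · have h1 := hZ'.card_le
      have h2 : ((a : ℝ) ^ K) ≤ 2 ^ (n k) := by exact_mod_cast h1
      calc ((a : ℝ) ^ K) ^ 2 ≤ ((2:ℝ) ^ (n k)) ^ 2 := pow_le_pow_left₀ (by positivity) h2 2
        _ = (4:ℝ) ^ (n k) := by rw [← pow_mul, mul_comm, pow_mul]; norm_num
    · rw [← Real.log_le_log_iff (by positivity) (by positivity)]
      have h1 : Real.log (((a : ℝ) ^ K) ^ 2) = K * Real.log ((a : ℝ) ^ 2) := by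
        rw [← pow_mul, mul_comm K 2, pow_mul, Real.log_pow]
      have h2 : Real.log ((q : ℝ) ^ K / c k) = K * Real.log q + Real.log (1 / c k) := by
        rw [Real.log_div (by positivity) hck.ne', Real.log_pow, one_div, Real.log_inv]
        ring
      rw [h1, h2]
      have h3 : (K : ℝ) / n k * Real.log ((a : ℝ) ^ 2) * n k
          ≤ ((K : ℝ) / n k * Real.log q + Real.log (1 / c k) / n k) * n k :=
        mul_le_mul_of_nonneg_right hk2.le hnk.le
      have h4 : (K : ℝ) / n k * Real.log ((a : ℝ) ^ 2) * n k = K * Real.log ((a : ℝ) ^ 2) := by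
        field_simp
      have h5 : ((K : ℝ) / n k * Real.log q + Real.log (1 / c k) / n k) * n k
          = K * Real.log q + Real.log (1 / c k) := by
        field_simp
      rw [h4, h5] at h3
      exact h3
  have ha2 : (1:ℝ) ≤ (a : ℝ) ^ K := by
    have : 1 ≤ a ^ K := Nat.one_le_pow _ _ ha
    exact_mod_cast this
  have hy1 : 1 ≤ y := le_trans (one_le_pow₀ ha2) ha1
  obtain ⟨b1, b2, b3⟩ := floor_sqrt hy1
  have hay : a ^ K ≤ ⌊Real.sqrt y⌋₊ := by
    apply Nat.le_floor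
    push_cast
    apply Real.le_sqrt_of_sq_le
    exact ha1
  refine ⟨_, b1, ?_, ?_⟩
  · refine hZ'.good hay hay ?_ ?_
    · have h1 : ((⌊Real.sqrt y⌋₊ : ℕ) : ℝ) ≤ Real.sqrt y := Nat.floor_le (Real.sqrt_nonneg _)
      have h2 : Real.sqrt y ≤ 2 ^ (n k) := by
        rw [Real.sqrt_le_left (by positivity)]
        calc y ≤ (4:ℝ) ^ (n k) := min_le_left _ _
          _ = (2 ^ (n k)) ^ 2 := by rw [← pow_mul, mul_comm, pow_mul]; norm_num
      have h3 : ((⌊Real.sqrt y⌋₊ : ℕ) : ℝ) ≤ ((2 ^ (n k) : ℕ) : ℝ) := by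
        push_cast
        exact h1.trans h2
      exact_mod_cast h3
    · calc c k * ((⌊Real.sqrt y⌋₊ : ℕ) : ℝ) ^ 2 ≤ c k * ((q : ℝ) ^ K / c k) :=
            mul_le_mul_of_nonneg_left (b2.trans (min_le_right _ _)) hck.le
        _ = (q : ℝ) ^ K := by field_simp
        _ ≤ _ := hqK
  · have h1 : Real.log y / n k - Real.log 4 / n k
        ≤ Real.log ((⌊Real.sqrt y⌋₊ : ℝ) ^ 2) / n k := by
      rw [← sub_div]
      exact div_le_div_of_nonneg_right b3 hnk.le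
    refine lt_of_lt_of_le ?_ h1
    have h2 : Real.log y = min (n k * (2 * Real.log 2)) (K * Real.log q + Real.log (1 / c k)) := by
      have e1 : Real.log ((4:ℝ) ^ (n k)) = n k * (2 * Real.log 2) := by
        rw [Real.log_pow, show (4:ℝ) = 2 ^ 2 by norm_num, Real.log_pow]
        push_cast
        ring
      have e2 : Real.log ((q : ℝ) ^ K / c k) = K * Real.log q + Real.log (1 / c k) := by
        rw [Real.log_div (by positivity) hck.ne', Real.log_pow, one_div, Real.log_inv]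
        ring
      rw [← e1, ← e2, hy]
      rcases le_total ((4:ℝ) ^ (n k)) ((q : ℝ) ^ K / c k) with h | h
      · rw [min_eq_left h, min_eq_left (Real.log_le_log (by positivity) h)]
      · rw [min_eq_right h, min_eq_right (Real.log_le_log (by positivity) h)]
    rw [h2]
    rcases le_total ((n k : ℝ) * (2 * Real.log 2)) (K * Real.log q + Real.log (1 / c k)) with h | h
    · rw [min_eq_left h]
      refine hk3.trans_le (le_of_eq ?_)
      field_simp
    · rw [min_eq_right h]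
      refine hk4.trans_le (le_of_eq ?_)
      ring

include hn tl hn0 hc0 tv in
/-- the window regime -/
lemma ach_win (hD : 0 < D) (ha : 0 < a) (hR : Rz D a a Z) (hV : 0 < vari Z)
    (hb : ∀ θ : ℝ, |θ| ≤ Real.pi → ‖aeval (Complex.exp (θ * Complex.I)) Z‖
        ≤ e0 Z * Real.exp (-(1 / (2 * Real.pi ^ 2)) * θ ^ 2))
    (hα0 : 0 ≤ α) (hα1 : α < 1) (hpos : (1 - α) * (mean Z / D) < l)
    (hlt : l - (1 - α) * (mean Z / D) < α) (hv : vari Z / D < v)
    {B : ℝ} (hB : B < (1 - α) * (Real.log ((a : ℝ) ^ 2) / D)) : Ach 𝒰 n lam c B := by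
  have hpi := Real.pi_pos
  have hD' : (0:ℝ) < D := by exact_mod_cast hD
  have he0 : e0 Z = (a : ℝ) ^ 2 := by rw [hR.e0]; ring
  have he0p : 0 < e0 Z := by
    rw [he0]
    have : (0:ℝ) < a := by exact_mod_cast ha
    positivity
  have hmean0 : 0 ≤ mean Z := by unfold mean e1 e0; positivity
  -- K tends to infinity
  have tK : Tendsto (fun k => (Kk n D α k : ℝ) / n k) 𝒰 (𝓝 ((1 - α) / D)) :=
    tKk 𝒰 n hn hα1.le
  have hKpos : 0 < (1 - α) / (D : ℝ) := div_pos (by linarith) hD'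
  have tKinf : Tendsto (fun k => Kk n D α k) 𝒰 atTop := by
    have h1 : Tendsto (fun k => (Kk n D α k : ℝ) / n k * n k) 𝒰 atTop :=
      Tendsto.pos_mul_atTop hKpos tK (tn 𝒰 n hn)
    rw [← tendsto_natCast_atTop_iff (R := ℝ)]
    refine h1.congr (fun k => ?_)
    have : (n k : ℝ) ≠ 0 := by exact_mod_cast (hn0 k).ne'
    field_simp
  -- the centre
  set x : ℕ → ℕ := fun K => ⌊K * mean Z⌋₊ with hx
  have hxb : ∀ K : ℕ, |(x K : ℝ) - K * mean Z| ≤ 1 := by
    intro K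
    have h1 : (x K : ℝ) ≤ K * mean Z := Nat.floor_le (by positivity)
    have h2 : (K : ℝ) * mean Z < x K + 1 := Nat.lt_floor_add_one _
    rw [abs_le]
    constructor <;> linarith
  have hllt := (llt Z (1 / (2 * Real.pi ^ 2)) (by positivity) he0p hV hb x hxb).comp tKinf
  have tx : Tendsto (fun k => (x (Kk n D α k) : ℝ) / n k) 𝒰 (𝓝 ((1 - α) * (mean Z / D))) := by
    have h1 : Tendsto (fun k => (Kk n D α k : ℝ) / n k * mean Z) 𝒰
        (𝓝 ((1 - α) / D * mean Z)) := tK.mul_const _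
    have h2 : Tendsto (fun k => ((x (Kk n D α k) : ℝ) - (Kk n D α k : ℕ) * mean Z) / n k) 𝒰
        (𝓝 0) := by
      rw [tendsto_zero_iff_norm_tendsto_zero]
      refine squeeze_zero (fun _ => norm_nonneg _) (fun k => ?_) (tconst 𝒰 n hn 1)
      rw [norm_div, Real.norm_eq_abs, Real.norm_of_nonneg (Nat.cast_nonneg _)]
      exact div_le_div_of_nonneg_right (hxb _) (Nat.cast_nonneg _)
    have h3 := h1.add h2
    rw [add_zero, show (1 - α) / (D:ℝ) * mean Z = (1 - α) * (mean Z / D) by ring] at h3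
    refine h3.congr (fun k => ?_)
    ring
  have hroom := ev_room 𝒰 n lam hn l tl hD hα1.le (fun k => x (Kk n D α k)) _ tx
    (Or.inl hpos) hlt
  -- choose intermediate variances
  have hvv : (1 - α) * (vari Z / D) < v := by
    have h1 : 0 < vari Z / D := by positivity
    nlinarith
  obtain ⟨v2, hv2a, hv2b⟩ := exists_between hvv
  obtain ⟨V1, hV1a, hV1b⟩ : ∃ V1, vari Z < V1 ∧ V1 * ((1 - α) / D) < v2 := by
    refine ⟨(vari Z + v2 / ((1 - α) / D)) / 2, ?_, ?_⟩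
    · have : vari Z < v2 / ((1 - α) / D) := by
        rw [lt_div_iff₀ hKpos]
        calc vari Z * ((1 - α) / D) = (1 - α) * (vari Z / D) := by ring
          _ < v2 := hv2a
      linarith
    · have h1 : vari Z * ((1 - α) / D) < v2 := by
        calc vari Z * ((1 - α) / D) = (1 - α) * (vari Z / D) := by ring
          _ < v2 := hv2a
      have h2 : v2 / ((1 - α) / D) * ((1 - α) / D) = v2 := div_mul_cancel₀ _ hKpos.ne'
      calc (vari Z + v2 / ((1 - α) / D)) / 2 * ((1 - α) / D)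
          = (vari Z * ((1 - α) / D) + v2 / ((1 - α) / D) * ((1 - α) / D)) / 2 := by ring
        _ < v2 := by rw [h2]; linarith
  have hV1 : 0 < V1 := hV.trans hV1a
  have hlim1 : 1 / Real.sqrt (2 * Real.pi * V1) < 1 / Real.sqrt (2 * Real.pi * vari Z) := by
    apply one_div_lt_one_div_of_lt (Real.sqrt_pos.2 (by positivity))
    apply Real.sqrt_lt_sqrt (by positivity)
    have : 0 < 2 * Real.pi := by positivity
    nlinarith
  have tKV : Tendsto (fun k => V1 * ((Kk n D α k : ℝ) / n k)) 𝒰 (𝓝 (V1 * ((1 - α) / D))) :=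
    tK.const_mul _
  have t1 : Tendsto (fun k => (Kk n D α k : ℝ) / n k * Real.log ((a : ℝ) ^ 2)) 𝒰
      (𝓝 ((1 - α) / D * Real.log ((a : ℝ) ^ 2))) := tK.mul_const _
  have e : (1 - α) / D * Real.log ((a : ℝ) ^ 2) = (1 - α) * (Real.log ((a : ℝ) ^ 2) / D) := by ring
  rw [e] at t1
  filter_upwards [hroom, t1.eventually_const_lt hB, hllt.eventually_const_lt hlim1,
    tKV.eventually_lt_const hV1b, tv.eventually_const_lt hv2b,
    tKinf.eventually_gt_atTop 0] with k hk1 hk2 hk3 hk4 hk5 hk6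
  have hck := hc0 k
  have hnk : (0:ℝ) < n k := by exact_mod_cast hn0 k
  obtain ⟨Z', hZ', hco⟩ := hR.fill hk1.1 hk1.2
  refine ⟨a ^ Kk n D α k, Nat.one_le_pow _ _ ha, ?_, ?_⟩
  · refine hZ'.good (le_refl _) (le_refl _) hZ'.card_le ?_
    refine le_trans ?_ (show (((Z ^ Kk n D α k).coeff (x (Kk n D α k)) : ℕ) : ℝ) ≤ _ by
      exact_mod_cast hco)
    simp only [Function.comp] at hk3
    set K := Kk n D α k with hKdef
    have hKp : (0:ℝ) < K := by exact_mod_cast hk6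
    have hsK : 0 < Real.sqrt K := Real.sqrt_pos.2 hKp
    have hae : e0 Z ^ K = ((a ^ K : ℕ) : ℝ) ^ 2 := by
      rw [he0]; push_cast; rw [← pow_mul, ← pow_mul, mul_comm]
    have haK : 0 < ((a ^ K : ℕ) : ℝ) ^ 2 := by rw [← hae]; positivity
    rw [hae] at hk3
    -- density
    have h1 : 1 / Real.sqrt (2 * Real.pi * V1) / Real.sqrt K
        < (((Z ^ K).coeff (x K) : ℕ) : ℝ) / ((a ^ K : ℕ) : ℝ) ^ 2 := by
      rw [div_lt_iff₀ hsK]
      rw [mul_comm (Real.sqrt K)] at hk3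
      exact hk3
    have h2 : c k ≤ 1 / Real.sqrt (2 * Real.pi * V1) / Real.sqrt K := by
      have h3 : v2 < 1 / (2 * Real.pi * n k * c k ^ 2) := lt_of_lt_of_le hk5 (min_le_left _ _)
      have hv2pos : 0 < v2 := lt_of_le_of_lt (by
        have : 0 < vari Z / D := by positivity
        exact mul_nonneg (by linarith) this.le) hv2a
      rw [lt_div_iff₀ (by positivity)] at h3
      have h4 : V1 * K ≤ v2 * n k := by
        have : V1 * ((K : ℝ) / n k) * n k ≤ v2 * n k := mul_le_mul_of_nonneg_right hk4.le hnk.le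
        have e3 : V1 * ((K : ℝ) / n k) * n k = V1 * K := by field_simp
        rw [e3] at this
        exact this
      have h5 : (2 * Real.pi * V1 * K) * c k ^ 2 ≤ 1 := by
        calc (2 * Real.pi * V1 * K) * c k ^ 2 = (V1 * K) * (2 * Real.pi * c k ^ 2) := by ring
          _ ≤ (v2 * n k) * (2 * Real.pi * c k ^ 2) :=
              mul_le_mul_of_nonneg_right h4 (by positivity)
          _ = v2 * (2 * Real.pi * n k * c k ^ 2) := by ring
          _ ≤ 1 := h3.le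
      rw [div_div, ← Real.sqrt_mul (by positivity), le_div_iff₀ (Real.sqrt_pos.2 (by positivity))]
      have h6 : (c k * Real.sqrt (2 * Real.pi * V1 * K)) ^ 2 ≤ 1 ^ 2 := by
        rw [mul_pow, Real.sq_sqrt (by positivity), one_pow]
        linarith
      exact (abs_le_of_sq_le_sq' h6 zero_le_one).2
    have h7 := h2.trans h1.le
    rw [le_div_iff₀ haK] at h7
    exact h7
  · refine hk2.trans_le (le_of_eq ?_)
    have h1 : Real.log (((a ^ Kk n D α k : ℕ) : ℝ) ^ 2)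
        = Kk n D α k * Real.log ((a : ℝ) ^ 2) := by
      push_cast
      rw [← pow_mul, mul_comm (Kk n D α k) 2, pow_mul, Real.log_pow]
    rw [h1]
    ring

end seq

end BC
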