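import Mathlib
import Pool.Agent.Lib_helper28.BCDefs

/-!
# Critical points of the two-by-two kernel

For `w > 0` and `k > 0` the pairs `(x, y)` with `k x = S w y`, `k y = S w x`, where
`S w x = log (1 + w e^x) - log (1 + e^x)`, are the critical points of
`LL`.  Two critical pairs with the same value of `LL` agree up to exchanging `x` and `y`.
-/

set_option autoImplicit false

open Real

namespace BC.One

/-- `S w x = log ((1 + w e^x)/(1 + e^x))` -/
noncomputable def SS (w x : ℝ) : ℝ := Real.log (1 + w * Real.exp x) - Real.log (1 + Real.exp x)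

lemma SS_hasDeriv {w : ℝ} (hw : 0 < w) (x : ℝ) :
    HasDerivAt (SS w) ((w - 1) / (Real.exp (-x) + (1 + w) + w * Real.exp x)) x := by
  have hx := Real.exp_pos x
  have h1 : (1 + w * Real.exp x) ≠ 0 := by positivity
  have h2 : (1 + Real.exp x) ≠ 0 := by positivity
  have e1 : HasDerivAt (fun x => Real.log (1 + w * Real.exp x))
      (w * Real.exp x / (1 + w * Real.exp x)) x := by
    have := ((Real.hasDerivAt_exp x).const_mul w).const_add 1
    simpa using this.log h1
  have e2 : HasDerivAt (fun x => Real.log (1 + Real.exp x))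
      (Real.exp x / (1 + Real.exp x)) x := by
    have := (Real.hasDerivAt_exp x).const_add 1
    simpa using this.log h2
  have h3 := e1.sub e2
  have : w * Real.exp x / (1 + w * Real.exp x) - Real.exp x / (1 + Real.exp x)
      = (w - 1) / (Real.exp (-x) + (1 + w) + w * Real.exp x) := by
    rw [Real.exp_neg]
    have : (Real.exp x)⁻¹ + (1 + w) + w * Real.exp x ≠ 0 := by positivity
    field_simp
    ring
  rw [← this]
  exact h3

lemma SS_anti {w : ℝ} (hw : 0 < w) (hw1 : w < 1) : StrictAnti (SS w) := by
  apply strictAnti_of_deriv_neg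
  intro x
  rw [(SS_hasDeriv hw x).deriv]
  have := Real.exp_pos x
  have := Real.exp_pos (-x)
  apply div_neg_of_neg_of_pos (by linarith) (by positivity)

lemma SS_mono {w : ℝ} (hw : 1 < w) : StrictMono (SS w) := by
  apply strictMono_of_deriv_pos
  intro x
  have hw0 : 0 < w := by linarith
  rw [(SS_hasDeriv hw0 x).deriv]
  have := Real.exp_pos x
  have := Real.exp_pos (-x)
  apply div_pos (by linarith) (by positivity)

/-- critical pairs -/
def Crit (w k x y : ℝ) : Prop := k * x = SS w y ∧ k * y = SS w x

lemma Crit.symm {w k x y : ℝ} (h : Crit w k x y) : Crit w k y x := ⟨h.2, h.1⟩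

/-- Case `w > 1`: there is at most one critical pair, and it is symmetric. -/
lemma crit_gt {w k : ℝ} (hw : 1 < w) (hk : 0 < k) {x y x' y' : ℝ} (h : Crit w k x y)
    (h' : Crit w k x' y') : x = x' ∧ y = y' := by
  have hw0 : 0 < w := by linarith
  have hmono := SS_mono hw
  have sym : ∀ {a b : ℝ}, Crit w k a b → a = b := by
    intro a b hab
    rcases lt_trichotomy a b with hlt | heq | hgt
    · have := hmono hlt
      rw [← hab.1, ← hab.2] at this
      nlinarith
    · exact heq
    · have := hmono hgt
      rw [← hab.1, ← hab.2] at this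
      nlinarith
  have e1 := sym h
  have e2 := sym h'
  subst e1 e2
  suffices x = x' from ⟨this, this⟩
  have h1 : k * x = SS w x := h.1
  have h2 : k * x' = SS w x' := h'.1
  -- positivity of fixed points
  have hpos : ∀ a : ℝ, 0 < SS w a := by
    intro a
    unfold SS
    have := Real.exp_pos a
    have : Real.log (1 + Real.exp a) < Real.log (1 + w * Real.exp a) := by
      apply Real.log_lt_log (by positivity)
      nlinarith
    linarith
  have hx : 0 < x := by
    have := hpos x
    rw [← h1] at this
    exact (pos_iff_pos_of_mul_pos this).1 hk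
  have hx' : 0 < x' := by
    have := hpos x'
    rw [← h2] at this
    exact (pos_iff_pos_of_mul_pos this).1 hk
  -- concavity on [0, ∞)
  have hconc : ConcaveOn ℝ (Set.Ici (0:ℝ)) (SS w) := by
    apply AntitoneOn.concaveOn_of_deriv (convex_Ici 0)
    · exact (continuous_iff_continuousAt.2 fun x => (SS_hasDeriv hw0 x).continuousAt).continuousOn
    · intro x _
      exact (SS_hasDeriv hw0 x).differentiableAt.differentiableWithinAt
    · intro a ha b hb hab
      rw [interior_Ici] at ha hb
      simp only [Set.mem_Ioi] at ha hb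
      rw [(SS_hasDeriv hw0 a).deriv, (SS_hasDeriv hw0 b).deriv]
      have pa := Real.exp_pos a
      have pb := Real.exp_pos b
      have pa' := Real.exp_pos (-a)
      have pb' := Real.exp_pos (-b)
      apply div_le_div_of_nonneg_left (by linarith) (by positivity)
      have e1 : Real.exp (-a) = (Real.exp a)⁻¹ := Real.exp_neg a
      have e2 : Real.exp (-b) = (Real.exp b)⁻¹ := Real.exp_neg b
      have h1a : 1 ≤ Real.exp a := by
        rw [← Real.exp_zero]; exact Real.exp_le_exp.2 ha.le
      have hab' : Real.exp a ≤ Real.exp b := Real.exp_le_exp.2 hab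
      have key : (Real.exp a)⁻¹ - (Real.exp b)⁻¹ ≤ Real.exp b - Real.exp a := by
        have : (Real.exp a)⁻¹ - (Real.exp b)⁻¹ = (Real.exp b - Real.exp a) / (Real.exp a * Real.exp b) := by
          field_simp
        rw [this]
        apply div_le_self (by linarith)
        nlinarith
      rw [e1, e2]
      nlinarith
  have J0 : 0 < SS w 0 := hpos 0
  have key : ∀ a b : ℝ, 0 < a → a < b → k * a = SS w a → k * b = SS w b → False := by
    intro a b ha hab h1 h2
    have hb : 0 < b := lt_trans ha hab
    have m0 : (0:ℝ) ∈ Set.Ici (0:ℝ) := Set.mem_Ici.2 le_rfl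
    have mb : b ∈ Set.Ici (0:ℝ) := Set.mem_Ici.2 hb.le
    have w1 : 0 ≤ 1 - a / b := by
      have : a / b ≤ 1 := by rw [div_le_one hb]; exact hab.le
      linarith
    have w2 : 0 ≤ a / b := by positivity
    have := hconc.2 m0 mb w1 w2 (by ring)
    simp only [smul_eq_mul, mul_zero, zero_add] at this
    have e : a / b * b = a := by field_simp
    rw [e, ← h1, ← h2] at this
    have e2 : a / b * (k * b) = k * a := by field_simp
    rw [e2] at this
    have h3 : 0 < 1 - a / b := by
      have : a / b < 1 := by rw [div_lt_one hb]; exact hab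
      linarith
    have := mul_pos h3 J0
    linarith
  rcases lt_trichotomy x x' with hlt | heq | hgt
  · exact (key x x' hx hlt h1 h2).elim
  · exact heq
  · exact (key x' x hx' hgt h2 h1).elim

lemma crit_one {k : ℝ} (hk : 0 < k) {x y : ℝ} (h : Crit 1 k x y) : x = 0 ∧ y = 0 := by
  obtain ⟨h1, h2⟩ := h
  simp [SS] at h1 h2
  constructor
  · rcases h1 with h1 | h1
    · linarith
    · exact h1
  · rcases h2 with h2 | h2
    · linarith
    · exact h2

/-- Rolle, in the form used below. -/
lemma rolle {f f' : ℝ → ℝ} {a b : ℝ} (hab : a < b) (hf : ∀ x ∈ Set.Icc a b, HasDerivAt f (f' x) x)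
    (h : f a = f b) : ∃ c, a < c ∧ c < b ∧ f' c = 0 := by
  obtain ⟨c, hc, hc'⟩ := exists_hasDerivAt_eq_zero hab
    (fun x hx => (hf x hx).continuousAt.continuousWithinAt) h
    (fun x hx => hf x ⟨hx.1.le, hx.2.le⟩)
  exact ⟨c, hc.1, hc.2, hc'⟩

/-- Case `w < 1`: there are no five fixed points. -/
lemma no_five {w k : ℝ} (hw : 0 < w) (hw1 : w < 1) (hk : 0 < k) {z1 z2 z3 z4 z5 : ℝ}
    (h12 : z1 < z2) (h23 : z2 < z3) (h34 : z3 < z4) (h45 : z4 < z5)
    (c1 : Crit w k z1 (SS w z1 / k)) (c2 : Crit w k z2 (SS w z2 / k))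
    (c3 : Crit w k z3 (SS w z3 / k)) (c4 : Crit w k z4 (SS w z4 / k))
    (c5 : Crit w k z5 (SS w z5 / k)) : False := by
  -- range of S
  have hS : ∀ y, Real.log w < SS w y ∧ SS w y < 0 := by
    intro y
    have hy := Real.exp_pos y
    unfold SS
    constructor
    · have : Real.log (w * (1 + Real.exp y)) < Real.log (1 + w * Real.exp y) := by
        apply Real.log_lt_log (by positivity)
        nlinarith
      rw [Real.log_mul (by positivity) (by positivity)] at this
      linarith
    · have : Real.log (1 + w * Real.exp y) < Real.log (1 + Real.exp y) := by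
        apply Real.log_lt_log (by positivity)
        nlinarith
      linarith
  have range : ∀ {z : ℝ}, Crit w k z (SS w z / k) → w < Real.exp (k * z) ∧ Real.exp (k * z) < 1 := by
    intro z hz
    have := hS (SS w z / k)
    rw [← hz.1] at this
    constructor
    · calc w = Real.exp (Real.log w) := (Real.exp_log hw).symm
        _ < _ := Real.exp_lt_exp.2 this.1
    · calc Real.exp (k * z) < Real.exp 0 := Real.exp_lt_exp.2 this.2
        _ = 1 := Real.exp_zero
  -- the function g
  let g : ℝ → ℝ := fun z => k * (Real.log (1 - Real.exp (k * z)) - Real.log (Real.exp (k * z) - w))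
    - SS w z
  have gz : ∀ {z : ℝ}, Crit w k z (SS w z / k) → g z = 0 := by
    intro z hz
    obtain ⟨r1, r2⟩ := range hz
    set y := SS w z / k with hy
    have hy' := Real.exp_pos y
    have e1 : Real.exp (k * z) * (1 + Real.exp y) = 1 + w * Real.exp y := by
      rw [hz.1]
      unfold SS
      rw [Real.exp_sub, Real.exp_log (by positivity), Real.exp_log (by positivity)]
      field_simp
    have e2 : Real.exp y = (1 - Real.exp (k * z)) / (Real.exp (k * z) - w) := by
      rw [eq_div_iff (by linarith)]
      linarith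
    have e3 : y = Real.log (1 - Real.exp (k * z)) - Real.log (Real.exp (k * z) - w) := by
      rw [← Real.log_div (by linarith) (by linarith), ← e2, Real.log_exp]
    show k * (Real.log (1 - Real.exp (k * z)) - Real.log (Real.exp (k * z) - w)) - SS w z = 0
    rw [← e3, hy]
    field_simp
    ring
  have gd : ∀ z : ℝ, w < Real.exp (k * z) → Real.exp (k * z) < 1 → HasDerivAt g
      (k * (-(Real.exp (k * z) * k) / (1 - Real.exp (k * z))
        - (Real.exp (k * z) * k) / (Real.exp (k * z) - w))
        - (w - 1) / (Real.exp (-z) + (1 + w) + w * Real.exp z)) z := by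
    intro z r1 r2
    have e : HasDerivAt (fun z => Real.exp (k * z)) (Real.exp (k * z) * k) z := by
      have := ((hasDerivAt_id z).const_mul k).exp
      simpa using this
    have a1 : HasDerivAt (fun z => Real.log (1 - Real.exp (k * z)))
        (-(Real.exp (k * z) * k) / (1 - Real.exp (k * z))) z :=
      (e.const_sub 1).log (by linarith)
    have a2 : HasDerivAt (fun z => Real.log (Real.exp (k * z) - w))
        ((Real.exp (k * z) * k) / (Real.exp (k * z) - w)) z :=
      (e.sub_const w).log (by linarith)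
    exact ((a1.sub a2).const_mul k).sub (SS_hasDeriv hw z)
  -- between two fixed points there is a zero of C - const
  let C : ℝ → ℝ := fun z => k ^ 2 * (Real.exp (-z) + w * Real.exp z) + Real.exp (k * z)
    + w * Real.exp (-(k * z))
  have step1 : ∀ {a b : ℝ}, a < b → Crit w k a (SS w a / k) → Crit w k b (SS w b / k) →
      ∃ c, a < c ∧ c < b ∧ C c = (1 + w) * (1 - k ^ 2) := by
    intro a b hab ca cb
    obtain ⟨ra1, ra2⟩ := range ca
    obtain ⟨rb1, rb2⟩ := range cb
    have rng : ∀ x ∈ Set.Icc a b, w < Real.exp (k * x) ∧ Real.exp (k * x) < 1 := by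
      intro x hx
      constructor
      · refine lt_of_lt_of_le ra1 (Real.exp_le_exp.2 ?_)
        exact mul_le_mul_of_nonneg_left hx.1 hk.le
      · refine lt_of_le_of_lt (Real.exp_le_exp.2 ?_) rb2
        exact mul_le_mul_of_nonneg_left hx.2 hk.le
    obtain ⟨c, hc1, hc2, hc3⟩ := rolle hab (fun x hx => gd x (rng x hx).1 (rng x hx).2)
      ((gz ca).trans (gz cb).symm)
    refine ⟨c, hc1, hc2, ?_⟩
    obtain ⟨r1, r2⟩ := rng c ⟨hc1.le, hc2.le⟩
    have p1 := Real.exp_pos (k * c)
    have p2 := Real.exp_pos c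
    have q1 : Real.exp (-c) = (Real.exp c)⁻¹ := Real.exp_neg c
    have q2 : Real.exp (-(k * c)) = (Real.exp (k * c))⁻¹ := Real.exp_neg _
    show k ^ 2 * (Real.exp (-c) + w * Real.exp c) + Real.exp (k * c)
      + w * Real.exp (-(k * c)) = (1 + w) * (1 - k ^ 2)
    rw [q1, q2]
    rw [q1] at hc3
    generalize Real.exp (k * c) = u at *
    generalize Real.exp c = v at *
    have hd1 : 1 - u ≠ 0 := by linarith
    have hd2 : u - w ≠ 0 := by linarith
    have hd3 : v⁻¹ + (1 + w) + w * v ≠ 0 := by positivity
    have h4 : k * (-(u * k) / (1 - u) - (u * k) / (u - w)) = - (k ^ 2 * u * (1 - w) / ((1 - u) * (u - w))) := by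
      field_simp
      ring
    rw [h4] at hc3
    have h5 : k ^ 2 * u * (1 - w) / ((1 - u) * (u - w)) = (1 - w) / (v⁻¹ + (1 + w) + w * v) := by
      have : (w - 1) / (v⁻¹ + (1 + w) + w * v) = - ((1 - w) / (v⁻¹ + (1 + w) + w * v)) := by
        rw [← neg_div]; ring_nf
      rw [this] at hc3
      linarith
    rw [div_eq_div_iff (mul_ne_zero hd1 hd2) hd3] at h5
    have h6 : k ^ 2 * u * (v⁻¹ + (1 + w) + w * v) = (1 - u) * (u - w) := by
      have hw' : (1 - w) ≠ 0 := by linarith
      apply mul_left_cancel₀ hw'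
      linarith
    have h7 : k ^ 2 * (v⁻¹ + (1 + w) + w * v) = (1 - u) * (u - w) * u⁻¹ := by
      field_simp
      field_simp at h6
      linarith
    have h8 : (1 - u) * (u - w) * u⁻¹ = 1 + w - u - w * u⁻¹ := by
      field_simp
      ring
    rw [h8] at h7
    linarith
  obtain ⟨d1, _, d1r, e1⟩ := step1 h12 c1 c2
  obtain ⟨d2, d2l, d2r, e2⟩ := step1 h23 c2 c3
  obtain ⟨d3, d3l, d3r, e3⟩ := step1 h34 c3 c4
  obtain ⟨d4, d4l, _, e4⟩ := step1 h45 c4 c5
  let C' : ℝ → ℝ := fun z => k ^ 2 * (-Real.exp (-z) + w * Real.exp z) + k * Real.exp (k * z)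
    - k * w * Real.exp (-(k * z))
  have Cd : ∀ z, HasDerivAt C (C' z) z := by
    intro z
    have n1 : HasDerivAt (fun z : ℝ => Real.exp (-z)) (-Real.exp (-z)) z := by
      have := (hasDerivAt_neg z).exp
      simpa using this
    have n2 : HasDerivAt (fun z => Real.exp (k * z)) (Real.exp (k * z) * k) z := by
      have := ((hasDerivAt_id z).const_mul k).exp
      simpa using this
    have n3 : HasDerivAt (fun z => Real.exp (-(k * z))) (Real.exp (-(k * z)) * (-k)) z := by
      have := (((hasDerivAt_id z).const_mul k).neg).exp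
      simpa using this
    have := (((n1.add ((Real.hasDerivAt_exp z).const_mul w)).const_mul (k ^ 2)).add n2).add
      (n3.const_mul w)
    refine HasDerivAt.congr_deriv (f := C) this ?_
    show _ = k ^ 2 * (-Real.exp (-z) + w * Real.exp z) + k * Real.exp (k * z)
      - k * w * Real.exp (-(k * z))
    ring
  have C'd : ∀ z, HasDerivAt C' (k ^ 2 * (Real.exp (-z) + w * Real.exp z)
      + k ^ 2 * Real.exp (k * z) + k ^ 2 * w * Real.exp (-(k * z))) z := by
    intro z
    have n1 : HasDerivAt (fun z : ℝ => Real.exp (-z)) (-Real.exp (-z)) z := by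
      have := (hasDerivAt_neg z).exp
      simpa using this
    have n2 : HasDerivAt (fun z => Real.exp (k * z)) (Real.exp (k * z) * k) z := by
      have := ((hasDerivAt_id z).const_mul k).exp
      simpa using this
    have n3 : HasDerivAt (fun z => Real.exp (-(k * z))) (Real.exp (-(k * z)) * (-k)) z := by
      have := (((hasDerivAt_id z).const_mul k).neg).exp
      simpa using this
    have := ((((n1.neg).add ((Real.hasDerivAt_exp z).const_mul w)).const_mul (k ^ 2)).add
      (n2.const_mul k)).sub (n3.const_mul (k * w))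
    refine HasDerivAt.congr_deriv (f := C') this ?_
    ring
  obtain ⟨f1, _, f1r, g1⟩ := rolle (lt_trans d1r d2l) (fun x _ => Cd x) (e1.trans e2.symm)
  obtain ⟨f2, f2l, f2r, g2⟩ := rolle (lt_trans d2r d3l) (fun x _ => Cd x) (e2.trans e3.symm)
  obtain ⟨q, _, _, hq⟩ := rolle (lt_trans f1r f2l) (fun x _ => C'd x) (g1.trans g2.symm)
  have p1 := Real.exp_pos (k * q)
  have p2 := Real.exp_pos q
  have p3 := Real.exp_pos (-(k * q))
  have p4 := Real.exp_pos (-q)
  have : 0 < k ^ 2 * (Real.exp (-q) + w * Real.exp q)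
      + k ^ 2 * Real.exp (k * q) + k ^ 2 * w * Real.exp (-(k * q)) := by positivity
  linarith

/-- The log of the kernel, `θ = 1/(1+k)`. -/
noncomputable def LL (w θ x y : ℝ) : ℝ :=
  Real.log (1 + Real.exp x + Real.exp y + w * Real.exp (x + y))
    - θ * Real.log (1 + Real.exp (x / θ)) - θ * Real.log (1 + Real.exp (y / θ))

/-- along `y = S w x / k` the kernel has derivative zero only at critical pairs -/
lemma LL_rolle {w θ : ℝ} (hw : 0 < w) (hθ : 0 < θ) (hθ1 : θ < 1) {a b : ℝ} (hab : a < b)
    (h : LL w θ a (SS w a / ((1 - θ) / θ)) = LL w θ b (SS w b / ((1 - θ) / θ))) :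
    ∃ c, a < c ∧ c < b ∧ Crit w ((1 - θ) / θ) c (SS w c / ((1 - θ) / θ)) := by
  set k := (1 - θ) / θ with hk
  have hk0 : 0 < k := div_pos (by linarith) hθ
  let y : ℝ → ℝ := fun x => SS w x / k
  let y' : ℝ → ℝ := fun x => (w - 1) / (Real.exp (-x) + (1 + w) + w * Real.exp x) / k
  have yd : ∀ x, HasDerivAt y (y' x) x := fun x => (SS_hasDeriv hw x).div_const k
  let R : ℝ → ℝ := fun x => LL w θ x (y x)
  let R' : ℝ → ℝ := fun x =>
    (Real.exp x + Real.exp (y x) * y' x + w * (Real.exp (x + y x) * (1 + y' x)))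
      / (1 + Real.exp x + Real.exp (y x) + w * Real.exp (x + y x))
    - θ * (Real.exp (x / θ) * (1 / θ) / (1 + Real.exp (x / θ)))
    - θ * (Real.exp (y x / θ) * (y' x / θ) / (1 + Real.exp (y x / θ)))
  have Rd : ∀ x, HasDerivAt R (R' x) x := by
    intro x
    have p1 := Real.exp_pos x
    have p2 := Real.exp_pos (y x)
    have p3 := Real.exp_pos (x + y x)
    have p4 := Real.exp_pos (x / θ)
    have p5 := Real.exp_pos (y x / θ)
    have a1 : HasDerivAt (fun x => 1 + Real.exp x + Real.exp (y x) + w * Real.exp (x + y x))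
        (Real.exp x + Real.exp (y x) * y' x + w * (Real.exp (x + y x) * (1 + y' x))) x :=
      (((Real.hasDerivAt_exp x).const_add 1).add (yd x).exp).add
        ((((hasDerivAt_id x).add (yd x)).exp).const_mul w)
    have a2 : HasDerivAt (fun x => 1 + Real.exp (x / θ)) (Real.exp (x / θ) * (1 / θ)) x :=
      (((hasDerivAt_id x).div_const θ).exp).const_add 1
    have a3 : HasDerivAt (fun x => 1 + Real.exp (y x / θ)) (Real.exp (y x / θ) * (y' x / θ)) x :=
      (((yd x).div_const θ).exp).const_add 1
    exact ((a1.log (by positivity)).sub ((a2.log (by positivity)).const_mul θ)).sub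
      ((a3.log (by positivity)).const_mul θ)
  obtain ⟨c, c1, c2, c3⟩ := rolle hab (fun x _ => Rd x) h
  refine ⟨c, c1, c2, ?_, ?_⟩
  swap
  · show k * (SS w c / k) = SS w c
    field_simp
  -- first the equation for y
  have hy : k * y c = SS w c := by
    show k * (SS w c / k) = SS w c
    field_simp
  show k * c = SS w (y c)
  have hky : Real.exp (y c / θ) = Real.exp (y c) * Real.exp (k * y c) := by
    rw [← Real.exp_add]
    congr 1
    rw [hk]
    field_simp
    ring
  have hkx : Real.exp (c / θ) = Real.exp c * Real.exp (k * c) := by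
    rw [← Real.exp_add]
    congr 1
    rw [hk]
    field_simp
    ring
  have eS : Real.exp (k * y c) = (1 + w * Real.exp c) / (1 + Real.exp c) := by
    have := Real.exp_pos c
    rw [hy]
    unfold SS
    rw [Real.exp_sub, Real.exp_log (by positivity), Real.exp_log (by positivity)]
  have hc3 : (Real.exp c + Real.exp (y c) * y' c + w * (Real.exp (c + y c) * (1 + y' c)))
      / (1 + Real.exp c + Real.exp (y c) + w * Real.exp (c + y c))
    - θ * (Real.exp (c / θ) * (1 / θ) / (1 + Real.exp (c / θ)))
    - θ * (Real.exp (y c / θ) * (y' c / θ) / (1 + Real.exp (y c / θ))) = 0 := c3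
  rw [hky, hkx, eS, Real.exp_add] at hc3
  have p1 := Real.exp_pos c
  have p2 := Real.exp_pos (y c)
  have p3 := Real.exp_pos (k * c)
  suffices hs : Real.exp (k * c) = (1 + w * Real.exp (y c)) / (1 + Real.exp (y c)) by
    have := congrArg Real.log hs
    rw [Real.log_exp] at this
    rw [this]
    unfold SS
    rw [Real.log_div (by positivity) (by positivity)]
  generalize Real.exp c = X at *
  generalize Real.exp (y c) = Y at *
  generalize Real.exp (k * c) = E at *
  generalize y' c = η at *
  clear c3 eS hky hkx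
  have q1 : θ * (X * E * (1 / θ) / (1 + X * E)) = X * E / (1 + X * E) := by
    field_simp
  have q2 : θ * (Y * ((1 + w * X) / (1 + X)) * (η / θ) / (1 + Y * ((1 + w * X) / (1 + X))))
      = η * (Y * (1 + w * X) / (1 + X + Y + w * (X * Y))) := by
    have : 1 + Y * ((1 + w * X) / (1 + X)) = (1 + X + Y + w * (X * Y)) / (1 + X) := by
      field_simp
      ring
    rw [this]
    field_simp
  rw [q1, q2] at hc3
  have q3 : (X + Y * η + w * (X * Y * (1 + η))) / (1 + X + Y + w * (X * Y))
      = X * (1 + w * Y) / (1 + X + Y + w * (X * Y))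
        + η * (Y * (1 + w * X) / (1 + X + Y + w * (X * Y))) := by
    field_simp
    ring
  rw [q3] at hc3
  have q4 : X * (1 + w * Y) / (1 + X + Y + w * (X * Y)) = X * E / (1 + X * E) := by linarith
  rw [div_eq_div_iff (by positivity) (by positivity)] at q4
  rw [eq_div_iff (by positivity)]
  have q5 : X * (1 + w * Y) = X * (E * (1 + Y)) := by nlinarith
  have := mul_left_cancel₀ p1.ne' q5
  linarith

lemma LL_symm (w θ x y : ℝ) : LL w θ x y = LL w θ y x := by
  unfold LL
  have : 1 + Real.exp x + Real.exp y + w * Real.exp (x + y)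
      = 1 + Real.exp y + Real.exp x + w * Real.exp (y + x) := by
    rw [add_comm x y]; ring
  rw [this]
  ring

/-- Two critical pairs with the same value of the kernel agree up to the exchange. -/
theorem crit_unique {w θ : ℝ} (hw : 0 < w) (hθ : 0 < θ) (hθ1 : θ < 1) {x y x' y' : ℝ}
    (h : Crit w ((1 - θ) / θ) x y) (h' : Crit w ((1 - θ) / θ) x' y')
    (e : LL w θ x y = LL w θ x' y') : (x' = x ∧ y' = y) ∨ (x' = y ∧ y' = x) := by
  set k := (1 - θ) / θ with hk
  have hk0 : 0 < k := div_pos (by linarith) hθ
  rcases lt_trichotomy w 1 with hw1 | hw1 | hw1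
  swap
  · subst hw1
    have a := crit_one hk0 h
    have b := crit_one hk0 h'
    left
    exact ⟨b.1.trans a.1.symm, b.2.trans a.2.symm⟩
  swap
  · have a := crit_gt hw1 hk0 h h'
    left
    exact ⟨a.1.symm, a.2.symm⟩
  -- the case w < 1
  have hanti := SS_anti hw hw1
  have yy : ∀ {a b : ℝ}, Crit w k a b → b = SS w a / k := by
    intro a b hab
    rw [← hab.2]; field_simp
  -- a critical point with the common value
  let V := LL w θ x y
  let Q : ℝ → Prop := fun z => Crit w k z (SS w z / k) ∧ LL w θ z (SS w z / k) = V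
  have Q1 : Q x := by
    refine ⟨?_, ?_⟩
    · rw [← yy h]; exact h
    · rw [← yy h]
  have Q2 : Q y := by
    refine ⟨?_, ?_⟩
    · rw [← yy h.symm]; exact h.symm
    · rw [← yy h.symm, LL_symm]
  have Q3 : Q x' := by
    refine ⟨?_, ?_⟩
    · rw [← yy h']; exact h'
    · rw [← yy h']; exact e.symm
  have Q4 : Q y' := by
    refine ⟨?_, ?_⟩
    · rw [← yy h'.symm]; exact h'.symm
    · rw [← yy h'.symm, LL_symm]; exact e.symm
  have three : ∀ {a b c : ℝ}, a < b → b < c → Q a → Q b → Q c → False := by
    intro a b c hab hbc qa qb qc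
    obtain ⟨m, m1, m2, m3⟩ := LL_rolle hw hθ hθ1 hab (qa.2.trans qb.2.symm)
    obtain ⟨n, n1, n2, n3⟩ := LL_rolle hw hθ hθ1 hbc (qb.2.trans qc.2.symm)
    exact no_five hw hw1 hk0 m1 m2 n1 n2 qa.1 m3 qb.1 n3 qc.1
  have three' : ∀ {a b c : ℝ}, Q a → Q b → Q c → a = b ∨ a = c ∨ b = c := by
    intro a b c qa qb qc
    by_contra hcon
    push Not at hcon
    obtain ⟨n1, n2, n3⟩ := hcon
    rcases lt_or_gt_of_ne n1 with l1 | l1 <;> rcases lt_or_gt_of_ne n2 with l2 | l2 <;>
      rcases lt_or_gt_of_ne n3 with l3 | l3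
    · exact three l1 l3 qa qb qc
    · exact three l2 l3 qa qc qb
    · linarith
    · exact three l2 l1 qc qa qb
    · exact three l1 l2 qb qa qc
    · linarith
    · exact three l3 l2 qb qc qa
    · exact three l3 l1 qc qb qa
  have symEq : ∀ {a b : ℝ}, Crit w k a a → Crit w k b b → a = b := by
    intro a b ha hb
    rcases lt_trichotomy a b with hlt | heq | hgt
    · have := hanti hlt
      rw [← ha.1, ← hb.1] at this
      nlinarith
    · exact heq
    · have := hanti hgt
      rw [← ha.1, ← hb.1] at this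
      nlinarith
  by_cases hx1 : x' = x
  · left
    refine ⟨hx1, ?_⟩
    rw [yy h', yy h, hx1]
  by_cases hx2 : x' = y
  · right
    refine ⟨hx2, ?_⟩
    rw [yy h', hx2, yy h.symm]
  exfalso
  -- x = y
  have exy : x = y := by
    rcases three' Q1 Q2 Q3 with hh | hh | hh
    · exact hh
    · exact (hx1 hh.symm).elim
    · exact (hx2 hh.symm).elim
  have exy' : x' = y' := by
    rcases three' Q3 Q4 Q1 with hh | hh | hh
    · exact hh
    · exact (hx1 hh).elim
    · exfalso
      apply hx2
      rw [yy h'.symm, hh, ← yy h]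
  rw [← exy] at h
  rw [← exy'] at h'
  exact hx1 (symEq h' h)

end BC.One
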