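import Mathlib
import Pool.Agent.Lib_helper28.BCOne

/-!
# Uniqueness of the optimal law for the entropy functional

For `0 ≤ θ < 1` and real `κ` the laws `p` on `{0,1}²` that maximise
`H(p) - θ (h(s) + h(t)) + κ p₁₁` all have the same values of `H(p)`, `h(s) + h(t)`, `p₁₁`.
-/

set_option autoImplicit false

open Real

namespace BC.One

section gibbs

variable {ι : Type} [Fintype ι]

lemma gibbs {p W : ι → ℝ} (hp : p ∈ stdSimplex ℝ ι) (hW : ∀ z, 0 ≤ W z)
    (h0 : ∀ z, W z = 0 → p z = 0) :
    ∑ z, Real.negMulLog (p z) + ∑ z, p z * Real.log (W z) ≤ Real.log (∑ z, W z) ∧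
    (∑ z, Real.negMulLog (p z) + ∑ z, p z * Real.log (W z) = Real.log (∑ z, W z) →
      ∀ z, p z = W z / ∑ z, W z) := by
  set Z := ∑ z, W z with hZ
  have hZ0 : 0 < Z := by
    obtain ⟨z, hz⟩ : ∃ z, p z ≠ 0 := by
      by_contra hcon
      push Not at hcon
      have := hp.2
      simp [hcon] at this
    have hz' : W z ≠ 0 := fun h => hz (h0 z h)
    have hz'' : 0 < W z := lt_of_le_of_ne (hW z) (Ne.symm hz')
    exact lt_of_lt_of_le hz'' (Finset.single_le_sum (fun z _ => hW z) (Finset.mem_univ z))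
  have term : ∀ z, Real.negMulLog (p z) + p z * Real.log (W z) - p z * Real.log Z
      ≤ W z / Z - p z ∧
      (Real.negMulLog (p z) + p z * Real.log (W z) - p z * Real.log Z = W z / Z - p z →
        p z = W z / Z) := by
    intro z
    rcases eq_or_lt_of_le (hp.1 z) with hz | hz
    · rw [← hz]
      simp only [Real.negMulLog_zero, zero_mul, sub_zero, add_zero]
      refine ⟨div_nonneg (hW z) hZ0.le, fun h => h⟩
    · have hw : 0 < W z := lt_of_le_of_ne (hW z) (fun h => hz.ne' (h0 z h.symm))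
      have e : Real.negMulLog (p z) + p z * Real.log (W z) - p z * Real.log Z
          = p z * Real.log (W z / (Z * p z)) := by
        rw [Real.log_div hw.ne' (by positivity), Real.log_mul hZ0.ne' hz.ne']
        unfold Real.negMulLog
        ring
      have e2 : W z / Z - p z = p z * (W z / (Z * p z) - 1) := by
        field_simp
      rw [e, e2]
      refine ⟨mul_le_mul_of_nonneg_left (Real.log_le_sub_one_of_pos (by positivity)) hz.le, ?_⟩
      intro h
      have h2 := mul_left_cancel₀ hz.ne' h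
      by_contra hcon
      have hne : W z / (Z * p z) ≠ 1 := by
        intro h1
        apply hcon
        rw [div_eq_one_iff_eq (by positivity)] at h1
        rw [h1]
        field_simp
      have := Real.log_lt_sub_one_of_pos (x := W z / (Z * p z)) (by positivity) hne
      linarith
  have s1 : ∑ z, (W z / Z - p z) = 0 := by
    rw [Finset.sum_sub_distrib, ← Finset.sum_div, hp.2, ← hZ, div_self hZ0.ne', sub_self]
  have s2 : ∑ z, (Real.negMulLog (p z) + p z * Real.log (W z) - p z * Real.log Z)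
      = ∑ z, Real.negMulLog (p z) + ∑ z, p z * Real.log (W z) - Real.log Z := by
    rw [Finset.sum_sub_distrib, Finset.sum_add_distrib, ← Finset.sum_mul, hp.2, one_mul]
  constructor
  · have := Finset.sum_le_sum (s := Finset.univ) (fun z _ => (term z).1)
    rw [s1, s2] at this
    linarith
  · intro h z
    have hs : ∑ z, (Real.negMulLog (p z) + p z * Real.log (W z) - p z * Real.log Z)
        = ∑ z, (W z / Z - p z) := by
      rw [s1, s2, h, sub_self]
    have := (Finset.sum_eq_sum_iff_of_le (fun z _ => (term z).1)).1 hs z (Finset.mem_univ z)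
    exact (term z).2 this

end gibbs

lemma gibbs_self {ι : Type} [Fintype ι] {W : ι → ℝ} (hW : ∀ z, 0 ≤ W z) (hZ : 0 < ∑ z, W z) :
    (fun z => W z / ∑ z, W z) ∈ stdSimplex ℝ ι ∧
    ∑ z, Real.negMulLog (W z / ∑ z, W z) + ∑ z, (W z / ∑ z, W z) * Real.log (W z)
      = Real.log (∑ z, W z) := by
  set Z := ∑ z, W z with hZd
  refine ⟨⟨fun z => div_nonneg (hW z) hZ.le, ?_⟩, ?_⟩
  · show ∑ z, W z / Z = 1
    rw [← Finset.sum_div, ← hZd, div_self hZ.ne']
  · have : ∀ z, Real.negMulLog (W z / Z) + (W z / Z) * Real.log (W z) = (W z / Z) * Real.log Z := by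
      intro z
      rcases eq_or_lt_of_le (hW z) with hz | hz
      · rw [← hz]; simp
      · unfold Real.negMulLog
        rw [Real.log_div hz.ne' hZ.ne']
        ring
    rw [← Finset.sum_add_distrib, Finset.sum_congr rfl (fun z _ => this z), ← Finset.sum_mul,
      ← Finset.sum_div, ← hZd, div_self hZ.ne', one_mul]

/-- binary form of Gibbs' inequality -/
lemma gibbs2 {s a : ℝ} (hs : s ∈ Set.Icc (0:ℝ) 1) (ha : a ∈ Set.Icc (0:ℝ) 1)
    (h0 : a = 0 → s = 0) (h1 : a = 1 → s = 1) :
    s * Real.log a + (1 - s) * Real.log (1 - a) ≤ - Real.binEntropy s := by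
  have hp : (fun b : Bool => if b then s else 1 - s) ∈ stdSimplex ℝ Bool := by
    refine ⟨?_, ?_⟩
    · intro b
      cases b
      · simpa using hs.2
      · simpa using hs.1
    · simp
  have := (gibbs (W := fun b : Bool => if b then a else 1 - a) hp (by
    intro b
    cases b
    · simpa using ha.2
    · simpa using ha.1) (by
    intro b hb
    cases b
    · simp only [Bool.false_eq_true, if_false] at hb ⊢
      have := h1 (by linarith)
      linarith
    · simp only [if_true] at hb ⊢
      exact h0 hb)).1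
  simp only [Fintype.sum_bool, Bool.false_eq_true, if_false, if_true] at this
  rw [show a + (1 - a) = 1 by ring, Real.log_one] at this
  rw [Real.binEntropy_eq_negMulLog_add_negMulLog_one_sub]
  linarith

/-- the weights -/
noncomputable def WW (θ κ a b : ℝ) (z : Bool × Bool) : ℝ :=
  (if z.1 then a else 1 - a) ^ θ * (if z.2 then b else 1 - b) ^ θ *
    (if z = (true, true) then Real.exp κ else 1)

noncomputable def NN (θ κ a b : ℝ) : ℝ := ∑ z, WW θ κ a b z

/-- the functional -/
noncomputable def FF (θ κ : ℝ) (p : Bool × Bool → ℝ) : ℝ :=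
  H2 p - θ * (Real.binEntropy (sA p) + Real.binEntropy (sB p)) + κ * p (true, true)

noncomputable def AA (θ b : ℝ) : ℝ := (1 - b) ^ θ + b ^ θ
noncomputable def BB (θ κ b : ℝ) : ℝ := (1 - b) ^ θ + Real.exp κ * b ^ θ

lemma NN_eq (θ κ a b : ℝ) : NN θ κ a b = AA θ b * (1 - a) ^ θ + BB θ κ b * a ^ θ := by
  unfold NN WW AA BB
  simp only [Fintype.sum_prod_type, Fintype.sum_bool, Bool.false_eq_true, if_false, if_true,
    Prod.mk.injEq, and_true, true_and, and_false, mul_one]
  ring

lemma NN_symm (θ κ a b : ℝ) : NN θ κ a b = NN θ κ b a := by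
  rw [NN_eq, NN_eq]; unfold AA BB; ring

lemma one_of_pos {b : ℝ} (hb : b ∈ Set.Icc (0:ℝ) 1) : 0 < b ∨ 0 < 1 - b := by
  by_contra hcon
  push Not at hcon
  have := hb.1
  linarith [hcon.1, hcon.2]

lemma AA_pos {θ b : ℝ} (hb : b ∈ Set.Icc (0:ℝ) 1) : 0 < AA θ b := by
  have h1 : 0 ≤ (1 - b) ^ θ := Real.rpow_nonneg (by linarith [hb.2]) _
  have h2 : 0 ≤ b ^ θ := Real.rpow_nonneg hb.1 _
  unfold AA
  rcases one_of_pos hb with h | h
  · have := Real.rpow_pos_of_pos h θ; linarith
  · have := Real.rpow_pos_of_pos h θ; linarith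

lemma BB_pos {θ κ b : ℝ} (hb : b ∈ Set.Icc (0:ℝ) 1) : 0 < BB θ κ b := by
  have h1 : 0 ≤ (1 - b) ^ θ := Real.rpow_nonneg (by linarith [hb.2]) _
  have h2 : 0 ≤ b ^ θ := Real.rpow_nonneg hb.1 _
  have he := Real.exp_pos κ
  unfold BB
  rcases one_of_pos hb with h | h
  · have := Real.rpow_pos_of_pos h θ
    have := mul_pos he this
    linarith
  · have := Real.rpow_pos_of_pos h θ
    have := mul_nonneg he.le h2
    linarith

lemma NN_pos {θ κ a b : ℝ} (ha : a ∈ Set.Icc (0:ℝ) 1) (hb : b ∈ Set.Icc (0:ℝ) 1) :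
    0 < NN θ κ a b := by
  rw [NN_eq]
  have h1 : 0 ≤ (1 - a) ^ θ := Real.rpow_nonneg (by linarith [ha.2]) _
  have h2 : 0 ≤ a ^ θ := Real.rpow_nonneg ha.1 _
  have hA := AA_pos (θ := θ) hb
  have hB := BB_pos (θ := θ) (κ := κ) hb
  rcases one_of_pos ha with h | h
  · have := mul_pos hB (Real.rpow_pos_of_pos h θ)
    have := mul_nonneg hA.le h1
    linarith
  · have := mul_pos hA (Real.rpow_pos_of_pos h θ)
    have := mul_nonneg hB.le h2
    linarith

lemma WW_nonneg {θ κ a b : ℝ} (ha : a ∈ Set.Icc (0:ℝ) 1) (hb : b ∈ Set.Icc (0:ℝ) 1)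
    (z : Bool × Bool) : 0 ≤ WW θ κ a b z := by
  unfold WW
  apply mul_nonneg
  · apply mul_nonneg
    · apply Real.rpow_nonneg
      split_ifs
      · exact ha.1
      · linarith [ha.2]
    · apply Real.rpow_nonneg
      split_ifs
      · exact hb.1
      · linarith [hb.2]
  · split_ifs
    · exact (Real.exp_pos κ).le
    · norm_num

lemma marg_mem {p : Bool × Bool → ℝ} (hp : p ∈ stdSimplex ℝ (Bool × Bool)) :
    sA p ∈ Set.Icc (0:ℝ) 1 ∧ sB p ∈ Set.Icc (0:ℝ) 1 := by
  have h1 := hp.1
  have h2 := hp.2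
  simp only [Fintype.sum_prod_type, Fintype.sum_bool] at h2
  have a1 := h1 (true, true)
  have a2 := h1 (true, false)
  have a3 := h1 (false, true)
  have a4 := h1 (false, false)
  unfold sA sB
  exact ⟨⟨by linarith, by linarith⟩, ⟨by linarith, by linarith⟩⟩

/-- the logarithm of the weights -/
lemma sum_log_WW {θ κ a b : ℝ} {p : Bool × Bool → ℝ} (hp : p ∈ stdSimplex ℝ (Bool × Bool))
    (h : ∀ z : Bool × Bool, p z ≠ 0 → 0 < (if z.1 then a else 1 - a) ∧
      0 < (if z.2 then b else 1 - b)) :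
    ∑ z, p z * Real.log (WW θ κ a b z)
      = θ * (sA p * Real.log a + (1 - sA p) * Real.log (1 - a))
        + θ * (sB p * Real.log b + (1 - sB p) * Real.log (1 - b)) + κ * p (true, true) := by
  have t : ∀ z, p z * Real.log (WW θ κ a b z)
      = p z * (θ * Real.log (if z.1 then a else 1 - a) + θ * Real.log (if z.2 then b else 1 - b)
        + (if z = (true, true) then κ else 0)) := by
    intro z
    by_cases hz : p z = 0
    · rw [hz]; ring
    · obtain ⟨h1, h2⟩ := h z hz
      have h3 : Real.log (if z = (true, true) then Real.exp κ else (1:ℝ))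
          = if z = (true, true) then κ else 0 := by
        split_ifs <;> simp
      unfold WW
      rw [Real.log_mul, Real.log_mul, Real.log_rpow h1, Real.log_rpow h2, h3]
      · exact (Real.rpow_pos_of_pos h1 θ).ne'
      · exact (Real.rpow_pos_of_pos h2 θ).ne'
      · exact mul_ne_zero (Real.rpow_pos_of_pos h1 θ).ne' (Real.rpow_pos_of_pos h2 θ).ne'
      · split_ifs
        · exact (Real.exp_pos κ).ne'
        · norm_num
  rw [Finset.sum_congr rfl (fun z _ => t z)]
  have h2 := hp.2
  simp only [Fintype.sum_prod_type, Fintype.sum_bool] at h2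
  have e1 : 1 - sA p = p (false, true) + p (false, false) := by unfold sA; linarith
  have e2 : 1 - sB p = p (true, false) + p (false, false) := by unfold sB; linarith
  rw [e1, e2]
  simp only [Fintype.sum_prod_type, Fintype.sum_bool, Bool.false_eq_true, if_false, if_true,
    Prod.mk.injEq, and_true, true_and, and_false]
  unfold sA sB
  ring

lemma FF_le {θ κ : ℝ} {p : Bool × Bool → ℝ} (hp : p ∈ stdSimplex ℝ (Bool × Bool)) :
    FF θ κ p ≤ Real.log (NN θ κ (sA p) (sB p)) ∧
    (FF θ κ p = Real.log (NN θ κ (sA p) (sB p)) →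
      ∀ z, p z = WW θ κ (sA p) (sB p) z / NN θ κ (sA p) (sB p)) := by
  obtain ⟨ha, hb⟩ := marg_mem hp
  have h2 := hp.2
  simp only [Fintype.sum_prod_type, Fintype.sum_bool] at h2
  have a1 := hp.1 (true, true)
  have a2 := hp.1 (true, false)
  have a3 := hp.1 (false, true)
  have a4 := hp.1 (false, false)
  have pos : ∀ z : Bool × Bool, p z ≠ 0 → 0 < (if z.1 then sA p else 1 - sA p) ∧
      0 < (if z.2 then sB p else 1 - sB p) := by
    intro z hz
    have hz' : 0 < p z := lt_of_le_of_ne (hp.1 z) (Ne.symm hz)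
    obtain ⟨z1, z2⟩ := z
    cases z1 <;> cases z2 <;>
      simp only [Bool.false_eq_true, if_false, if_true] <;> unfold sA sB <;>
      constructor <;> linarith
  have hlog := sum_log_WW (θ := θ) (κ := κ) (a := sA p) (b := sB p) hp pos
  have key : FF θ κ p = ∑ z, Real.negMulLog (p z) + ∑ z, p z * Real.log (WW θ κ (sA p) (sB p) z) := by
    rw [hlog]
    unfold FF H2
    rw [Real.binEntropy_eq_negMulLog_add_negMulLog_one_sub,
      Real.binEntropy_eq_negMulLog_add_negMulLog_one_sub]
    unfold Real.negMulLog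
    ring
  have h0 : ∀ z, WW θ κ (sA p) (sB p) z = 0 → p z = 0 := by
    intro z hz
    by_contra hcon
    obtain ⟨h1, h2⟩ := pos z hcon
    have e1 := Real.rpow_pos_of_pos h1 θ
    have e2 := Real.rpow_pos_of_pos h2 θ
    have e3 : 0 < (if z = (true, true) then Real.exp κ else (1:ℝ)) := by
      split_ifs
      · exact Real.exp_pos κ
      · norm_num
    have : 0 < WW θ κ (sA p) (sB p) z := by unfold WW; positivity
    linarith
  have := gibbs hp (fun z => WW_nonneg (θ := θ) (κ := κ) ha hb z) h0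
  rw [← key] at this
  exact this

lemma FF_ge {θ κ a b : ℝ} (hθ : 0 < θ) (ha : a ∈ Set.Icc (0:ℝ) 1) (hb : b ∈ Set.Icc (0:ℝ) 1) :
    ∃ p ∈ stdSimplex ℝ (Bool × Bool), Real.log (NN θ κ a b) ≤ FF θ κ p := by
  have hN := NN_pos (θ := θ) (κ := κ) ha hb
  obtain ⟨hp, he⟩ := gibbs_self (W := WW θ κ a b) (fun z => WW_nonneg ha hb z) hN
  set p : Bool × Bool → ℝ := fun z => WW θ κ a b z / ∑ z, WW θ κ a b z with hpd
  refine ⟨p, hp, ?_⟩
  have h0 : ∀ z : Bool × Bool, p z ≠ 0 → 0 < (if z.1 then a else 1 - a) ∧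
      0 < (if z.2 then b else 1 - b) := by
    intro z hz
    have n1 : 0 ≤ (if z.1 then a else 1 - a) := by
      split_ifs
      · exact ha.1
      · linarith [ha.2]
    have n2 : 0 ≤ (if z.2 then b else 1 - b) := by
      split_ifs
      · exact hb.1
      · linarith [hb.2]
    constructor
    · apply lt_of_le_of_ne n1
      intro h
      apply hz
      show WW θ κ a b z / _ = 0
      unfold WW
      rw [← h, Real.zero_rpow hθ.ne']
      simp
    · apply lt_of_le_of_ne n2
      intro h
      apply hz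
      show WW θ κ a b z / _ = 0
      unfold WW
      rw [← h, Real.zero_rpow hθ.ne']
      simp
  have hlog := sum_log_WW (θ := θ) (κ := κ) (a := a) (b := b) hp h0
  obtain ⟨ma, mb⟩ := marg_mem hp
  have p1 := hp.1
  have psum := hp.2
  simp only [Fintype.sum_prod_type, Fintype.sum_bool] at psum
  have zero : ∀ z : Bool × Bool, ¬ (0 < (if z.1 then a else 1 - a) ∧
      0 < (if z.2 then b else 1 - b)) → p z = 0 := by
    intro z hz
    by_contra hcon
    exact hz (h0 z hcon)
  have g1 : sA p * Real.log a + (1 - sA p) * Real.log (1 - a) ≤ - Real.binEntropy (sA p) := by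
    apply gibbs2 ma ha
    · intro h
      unfold sA
      rw [zero (true, true) (by simp [h]), zero (true, false) (by simp [h]), add_zero]
    · intro h
      have z1 := zero (false, true) (by simp [h])
      have z2 := zero (false, false) (by simp [h])
      unfold sA
      rw [z1, z2] at psum
      linarith
  have g2 : sB p * Real.log b + (1 - sB p) * Real.log (1 - b) ≤ - Real.binEntropy (sB p) := by
    apply gibbs2 mb hb
    · intro h
      unfold sB
      rw [zero (false, true) (by simp [h]), zero (true, true) (by simp [h]), add_zero]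
    · intro h
      have z1 := zero (true, false) (by simp [h])
      have z2 := zero (false, false) (by simp [h])
      unfold sB
      rw [z1, z2] at psum
      linarith
  have he' : ∑ z, Real.negMulLog (p z) + ∑ z, p z * Real.log (WW θ κ a b z)
      = Real.log (NN θ κ a b) := he
  rw [hlog] at he'
  rw [← he']
  unfold FF H2
  have := mul_le_mul_of_nonneg_left g1 hθ.le
  have := mul_le_mul_of_nonneg_left g2 hθ.le
  linarith

/-- tangent line inequality -/
lemma rpow_tangent {θ x x0 : ℝ} (hθ : 0 < θ) (hθ1 : θ < 1) (hx : 0 ≤ x) (hx0 : 0 < x0)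
    (hne : x ≠ x0) : x ^ θ < x0 ^ θ + θ * x0 ^ (θ - 1) * (x - x0) := by
  have hs : -1 ≤ x / x0 - 1 := by
    have : 0 ≤ x / x0 := div_nonneg hx hx0.le
    linarith
  have hs' : x / x0 - 1 ≠ 0 := by
    intro h
    apply hne
    have : x / x0 = 1 := by linarith
    rwa [div_eq_one_iff_eq hx0.ne'] at this
  have h := rpow_one_add_lt_one_add_mul_self hs hs' hθ hθ1
  rw [show 1 + (x / x0 - 1) = x / x0 by ring, Real.div_rpow hx hx0.le,
    div_lt_iff₀ (Real.rpow_pos_of_pos hx0 θ)] at h
  have e : x0 ^ (θ - 1) = x0 ^ θ / x0 := by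
    rw [Real.rpow_sub hx0, Real.rpow_one]
  rw [e]
  calc x ^ θ < (1 + θ * (x / x0 - 1)) * x0 ^ θ := h
    _ = x0 ^ θ + θ * (x0 ^ θ / x0) * (x - x0) := by
        field_simp

/-- a maximiser in the first variable is interior and satisfies the first order condition -/
lemma best_response {θ A B a : ℝ} (hθ : 0 < θ) (hθ1 : θ < 1) (hA : 0 < A) (hB : 0 < B)
    (ha : a ∈ Set.Icc (0:ℝ) 1)
    (hmax : ∀ q ∈ Set.Icc (0:ℝ) 1, A * (1 - q) ^ θ + B * q ^ θ ≤ A * (1 - a) ^ θ + B * a ^ θ) :
    0 < a ∧ a < 1 ∧ (1 - θ) * (Real.log a - Real.log (1 - a)) = Real.log B - Real.log A := by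
  -- the optimum
  set x := Real.exp ((Real.log B - Real.log A) / (1 - θ)) with hx
  have hx0 : 0 < x := Real.exp_pos _
  set q := x / (1 + x) with hq
  have hq0 : 0 < q := by positivity
  have hq1' : 1 - q = 1 / (1 + x) := by rw [hq]; field_simp; ring
  have hq1 : 0 < 1 - q := by rw [hq1']; positivity
  have hlog : Real.log q - Real.log (1 - q) = (Real.log B - Real.log A) / (1 - θ) := by
    rw [← Real.log_div hq0.ne' hq1.ne', hq1', hq]
    have : x / (1 + x) / (1 / (1 + x)) = x := by field_simp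
    rw [this, hx, Real.log_exp]
  have hθ2 : 1 - θ ≠ 0 := by linarith
  have foc : B * q ^ (θ - 1) = A * (1 - q) ^ (θ - 1) := by
    have l1 : Real.log (B * q ^ (θ - 1)) = Real.log (A * (1 - q) ^ (θ - 1)) := by
      rw [Real.log_mul hB.ne' (Real.rpow_pos_of_pos hq0 _).ne',
        Real.log_mul hA.ne' (Real.rpow_pos_of_pos hq1 _).ne', Real.log_rpow hq0, Real.log_rpow hq1]
      rw [eq_div_iff hθ2] at hlog
      linarith
    exact Real.log_injOn_pos (Set.mem_Ioi.2 (mul_pos hB (Real.rpow_pos_of_pos hq0 _)))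
      (Set.mem_Ioi.2 (mul_pos hA (Real.rpow_pos_of_pos hq1 _))) l1
  have haq : a = q := by
    by_contra hne
    have t1 := rpow_tangent hθ hθ1 ha.1 hq0 hne
    have t2 := rpow_tangent hθ hθ1 (x := 1 - a) (x0 := 1 - q) (by linarith [ha.2]) hq1
      (by intro h; apply hne; linarith)
    have m1 := mul_lt_mul_of_pos_left t1 hB
    have m2 := mul_lt_mul_of_pos_left t2 hA
    have hm := hmax q ⟨hq0.le, by linarith⟩
    have e1 : B * (q ^ θ + θ * q ^ (θ - 1) * (a - q))
        = B * q ^ θ + θ * (B * q ^ (θ - 1)) * (a - q) := by ring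
    have e2 : A * ((1 - q) ^ θ + θ * (1 - q) ^ (θ - 1) * ((1 - a) - (1 - q)))
        = A * (1 - q) ^ θ - θ * (A * (1 - q) ^ (θ - 1)) * (a - q) := by ring
    rw [e1, foc] at m1
    rw [e2] at m2
    linarith
  rw [haq]
  refine ⟨hq0, by linarith, ?_⟩
  rw [hlog]
  field_simp

end BC.One
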