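import Mathlib
import Pool.Agent.Lib_helper28.BCOne2

/-!
# Uniqueness of the optimal law, conclusion
-/

set_option autoImplicit false

open Real

namespace BC.One

lemma max_structure {θ κ : ℝ} (hθ : 0 < θ) (hθ1 : θ < 1) {p : Bool × Bool → ℝ}
    (hp : p ∈ stdSimplex ℝ (Bool × Bool)) (hmax : ∀ q ∈ stdSimplex ℝ (Bool × Bool), FF θ κ q ≤ FF θ κ p) :
    0 < sA p ∧ sA p < 1 ∧ 0 < sB p ∧ sB p < 1 ∧
    Crit (Real.exp κ) ((1 - θ) / θ) (θ * (Real.log (sA p) - Real.log (1 - sA p)))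
      (θ * (Real.log (sB p) - Real.log (1 - sB p))) ∧
    (∀ z, p z = WW θ κ (sA p) (sB p) z / NN θ κ (sA p) (sB p)) ∧
    LL (Real.exp κ) θ (θ * (Real.log (sA p) - Real.log (1 - sA p)))
      (θ * (Real.log (sB p) - Real.log (1 - sB p))) = FF θ κ p := by
  obtain ⟨ha, hb⟩ := marg_mem hp
  obtain ⟨hle, heq⟩ := FF_le (θ := θ) (κ := κ) hp
  have hN := NN_pos (θ := θ) (κ := κ) ha hb
  have hbest : ∀ q ∈ Set.Icc (0:ℝ) 1, ∀ r ∈ Set.Icc (0:ℝ) 1,
      NN θ κ q r ≤ NN θ κ (sA p) (sB p) := by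
    intro q hq r hr
    obtain ⟨p', hp', hp2⟩ := FF_ge (κ := κ) hθ hq hr
    have h1 := hmax p' hp'
    have h2 : Real.log (NN θ κ q r) ≤ Real.log (NN θ κ (sA p) (sB p)) := by linarith
    exact (Real.log_le_log_iff (NN_pos hq hr) hN).1 h2
  have hval : FF θ κ p = Real.log (NN θ κ (sA p) (sB p)) := by
    obtain ⟨p', hp', hp2⟩ := FF_ge (κ := κ) hθ ha hb
    have h1 := hmax p' hp'
    exact le_antisymm hle (by linarith)
  have hz := heq hval
  obtain ⟨a0, a1, ea⟩ := best_response hθ hθ1 (AA_pos (θ := θ) hb) (BB_pos (θ := θ) (κ := κ) hb) ha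
    (by
      intro q hq
      have := hbest q hq _ hb
      rwa [NN_eq, NN_eq] at this)
  obtain ⟨b0, b1, eb⟩ := best_response hθ hθ1 (AA_pos (θ := θ) ha) (BB_pos (θ := θ) (κ := κ) ha) hb
    (by
      intro q hq
      have := hbest _ ha q hq
      rwa [NN_symm θ κ (sA p) q, NN_symm θ κ (sA p) (sB p), NN_eq, NN_eq] at this)
  have ratio : ∀ {c : ℝ}, 0 < c → c < 1 → Real.log (BB θ κ c) - Real.log (AA θ c)
      = SS (Real.exp κ) (θ * (Real.log c - Real.log (1 - c))) := by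
    intro c c0 c1
    have c1' : 0 < 1 - c := by linarith
    have e1 : Real.exp (θ * (Real.log c - Real.log (1 - c))) = c ^ θ / (1 - c) ^ θ := by
      rw [mul_sub, Real.exp_sub, Real.rpow_def_of_pos c0, Real.rpow_def_of_pos c1', mul_comm θ,
        mul_comm θ]
    have p1 := Real.rpow_pos_of_pos c0 θ
    have p2 := Real.rpow_pos_of_pos c1' θ
    have p3 := Real.exp_pos κ
    unfold SS
    rw [e1]
    have e2 : 1 + Real.exp κ * (c ^ θ / (1 - c) ^ θ) = BB θ κ c / (1 - c) ^ θ := by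
      unfold BB; field_simp
    have e3 : 1 + c ^ θ / (1 - c) ^ θ = AA θ c / (1 - c) ^ θ := by
      unfold AA; field_simp
    rw [e2, e3, Real.log_div (by unfold BB; positivity) p2.ne',
      Real.log_div (by unfold AA; positivity) p2.ne']
    ring
  have hθ2 : θ ≠ 0 := hθ.ne'
  refine ⟨a0, a1, b0, b1, ⟨?_, ?_⟩, hz, ?_⟩
  · rw [← ratio b0 b1, ← ea]
    field_simp
  · rw [← ratio a0 a1, ← eb]
    field_simp
  · rw [hval]
    have a1' : 0 < 1 - sA p := by linarith
    have b1' : 0 < 1 - sB p := by linarith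
    generalize sA p = a at *
    generalize sB p = b at *
    have ex : ∀ {c : ℝ}, 0 < c → 0 < 1 - c →
        Real.exp (θ * (Real.log c - Real.log (1 - c))) = c ^ θ / (1 - c) ^ θ := by
      intro c c0 c1'
      rw [mul_sub, Real.exp_sub, Real.rpow_def_of_pos c0, Real.rpow_def_of_pos c1', mul_comm θ,
        mul_comm θ]
    have ey : ∀ {c : ℝ}, 0 < c → 0 < 1 - c →
        θ * Real.log (1 + Real.exp (θ * (Real.log c - Real.log (1 - c)) / θ))
          = - Real.log ((1 - c) ^ θ) := by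
      intro c c0 c1'
      have e1 : θ * (Real.log c - Real.log (1 - c)) / θ = Real.log c - Real.log (1 - c) := by
        field_simp
      rw [e1, Real.exp_sub, Real.exp_log c0, Real.exp_log c1', Real.log_rpow c1']
      have e2 : 1 + c / (1 - c) = (1 - c)⁻¹ := by field_simp; ring
      rw [e2, Real.log_inv]
      ring
    have p1 := Real.rpow_pos_of_pos a0 θ
    have p2 := Real.rpow_pos_of_pos a1' θ
    have p3 := Real.rpow_pos_of_pos b0 θ
    have p4 := Real.rpow_pos_of_pos b1' θ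
    have p5 := Real.exp_pos κ
    unfold LL
    rw [ey a0 a1', ey b0 b1', Real.exp_add, ex a0 a1', ex b0 b1']
    have e3 : 1 + a ^ θ / (1 - a) ^ θ + b ^ θ / (1 - b) ^ θ
        + Real.exp κ * (a ^ θ / (1 - a) ^ θ * (b ^ θ / (1 - b) ^ θ))
        = NN θ κ a b / ((1 - a) ^ θ * (1 - b) ^ θ) := by
      rw [NN_eq]; unfold AA BB
      field_simp
      ring
    rw [e3, Real.log_div hN.ne' (by positivity), Real.log_mul p2.ne' p4.ne']
    ring

lemma logit_inj {θ a b : ℝ} (hθ : 0 < θ) (a0 : 0 < a) (a1 : a < 1) (b0 : 0 < b) (b1 : b < 1)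
    (h : θ * (Real.log a - Real.log (1 - a)) = θ * (Real.log b - Real.log (1 - b))) : a = b := by
  have h1 := mul_left_cancel₀ hθ.ne' h
  rw [← Real.log_div a0.ne' (by linarith), ← Real.log_div b0.ne' (by linarith)] at h1
  have h2 := Real.log_injOn_pos (Set.mem_Ioi.2 (div_pos a0 (by linarith)))
    (Set.mem_Ioi.2 (div_pos b0 (by linarith))) h1
  rw [div_eq_div_iff (by linarith) (by linarith)] at h2
  linarith

lemma WW_swap (θ κ a b : ℝ) (z : Bool × Bool) : WW θ κ a b z = WW θ κ b a (z.2, z.1) := by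
  unfold WW
  obtain ⟨z1, z2⟩ := z
  cases z1 <;> cases z2 <;> simp <;> ring

/-- For `0 < θ < 1` the maximisers have the same values. -/
theorem FF_unique {θ κ : ℝ} (hθ : 0 < θ) (hθ1 : θ < 1) {p p' : Bool × Bool → ℝ}
    (hp : p ∈ stdSimplex ℝ (Bool × Bool)) (hp' : p' ∈ stdSimplex ℝ (Bool × Bool))
    (hmax : ∀ q ∈ stdSimplex ℝ (Bool × Bool), FF θ κ q ≤ FF θ κ p)
    (hmax' : ∀ q ∈ stdSimplex ℝ (Bool × Bool), FF θ κ q ≤ FF θ κ p') :
    H2 p = H2 p' ∧ Real.binEntropy (sA p) + Real.binEntropy (sB p)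
      = Real.binEntropy (sA p') + Real.binEntropy (sB p') ∧ p (true, true) = p' (true, true) := by
  obtain ⟨a0, a1, b0, b1, hc, hz, hL⟩ := max_structure hθ hθ1 hp hmax
  obtain ⟨a0', a1', b0', b1', hc', hz', hL'⟩ := max_structure hθ hθ1 hp' hmax'
  have hval : FF θ κ p = FF θ κ p' := le_antisymm (hmax' p hp) (hmax p' hp')
  rcases crit_unique (Real.exp_pos κ) hθ hθ1 hc hc' (hL.trans (hval.trans hL'.symm)) with
    ⟨e1, e2⟩ | ⟨e1, e2⟩
  · have ea := logit_inj hθ a0' a1' a0 a1 e1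
    have eb := logit_inj hθ b0' b1' b0 b1 e2
    have : p' = p := by
      funext z
      rw [hz z, hz' z, ea, eb]
    rw [this]
    exact ⟨rfl, rfl, rfl⟩
  · have ea := logit_inj hθ a0' a1' b0 b1 e1
    have eb := logit_inj hθ b0' b1' a0 a1 e2
    have hsw : ∀ z : Bool × Bool, p' z = p (z.2, z.1) := by
      intro z
      rw [hz', hz, ea, eb, WW_swap, NN_symm]
    refine ⟨?_, ?_, ?_⟩
    · unfold H2
      simp only [Fintype.sum_prod_type, Fintype.sum_bool, hsw]
      ring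
    · rw [ea, eb, add_comm]
    · rw [hsw]

/-- The case `θ = 0`. -/
theorem FF_unique_zero {κ : ℝ} {p p' : Bool × Bool → ℝ}
    (hp : p ∈ stdSimplex ℝ (Bool × Bool)) (hp' : p' ∈ stdSimplex ℝ (Bool × Bool))
    (hmax : ∀ q ∈ stdSimplex ℝ (Bool × Bool), FF 0 κ q ≤ FF 0 κ p)
    (hmax' : ∀ q ∈ stdSimplex ℝ (Bool × Bool), FF 0 κ q ≤ FF 0 κ p') : p = p' := by
  let W : Bool × Bool → ℝ := fun z => if z = (true, true) then Real.exp κ else 1
  have hW : ∀ z, 0 < W z := by
    intro z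
    simp only [W]
    split_ifs
    · exact Real.exp_pos κ
    · norm_num
  have hlog : ∀ q : Bool × Bool → ℝ, ∑ z, q z * Real.log (W z) = κ * q (true, true) := by
    intro q
    simp only [Fintype.sum_prod_type, Fintype.sum_bool, W]
    simp
    ring
  have hF : ∀ q : Bool × Bool → ℝ, FF 0 κ q = ∑ z, Real.negMulLog (q z) + ∑ z, q z * Real.log (W z) := by
    intro q
    rw [hlog]
    unfold FF H2
    ring
  have hsum : 0 < ∑ z, W z := Finset.sum_pos (fun z _ => hW z) Finset.univ_nonempty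
  obtain ⟨hs, he⟩ := gibbs_self (W := W) (fun z => (hW z).le) hsum
  have key : ∀ q ∈ stdSimplex ℝ (Bool × Bool), (∀ q' ∈ stdSimplex ℝ (Bool × Bool), FF 0 κ q' ≤ FF 0 κ q) →
      ∀ z, q z = W z / ∑ z, W z := by
    intro q hq hm
    have h1 := gibbs (W := W) hq (fun z => (hW z).le) (fun z hz => ((hW z).ne' hz).elim)
    apply h1.2
    apply le_antisymm h1.1
    have h2 := hm _ hs
    rw [hF, hF] at h2
    rw [← he]
    exact h2
  funext z
  rw [key p hp hmax, key p' hp' hmax']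

end BC.One
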