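import Pool.Agent.Lib_helper28.BCOne3
import Pool.Agent.Lib_helper28.BCExtra
import Pool.Agent.Lib_helper28.BCDefs2

/-!
# One law is enough

Every point `r` of `Reg` is dominated by a single law `p` with `p₁₁ = r.2.2.1`, mutual information
at most `r.2.1 - r.1` and entropy at least `r.1`.
-/

set_option autoImplicit false

open Real Set

namespace BC

open BC.One

lemma continuous_MI : Continuous MI := by
  unfold MI H2 sA sB
  have h1 := Real.continuous_negMulLog
  have h2 := Real.binEntropy_continuous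
  fun_prop

lemma continuous_H2' : Continuous H2 := by
  unfold H2
  have h1 := Real.continuous_negMulLog
  fun_prop

lemma continuous_FF (θ κ : ℝ) : Continuous (FF θ κ) := by
  unfold FF H2 sA sB
  have h1 := Real.continuous_negMulLog
  have h2 := Real.binEntropy_continuous
  fun_prop

/-- a point of `Reg` that maximises `x₁ - μ (x₂ - x₁) + ν x₃` is given by one law -/
lemma exposed {μ ν : ℝ} (hμ : 0 ≤ μ) {x : ℝ × ℝ × ℝ × ℝ} (hx : x ∈ Reg)
    (hmax : ∀ y ∈ Reg, y.1 - μ * (y.2.1 - y.1) + ν * y.2.2.1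
      ≤ x.1 - μ * (x.2.1 - x.1) + ν * x.2.2.1) :
    ∃ p ∈ stdSimplex ℝ (Bool × Bool), H2 p = x.1 ∧
      Real.binEntropy (sA p) + Real.binEntropy (sB p) = x.2.1 ∧ p (true, true) = x.2.2.1 := by
  set θ := μ / (1 + μ) with hθd
  set κ := ν / (1 + μ) with hκd
  have hμ1 : 0 < 1 + μ := by linarith
  have hθ0 : 0 ≤ θ := div_nonneg hμ hμ1.le
  have hθ1 : θ < 1 := by rw [hθd, div_lt_one hμ1]; linarith
  have hlin : ∀ p : Bool × Bool → ℝ, (vec p).1 - μ * ((vec p).2.1 - (vec p).1) + ν * (vec p).2.2.1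
      = (1 + μ) * FF θ κ p := by
    intro p
    unfold vec FF
    rw [hθd, hκd]
    field_simp
    ring
  obtain ⟨p0, hp0, hp0m⟩ := (isCompact_stdSimplex ℝ (Bool × Bool)).exists_isMaxOn
    ⟨_, single_mem_stdSimplex ℝ (true, true)⟩ (continuous_FF θ κ).continuousOn
  have hm0 : ∀ q ∈ stdSimplex ℝ (Bool × Bool), FF θ κ q ≤ FF θ κ p0 := fun q hq => hp0m hq
  have huniq : ∀ p ∈ stdSimplex ℝ (Bool × Bool), (∀ q ∈ stdSimplex ℝ (Bool × Bool),
      FF θ κ q ≤ FF θ κ p) → H2 p = H2 p0 ∧ Real.binEntropy (sA p) + Real.binEntropy (sB p)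
      = Real.binEntropy (sA p0) + Real.binEntropy (sB p0) ∧ p (true, true) = p0 (true, true) := by
    intro p hp hm
    rcases eq_or_lt_of_le hθ0 with h | h
    · rw [← h] at hm hm0
      rw [FF_unique_zero hp hp0 hm hm0]
      exact ⟨rfl, rfl, rfl⟩
    · exact FF_unique h hθ1 hp hp0 hm hm0
  set m := (1 + μ) * FF θ κ p0 with hmd
  let L : ℝ × ℝ × ℝ × ℝ → ℝ := fun y => y.1 - μ * (y.2.1 - y.1) + ν * y.2.2.1
  let G : Set (ℝ × ℝ × ℝ × ℝ) := {y | L y < m ∨ (L y = m ∧ y.1 = (vec p0).1 ∧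
    y.2.1 = (vec p0).2.1 ∧ y.2.2.1 = (vec p0).2.2.1)}
  have hG : Convex ℝ G := by
    rw [convex_iff_forall_pos]
    rintro y hy z hz a b ha hb hab
    have e : L (a • y + b • z) = a * L y + b * L z := by
      simp only [L, Prod.fst_add, Prod.snd_add, Prod.smul_fst, Prod.smul_snd, smul_eq_mul]
      ring
    have hm2 : a * m + b * m = m := by rw [← add_mul, hab, one_mul]
    rcases hy with hy | ⟨hy, hy1, hy2, hy3⟩ <;> rcases hz with hz | ⟨hz, hz1, hz2, hz3⟩
    · left
      show L (a • y + b • z) < m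
      have t1 := mul_lt_mul_of_pos_left hy ha
      have t2 := mul_lt_mul_of_pos_left hz hb
      rw [e]; linarith
    · left
      show L (a • y + b • z) < m
      have t1 := mul_lt_mul_of_pos_left hy ha
      rw [e, hz]; linarith
    · left
      show L (a • y + b • z) < m
      have t2 := mul_lt_mul_of_pos_left hz hb
      rw [e, hy]; linarith
    · right
      refine ⟨?_, ?_, ?_, ?_⟩
      · rw [e, hy, hz, ← add_mul, hab, one_mul]
      · simp only [Prod.fst_add, Prod.smul_fst, smul_eq_mul]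
        rw [hy1, hz1, ← add_mul, hab, one_mul]
      · simp only [Prod.fst_add, Prod.snd_add, Prod.smul_fst, Prod.smul_snd, smul_eq_mul]
        rw [hy2, hz2, ← add_mul, hab, one_mul]
      · simp only [Prod.fst_add, Prod.snd_add, Prod.smul_fst, Prod.smul_snd, smul_eq_mul]
        rw [hy3, hz3, ← add_mul, hab, one_mul]
  have hsub : Reg ⊆ G := by
    refine convexHull_min ?_ hG
    rintro _ ⟨p, hp, rfl⟩
    have h1 : L (vec p) = (1 + μ) * FF θ κ p := hlin p
    rcases lt_or_eq_of_le (hm0 p hp) with h | h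
    · left
      show L (vec p) < m
      rw [h1, hmd]
      exact mul_lt_mul_of_pos_left h hμ1
    · right
      have := huniq p hp (fun q hq => by rw [h]; exact hm0 q hq)
      refine ⟨by rw [h1, hmd, h], this.1, this.2.1, this.2.2⟩
  have hxm : m ≤ L x := by
    have := hmax _ (vec_mem_Reg hp0)
    rw [hlin] at this
    exact this
  rcases hsub hx with h | ⟨_, h1, h2, h3⟩
  · linarith
  · exact ⟨p0, hp0, h1.symm, h2.symm, h3.symm⟩

lemma pos_sq (u d : ℝ) : (max 0 (u + d)) ^ 2 ≤ (max 0 u) ^ 2 + 2 * max 0 u * d + d ^ 2 := by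
  have e : (max 0 u) ^ 2 + 2 * max 0 u * d + d ^ 2 = (max 0 u + d) ^ 2 := by ring
  rw [e]
  rcases le_total 0 (u + d) with h1 | h1
  · rw [max_eq_right h1]
    rcases le_total 0 u with h2 | h2
    · rw [max_eq_right h2]
    · rw [max_eq_left h2]
      nlinarith
  · rw [max_eq_left h1]
    have := sq_nonneg (max 0 u + d)
    linarith

lemma first_order {M u v du dv a : ℝ} (hM : 0 ≤ M) (h : ∀ e : ℝ, 0 < e → e ≤ 1 →
    e * a ≤ M * ((max 0 (u + e * du)) ^ 2 + (v + e * dv) ^ 2) - M * ((max 0 u) ^ 2 + v ^ 2)) :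
    a ≤ 2 * M * max 0 u * du + 2 * M * v * dv := by
  by_contra hcon
  push Not at hcon
  set Δ := a - 2 * M * max 0 u * du - 2 * M * v * dv with hΔ
  have hΔ0 : 0 < Δ := by rw [hΔ]; linarith
  set C := M * (du ^ 2 + dv ^ 2) with hC
  have hC0 : 0 ≤ C := by positivity
  set e := min 1 (Δ / (2 * (C + 1))) with he
  have he0 : 0 < e := lt_min one_pos (by positivity)
  have he1 : e ≤ 1 := min_le_left _ _
  have he2 : e ≤ Δ / (2 * (C + 1)) := min_le_right _ _
  have h1 := h e he0 he1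
  have h4 := mul_le_mul_of_nonneg_left (pos_sq u (e * du)) hM
  have h5 : e * Δ ≤ e * (e * C) := by
    rw [hΔ, hC]
    nlinarith
  have h6 : Δ ≤ e * C := le_of_mul_le_mul_left h5 he0
  have h7 : e * C ≤ Δ / (2 * (C + 1)) * C := mul_le_mul_of_nonneg_right he2 hC0
  have h8 : Δ / (2 * (C + 1)) * C < Δ := by
    rw [div_mul_eq_mul_div, div_lt_iff₀ (by positivity)]
    nlinarith
  linarith

/-- One law is enough. -/
theorem one_law {r : ℝ × ℝ × ℝ × ℝ} (hr : r ∈ Reg) :
    ∃ p ∈ stdSimplex ℝ (Bool × Bool), p (true, true) = r.2.2.1 ∧ MI p ≤ r.2.1 - r.1 ∧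
      r.1 ≤ H2 p := by
  set g := r.2.1 - r.1 with hg
  set l := r.2.2.1 with hl
  -- penalised problem
  have pen : ∀ M : ℝ, 0 ≤ M → ∃ p ∈ stdSimplex ℝ (Bool × Bool),
      r.1 + M * ((max 0 (MI p - g)) ^ 2 + (p (true, true) - l) ^ 2) ≤ H2 p := by
    intro M hM
    let J : ℝ × ℝ × ℝ × ℝ → ℝ := fun x =>
      x.1 - M * ((max 0 (x.2.1 - x.1 - g)) ^ 2 + (x.2.2.1 - l) ^ 2)
    have hJ : Continuous J := by fun_prop
    obtain ⟨x, hx, hxm⟩ := compact_Reg.exists_isMaxOn ⟨r, hr⟩ hJ.continuousOn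
    have hm : ∀ y ∈ Reg, J y ≤ J x := fun y hy => hxm hy
    set u := x.2.1 - x.1 - g with hu
    set v := x.2.2.1 - l with hv
    have hM0 : 0 ≤ 2 * M * max 0 u := by positivity
    obtain ⟨p, hp, e1, e2, e3⟩ := exposed (μ := 2 * M * max 0 u) (ν := -(2 * M * v)) hM0 hx (by
        intro y hy
        have key := first_order (M := M) (u := u) (v := v)
          (du := (y.2.1 - y.1) - (x.2.1 - x.1)) (dv := y.2.2.1 - x.2.2.1) (a := y.1 - x.1) hM (by
            intro e he0 he1
            have hz : (1 - e) • x + e • y ∈ Reg :=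
              (convex_convexHull ℝ _) hx hy (by linarith) he0.le (by ring)
            have h1 := hm _ hz
            have h2 : J ((1 - e) • x + e • y) = x.1 + e * (y.1 - x.1)
                - M * ((max 0 (u + e * ((y.2.1 - y.1) - (x.2.1 - x.1)))) ^ 2
                  + (v + e * (y.2.2.1 - x.2.2.1)) ^ 2) := by
              simp only [J, Prod.fst_add, Prod.snd_add, Prod.smul_fst, Prod.smul_snd, smul_eq_mul]
              have a1 : (1 - e) * x.2.1 + e * y.2.1 - ((1 - e) * x.1 + e * y.1) - g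
                  = u + e * ((y.2.1 - y.1) - (x.2.1 - x.1)) := by
                rw [hu]; ring
              have a2 : (1 - e) * x.2.2.1 + e * y.2.2.1 - l = v + e * (y.2.2.1 - x.2.2.1) := by
                rw [hv]; ring
              rw [a1, a2]
              ring
            have h3 : J x = x.1 - M * ((max 0 u) ^ 2 + v ^ 2) := rfl
            rw [h2, h3] at h1
            linarith)
        generalize max 0 u = P at key ⊢
        linarith)
    refine ⟨p, hp, ?_⟩
    have h1 := hm r hr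
    have h2 : J r = r.1 := by
      simp only [J]
      rw [← hg, ← hl, sub_self, sub_self, max_self]
      ring
    have h3 : J x = H2 p - M * ((max 0 (MI p - g)) ^ 2 + (p (true, true) - l) ^ 2) := by
      simp only [J, MI]
      rw [e1, e2, e3]
    rw [h2, h3] at h1
    linarith
  -- compactness
  let f : (Bool × Bool → ℝ) → ℝ := fun p => (max 0 (MI p - g)) ^ 2 + (p (true, true) - l) ^ 2
  have hf : Continuous f := by
    have := continuous_MI
    fun_prop
  have hf0 : ∀ p, 0 ≤ f p := fun p => by positivity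
  let C : Set (Bool × Bool → ℝ) := stdSimplex ℝ (Bool × Bool) ∩ {p | r.1 ≤ H2 p}
  have hC : IsCompact C :=
    (isCompact_stdSimplex ℝ _).inter_right (isClosed_le continuous_const continuous_H2')
  have hne : C.Nonempty := by
    obtain ⟨p, hp, h⟩ := pen 0 le_rfl
    exact ⟨p, hp, by simpa using h⟩
  obtain ⟨p, hp, hpm⟩ := hC.exists_isMinOn hne hf.continuousOn
  obtain ⟨B, hB⟩ := (isCompact_stdSimplex ℝ (Bool × Bool)).exists_bound_of_continuousOn
    continuous_H2'.continuousOn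
  have hfp : f p = 0 := by
    apply le_antisymm _ (hf0 p)
    by_contra hcon
    push Not at hcon
    have hB0 : 0 ≤ |B - r.1| := abs_nonneg _
    obtain ⟨q, hq, h⟩ := pen ((|B - r.1| + 1) / f p) (by positivity)
    have hqC : q ∈ C := by
      refine ⟨hq, ?_⟩
      have : 0 ≤ (|B - r.1| + 1) / f p * f q := mul_nonneg (by positivity) (hf0 q)
      show r.1 ≤ H2 q
      have h' : r.1 + (|B - r.1| + 1) / f p * f q ≤ H2 q := h
      linarith
    have h1 : f p ≤ f q := hpm hqC
    have h2 : H2 q ≤ B := (le_abs_self _).trans (hB q hq)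
    have h' : r.1 + (|B - r.1| + 1) / f p * f q ≤ H2 q := h
    have h3 : (|B - r.1| + 1) / f p * f p ≤ (|B - r.1| + 1) / f p * f q :=
      mul_le_mul_of_nonneg_left h1 (by positivity)
    rw [div_mul_cancel₀ _ hcon.ne'] at h3
    have h4 : B - r.1 ≤ |B - r.1| := le_abs_self _
    linarith
  have h1 : (max 0 (MI p - g)) ^ 2 = 0 ∧ (p (true, true) - l) ^ 2 = 0 := by
    have hfp' : (max 0 (MI p - g)) ^ 2 + (p (true, true) - l) ^ 2 = 0 := hfp
    constructor <;> nlinarith [sq_nonneg (max 0 (MI p - g)), sq_nonneg (p (true, true) - l)]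
  refine ⟨p, hp.1, ?_, ?_, hp.2⟩
  · have := pow_eq_zero_iff (two_ne_zero) |>.1 h1.2
    linarith
  · have := pow_eq_zero_iff (two_ne_zero) |>.1 h1.1
    have h2 := le_max_right 0 (MI p - g)
    linarith

lemma Ent_bdd (l g : ℝ) : BddAbove {x | ∃ p ∈ stdSimplex ℝ (Bool × Bool), p (true, true) = l ∧
    MI p ≤ g ∧ x = H2 p} := by
  obtain ⟨B, hB⟩ := (isCompact_stdSimplex ℝ (Bool × Bool)).exists_bound_of_continuousOn
    continuous_H2'.continuousOn
  refine ⟨B, ?_⟩
  rintro _ ⟨p, hp, _, _, rfl⟩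
  exact (le_abs_self _).trans (hB p hp)

/-- the supremum is attained -/
lemma Ent_attained {l g : ℝ} (hl : l ∈ Icc (0:ℝ) 1) (hg : 0 ≤ g) :
    ∃ p ∈ stdSimplex ℝ (Bool × Bool), p (true, true) = l ∧ MI p ≤ g ∧ H2 p = Ent l g := by
  let C : Set (Bool × Bool → ℝ) := stdSimplex ℝ (Bool × Bool) ∩ ({p | p (true, true) = l} ∩ {p | MI p ≤ g})
  have hC : IsCompact C := by
    apply (isCompact_stdSimplex ℝ _).inter_right
    exact (isClosed_eq (by fun_prop) continuous_const).inter
      (isClosed_le continuous_MI continuous_const)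
  have hne : C.Nonempty := by
    refine ⟨fun z => if z = (true, true) then l else if z = (false, true) then 1 - l else 0,
      ⟨?_, ?_⟩, ?_, ?_⟩
    · intro z
      show 0 ≤ if z = (true, true) then l else if z = (false, true) then 1 - l else 0
      split_ifs
      · exact hl.1
      · linarith [hl.2]
      · exact le_rfl
    · simp [Fintype.sum_prod_type]
    · simp
    · show MI _ ≤ g
      unfold MI H2 sA sB
      simp [Fintype.sum_prod_type, Real.binEntropy_eq_negMulLog_add_negMulLog_one_sub,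
        Real.negMulLog]
      linarith
  obtain ⟨p, hp, hpm⟩ := hC.exists_isMaxOn hne continuous_H2'.continuousOn
  refine ⟨p, hp.1, hp.2.1, hp.2.2, ?_⟩
  apply le_antisymm
  · exact le_csSup (Ent_bdd l g) ⟨p, hp.1, hp.2.1, hp.2.2, rfl⟩
  · refine csSup_le ⟨_, p, hp.1, hp.2.1, hp.2.2, rfl⟩ ?_
    rintro _ ⟨q, hq, h1, h2, rfl⟩
    exact hpm ⟨hq, h1, h2⟩

/-- For `v ≥ 1/16` the single-letter formula is an optimum over one law. -/
theorem Psi_one {l g v : ℝ} (hl : l ∈ Icc (0:ℝ) 1) (hg : 0 ≤ g) (hv : 1 / 16 ≤ v) :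
    Psi l g v = min (2 * Real.log 2) (g + Ent l g) := by
  obtain ⟨p, hp, h1, h2, h3⟩ := Ent_attained hl hg
  have hR := vec_mem_Reg hp
  have hf : Feas l g v (vec p) := ⟨hR, h2, h1, (Reg_subset_Box hR).2.2.2.2.2.2.trans hv⟩
  apply le_antisymm
  · refine Psi_le_of hf ?_
    rintro r ⟨hr, hr1, hr2, _⟩
    obtain ⟨q, hq, e1, e2, e3⟩ := one_law hr
    have : H2 q ≤ Ent l g :=
      le_csSup (Ent_bdd l g) ⟨q, hq, by rw [e1, hr2], e2.trans hr1, rfl⟩
    exact min_le_min_left _ (by linarith)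
  · have h := le_Psi hf
    have e : (vec p).1 = Ent l g := h3
    rw [e] at h
    exact h

/-- explicit form when `c ≤ n^{-1/2}` -/
theorem explicit_one (ε : ℝ) (hε : 0 < ε) : ∃ N : ℕ, ∀ n ≥ N, ∀ lam : ℕ, 1 ≤ lam → lam ≤ n →
    ∀ c : ℝ, (1 / 2 : ℝ) ^ n ≤ c → c ≤ 1 → c ^ 2 * n ≤ 1 →
      |Real.logb 2 (MM n lam c)
        - n * (min (2 * Real.log 2) (Real.log (1 / c) / n
          + Ent ((lam : ℝ) / n) (Real.log (1 / c) / n)) / Real.log 2)| ≤ ε * n := by
  refine seq_tool (fun n lam c => c ^ 2 * n ≤ 1)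
    (fun n lam c => min (2 * Real.log 2) (Real.log (1 / c) / n
      + Ent ((lam : ℝ) / n) (Real.log (1 / c) / n))) ?_ ε hε
  intro n lam c hn hn0 hlam hc1 hc2 hP
  refine tendsto_const_nhds.congr (fun k => ?_)
  have hnk : (0:ℝ) < n k := by exact_mod_cast hn0 k
  have hck : 0 < c k := lt_of_lt_of_le (by positivity) (hc2 k)
  have hl : (lam k : ℝ) / n k ∈ Set.Icc (0:ℝ) 1 := by
    refine ⟨by positivity, ?_⟩
    rw [div_le_one hnk]
    exact_mod_cast hlam k
  rw [Psi_one hl, sub_self]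
  · apply div_nonneg _ hnk.le
    apply Real.log_nonneg
    rw [le_div_iff₀ hck, one_mul]
    exact hc1 k
  · have h1 := hP k
    have hpi := Real.pi_lt_four
    have hpi0 := Real.pi_pos
    rw [div_le_div_iff₀ (by norm_num) (by positivity)]
    have : 2 * Real.pi * n k * c k ^ 2 = 2 * Real.pi * (c k ^ 2 * n k) := by ring
    rw [this]
    nlinarith

end BC
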