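import Pool.Agent.Lib_helper28.BCBlk

/-!
# Superblocks
-/

open scoped BigOperators Topology
open Filter Polynomial

namespace BC

lemma decomp {r : ℝ × ℝ × ℝ × ℝ} (hr : r ∈ Reg) :
    ∃ (ι : Type) (_ : Fintype ι) (w : ι → ℝ) (p : ι → Bool × Bool → ℝ),
      (∀ i, 0 < w i) ∧ ∑ i, w i = 1 ∧ (∀ i, p i ∈ stdSimplex ℝ (Bool × Bool)) ∧
      r.1 = ∑ i, w i * H2 (p i) ∧
      r.2.1 = ∑ i, w i * (Real.binEntropy (sA (p i)) + Real.binEntropy (sB (p i))) ∧
      r.2.2.1 = ∑ i, w i * p i (true, true) ∧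
      r.2.2.2 = ∑ i, w i * (sA (p i) * (1 - sA (p i)) * (sB (p i) * (1 - sB (p i)))) := by
  obtain ⟨ι, hι, z, w, hz, -, hw, hw1, hx⟩ := eq_pos_convex_span_of_mem_convexHull hr
  have hch : ∀ i, ∃ p ∈ stdSimplex ℝ (Bool × Bool), vec p = z i := by
    intro i
    obtain ⟨p, hp, h⟩ := hz (Set.mem_range_self i)
    exact ⟨p, hp, h⟩
  choose p hp hpz using hch
  refine ⟨ι, hι, w, p, hw, hw1, hp, ?_, ?_, ?_, ?_⟩
  · have h := congrArg (fun y : ℝ × ℝ × ℝ × ℝ => y.1) hx
    simp only [Prod.fst_sum, Prod.smul_fst, smul_eq_mul] at h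
    rw [← h]
    exact Finset.sum_congr rfl (fun i _ => by rw [← hpz i]; rfl)
  · have h := congrArg (fun y : ℝ × ℝ × ℝ × ℝ => y.2.1) hx
    simp only [Prod.fst_sum, Prod.snd_sum, Prod.smul_fst, Prod.smul_snd, smul_eq_mul] at h
    rw [← h]
    exact Finset.sum_congr rfl (fun i _ => by rw [← hpz i]; rfl)
  · have h := congrArg (fun y : ℝ × ℝ × ℝ × ℝ => y.2.2.1) hx
    simp only [Prod.fst_sum, Prod.snd_sum, Prod.smul_fst, Prod.smul_snd, smul_eq_mul] at h
    rw [← h]
    exact Finset.sum_congr rfl (fun i _ => by rw [← hpz i]; rfl)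
  · have h := congrArg (fun y : ℝ × ℝ × ℝ × ℝ => y.2.2.2) hx
    simp only [Prod.snd_sum, Prod.smul_snd, smul_eq_mul] at h
    rw [← h]
    exact Finset.sum_congr rfl (fun i _ => by rw [← hpz i]; rfl)

lemma e0_prod {ι : Type*} [DecidableEq ι] (S : Finset ι) (Z : ι → ℕ[X]) :
    e0 (∏ i ∈ S, Z i) = ∏ i ∈ S, e0 (Z i) := by
  induction S using Finset.induction_on with
  | empty => simp [e0]
  | insert i S hi ih => rw [Finset.prod_insert hi, Finset.prod_insert hi, e0_mul, ih]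

lemma mean_prod {ι : Type*} [DecidableEq ι] (S : Finset ι) (Z : ι → ℕ[X])
    (h : ∀ i ∈ S, e0 (Z i) ≠ 0) : mean (∏ i ∈ S, Z i) = ∑ i ∈ S, mean (Z i) := by
  induction S using Finset.induction_on with
  | empty => simp [mean, e1]
  | insert i S hi ih =>
    rw [Finset.prod_insert hi, Finset.sum_insert hi, mean_mul (h i (Finset.mem_insert_self i S)),
      ih (fun j hj => h j (Finset.mem_insert_of_mem hj))]
    rw [e0_prod]
    exact Finset.prod_ne_zero_iff.2 (fun j hj => h j (Finset.mem_insert_of_mem hj))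

lemma vari_prod {ι : Type*} [DecidableEq ι] (S : Finset ι) (Z : ι → ℕ[X])
    (h : ∀ i ∈ S, e0 (Z i) ≠ 0) : vari (∏ i ∈ S, Z i) = ∑ i ∈ S, vari (Z i) := by
  induction S using Finset.induction_on with
  | empty => simp [vari, e1, e2]
  | insert i S hi ih =>
    rw [Finset.prod_insert hi, Finset.sum_insert hi, vari_mul (h i (Finset.mem_insert_self i S)),
      ih (fun j hj => h j (Finset.mem_insert_of_mem hj))]
    rw [e0_prod]
    exact Finset.prod_ne_zero_iff.2 (fun j hj => h j (Finset.mem_insert_of_mem hj))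

/-- Superblocks for the exponential regime. -/
theorem superblock {r : ℝ × ℝ × ℝ × ℝ} (hr : r ∈ Reg) {ε : ℝ} (hε : 0 < ε) :
    ∃ (D a u q : ℕ) (Z : ℕ[X]), 0 < D ∧ 0 < a ∧ 0 < q ∧ Rz D a a Z ∧ q ≤ Z.coeff u ∧
      |Real.log ((a : ℝ) ^ 2) / D - r.2.1| < ε ∧ |Real.log q / D - r.1| < ε ∧
      |(u : ℝ) / D - r.2.2.1| < ε ∧ (r.2.2.1 = 0 → u = 0) ∧ (r.2.2.2 = 0 → q = a ^ 2) := by
  classical
  obtain ⟨ι, hι, w, p, hw, hw1, hp, h1, h2, h3, h4⟩ := decomp hr
  set D : ℕ → ℕ := fun L => ∑ i, (bL (w i) L + bL (w i) L) with hD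
  set a : ℕ → ℕ := fun L => ∏ i, bP (w i) (p i) L with ha
  set u : ℕ → ℕ := fun L => ∑ i, (bU (w i) (p i) L + bU (w i) (p i) L) with hu
  set q : ℕ → ℕ := fun L => ∏ i, (bQ (w i) (p i) L * bQ (w i) (p i) L) with hq
  set Z : ℕ → ℕ[X] := fun L => ∏ i, bZ (w i) (p i) L with hZ
  have tD : Tendsto (fun L : ℕ => (D L : ℝ) / L) atTop (𝓝 2) := by
    have : Tendsto (fun L : ℕ => ∑ i, ((bL (w i) L : ℝ) / L + (bL (w i) L : ℝ) / L)) atTop
        (𝓝 (∑ i, (w i + w i))) :=
      tendsto_finsetSum _ (fun i _ => (tendsto_bL (hw i)).add (tendsto_bL (hw i)))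
    rw [Finset.sum_add_distrib, hw1, one_add_one_eq_two] at this
    refine this.congr (fun L => ?_)
    simp only [hD]
    push_cast
    rw [Finset.sum_div]
    exact Finset.sum_congr rfl (fun i _ => by ring)
  have ta : Tendsto (fun L : ℕ => Real.log (a L : ℝ) / L) atTop (𝓝 r.2.1) := by
    rw [h2]
    have : Tendsto (fun L : ℕ => ∑ i, (Real.log (bP (w i) (p i) L : ℝ) / L)) atTop
        (𝓝 (∑ i, w i * (Real.binEntropy (sA (p i)) + Real.binEntropy (sB (p i))))) :=
      tendsto_finsetSum _ (fun i _ => tendsto_bP (hw i) (hp i))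
    refine this.congr (fun L => ?_)
    simp only [ha]
    push_cast
    rw [Real.log_prod (fun i _ => by exact_mod_cast (bP_pos (hp i) L).ne'), Finset.sum_div]
  have tq : Tendsto (fun L : ℕ => Real.log (q L : ℝ) / L) atTop (𝓝 (2 * r.1)) := by
    rw [h1, Finset.mul_sum]
    have : Tendsto (fun L : ℕ => ∑ i, 2 * (Real.log (bQ (w i) (p i) L : ℝ) / L)) atTop
        (𝓝 (∑ i, 2 * (w i * H2 (p i)))) :=
      tendsto_finsetSum _ (fun i _ => (tendsto_bQ (hw i) (hp i)).const_mul 2)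
    refine this.congr (fun L => ?_)
    simp only [hq]
    push_cast
    rw [Real.log_prod (fun i _ => by
      have := (bQ_pos (w := w i) (hp i) L)
      positivity), Finset.sum_div]
    refine Finset.sum_congr rfl (fun i _ => ?_)
    have := (bQ_pos (w := w i) (hp i) L)
    rw [Real.log_mul (by positivity) (by positivity)]
    ring
  have tu : Tendsto (fun L : ℕ => (u L : ℝ) / L) atTop (𝓝 (2 * r.2.2.1)) := by
    rw [h3, Finset.mul_sum]
    have : Tendsto (fun L : ℕ => ∑ i, 2 * ((bU (w i) (p i) L : ℝ) / L)) atTop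
        (𝓝 (∑ i, 2 * (w i * p i (true, true)))) :=
      tendsto_finsetSum _ (fun i _ => (tendsto_bU (hw i) (hp i)).const_mul 2)
    refine this.congr (fun L => ?_)
    simp only [hu]
    push_cast
    rw [Finset.sum_div]
    exact Finset.sum_congr rfl (fun i _ => by ring)
  -- quotients
  have hq1 : Tendsto (fun L : ℕ => Real.log ((a L : ℝ) ^ 2) / D L) atTop (𝓝 r.2.1) := by
    have h := (ta.const_mul 2).div tD two_ne_zero
    have e : 2 * r.2.1 / 2 = r.2.1 := by ring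
    rw [e] at h
    refine h.congr' ?_
    filter_upwards [eventually_gt_atTop 0] with L hL
    have hL' : (L:ℝ) ≠ 0 := by exact_mod_cast hL.ne'
    simp only [Pi.div_apply]
    rw [Real.log_pow]
    push_cast
    rcases eq_or_ne (D L : ℝ) 0 with h0 | h0
    · rw [h0]; simp
    · field_simp
  have hq2 : Tendsto (fun L : ℕ => Real.log (q L : ℝ) / D L) atTop (𝓝 r.1) := by
    have h := tq.div tD two_ne_zero
    have e : 2 * r.1 / 2 = r.1 := by ring
    rw [e] at h
    refine h.congr' ?_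
    filter_upwards [eventually_gt_atTop 0] with L hL
    have hL' : (L:ℝ) ≠ 0 := by exact_mod_cast hL.ne'
    simp only [Pi.div_apply]
    rcases eq_or_ne (D L : ℝ) 0 with h0 | h0
    · rw [h0]; simp
    · field_simp
  have hq3 : Tendsto (fun L : ℕ => (u L : ℝ) / D L) atTop (𝓝 r.2.2.1) := by
    have h := tu.div tD two_ne_zero
    have e : 2 * r.2.2.1 / 2 = r.2.2.1 := by ring
    rw [e] at h
    refine h.congr' ?_
    filter_upwards [eventually_gt_atTop 0] with L hL
    have hL' : (L:ℝ) ≠ 0 := by exact_mod_cast hL.ne'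
    simp only [Pi.div_apply]
    rcases eq_or_ne (D L : ℝ) 0 with h0 | h0
    · rw [h0]; simp
    · field_simp
  have hev := (((Metric.tendsto_nhds.1 hq1 ε hε).and (Metric.tendsto_nhds.1 hq2 ε hε)).and
    (Metric.tendsto_nhds.1 hq3 ε hε)).and
      ((tD.eventually_const_lt (show (1:ℝ) < 2 by norm_num)).and (eventually_gt_atTop 0))
  obtain ⟨L, ⟨⟨e1, e2⟩, e3⟩, e4, e5⟩ := hev.exists
  have hL' : (0:ℝ) < L := by exact_mod_cast e5
  refine ⟨D L, a L, u L, q L, Z L, ?_, ?_, ?_, ?_, ?_, e1, e2, e3, ?_, ?_⟩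
  · rw [lt_div_iff₀ hL', one_mul] at e4
    have : (0:ℝ) < D L := by linarith
    exact_mod_cast this
  · exact Finset.prod_pos (fun i _ => bP_pos (hp i) L)
  · exact Finset.prod_pos (fun i _ => Nat.mul_pos (bQ_pos (hp i) L) (bQ_pos (hp i) L))
  · exact Rz.prod Finset.univ _ _ _ _ (fun i _ => bZ_Rz (w i) (p i) L)
  · refine le_trans ?_ (coeff_prod_ge Finset.univ (fun i => bZ (w i) (p i) L)
      (fun i => bU (w i) (p i) L + bU (w i) (p i) L))
    exact Finset.prod_le_prod' (fun i _ => bZ_coeff (hp i) L)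
  · intro h0
    rw [h3] at h0
    have h5 := (Finset.sum_eq_zero_iff_of_nonneg (fun i _ =>
      mul_nonneg (hw i).le ((hp i).1 (true, true)))).1 h0
    simp only [hu]
    refine Finset.sum_eq_zero (fun i _ => ?_)
    have h6 : p i (true, true) = 0 := by
      rcases mul_eq_zero.1 (h5 i (Finset.mem_univ i)) with h | h
      · exact absurd h (hw i).ne'
      · exact h
    unfold bU
    rw [h6]
    simp
  · intro h0
    rw [h4] at h0
    have h5 := (Finset.sum_eq_zero_iff_of_nonneg (fun i _ => by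
      obtain ⟨m1, m2, m3, m4⟩ := marg (hp i)
      exact mul_nonneg (hw i).le (mul_nonneg (var_le m1 m2).1 (var_le m3 m4).1))).1 h0
    simp only [hq, ha]
    rw [← Finset.prod_pow]
    refine Finset.prod_congr rfl (fun i _ => ?_)
    have h6 : sA (p i) * (1 - sA (p i)) * (sB (p i) * (1 - sB (p i))) = 0 := by
      rcases mul_eq_zero.1 (h5 i (Finset.mem_univ i)) with h | h
      · exact absurd h (hw i).ne'
      · exact h
    rw [bQ_eq_bP (hp i) h6 L, sq]

/-! ### the gadget -/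

/-- the gadget polynomial -/
noncomputable def Gp : ℕ[X] := 2 + 2 * X

lemma Rz_G : Rz 2 2 2 Gp := by
  refine ⟨{{0}, {1}}, {{0}, {1}}, by decide, by decide, ?_⟩
  have h01 : ({0} : Finset (Fin 2)) ≠ {1} := by decide
  unfold IP Gp
  rw [Finset.sum_pair h01, Finset.sum_pair h01, Finset.sum_pair h01]
  have a1 : (({0} : Finset (Fin 2)) ∩ {0}).card = 1 := by decide
  have a2 : (({0} : Finset (Fin 2)) ∩ {1}).card = 0 := by decide
  have a3 : (({1} : Finset (Fin 2)) ∩ {0}).card = 0 := by decide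
  have a4 : (({1} : Finset (Fin 2)) ∩ {1}).card = 1 := by decide
  rw [a1, a2, a3, a4]
  ring

lemma e0_G : e0 Gp = 4 := by
  simp [e0, Gp]

lemma mean_G : mean Gp = 1 / 2 := by
  unfold mean
  rw [e0_G]
  simp [e1, Gp]
  norm_num

lemma vari_G : vari Gp = 1 / 4 := by
  unfold vari
  rw [e0_G]
  simp [e1, e2, Gp]
  norm_num

lemma aeval_le (Z : ℕ[X]) (θ : ℝ) : ‖aeval (Complex.exp (θ * Complex.I)) Z‖ ≤ e0 Z := by
  rw [aeval_eq_sum_range, e0_eq]
  refine (norm_sum_le _ _).trans (Finset.sum_le_sum (fun j _ => ?_))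
  rw [nsmul_eq_mul, norm_mul, norm_pow, Complex.norm_exp_ofReal_mul_I, one_pow, mul_one,
    Complex.norm_natCast]

lemma G_bound {θ : ℝ} (hθ : |θ| ≤ Real.pi) :
    ‖aeval (Complex.exp (θ * Complex.I)) Gp‖
      ≤ e0 Gp * Real.exp (-(1 / (2 * Real.pi ^ 2)) * θ ^ 2) := by
  have hpi := Real.pi_pos
  rw [e0_G]
  have h1 : aeval (Complex.exp (θ * Complex.I)) Gp = 2 * (1 + Complex.exp (θ * Complex.I)) := by
    unfold Gp
    simp only [map_add, map_mul, map_ofNat, aeval_X]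
    ring
  rw [h1, norm_mul]
  have h2 : ‖(1 : ℂ) + Complex.exp (θ * Complex.I)‖ ^ 2 = 2 + 2 * Real.cos θ := by
    rw [← Complex.normSq_eq_norm_sq, Complex.normSq_apply]
    simp only [Complex.add_re, Complex.one_re, Complex.add_im, Complex.one_im,
      Complex.exp_ofReal_mul_I_re, Complex.exp_ofReal_mul_I_im, zero_add]
    nlinarith [Real.sin_sq_add_cos_sq θ]
  have h3 := Real.cos_le_one_sub_mul_cos_sq hθ
  have h4 : 1 - (1 / Real.pi ^ 2) * θ ^ 2 ≤ Real.exp (-(1 / Real.pi ^ 2) * θ ^ 2) := by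
    have := Real.add_one_le_exp (-(1 / Real.pi ^ 2) * θ ^ 2)
    linarith
  have h5 : ‖(1 : ℂ) + Complex.exp (θ * Complex.I)‖ ^ 2
      ≤ (2 * Real.exp (-(1 / (2 * Real.pi ^ 2)) * θ ^ 2)) ^ 2 := by
    rw [h2, mul_pow, ← Real.exp_nat_mul]
    have e : ((2:ℕ) : ℝ) * (-(1 / (2 * Real.pi ^ 2)) * θ ^ 2) = -(1 / Real.pi ^ 2) * θ ^ 2 := by
      push_cast
      field_simp
    rw [e]
    have e2 : 2 / Real.pi ^ 2 * θ ^ 2 = 2 * (1 / Real.pi ^ 2 * θ ^ 2) := by ring
    rw [e2] at h3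
    linarith
  have h6 := abs_le_of_sq_le_sq' h5 (by positivity)
  have h7 : ‖(2:ℂ)‖ = 2 := by simp
  rw [h7]
  linarith [h6.2]

/-- Superblocks for the window regime. -/
theorem superblock_win {r : ℝ × ℝ × ℝ × ℝ} (hr : r ∈ Reg) (hr2 : r.2.1 ≤ r.1) {ε : ℝ}
    (hε : 0 < ε) :
    ∃ (D a : ℕ) (Z : ℕ[X]), 0 < D ∧ 0 < a ∧ Rz D a a Z ∧
      |Real.log ((a : ℝ) ^ 2) / D - r.2.1| < ε ∧ |mean Z / D - r.2.2.1| < ε ∧
      0 < vari Z ∧ vari Z / D < r.2.2.2 + ε ∧
      (∀ θ : ℝ, |θ| ≤ Real.pi → ‖aeval (Complex.exp (θ * Complex.I)) Z‖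
        ≤ e0 Z * Real.exp (-(1 / (2 * Real.pi ^ 2)) * θ ^ 2)) := by
  classical
  obtain ⟨ι, hι, w, p, hw, hw1, hp, h1, h2, h3, h4⟩ := decomp hr
  -- all components are products
  have hprod : ∀ i, p i (true, true) = sA (p i) * sB (p i) := by
    have hnn : ∀ i, 0 ≤ w i * (Real.binEntropy (sA (p i)) + Real.binEntropy (sB (p i))
        - H2 (p i)) := fun i => mul_nonneg (hw i).le (by linarith [(gap (hp i)).1])
    have hsum : ∑ i, w i * (Real.binEntropy (sA (p i)) + Real.binEntropy (sB (p i))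
        - H2 (p i)) = 0 := by
      apply le_antisymm
      · have : ∑ i, w i * (Real.binEntropy (sA (p i)) + Real.binEntropy (sB (p i))
            - H2 (p i)) = r.2.1 - r.1 := by
          rw [h1, h2, ← Finset.sum_sub_distrib]
          exact Finset.sum_congr rfl (fun i _ => by ring)
        rw [this]; linarith
      · exact Finset.sum_nonneg (fun i _ => hnn i)
    have h5 := (Finset.sum_eq_zero_iff_of_nonneg (fun i _ => hnn i)).1 hsum
    intro i
    apply (gap (hp i)).2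
    rcases mul_eq_zero.1 (h5 i (Finset.mem_univ i)) with h | h
    · exact absurd h (hw i).ne'
    · linarith
  set D : ℕ → ℕ := fun L => (∑ i, (bL (w i) L + bL (w i) L)) + 2 with hD
  set a : ℕ → ℕ := fun L => (∏ i, bP (w i) (p i) L) * 2 with ha
  set Z : ℕ → ℕ[X] := fun L => (∏ i, bZ (w i) (p i) L) * Gp with hZ
  have hinv : Tendsto (fun L : ℕ => 1 / (L : ℝ)) atTop (𝓝 0) :=
    tendsto_one_div_atTop_nhds_zero_nat
  have e0pos : ∀ L, ∀ i ∈ (Finset.univ : Finset ι), e0 (bZ (w i) (p i) L) ≠ 0 := by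
    intro L i _
    rw [e0_bZ]
    have := bP_pos (w := w i) (hp i) L
    positivity
  have hmean : ∀ L, mean (Z L) = ∑ i, mean (bZ (w i) (p i) L) + 1 / 2 := by
    intro L
    simp only [hZ]
    rw [mean_mul, mean_prod _ _ (e0pos L), mean_G]
    · rw [e0_prod]
      exact Finset.prod_ne_zero_iff.2 (e0pos L)
    · rw [e0_G]; norm_num
  have hvari : ∀ L, vari (Z L) = ∑ i, vari (bZ (w i) (p i) L) + 1 / 4 := by
    intro L
    simp only [hZ]
    rw [vari_mul, vari_prod _ _ (e0pos L), vari_G]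
    · rw [e0_prod]
      exact Finset.prod_ne_zero_iff.2 (e0pos L)
    · rw [e0_G]; norm_num
  have tD : Tendsto (fun L : ℕ => (D L : ℝ) / L) atTop (𝓝 2) := by
    have h5 : Tendsto (fun L : ℕ => ∑ i, ((bL (w i) L : ℝ) / L + (bL (w i) L : ℝ) / L)) atTop
        (𝓝 (∑ i, (w i + w i))) :=
      tendsto_finsetSum _ (fun i _ => (tendsto_bL (hw i)).add (tendsto_bL (hw i)))
    rw [Finset.sum_add_distrib, hw1, one_add_one_eq_two] at h5
    have h6 := h5.add (hinv.const_mul 2)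
    rw [mul_zero, add_zero] at h6
    refine h6.congr (fun L => ?_)
    simp only [hD]
    push_cast
    rw [add_div, Finset.sum_div]
    congr 1
    · exact Finset.sum_congr rfl (fun i _ => by ring)
    · ring
  have ta : Tendsto (fun L : ℕ => Real.log (a L : ℝ) / L) atTop (𝓝 r.2.1) := by
    rw [h2]
    have h5 : Tendsto (fun L : ℕ => ∑ i, (Real.log (bP (w i) (p i) L : ℝ) / L)) atTop
        (𝓝 (∑ i, w i * (Real.binEntropy (sA (p i)) + Real.binEntropy (sB (p i))))) :=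
      tendsto_finsetSum _ (fun i _ => tendsto_bP (hw i) (hp i))
    have h6 := h5.add (hinv.const_mul (Real.log 2))
    rw [mul_zero, add_zero] at h6
    refine h6.congr (fun L => ?_)
    simp only [ha]
    push_cast
    rw [Real.log_mul (Finset.prod_ne_zero_iff.2
      (fun i _ => by exact_mod_cast (bP_pos (hp i) L).ne')) two_ne_zero,
      Real.log_prod (fun i _ => by exact_mod_cast (bP_pos (hp i) L).ne'), add_div,
      Finset.sum_div]
    ring
  have tm : Tendsto (fun L : ℕ => mean (Z L) / L) atTop (𝓝 (2 * r.2.2.1)) := by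
    have h5 : Tendsto (fun L : ℕ => ∑ i, (mean (bZ (w i) (p i) L) / L)) atTop
        (𝓝 (∑ i, 2 * (w i * (sA (p i) * sB (p i))))) :=
      tendsto_finsetSum _ (fun i _ => tendsto_mean_bZ (hw i) (hp i))
    have h6 := h5.add (hinv.const_mul (1 / 2))
    have e : ∑ i, 2 * (w i * (sA (p i) * sB (p i))) + 1 / 2 * 0 = 2 * r.2.2.1 := by
      rw [h3, Finset.mul_sum, mul_zero, add_zero]
      exact Finset.sum_congr rfl (fun i _ => by rw [hprod i])
    rw [e] at h6
    refine h6.congr (fun L => ?_)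
    rw [hmean, add_div, Finset.sum_div]
    ring
  have tv : Tendsto (fun L : ℕ => vari (Z L) / L) atTop (𝓝 (2 * r.2.2.2)) := by
    have h5 : Tendsto (fun L : ℕ => ∑ i, (vari (bZ (w i) (p i) L) / L)) atTop
        (𝓝 (∑ i, 2 * (w i * (sA (p i) * (1 - sA (p i)) * (sB (p i) * (1 - sB (p i))))))) :=
      tendsto_finsetSum _ (fun i _ => tendsto_vari_bZ (hw i) (hp i))
    have h6 := h5.add (hinv.const_mul (1 / 4))
    have e : ∑ i, 2 * (w i * (sA (p i) * (1 - sA (p i)) * (sB (p i) * (1 - sB (p i)))))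
        + 1 / 4 * 0 = 2 * r.2.2.2 := by
      rw [h4, Finset.mul_sum, mul_zero, add_zero]
    rw [e] at h6
    refine h6.congr (fun L => ?_)
    rw [hvari, add_div, Finset.sum_div]
    ring
  have hDpos : ∀ L, (0:ℝ) < D L := by
    intro L
    simp only [hD]
    push_cast
    have : 0 ≤ ∑ i, ((bL (w i) L : ℝ) + (bL (w i) L : ℝ)) :=
      Finset.sum_nonneg (fun i _ => by positivity)
    linarith
  have quot : ∀ (f : ℕ → ℝ) (y : ℝ), Tendsto (fun L : ℕ => f L / L) atTop (𝓝 (2 * y)) →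
      Tendsto (fun L : ℕ => f L / D L) atTop (𝓝 y) := by
    intro f y hf
    have h := hf.div tD two_ne_zero
    have e : 2 * y / 2 = y := by ring
    rw [e] at h
    refine h.congr' ?_
    filter_upwards [eventually_gt_atTop 0] with L hL
    have hL' : (L:ℝ) ≠ 0 := by exact_mod_cast hL.ne'
    have := (hDpos L).ne'
    simp only [Pi.div_apply]
    field_simp
  have q1 := quot (fun L => Real.log ((a L : ℝ) ^ 2)) r.2.1 (by
    refine (ta.const_mul 2).congr (fun L => ?_)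
    rw [Real.log_pow]
    push_cast
    ring)
  have q2 := quot _ _ tm
  have q3 := quot _ _ tv
  have hev := ((Metric.tendsto_nhds.1 q1 ε hε).and (Metric.tendsto_nhds.1 q2 ε hε)).and
    ((q3.eventually_lt_const (show r.2.2.2 < r.2.2.2 + ε by linarith)).and
      ((Filter.eventually_all.2 (fun i => bL_ev (hw i) (hp i))).and (eventually_gt_atTop 0)))
  obtain ⟨L, ⟨e1, e2⟩, e3, e5, e4⟩ := hev.exists
  refine ⟨D L, a L, Z L, by exact_mod_cast hDpos L, ?_, ?_, e1, e2, ?_, e3, ?_⟩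
  · exact Nat.mul_pos (Finset.prod_pos (fun i _ => bP_pos (hp i) L)) (by norm_num)
  · exact (Rz.prod Finset.univ _ _ _ _ (fun i _ => bZ_Rz (w i) (p i) L)).mul Rz_G
  · rw [hvari]
    have : 0 ≤ ∑ i, vari (bZ (w i) (p i) L) := by
      refine Finset.sum_nonneg (fun i _ => ?_)
      rw [vari_bZ (hp i) (e5 i)]
      have h1 : (bA (w i) (p i) L : ℝ) ≤ bL (w i) L := by exact_mod_cast bA_le (hp i) L
      have h2 : (bB (w i) (p i) L : ℝ) ≤ bL (w i) L := by exact_mod_cast bB_le (hp i) L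
      have h3 : (2:ℝ) ≤ bL (w i) L := by exact_mod_cast e5 i
      have h4 : (0:ℝ) ≤ (bL (w i) L : ℝ) - 1 := by linarith
      have h5 : (0:ℝ) ≤ (bL (w i) L : ℝ) - bA (w i) (p i) L := by linarith
      have h6 : (0:ℝ) ≤ (bL (w i) L : ℝ) - bB (w i) (p i) L := by linarith
      positivity
    linarith
  · intro θ hθ
    simp only [hZ]
    rw [map_mul, norm_mul, e0_mul]
    calc _ ≤ e0 (∏ i, bZ (w i) (p i) L)
          * (e0 Gp * Real.exp (-(1 / (2 * Real.pi ^ 2)) * θ ^ 2)) :=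
          mul_le_mul (aeval_le _ _) (G_bound hθ) (norm_nonneg _) (by
            unfold e0; positivity)
      _ = _ := by ring

end BC
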