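import Pool.Agent.Lib_helper28.BCTwo
import Pool.Agent.Lib_helper28.BCDefs

/-!
# Norm form of the two-point inequality and tensorisation
-/

open scoped BigOperators

namespace BC

/-- normalisation: `‖f₁‖ = s^{1/p} N`, `‖f₀‖ = (1-s)^{1/p} N` -/
lemma normalise (a0 a1 e : ℝ) (ha0 : 0 ≤ a0) (ha1 : 0 ≤ a1) (he : 0 < e)
    (hpos : 0 < a0 + a1) :
    ∃ s : ℝ, 0 ≤ s ∧ s ≤ 1 ∧ 0 < (a0 ^ (1 / e) + a1 ^ (1 / e)) ^ e ∧
      a1 = s ^ e * (a0 ^ (1 / e) + a1 ^ (1 / e)) ^ e ∧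
      a0 = (1 - s) ^ e * (a0 ^ (1 / e) + a1 ^ (1 / e)) ^ e := by
  set S := a0 ^ (1 / e) + a1 ^ (1 / e) with hS
  have h0 : 0 ≤ a0 ^ (1 / e) := Real.rpow_nonneg ha0 _
  have h1 : 0 ≤ a1 ^ (1 / e) := Real.rpow_nonneg ha1 _
  have hSpos : 0 < S := by
    rcases ha0.eq_or_lt with h | h
    · have : 0 < a1 := by linarith
      have := Real.rpow_pos_of_pos this (1 / e)
      linarith
    · have := Real.rpow_pos_of_pos h (1 / e)
      linarith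
  refine ⟨a1 ^ (1 / e) / S, by positivity, ?_, Real.rpow_pos_of_pos hSpos _, ?_, ?_⟩
  · rw [div_le_one hSpos]; linarith
  · rw [← Real.mul_rpow (by positivity) hSpos.le, div_mul_cancel₀ _ hSpos.ne',
      ← Real.rpow_mul ha1, one_div_mul_cancel he.ne', Real.rpow_one]
  · have : 1 - a1 ^ (1 / e) / S = a0 ^ (1 / e) / S := by
      field_simp
      linarith
    rw [this, ← Real.mul_rpow (by positivity) hSpos.le, div_mul_cancel₀ _ hSpos.ne',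
      ← Real.rpow_mul ha0, one_div_mul_cancel he.ne', Real.rpow_one]

/-- The constant in the two-point inequality. -/
noncomputable def Kc (σ κ : ℝ) : ℝ := 38 * σ ^ 2 + 1 + |κ| + 6 * σ + κ ^ 2 + 4 * σ * |κ|

theorem two_point_norm (σ κ M0 : ℝ) (hσ : 0 ≤ σ)
    (hM : ∀ s t : ℝ, 0 ≤ s → s ≤ 1 → 0 ≤ t → t ≤ 1 →
      σ * (Real.binEntropy s + Real.binEntropy t) + κ * (s * t)
        - 1 / 2 * (s * (1 - s) * (t * (1 - t))) ≤ M0)
    {q θ : ℝ} (hq0 : 0 ≤ q) (hq1 : q ≤ 1) (hq2 : σ * q ≤ 1 / 10) (hq3 : |κ| * q ≤ 1 / 10)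
    (hθ1 : q ≤ θ ^ 2) (hθ2 : |θ| ≤ Real.pi) (f0 f1 g0 g1 : ℂ) :
    ‖f0 * g0 + f0 * g1 + f1 * g0
        + (((Real.exp (κ * q) : ℝ) : ℂ) * Complex.exp (θ * Complex.I)) * (f1 * g1)‖
      ≤ Real.exp (q * M0 + Kc σ κ * q ^ 2)
        * ((‖f0‖ ^ (1 / (1 - σ * q)) + ‖f1‖ ^ (1 / (1 - σ * q))) ^ (1 - σ * q)
          * (‖g0‖ ^ (1 / (1 - σ * q)) + ‖g1‖ ^ (1 / (1 - σ * q))) ^ (1 - σ * q)) := by
  have he : 0 < 1 - σ * q := by linarith
  have hRHS : 0 ≤ Real.exp (q * M0 + Kc σ κ * q ^ 2)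
        * ((‖f0‖ ^ (1 / (1 - σ * q)) + ‖f1‖ ^ (1 / (1 - σ * q))) ^ (1 - σ * q)
          * (‖g0‖ ^ (1 / (1 - σ * q)) + ‖g1‖ ^ (1 / (1 - σ * q))) ^ (1 - σ * q)) := by
    positivity
  rcases (add_nonneg (norm_nonneg f0) (norm_nonneg f1)).eq_or_lt with h | hA
  · have h0 : f0 = 0 := norm_eq_zero.1 (by linarith [norm_nonneg f0, norm_nonneg f1])
    have h1 : f1 = 0 := norm_eq_zero.1 (by linarith [norm_nonneg f0, norm_nonneg f1])
    subst h0; subst h1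
    simpa using hRHS
  rcases (add_nonneg (norm_nonneg g0) (norm_nonneg g1)).eq_or_lt with h | hB
  · have h0 : g0 = 0 := norm_eq_zero.1 (by linarith [norm_nonneg g0, norm_nonneg g1])
    have h1 : g1 = 0 := norm_eq_zero.1 (by linarith [norm_nonneg g0, norm_nonneg g1])
    subst h0; subst h1
    simpa using hRHS
  have h2 := two_point f0 f1 g0 g1 θ (Real.exp (κ * q)) (Real.exp_pos _) hA hB
  refine h2.trans ?_
  obtain ⟨s, hs0, hs1, hF, hf1, hf0⟩ := normalise ‖f0‖ ‖f1‖ (1 - σ * q) (norm_nonneg _)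
    (norm_nonneg _) he hA
  obtain ⟨t, ht0, ht1, hG, hg1, hg0⟩ := normalise ‖g0‖ ‖g1‖ (1 - σ * q) (norm_nonneg _)
    (norm_nonneg _) he hB
  set F := (‖f0‖ ^ (1 / (1 - σ * q)) + ‖f1‖ ^ (1 / (1 - σ * q))) ^ (1 - σ * q) with hFdef
  set G := (‖g0‖ ^ (1 / (1 - σ * q)) + ‖g1‖ ^ (1 / (1 - σ * q))) ^ (1 - σ * q) with hGdef
  have est := main_est σ κ M0 hσ hM hq0 hq1 hq2 hq3 hθ1 hθ2 hs0 hs1 ht0 ht1
  rw [← Kc] at est
  generalize Real.exp (q * M0 + Kc σ κ * q ^ 2) = E at *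
  generalize min (Real.exp (κ * q)) 1 = m at *
  generalize Real.exp (κ * q) = r at *
  generalize 1 - Real.cos θ = c at *
  clear_value F G
  rw [hf0, hf1, hg0, hg1]
  rw [hf0, hf1] at hA
  rw [hg0, hg1] at hB
  generalize (1 - s) ^ (1 - σ * q) = α0 at *
  generalize s ^ (1 - σ * q) = α1 at *
  generalize (1 - t) ^ (1 - σ * q) = β0 at *
  generalize t ^ (1 - σ * q) = β1 at *
  have hA' : 0 < α0 + α1 := by
    rw [← add_mul] at hA
    exact (pos_iff_pos_of_mul_pos hA).2 hF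
  have hB' : 0 < β0 + β1 := by
    rw [← add_mul] at hB
    exact (pos_iff_pos_of_mul_pos hB).2 hG
  have e : (α0 * F + α1 * F) * (β0 * G + β1 * G)
      - m * (α0 * F * (α1 * F) * (β0 * G * (β1 * G)) * c
        / ((α0 * F + α1 * F) * (β0 * G + β1 * G))) + (r - 1) * (α1 * F * (β1 * G))
      = ((α0 + α1) * (β0 + β1) - m * (α0 * α1 * (β0 * β1) * c / ((α0 + α1) * (β0 + β1)))
        + (r - 1) * (α1 * β1)) * (F * G) := by
    field_simp
  rw [e]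
  exact mul_le_mul_of_nonneg_right est (by positivity)

end BC
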