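import Pool.Agent.Lib_helper28.BCTens

/-!
# Tensorisation of a two-point inequality
-/

open scoped BigOperators

namespace BC

lemma ic_cons {n : ℕ} (a b : Bool) (x y : Fin n → Bool) :
    ic (Fin.cons a x : Fin (n + 1) → Bool) (Fin.cons b y : Fin (n + 1) → Bool)
      = (if a && b then 1 else 0) + ic x y := by
  unfold ic
  rw [Fin.sum_univ_succ]
  simp

lemma sum_cons {M : Type*} [AddCommMonoid M] {n : ℕ} (F : (Fin (n + 1) → Bool) → M) :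
    ∑ x, F x = ∑ x : Fin n → Bool, (F (Fin.cons false x) + F (Fin.cons true x)) := by
  rw [← (Fin.consEquiv (fun _ : Fin (n + 1) => Bool)).sum_comp, Fintype.sum_prod_type]
  simp only [Fintype.sum_bool]
  rw [← Finset.sum_add_distrib]
  exact Finset.sum_congr rfl (fun x _ => add_comm _ _)

/-- the two-point operator bound `ℓ_p → ℓ_{p'}` -/
lemma op2 (z : ℂ) (C τ : ℝ) (hC : 0 ≤ C) (hτ0 : 0 < τ) (hτ1 : τ ≤ 1 / 2)
    (h2 : ∀ a0 a1 b0 b1 : ℂ, ‖a0 * b0 + a0 * b1 + a1 * b0 + z * (a1 * b1)‖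
      ≤ C * ((‖a0‖ ^ (1 / (1 - τ)) + ‖a1‖ ^ (1 / (1 - τ))) ^ (1 - τ)
        * (‖b0‖ ^ (1 / (1 - τ)) + ‖b1‖ ^ (1 / (1 - τ))) ^ (1 - τ))) (b0 b1 : ℂ) :
    (‖b0 + b1‖ ^ (1 / τ) + ‖b0 + z * b1‖ ^ (1 / τ)) ^ τ
      ≤ C * (‖b0‖ ^ (1 / (1 - τ)) + ‖b1‖ ^ (1 / (1 - τ))) ^ (1 - τ) := by
  have h1τ : 0 < 1 - τ := by linarith
  set w0 := b0 + b1 with hw0
  set w1 := b0 + z * b1 with hw1
  set B := (‖b0‖ ^ (1 / (1 - τ)) + ‖b1‖ ^ (1 / (1 - τ))) ^ (1 - τ) with hB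
  have hB0 : 0 ≤ B := by positivity
  set W := ‖w0‖ ^ (1 / τ) + ‖w1‖ ^ (1 / τ) with hW
  have hW0 : 0 ≤ W := by positivity
  rcases hW0.eq_or_lt with h | hWpos
  · rw [← h, Real.zero_rpow hτ0.ne']
    positivity
  -- test vectors
  have key : ∀ w : ℂ, ∃ v : ℂ, v * w = ((‖w‖ ^ (1 / τ) : ℝ) : ℂ) ∧
      ‖v‖ ^ (1 / (1 - τ)) = ‖w‖ ^ (1 / τ) := by
    intro w
    rcases eq_or_ne w 0 with rfl | hw
    · refine ⟨0, ?_, ?_⟩
      · rw [norm_zero, Real.zero_rpow (one_div_pos.2 hτ0).ne']; simp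
      · rw [norm_zero, Real.zero_rpow (one_div_pos.2 hτ0).ne',
          Real.zero_rpow (one_div_pos.2 h1τ).ne']
    · have hwp : 0 < ‖w‖ := norm_pos_iff.2 hw
      refine ⟨((‖w‖ ^ (1 / τ) : ℝ) : ℂ) / w, by field_simp, ?_⟩
      rw [norm_div, Complex.norm_real, Real.norm_of_nonneg (by positivity)]
      nth_rewrite 2 [← Real.rpow_one ‖w‖]
      rw [← Real.rpow_sub hwp, ← Real.rpow_mul hwp.le]
      congr 1
      field_simp
  obtain ⟨v0, hv0, hv0'⟩ := key w0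
  obtain ⟨v1, hv1, hv1'⟩ := key w1
  have h3 := h2 v0 v1 b0 b1
  rw [hv0', hv1', ← hB, ← hW] at h3
  have h4 : v0 * b0 + v0 * b1 + v1 * b0 + z * (v1 * b1) = ((W : ℝ) : ℂ) := by
    have : v0 * b0 + v0 * b1 + v1 * b0 + z * (v1 * b1) = v0 * w0 + v1 * w1 := by
      rw [hw0, hw1]; ring
    rw [this, hv0, hv1, hW]
    push_cast
    ring
  rw [h4, Complex.norm_real, Real.norm_of_nonneg hW0] at h3
  have h5 : W = W ^ τ * W ^ (1 - τ) := by
    rw [← Real.rpow_add hWpos]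
    simp
  have h6 : 0 < W ^ (1 - τ) := Real.rpow_pos_of_pos hWpos _
  have h7 : W ^ τ * W ^ (1 - τ) ≤ C * B * W ^ (1 - τ) := by
    rw [← h5]
    calc W ≤ C * (W ^ (1 - τ) * B) := h3
      _ = C * B * W ^ (1 - τ) := by ring
  exact le_of_mul_le_mul_right h7 h6

lemma opn (z : ℂ) (C τ : ℝ) (hC : 0 ≤ C) (hτ0 : 0 < τ) (hτ1 : τ ≤ 1 / 2)
    (h2 : ∀ a0 a1 b0 b1 : ℂ, ‖a0 * b0 + a0 * b1 + a1 * b0 + z * (a1 * b1)‖
      ≤ C * ((‖a0‖ ^ (1 / (1 - τ)) + ‖a1‖ ^ (1 / (1 - τ))) ^ (1 - τ)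
        * (‖b0‖ ^ (1 / (1 - τ)) + ‖b1‖ ^ (1 / (1 - τ))) ^ (1 - τ))) :
    ∀ (n : ℕ) (g : (Fin n → Bool) → ℂ),
      (∑ x, ‖∑ y, g y * z ^ (ic x y)‖ ^ (1 / τ)) ^ τ
        ≤ C ^ n * (∑ y, ‖g y‖ ^ (1 / (1 - τ))) ^ (1 - τ) := by
  have h1τ : 0 < 1 - τ := by linarith
  intro n
  induction n with
  | zero =>
    intro g
    have e : ∀ x y : Fin 0 → Bool, ic x y = 0 := by intro x y; simp [ic]
    simp only [e, pow_zero, mul_one, one_mul, Fintype.sum_unique]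
    rw [← Real.rpow_mul (norm_nonneg _), ← Real.rpow_mul (norm_nonneg _),
      one_div_mul_cancel hτ0.ne', one_div_mul_cancel h1τ.ne']
  | succ n ih =>
    intro g
    set gf : (Fin n → Bool) → ℂ := fun y => g (Fin.cons false y) with hgf
    set gt : (Fin n → Bool) → ℂ := fun y => g (Fin.cons true y) with hgt
    set Tf : (Fin n → Bool) → ℂ := fun x => ∑ y, gf y * z ^ (ic x y) with hTf
    set Tt : (Fin n → Bool) → ℂ := fun x => ∑ y, gt y * z ^ (ic x y) with hTt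
    have e1 : ∀ x : Fin n → Bool,
        ∑ y, g y * z ^ (ic (Fin.cons false x : Fin (n + 1) → Bool) y) = Tf x + Tt x := by
      intro x
      rw [sum_cons, Finset.sum_add_distrib]
      simp only [ic_cons, Bool.false_and, Bool.false_eq_true, if_false, zero_add]
      rfl
    have e2 : ∀ x : Fin n → Bool,
        ∑ y, g y * z ^ (ic (Fin.cons true x : Fin (n + 1) → Bool) y) = Tf x + z * Tt x := by
      intro x
      rw [sum_cons, Finset.sum_add_distrib]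
      simp only [ic_cons, Bool.true_and, Bool.false_eq_true, if_false, zero_add, if_true]
      rw [hTf, hTt]
      simp only []
      congr 1
      rw [Finset.mul_sum]
      refine Finset.sum_congr rfl (fun y _ => ?_)
      rw [pow_add, pow_one]
      simp only [hgt]
      ring
    have e3 : ∑ x, ‖∑ y, g y * z ^ (ic x y)‖ ^ (1 / τ)
        = ∑ x : Fin n → Bool, (‖Tf x + Tt x‖ ^ (1 / τ) + ‖Tf x + z * Tt x‖ ^ (1 / τ)) := by
      rw [sum_cons]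
      refine Finset.sum_congr rfl (fun x _ => ?_)
      rw [e1, e2]
    have e4 : ∑ y, ‖g y‖ ^ (1 / (1 - τ))
        = (∑ y, ‖gf y‖ ^ (1 / (1 - τ))) + ∑ y, ‖gt y‖ ^ (1 / (1 - τ)) := by
      rw [sum_cons, Finset.sum_add_distrib]
    rw [e3, e4]
    set Gf := ∑ y, ‖gf y‖ ^ (1 / (1 - τ)) with hGf
    set Gt := ∑ y, ‖gt y‖ ^ (1 / (1 - τ)) with hGt
    have hGf0 : 0 ≤ Gf := Finset.sum_nonneg (fun _ _ => by positivity)
    have hGt0 : 0 ≤ Gt := Finset.sum_nonneg (fun _ _ => by positivity)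
    set r := (1 - τ) / τ with hr
    have hr1 : 1 ≤ r := by
      rw [hr, le_div_iff₀ hτ0]; linarith
    have hr0 : 0 < r := by linarith
    set u : (Fin n → Bool) → ℝ := fun x => ‖Tf x‖ ^ (1 / (1 - τ)) with hu
    set v : (Fin n → Bool) → ℝ := fun x => ‖Tt x‖ ^ (1 / (1 - τ)) with hv
    have hu0 : ∀ x, 0 ≤ u x := fun x => by positivity
    have hv0 : ∀ x, 0 ≤ v x := fun x => by positivity
    -- pointwise bound
    have p1 : ∀ x, ‖Tf x + Tt x‖ ^ (1 / τ) + ‖Tf x + z * Tt x‖ ^ (1 / τ)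
        ≤ C ^ (1 / τ) * (u x + v x) ^ r := by
      intro x
      have h := op2 z C τ hC hτ0 hτ1 h2 (Tf x) (Tt x)
      have hW : 0 ≤ ‖Tf x + Tt x‖ ^ (1 / τ) + ‖Tf x + z * Tt x‖ ^ (1 / τ) := by positivity
      have h' := Real.rpow_le_rpow (by positivity) h (by positivity : (0:ℝ) ≤ 1 / τ)
      rw [← Real.rpow_mul hW, mul_one_div_cancel hτ0.ne', Real.rpow_one,
        Real.mul_rpow hC (by positivity), ← Real.rpow_mul (by positivity)] at h'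
      have : (1 - τ) * (1 / τ) = r := by rw [hr]; ring
      rw [this] at h'
      exact h'
    have p2 : ∑ x, (‖Tf x + Tt x‖ ^ (1 / τ) + ‖Tf x + z * Tt x‖ ^ (1 / τ))
        ≤ C ^ (1 / τ) * ∑ x, (u x + v x) ^ r := by
      rw [Finset.mul_sum]
      exact Finset.sum_le_sum (fun x _ => p1 x)
    -- Minkowski
    have p3 := Real.Lp_add_le_of_nonneg Finset.univ (f := u) (g := v) hr1
      (fun x _ => hu0 x) (fun x _ => hv0 x)
    have q1 : ∀ (T : (Fin n → Bool) → ℂ), (∑ x, (‖T x‖ ^ (1 / (1 - τ))) ^ r) ^ (1 / r)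
        = ((∑ x, ‖T x‖ ^ (1 / τ)) ^ τ) ^ (1 / (1 - τ)) := by
      intro T
      have : ∀ x, (‖T x‖ ^ (1 / (1 - τ))) ^ r = ‖T x‖ ^ (1 / τ) := by
        intro x
        rw [← Real.rpow_mul (norm_nonneg _)]
        congr 1
        rw [hr]
        field_simp
      simp only [this]
      rw [← Real.rpow_mul (Finset.sum_nonneg (fun _ _ => by positivity))]
      congr 1
      rw [hr]
      field_simp
    have q2 : ∀ (gg : (Fin n → Bool) → ℂ),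
        ((∑ x, ‖∑ y, gg y * z ^ (ic x y)‖ ^ (1 / τ)) ^ τ) ^ (1 / (1 - τ))
          ≤ (C ^ n) ^ (1 / (1 - τ)) * ∑ y, ‖gg y‖ ^ (1 / (1 - τ)) := by
      intro gg
      have h := Real.rpow_le_rpow (by positivity) (ih gg)
        (by positivity : (0:ℝ) ≤ 1 / (1 - τ))
      have hG0 : 0 ≤ ∑ y, ‖gg y‖ ^ (1 / (1 - τ)) :=
        Finset.sum_nonneg (fun _ _ => by positivity)
      rw [Real.mul_rpow (by positivity) (by positivity),
        ← Real.rpow_mul hG0, mul_one_div_cancel h1τ.ne', Real.rpow_one] at h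
      exact h
    have p4 : (∑ x, (u x + v x) ^ r) ^ (1 / r) ≤ (C ^ n) ^ (1 / (1 - τ)) * (Gf + Gt) := by
      refine p3.trans ?_
      have a1 := q1 Tf
      have a2 := q1 Tt
      have a3 := q2 gf
      have a4 := q2 gt
      rw [mul_add]
      refine add_le_add ?_ ?_
      · rw [hu]; rw [a1]; exact a3
      · rw [hv]; rw [a2]; exact a4
    have hS0 : 0 ≤ ∑ x, (u x + v x) ^ r :=
      Finset.sum_nonneg (fun x _ => Real.rpow_nonneg (add_nonneg (hu0 x) (hv0 x)) _)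
    have p5 : (∑ x, (u x + v x) ^ r) ^ τ ≤ C ^ n * (Gf + Gt) ^ (1 - τ) := by
      have h := Real.rpow_le_rpow (by positivity) p4 h1τ.le
      rw [← Real.rpow_mul hS0, Real.mul_rpow (by positivity) (by positivity),
        ← Real.rpow_mul (by positivity), one_div_mul_cancel h1τ.ne', Real.rpow_one] at h
      have : 1 / r * (1 - τ) = τ := by
        rw [hr]; field_simp
      rw [this] at h
      exact h
    have hL0 : 0 ≤ ∑ x, (‖Tf x + Tt x‖ ^ (1 / τ) + ‖Tf x + z * Tt x‖ ^ (1 / τ)) :=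
      Finset.sum_nonneg (fun _ _ => by positivity)
    calc (∑ x, (‖Tf x + Tt x‖ ^ (1 / τ) + ‖Tf x + z * Tt x‖ ^ (1 / τ))) ^ τ
        ≤ (C ^ (1 / τ) * ∑ x, (u x + v x) ^ r) ^ τ := Real.rpow_le_rpow hL0 p2 hτ0.le
      _ = C * (∑ x, (u x + v x) ^ r) ^ τ := by
          rw [Real.mul_rpow (by positivity) hS0, ← Real.rpow_mul hC, one_div_mul_cancel hτ0.ne',
            Real.rpow_one]
      _ ≤ C * (C ^ n * (Gf + Gt) ^ (1 - τ)) := mul_le_mul_of_nonneg_left p5 hC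
      _ = C ^ (n + 1) * (Gf + Gt) ^ (1 - τ) := by ring

/-- tensorised bilinear inequality -/
theorem tens (z : ℂ) (C τ : ℝ) (hC : 0 ≤ C) (hτ0 : 0 < τ) (hτ1 : τ ≤ 1 / 2)
    (h2 : ∀ a0 a1 b0 b1 : ℂ, ‖a0 * b0 + a0 * b1 + a1 * b0 + z * (a1 * b1)‖
      ≤ C * ((‖a0‖ ^ (1 / (1 - τ)) + ‖a1‖ ^ (1 / (1 - τ))) ^ (1 - τ)
        * (‖b0‖ ^ (1 / (1 - τ)) + ‖b1‖ ^ (1 / (1 - τ))) ^ (1 - τ)))
    (n : ℕ) (f g : (Fin n → Bool) → ℂ) :
    ‖∑ x, ∑ y, f x * g y * z ^ (ic x y)‖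
      ≤ C ^ n * ((∑ x, ‖f x‖ ^ (1 / (1 - τ))) ^ (1 - τ)
        * (∑ y, ‖g y‖ ^ (1 / (1 - τ))) ^ (1 - τ)) := by
  have h1τ : 0 < 1 - τ := by linarith
  have h := opn z C τ hC hτ0 hτ1 h2 n g
  have hpq : Real.HolderConjugate (1 / (1 - τ)) (1 / τ) := by
    rw [Real.holderConjugate_iff]
    refine ⟨?_, ?_⟩
    · rw [lt_div_iff₀ h1τ]; linarith
    · simp
  have h3 := Real.inner_le_Lp_mul_Lq_of_nonneg Finset.univ (f := fun x => ‖f x‖)
    (g := fun x => ‖∑ y, g y * z ^ (ic x y)‖) hpq (fun _ _ => norm_nonneg _)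
    (fun _ _ => norm_nonneg _)
  simp only [one_div_one_div] at h3
  calc ‖∑ x, ∑ y, f x * g y * z ^ (ic x y)‖
      = ‖∑ x, f x * ∑ y, g y * z ^ (ic x y)‖ := by
        congr 1
        refine Finset.sum_congr rfl (fun x _ => ?_)
        rw [Finset.mul_sum]
        exact Finset.sum_congr rfl (fun y _ => by ring)
    _ ≤ ∑ x, ‖f x * ∑ y, g y * z ^ (ic x y)‖ := norm_sum_le _ _
    _ = ∑ x, ‖f x‖ * ‖∑ y, g y * z ^ (ic x y)‖ := by simp only [norm_mul]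
    _ ≤ _ := h3
    _ ≤ (∑ x, ‖f x‖ ^ (1 / (1 - τ))) ^ (1 - τ)
        * (C ^ n * (∑ y, ‖g y‖ ^ (1 / (1 - τ))) ^ (1 - τ)) :=
        mul_le_mul_of_nonneg_left h (by positivity)
    _ = _ := by ring

/-- for indicator functions -/
theorem tens_indicator (z : ℂ) (C τ : ℝ) (hC : 0 ≤ C) (hτ0 : 0 < τ) (hτ1 : τ ≤ 1 / 2)
    (h2 : ∀ a0 a1 b0 b1 : ℂ, ‖a0 * b0 + a0 * b1 + a1 * b0 + z * (a1 * b1)‖
      ≤ C * ((‖a0‖ ^ (1 / (1 - τ)) + ‖a1‖ ^ (1 / (1 - τ))) ^ (1 - τ)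
        * (‖b0‖ ^ (1 / (1 - τ)) + ‖b1‖ ^ (1 / (1 - τ))) ^ (1 - τ)))
    (n : ℕ) (𝒜 ℬ : Finset (Fin n → Bool)) :
    ‖∑ x ∈ 𝒜, ∑ y ∈ ℬ, z ^ (ic x y)‖
      ≤ C ^ n * ((𝒜.card : ℝ) * ℬ.card) ^ (1 - τ) := by
  classical
  have h1τ : 0 < 1 - τ := by linarith
  have h := tens z C τ hC hτ0 hτ1 h2 n (fun x => if x ∈ 𝒜 then 1 else 0)
    (fun y => if y ∈ ℬ then 1 else 0)
  have e1 : ∀ (S : Finset (Fin n → Bool)),
      ∑ x, ‖(if x ∈ S then (1:ℂ) else 0)‖ ^ (1 / (1 - τ)) = (S.card : ℝ) := by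
    intro S
    have : ∀ x, ‖(if x ∈ S then (1:ℂ) else 0)‖ ^ (1 / (1 - τ)) = if x ∈ S then (1:ℝ) else 0 := by
      intro x
      split_ifs
      · simp
      · rw [norm_zero, Real.zero_rpow (one_div_pos.2 h1τ).ne']
    simp only [this]
    simp
  rw [e1, e1] at h
  have e2 : ∑ x, ∑ y, (if x ∈ 𝒜 then (1:ℂ) else 0) * (if y ∈ ℬ then (1:ℂ) else 0) * z ^ (ic x y)
      = ∑ x ∈ 𝒜, ∑ y ∈ ℬ, z ^ (ic x y) := by
    rw [← Finset.sum_filter_add_sum_filter_not Finset.univ (· ∈ 𝒜)]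
    have z0 : ∑ x ∈ Finset.univ.filter (fun x => ¬ x ∈ 𝒜),
        ∑ y, (if x ∈ 𝒜 then (1:ℂ) else 0) * (if y ∈ ℬ then (1:ℂ) else 0) * z ^ (ic x y) = 0 := by
      refine Finset.sum_eq_zero (fun x hx => ?_)
      rw [Finset.mem_filter] at hx
      simp [hx.2]
    rw [z0, add_zero]
    have : Finset.univ.filter (fun x => x ∈ 𝒜) = 𝒜 := by ext; simp
    rw [this]
    refine Finset.sum_congr rfl (fun x hx => ?_)
    simp only [hx, if_true, one_mul, ite_mul, zero_mul]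
    rw [← Finset.sum_filter]
    congr 1
    ext; simp
  rw [e2] at h
  rw [Real.mul_rpow (by positivity) (by positivity)]
  exact h

end BC
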