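import Mathlib

/-!
# The two-point inequality
-/

namespace BC

lemma norm_add_le_aux (u v : ℂ) (h : 0 < ‖u‖ + ‖v‖) :
    ‖u + v‖ ≤ (‖u‖ + ‖v‖) - (‖u‖ * ‖v‖ - (u * (starRingEnd ℂ) v).re) / (‖u‖ + ‖v‖) := by
  set S := ‖u‖ + ‖v‖ with hS
  set D := ‖u‖ * ‖v‖ - (u * (starRingEnd ℂ) v).re with hD
  have h1 : ‖u + v‖ ^ 2 = S ^ 2 - 2 * D := by
    rw [← Complex.normSq_eq_norm_sq, Complex.normSq_add, Complex.normSq_eq_norm_sq,
      Complex.normSq_eq_norm_sq, hS, hD]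
    ring
  have hre : |(u * (starRingEnd ℂ) v).re| ≤ ‖u‖ * ‖v‖ := by
    refine (Complex.abs_re_le_norm _).trans ?_
    rw [norm_mul, RCLike.norm_conj]
  have hD0 : 0 ≤ D := by rw [hD]; linarith [le_abs_self (u * (starRingEnd ℂ) v).re]
  have hD1 : D ≤ S ^ 2 / 2 := by
    have h2 : D ≤ 2 * (‖u‖ * ‖v‖) := by
      rw [hD]; linarith [neg_abs_le (u * (starRingEnd ℂ) v).re]
    have h3 : 0 ≤ (‖u‖ - ‖v‖) ^ 2 := sq_nonneg _
    nlinarith
  have h2 : 0 ≤ S - D / S := by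
    have : D / S ≤ S / 2 := by
      rw [div_le_iff₀ h]; nlinarith
    linarith
  refine le_of_sq_le_sq ?_ h2
  rw [h1]
  have h3 : (S - D / S) ^ 2 = S ^ 2 - 2 * D + (D / S) ^ 2 := by
    field_simp
    ring
  rw [h3]
  nlinarith [sq_nonneg (D / S)]

/-- The core of the two-point inequality: aligned kernel of modulus one. -/
lemma two_point_core (a0 a1 : ℝ) (ha0 : 0 ≤ a0) (ha1 : 0 ≤ a1) (g0 g1 : ℂ) (θ : ℝ)
    (hA : 0 < a0 + a1) (hB : 0 < ‖g0‖ + ‖g1‖) :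
    a0 * ‖g0 + g1‖ + a1 * ‖g0 + Complex.exp (θ * Complex.I) * g1‖
      ≤ (a0 + a1) * (‖g0‖ + ‖g1‖)
        - a0 * a1 * (‖g0‖ * ‖g1‖) * (1 - Real.cos θ) / ((a0 + a1) * (‖g0‖ + ‖g1‖)) := by
  set ω := Complex.exp (θ * Complex.I) with hω
  have hωn : ‖ω‖ = 1 := Complex.norm_exp_ofReal_mul_I θ
  set b0 := ‖g0‖ with hb0
  set b1 := ‖g1‖ with hb1
  have hb0' : 0 ≤ b0 := norm_nonneg _
  have hb1' : 0 ≤ b1 := norm_nonneg _
  have hωg : ‖ω * g1‖ = b1 := by rw [norm_mul, hωn, one_mul]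
  have h0 := norm_add_le_aux g0 g1 hB
  have h1 := norm_add_le_aux g0 (ω * g1) (by rw [hωg]; exact hB)
  rw [hωg] at h1
  set ρ0 := (g0 * (starRingEnd ℂ) g1).re with hρ0
  set ρ1 := (g0 * (starRingEnd ℂ) (ω * g1)).re with hρ1
  -- the combination of real parts
  have hcomb : a0 * ρ0 + a1 * ρ1 ≤ b0 * b1 * ((a0 + a1) - a0 * a1 * (1 - Real.cos θ) / (a0 + a1)) := by
    have e : a0 * ρ0 + a1 * ρ1 = ((g0 * (starRingEnd ℂ) g1) * ((a0 : ℂ) + a1 * (starRingEnd ℂ) ω)).re := by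
      rw [hρ0, hρ1, map_mul]
      have : (g0 * (starRingEnd ℂ) g1) * ((a0 : ℂ) + a1 * (starRingEnd ℂ) ω)
          = (a0 : ℂ) * (g0 * (starRingEnd ℂ) g1)
            + (a1 : ℂ) * (g0 * ((starRingEnd ℂ) ω * (starRingEnd ℂ) g1)) := by ring
      rw [this, Complex.add_re, Complex.re_ofReal_mul, Complex.re_ofReal_mul]
    have h2 : ‖(a0 : ℂ) + a1 * (starRingEnd ℂ) ω‖
        ≤ (a0 + a1) - a0 * a1 * (1 - Real.cos θ) / (a0 + a1) := by
      have n0 : ‖(a0 : ℂ)‖ = a0 := by rw [Complex.norm_real, Real.norm_of_nonneg ha0]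
      have n1 : ‖(a1 : ℂ) * (starRingEnd ℂ) ω‖ = a1 := by
        rw [norm_mul, RCLike.norm_conj, hωn, mul_one, Complex.norm_real, Real.norm_of_nonneg ha1]
      have := norm_add_le_aux (a0 : ℂ) (a1 * (starRingEnd ℂ) ω) (by rw [n0, n1]; exact hA)
      rw [n0, n1] at this
      refine this.trans (le_of_eq ?_)
      have e2 : ((a0 : ℂ) * (starRingEnd ℂ) ((a1 : ℂ) * (starRingEnd ℂ) ω)).re
          = a0 * a1 * Real.cos θ := by
        rw [map_mul, Complex.conj_conj, Complex.conj_ofReal, ← mul_assoc, ← Complex.ofReal_mul,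
          Complex.re_ofReal_mul, hω, Complex.exp_ofReal_mul_I_re]
      rw [e2]
      ring
    rw [e]
    refine (Complex.re_le_norm _).trans ?_
    rw [norm_mul, norm_mul, RCLike.norm_conj, ← hb0, ← hb1]
    exact mul_le_mul_of_nonneg_left h2 (by positivity)
  have h3 : a0 * ‖g0 + g1‖ + a1 * ‖g0 + ω * g1‖
      ≤ a0 * ((b0 + b1) - (b0 * b1 - ρ0) / (b0 + b1))
        + a1 * ((b0 + b1) - (b0 * b1 - ρ1) / (b0 + b1)) :=
    add_le_add (mul_le_mul_of_nonneg_left h0 ha0) (mul_le_mul_of_nonneg_left h1 ha1)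
  refine h3.trans ?_
  have e3 : a0 * ((b0 + b1) - (b0 * b1 - ρ0) / (b0 + b1))
        + a1 * ((b0 + b1) - (b0 * b1 - ρ1) / (b0 + b1))
      = (a0 + a1) * (b0 + b1) - ((a0 + a1) * (b0 * b1) - (a0 * ρ0 + a1 * ρ1)) / (b0 + b1) := by
    field_simp
    ring
  rw [e3]
  have e4 : a0 * a1 * (b0 * b1) * (1 - Real.cos θ) / ((a0 + a1) * (b0 + b1))
      = ((a0 + a1) * (b0 * b1)
        - b0 * b1 * ((a0 + a1) - a0 * a1 * (1 - Real.cos θ) / (a0 + a1))) / (b0 + b1) := by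
    field_simp
    ring
  rw [e4]
  have h5 := div_le_div_of_nonneg_right (c := b0 + b1)
    (show (a0 + a1) * (b0 * b1)
        - b0 * b1 * ((a0 + a1) - a0 * a1 * (1 - Real.cos θ) / (a0 + a1))
        ≤ (a0 + a1) * (b0 * b1) - (a0 * ρ0 + a1 * ρ1) by linarith) hB.le
  linarith

/-- The two-point inequality with an arbitrary modulus `r > 0` of the kernel. -/
lemma two_point (f0 f1 g0 g1 : ℂ) (θ r : ℝ) (hr : 0 < r)
    (hA : 0 < ‖f0‖ + ‖f1‖) (hB : 0 < ‖g0‖ + ‖g1‖) :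
    ‖f0 * g0 + f0 * g1 + f1 * g0 + (r * Complex.exp (θ * Complex.I)) * (f1 * g1)‖
      ≤ (‖f0‖ + ‖f1‖) * (‖g0‖ + ‖g1‖)
        - min r 1 * (‖f0‖ * ‖f1‖ * (‖g0‖ * ‖g1‖) * (1 - Real.cos θ)
            / ((‖f0‖ + ‖f1‖) * (‖g0‖ + ‖g1‖)))
        + (r - 1) * (‖f1‖ * ‖g1‖) := by
  set ω := Complex.exp (θ * Complex.I) with hω
  have hωn : ‖ω‖ = 1 := Complex.norm_exp_ofReal_mul_I θ
  have core := two_point_core ‖f0‖ ‖f1‖ (norm_nonneg _) (norm_nonneg _) g0 g1 θ hA hB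
  rw [← hω] at core
  set D := ‖f0‖ * ‖f1‖ * (‖g0‖ * ‖g1‖) * (1 - Real.cos θ)
            / ((‖f0‖ + ‖f1‖) * (‖g0‖ + ‖g1‖)) with hD
  have e : f0 * g0 + f0 * g1 + f1 * g0 + (r * ω) * (f1 * g1)
      = f0 * (g0 + g1) + f1 * (g0 + (r * ω) * g1) := by ring
  rw [e]
  have h1 : ‖f0 * (g0 + g1) + f1 * (g0 + (r * ω) * g1)‖
      ≤ ‖f0‖ * ‖g0 + g1‖ + ‖f1‖ * ‖g0 + (r * ω) * g1‖ := by
    refine (norm_add_le _ _).trans ?_
    rw [norm_mul, norm_mul]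
  refine h1.trans ?_
  rcases le_total 1 r with h | h
  · rw [min_eq_right h]
    have h2 : ‖g0 + (r * ω) * g1‖ ≤ ‖g0 + ω * g1‖ + (r - 1) * ‖g1‖ := by
      have : g0 + (r * ω) * g1 = (g0 + ω * g1) + ((r - 1 : ℝ) : ℂ) * (ω * g1) := by
        push_cast; ring
      rw [this]
      refine (norm_add_le _ _).trans ?_
      rw [norm_mul ((r - 1 : ℝ) : ℂ), norm_mul, hωn, one_mul, Complex.norm_real,
        Real.norm_of_nonneg (by linarith)]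
    have h3 := mul_le_mul_of_nonneg_left h2 (norm_nonneg f1)
    nlinarith
  · rw [min_eq_left h]
    have h2 : ‖g0 + (r * ω) * g1‖ ≤ r * ‖g0 + ω * g1‖ + (1 - r) * ‖g0‖ := by
      have : g0 + (r * ω) * g1 = (r : ℂ) * (g0 + ω * g1) + ((1 - r : ℝ) : ℂ) * g0 := by
        push_cast; ring
      rw [this]
      refine (norm_add_le _ _).trans ?_
      rw [norm_mul, norm_mul ((1 - r : ℝ) : ℂ), Complex.norm_real, Complex.norm_real,
        Real.norm_of_nonneg hr.le, Real.norm_of_nonneg (by linarith)]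
    have h3 := mul_le_mul_of_nonneg_left h2 (norm_nonneg f1)
    have h4 : ‖g0 + g1‖ ≤ ‖g0‖ + ‖g1‖ := norm_add_le _ _
    have h5 := mul_le_mul_of_nonneg_left h4 (norm_nonneg f0)
    have h6 := mul_le_mul_of_nonneg_left core hr.le
    have h7 := mul_le_mul_of_nonneg_left h5 (sub_nonneg.2 h)
    nlinarith

lemma exp_le_quad {x : ℝ} (hx : 0 ≤ x) : Real.exp x ≤ 1 + x + x ^ 2 * Real.exp x := by
  have h1 : 1 - x ≤ Real.exp (-x) := by have := Real.add_one_le_exp (-x); linarith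
  have h2 : (1 + x) * (1 - x) ≤ (1 + x) * Real.exp (-x) :=
    mul_le_mul_of_nonneg_left h1 (by linarith)
  have h3 := mul_le_mul_of_nonneg_right h2 (Real.exp_pos x).le
  have h4 : (1 + x) * Real.exp (-x) * Real.exp x = 1 + x := by
    rw [mul_assoc, ← Real.exp_add]; simp
  rw [h4] at h3
  nlinarith

lemma rpow_ge {s τ : ℝ} (hs0 : 0 ≤ s) (hs1 : s ≤ 1) (hτ0 : 0 ≤ τ) (hτ1 : τ ≤ 1 / 2) :
    s ≤ s ^ (1 - τ) := by
  rcases hs0.eq_or_lt with rfl | hs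
  · rw [Real.zero_rpow (by linarith)]
  · calc s = s ^ (1 : ℝ) := (Real.rpow_one s).symm
      _ ≤ s ^ (1 - τ) := Real.rpow_le_rpow_of_exponent_ge hs hs1 (by linarith)

lemma rpow_le_aux {s τ : ℝ} (hs0 : 0 ≤ s) (hs1 : s ≤ 1) (hτ0 : 0 ≤ τ) (hτ1 : τ ≤ 1 / 2) :
    s ^ (1 - τ) ≤ s + τ * Real.negMulLog s + 8 * τ ^ 2 := by
  rcases hs0.eq_or_lt with rfl | hs
  · rw [Real.zero_rpow (by linarith)]
    simp only [Real.negMulLog_zero, mul_zero, add_zero, zero_add]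
    positivity
  · set L := -Real.log s with hL
    have hL0 : 0 ≤ L := by rw [hL]; linarith [Real.log_nonpos hs0 hs1]
    have e1 : s ^ (1 - τ) = s * Real.exp (τ * L) := by
      rw [Real.rpow_def_of_pos hs]
      conv_rhs => rw [← Real.exp_log hs]
      rw [← Real.exp_add]
      congr 1
      rw [hL]; ring
    have h1 := exp_le_quad (x := τ * L) (by positivity)
    have h2 : s * Real.exp (τ * L) ≤ Real.exp (-(L / 2)) := by
      conv_lhs => rw [← Real.exp_log hs]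
      rw [← Real.exp_add]
      apply Real.exp_le_exp.2
      rw [hL]
      nlinarith
    have h3 : L ^ 2 ≤ 8 * Real.exp (L / 2) := by
      have := Real.quadratic_le_exp_of_nonneg (x := L / 2) (by positivity)
      nlinarith
    have h4 : s * ((τ * L) ^ 2 * Real.exp (τ * L)) ≤ 8 * τ ^ 2 := by
      have h5 : s * ((τ * L) ^ 2 * Real.exp (τ * L))
          = (τ * L) ^ 2 * (s * Real.exp (τ * L)) := by ring
      rw [h5]
      calc (τ * L) ^ 2 * (s * Real.exp (τ * L))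
          ≤ (τ * L) ^ 2 * Real.exp (-(L / 2)) := mul_le_mul_of_nonneg_left h2 (by positivity)
        _ = τ ^ 2 * (L ^ 2 * Real.exp (-(L / 2))) := by ring
        _ ≤ τ ^ 2 * ((8 * Real.exp (L / 2)) * Real.exp (-(L / 2))) := by gcongr
        _ = 8 * τ ^ 2 := by
          rw [mul_assoc 8, ← Real.exp_add]; simp; ring
    have h6 : τ * Real.negMulLog s = s * (τ * L) := by
      simp only [Real.negMulLog, hL]; ring
    rw [e1, h6]
    have := mul_le_mul_of_nonneg_left h1 hs0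
    nlinarith

lemma sum_rpow_bounds {s τ : ℝ} (hs0 : 0 ≤ s) (hs1 : s ≤ 1) (hτ0 : 0 ≤ τ) (hτ1 : τ ≤ 1 / 10) :
    1 ≤ (1 - s) ^ (1 - τ) + s ^ (1 - τ) ∧
    (1 - s) ^ (1 - τ) + s ^ (1 - τ) ≤ 1 + τ * Real.binEntropy s + 16 * τ ^ 2 := by
  have h1 := rpow_ge hs0 hs1 hτ0 (by linarith)
  have h2 := rpow_ge (s := 1 - s) (by linarith) (by linarith) hτ0 (by linarith)
  have h3 := rpow_le_aux hs0 hs1 hτ0 (by linarith)
  have h4 := rpow_le_aux (s := 1 - s) (by linarith) (by linarith) hτ0 (by linarith)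
  refine ⟨by linarith, ?_⟩
  rw [Real.binEntropy_eq_negMulLog_add_negMulLog_one_sub]
  nlinarith

lemma one_sub_cos_ge {q θ : ℝ} (hq0 : 0 ≤ q) (hq1 : q ≤ 1) (h1 : q ≤ θ ^ 2)
    (h2 : |θ| ≤ Real.pi) : q / 2 - 5 / 96 * q ^ 2 ≤ 1 - Real.cos θ := by
  have h3 : Real.cos θ ≤ Real.cos (Real.sqrt q) := by
    rw [← Real.cos_abs θ]
    apply Real.cos_le_cos_of_nonneg_of_le_pi (Real.sqrt_nonneg _) h2
    rw [← Real.sqrt_sq_eq_abs]
    exact Real.sqrt_le_sqrt h1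
  have h4 := Real.cos_bound (x := Real.sqrt q) (by
    rw [abs_of_nonneg (Real.sqrt_nonneg _)]
    exact Real.sqrt_le_one.2 hq1)
  rw [Real.sq_sqrt hq0, abs_of_nonneg (Real.sqrt_nonneg q)] at h4
  have h5 : Real.sqrt q ^ 4 = q ^ 2 := by
    have : Real.sqrt q ^ 4 = (Real.sqrt q ^ 2) ^ 2 := by ring
    rw [this, Real.sq_sqrt hq0]
  rw [h5] at h4
  have := abs_le.1 h4
  linarith [this.2]

lemma est_prod {A B hs ht τ : ℝ} (hτ0 : 0 ≤ τ) (hτ1 : τ ≤ 1 / 10) (hA1 : 1 ≤ A) (hB1 : 1 ≤ B)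
    (hA2 : A ≤ 1 + τ * hs + 16 * τ ^ 2) (hB2 : B ≤ 1 + τ * ht + 16 * τ ^ 2)
    (hhs0 : 0 ≤ hs) (hht0 : 0 ≤ ht) (hhs : hs ≤ 7 / 10) (hht : ht ≤ 7 / 10) :
    A * B ≤ 1 + τ * (hs + ht) + 38 * τ ^ 2 ∧ A * B ≤ 1 + 52 / 10 * τ := by
  have h3 : τ * hs + 16 * τ ^ 2 ≤ 23 / 10 * τ := by nlinarith
  have h4 : τ * ht + 16 * τ ^ 2 ≤ 23 / 10 * τ := by nlinarith
  have h5 : 0 ≤ τ * hs + 16 * τ ^ 2 := by positivity
  have h6 : 0 ≤ τ * ht + 16 * τ ^ 2 := by positivity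
  constructor
  · have h1 : A * B ≤ (1 + (τ * hs + 16 * τ ^ 2)) * (1 + (τ * ht + 16 * τ ^ 2)) :=
      mul_le_mul (by linarith) (by linarith) (by linarith) (by linarith)
    have h2 : (τ * hs + 16 * τ ^ 2) * (τ * ht + 16 * τ ^ 2) ≤ (23 / 10 * τ) * (23 / 10 * τ) :=
      mul_le_mul h3 h4 h6 (by positivity)
    have h7 : (1 + (τ * hs + 16 * τ ^ 2)) * (1 + (τ * ht + 16 * τ ^ 2))
        = 1 + τ * (hs + ht) + 32 * τ ^ 2
          + (τ * hs + 16 * τ ^ 2) * (τ * ht + 16 * τ ^ 2) := by ring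
    rw [h7] at h1
    have h8 : (23 / 10 * τ) * (23 / 10 * τ) ≤ 6 * τ ^ 2 := by nlinarith [sq_nonneg τ]
    linarith
  · calc A * B ≤ (1 + 23 / 10 * τ) * (1 + 23 / 10 * τ) :=
          mul_le_mul (by linarith) (by linarith) (by linarith) (by positivity)
      _ ≤ 1 + 52 / 10 * τ := by nlinarith

lemma est_W {σ κ q V P c m AB : ℝ} (hσ : 0 ≤ σ) (hq0 : 0 ≤ q) (hq1 : q ≤ 1)
    (hq2 : σ * q ≤ 1 / 10) (hq3 : |κ| * q ≤ 1 / 10) (hV0 : 0 ≤ V) (hV1 : V ≤ 1 / 16)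
    (hAB0 : 0 < AB) (hAB : AB ≤ 1 + 52 / 10 * (σ * q)) (hlow : V ≤ P)
    (hcos : q / 2 - 5 / 96 * q ^ 2 ≤ c) (hm : 1 - |κ| * q ≤ m) :
    V * (q / 2) - q ^ 2 * (1 + |κ| + 6 * σ) ≤ m * (P * c / AB) := by
  have hκ0 : 0 ≤ |κ| := abs_nonneg κ
  set τ := σ * q with hτ
  have hτ0 : 0 ≤ τ := by positivity
  have hc0 : 0 ≤ q / 2 - 5 / 96 * q ^ 2 := by nlinarith
  have h1 : V * (q / 2 - 5 / 96 * q ^ 2) ≤ P * c :=
    mul_le_mul hlow hcos hc0 (by linarith)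
  have h2 : V * (q / 2 - 5 / 96 * q ^ 2) * (1 - 52 / 10 * τ) ≤ P * c / AB := by
    rw [le_div_iff₀ hAB0]
    have h3 : (1 - 52 / 10 * τ) * AB ≤ 1 := by
      calc (1 - 52 / 10 * τ) * AB ≤ (1 - 52 / 10 * τ) * (1 + 52 / 10 * τ) := by
            apply mul_le_mul_of_nonneg_left hAB; linarith
        _ ≤ 1 := by nlinarith [sq_nonneg τ]
    calc V * (q / 2 - 5 / 96 * q ^ 2) * (1 - 52 / 10 * τ) * AB
        = V * (q / 2 - 5 / 96 * q ^ 2) * ((1 - 52 / 10 * τ) * AB) := by ring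
      _ ≤ V * (q / 2 - 5 / 96 * q ^ 2) * 1 :=
          mul_le_mul_of_nonneg_left h3 (by positivity)
      _ ≤ _ := by rw [mul_one]; exact h1
  have h4 : (1 - |κ| * q) * (V * (q / 2 - 5 / 96 * q ^ 2) * (1 - 52 / 10 * τ))
      ≤ m * (P * c / AB) := by
    apply mul_le_mul hm h2
    · have : 0 ≤ 1 - 52 / 10 * τ := by linarith
      positivity
    · linarith
  refine le_trans ?_ h4
  set y := |κ| * q with hy
  have hy0 : 0 ≤ y := by positivity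
  have h5 : (1 - y) * (1 - 52 / 10 * τ) ≥ 1 - (y + 52 / 10 * τ) := by
    nlinarith [mul_nonneg hy0 hτ0]
  have h6 : (q / 2 - 5 / 96 * q ^ 2) * ((1 - y) * (1 - 52 / 10 * τ))
      ≥ q / 2 - 5 / 96 * q ^ 2 - (q / 2) * (y + 52 / 10 * τ) := by
    have h7 : (q / 2 - 5 / 96 * q ^ 2) * ((1 - y) * (1 - 52 / 10 * τ))
        ≥ (q / 2 - 5 / 96 * q ^ 2) * (1 - (y + 52 / 10 * τ)) :=
      mul_le_mul_of_nonneg_left h5 hc0
    have h8 : 0 ≤ 5 / 96 * q ^ 2 * (y + 52 / 10 * τ) := by positivity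
    nlinarith
  have h9 : V * ((q / 2 - 5 / 96 * q ^ 2) * ((1 - y) * (1 - 52 / 10 * τ)))
      ≥ V * (q / 2 - 5 / 96 * q ^ 2 - (q / 2) * (y + 52 / 10 * τ)) :=
    mul_le_mul_of_nonneg_left h6 hV0
  have h10 : V * (5 / 96 * q ^ 2 + (q / 2) * (y + 52 / 10 * τ)) ≤ q ^ 2 * (1 + |κ| + 6 * σ) := by
    have h11 : 5 / 96 * q ^ 2 + (q / 2) * (y + 52 / 10 * τ) = q ^ 2 * (5 / 96 + 1 / 2 * |κ|
        + 26 / 10 * σ) := by rw [hy, hτ]; ring
    rw [h11]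
    have h12 : 0 ≤ q ^ 2 * (5 / 96 + 1 / 2 * |κ| + 26 / 10 * σ) := by positivity
    calc V * (q ^ 2 * (5 / 96 + 1 / 2 * |κ| + 26 / 10 * σ))
        ≤ 1 * (q ^ 2 * (5 / 96 + 1 / 2 * |κ| + 26 / 10 * σ)) :=
          mul_le_mul_of_nonneg_right (by linarith) h12
      _ ≤ q ^ 2 * (1 + |κ| + 6 * σ) := by
          rw [one_mul]
          apply mul_le_mul_of_nonneg_left _ (by positivity)
          linarith
  nlinarith

lemma est_T {σ κ q x y E : ℝ} (hσ : 0 ≤ σ) (hq0 : 0 ≤ q) (hq3 : |κ| * q ≤ 1 / 10)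
    (hE : |E - 1 - κ * q| ≤ (κ * q) ^ 2) (hx0 : 0 ≤ x) (hx1 : x ≤ 1)
    (hxy : x ≤ y) (hyx : y ≤ x + 2 * (σ * q)) :
    (E - 1) * y ≤ κ * q * x + κ ^ 2 * q ^ 2 + 4 * σ * |κ| * q ^ 2 := by
  have hκ0 : 0 ≤ |κ| := abs_nonneg κ
  have hexp := abs_le.1 hE
  have hup : E - 1 ≤ κ * q + κ ^ 2 * q ^ 2 := by
    have := hexp.2; nlinarith
  have h7 : 0 ≤ κ ^ 2 * q ^ 2 := by positivity
  have h7' : 0 ≤ 4 * σ * |κ| * q ^ 2 := by positivity
  have h6 : (E - 1) * x ≤ (κ * q + κ ^ 2 * q ^ 2) * x := mul_le_mul_of_nonneg_right hup hx0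
  have h8 : κ ^ 2 * q ^ 2 * x ≤ κ ^ 2 * q ^ 2 := by nlinarith
  rcases le_total 0 (E - 1) with h | h
  · have h1 : (E - 1) * y ≤ (E - 1) * (x + 2 * (σ * q)) := mul_le_mul_of_nonneg_left hyx h
    have h2 : E - 1 ≤ 2 * (|κ| * q) := by
      have h3 : κ * q ≤ |κ| * q := mul_le_mul_of_nonneg_right (le_abs_self κ) hq0
      have h4 : κ ^ 2 * q ^ 2 ≤ |κ| * q := by
        have h5 : κ ^ 2 * q ^ 2 = (|κ| * q) * (|κ| * q) := by
          rw [← sq_abs κ]; ring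
        rw [h5]
        have : 0 ≤ |κ| * q := by positivity
        nlinarith
      linarith
    have h5 : (E - 1) * (2 * (σ * q)) ≤ 4 * σ * |κ| * q ^ 2 := by
      calc (E - 1) * (2 * (σ * q)) ≤ 2 * (|κ| * q) * (2 * (σ * q)) :=
            mul_le_mul_of_nonneg_right h2 (by positivity)
        _ = 4 * σ * |κ| * q ^ 2 := by ring
    nlinarith
  · have h1 : (E - 1) * y ≤ (E - 1) * x := mul_le_mul_of_nonpos_left hxy h
    nlinarith

/-- The analytic estimate behind the window upper bound. -/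
lemma main_est (σ κ M0 : ℝ) (hσ : 0 ≤ σ)
    (hM : ∀ s t : ℝ, 0 ≤ s → s ≤ 1 → 0 ≤ t → t ≤ 1 →
      σ * (Real.binEntropy s + Real.binEntropy t) + κ * (s * t)
        - 1 / 2 * (s * (1 - s) * (t * (1 - t))) ≤ M0)
    {q θ : ℝ} (hq0 : 0 ≤ q) (hq1 : q ≤ 1) (hq2 : σ * q ≤ 1 / 10) (hq3 : |κ| * q ≤ 1 / 10)
    (hθ1 : q ≤ θ ^ 2) (hθ2 : |θ| ≤ Real.pi)
    {s t : ℝ} (hs0 : 0 ≤ s) (hs1 : s ≤ 1) (ht0 : 0 ≤ t) (ht1 : t ≤ 1) :
    ((1 - s) ^ (1 - σ * q) + s ^ (1 - σ * q)) * ((1 - t) ^ (1 - σ * q) + t ^ (1 - σ * q))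
      - min (Real.exp (κ * q)) 1 * ((1 - s) ^ (1 - σ * q) * s ^ (1 - σ * q)
          * ((1 - t) ^ (1 - σ * q) * t ^ (1 - σ * q)) * (1 - Real.cos θ)
          / (((1 - s) ^ (1 - σ * q) + s ^ (1 - σ * q))
            * ((1 - t) ^ (1 - σ * q) + t ^ (1 - σ * q))))
      + (Real.exp (κ * q) - 1) * (s ^ (1 - σ * q) * t ^ (1 - σ * q))
      ≤ Real.exp (q * M0 + (38 * σ ^ 2 + 1 + |κ| + 6 * σ + κ ^ 2 + 4 * σ * |κ|) * q ^ 2) := by
  have hτ0 : 0 ≤ σ * q := by positivity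
  have hκ0 : 0 ≤ |κ| := abs_nonneg κ
  have hs' : 0 ≤ 1 - s := by linarith
  have ht' : 0 ≤ 1 - t := by linarith
  have hst0 : 0 ≤ s * t := by positivity
  have hst1 : s * t ≤ 1 := by nlinarith
  obtain ⟨hA1, hA2⟩ := sum_rpow_bounds hs0 hs1 hτ0 hq2
  obtain ⟨hB1, hB2⟩ := sum_rpow_bounds ht0 ht1 hτ0 hq2
  have g1 := rpow_ge hs0 hs1 hτ0 (by linarith)
  have g2 := rpow_ge (s := 1 - s) (by linarith) (by linarith) hτ0 (by linarith)
  have g3 := rpow_ge ht0 ht1 hτ0 (by linarith)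
  have g4 := rpow_ge (s := 1 - t) (by linarith) (by linarith) hτ0 (by linarith)
  have e1 : s ^ (1 - σ * q) * t ^ (1 - σ * q) = (s * t) ^ (1 - σ * q) :=
    (Real.mul_rpow hs0 ht0).symm
  have hst2 := rpow_ge hst0 hst1 hτ0 (by linarith)
  have hst3 := rpow_le_aux hst0 hst1 hτ0 (by linarith)
  rw [← e1] at hst2 hst3
  generalize (1 - s) ^ (1 - σ * q) = a0 at *
  generalize s ^ (1 - σ * q) = a1 at *
  generalize (1 - t) ^ (1 - σ * q) = b0 at *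
  generalize t ^ (1 - σ * q) = b1 at *
  have hhs : Real.binEntropy s ≤ 7 / 10 := by
    have := Real.binEntropy_le_log_two (p := s)
    have := Real.log_two_lt_d9
    linarith
  have hht : Real.binEntropy t ≤ 7 / 10 := by
    have := Real.binEntropy_le_log_two (p := t)
    have := Real.log_two_lt_d9
    linarith
  have hhs0 := Real.binEntropy_nonneg hs0 hs1
  have hht0 := Real.binEntropy_nonneg ht0 ht1
  have hMst := hM s t hs0 hs1 ht0 ht1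
  have hng := Real.negMulLog_le_one_sub_self hst0
  generalize Real.binEntropy s = hs at *
  generalize Real.binEntropy t = ht at *
  generalize Real.negMulLog (s * t) = ng at *
  obtain ⟨hAB1, hAB2⟩ := est_prod hτ0 hq2 hA1 hB1 hA2 hB2 hhs0 hht0 hhs hht
  have hABpos : 0 < (a0 + a1) * (b0 + b1) := mul_pos (by linarith) (by linarith)
  have hV0 : 0 ≤ s * (1 - s) * (t * (1 - t)) := by positivity
  have hV1 : s * (1 - s) * (t * (1 - t)) ≤ 1 / 16 := by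
    have h1 : s * (1 - s) ≤ 1 / 4 := by nlinarith [sq_nonneg (s - 1 / 2)]
    have h2 : t * (1 - t) ≤ 1 / 4 := by nlinarith [sq_nonneg (t - 1 / 2)]
    have h3 : 0 ≤ s * (1 - s) := by positivity
    have h4 : 0 ≤ t * (1 - t) := by positivity
    nlinarith
  have hcos := one_sub_cos_ge hq0 hq1 hθ1 hθ2
  have hlow : s * (1 - s) * (t * (1 - t)) ≤ a0 * a1 * (b0 * b1) := by
    have e : s * (1 - s) * (t * (1 - t)) = (1 - s) * s * ((1 - t) * t) := by ring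
    rw [e]
    apply mul_le_mul _ _ (by positivity) (mul_nonneg (by linarith) (by linarith))
    · exact mul_le_mul g2 g1 hs0 (by linarith)
    · exact mul_le_mul g4 g3 ht0 (by linarith)
  have hr1 : 1 - |κ| * q ≤ min (Real.exp (κ * q)) 1 := by
    apply le_min
    · have h1 := Real.add_one_le_exp (κ * q)
      have h2 : -(|κ| * q) ≤ κ * q := by
        have := neg_abs_le κ
        nlinarith
      linarith
    · nlinarith
  have hW := est_W hσ hq0 hq1 hq2 hq3 hV0 hV1 hABpos hAB2 hlow hcos hr1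
  have hx1 : |κ * q| ≤ 1 := by
    rw [abs_mul, abs_of_nonneg hq0]; linarith
  have hT := est_T (x := s * t) (y := a1 * b1) hσ hq0 hq3
    (Real.abs_exp_sub_one_sub_id_le hx1) hst0 hst1 hst2 (by nlinarith)
  have hfin : 1 + (q * M0 + (38 * σ ^ 2 + 1 + |κ| + 6 * σ + κ ^ 2 + 4 * σ * |κ|) * q ^ 2)
      ≤ Real.exp (q * M0 + (38 * σ ^ 2 + 1 + |κ| + 6 * σ + κ ^ 2 + 4 * σ * |κ|) * q ^ 2) := by
    have := Real.add_one_le_exp
      (q * M0 + (38 * σ ^ 2 + 1 + |κ| + 6 * σ + κ ^ 2 + 4 * σ * |κ|) * q ^ 2)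
    linarith
  refine le_trans ?_ hfin
  have hMq := mul_le_mul_of_nonneg_left hMst hq0
  have hAB4 : (a0 + a1) * (b0 + b1) ≤ 1 + q * (σ * (hs + ht)) + 38 * σ ^ 2 * q ^ 2 := by
    have : 1 + (σ * q) * (hs + ht) + 38 * (σ * q) ^ 2
        = 1 + q * (σ * (hs + ht)) + 38 * σ ^ 2 * q ^ 2 := by ring
    linarith
  have e5 : q * (σ * (hs + ht) + κ * (s * t) - 1 / 2 * (s * (1 - s) * (t * (1 - t))))
      = q * (σ * (hs + ht)) + κ * q * (s * t) - s * (1 - s) * (t * (1 - t)) * (q / 2) := by ring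
  rw [e5] at hMq
  have e6 : (38 * σ ^ 2 + 1 + |κ| + 6 * σ + κ ^ 2 + 4 * σ * |κ|) * q ^ 2
      = 38 * σ ^ 2 * q ^ 2 + q ^ 2 * (1 + |κ| + 6 * σ) + κ ^ 2 * q ^ 2 + 4 * σ * |κ| * q ^ 2 := by
    ring
  rw [e6]
  linarith

end BC
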