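import Mathlib

set_option autoImplicit false

namespace Pool.Agent.Helper28

open Classical in
/-- The points of `Q` reachable from the finite set `S` by one element of `K`. -/
noncomputable def nb {G X : Type*} [SMul G X] (K : Finset G) (Q : Set X) (S : Finset X) :
    Finset X :=
  ((K ×ˢ S).image (fun p => p.1 • p.2)).filter (fun x => x ∈ Q)

section
variable {G X : Type*} [Group G] [MulAction G X]

lemma mem_nb {K : Finset G} {Q : Set X} {S : Finset X} {x : X} :
    x ∈ nb K Q S ↔ (∃ k ∈ K, ∃ v ∈ S, k • v = x) ∧ x ∈ Q := by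
  classical
  unfold nb
  rw [Finset.mem_filter, Finset.mem_image]
  constructor
  · rintro ⟨⟨⟨k, v⟩, hkv, rfl⟩, hx⟩
    rw [Finset.mem_product] at hkv
    exact ⟨⟨k, hkv.1, v, hkv.2, rfl⟩, hx⟩
  · rintro ⟨⟨k, hk, v, hv, rfl⟩, hx⟩
    exact ⟨⟨(k, v), Finset.mem_product.2 ⟨hk, hv⟩, rfl⟩, hx⟩

lemma nb_subset {K : Finset G} {Q : Set X} {S : Finset X} : (↑(nb K Q S) : Set X) ⊆ Q := by
  intro x hx
  exact (mem_nb.1 (Finset.mem_coe.1 hx)).2

lemma subset_nb {K : Finset G} {Q : Set X} {S : Finset X} (h1 : (1 : G) ∈ K)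
    (hS : (↑S : Set X) ⊆ Q) : S ⊆ nb K Q S := by
  intro x hx
  exact mem_nb.2 ⟨⟨1, h1, x, hx, one_smul _ _⟩, hS hx⟩

/-- If finite subsets of `Q` double under `K`, then Hall's theorem gives an injection. -/
lemma exists_injective_of_doubling (K : Finset G) (Q : Set X)
    (h : ∀ S : Finset X, (↑S : Set X) ⊆ Q → 2 * S.card ≤ (nb K Q S).card) :
    ∃ f : Q × Bool → X, Function.Injective f ∧
      ∀ p, f p ∈ Q ∧ ∃ k ∈ K, k • (p.1 : X) = f p := by
  classical
  let t : Q × Bool → Finset X := fun p => nb K Q {(p.1 : X)}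
  have key : ∀ s : Finset (Q × Bool), s.card ≤ (s.biUnion t).card := by
    intro s
    let S : Finset X := s.image (fun p => (p.1 : X))
    have hSQ : (↑S : Set X) ⊆ Q := by
      intro x hx
      rw [Finset.mem_coe, Finset.mem_image] at hx
      obtain ⟨p, _, rfl⟩ := hx
      exact p.1.2
    have h1 : s.card ≤ 2 * S.card := by
      have hsub : s.image (fun p => ((p.1 : X), p.2)) ⊆ S ×ˢ (Finset.univ : Finset Bool) := by
        intro q hq
        rw [Finset.mem_image] at hq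
        obtain ⟨p, hp, rfl⟩ := hq
        rw [Finset.mem_product]
        exact ⟨Finset.mem_image.2 ⟨p, hp, rfl⟩, Finset.mem_univ _⟩
      have hinj : Function.Injective (fun p : Q × Bool => ((p.1 : X), p.2)) := by
        rintro ⟨⟨a, ha⟩, b⟩ ⟨⟨c, hc⟩, d⟩ hab
        simp only [Prod.mk.injEq] at hab
        obtain ⟨h1, h2⟩ := hab
        subst h1; subst h2; rfl
      calc s.card = (s.image (fun p => ((p.1 : X), p.2))).card :=
            (Finset.card_image_of_injective _ hinj).symm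
        _ ≤ (S ×ˢ (Finset.univ : Finset Bool)).card := Finset.card_le_card hsub
        _ = 2 * S.card := by
            rw [Finset.card_product, Finset.card_univ, Fintype.card_bool, Nat.mul_comm]
    have h2 : nb K Q S ⊆ s.biUnion t := by
      intro x hx
      obtain ⟨⟨k, hk, v, hv, rfl⟩, hxQ⟩ := mem_nb.1 hx
      rw [Finset.mem_image] at hv
      obtain ⟨p, hp, rfl⟩ := hv
      rw [Finset.mem_biUnion]
      exact ⟨p, hp, mem_nb.2 ⟨⟨k, hk, _, Finset.mem_singleton_self _, rfl⟩, hxQ⟩⟩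
    exact h1.trans ((h S hSQ).trans (Finset.card_le_card h2))
  obtain ⟨f, hf, hft⟩ := (Finset.all_card_le_biUnion_card_iff_exists_injective t).1 key
  refine ⟨f, hf, fun p => ?_⟩
  obtain ⟨⟨k, hk, v, hv, hkv⟩, hQ⟩ := mem_nb.1 (hft p)
  rw [Finset.mem_singleton] at hv
  subst hv
  exact ⟨hQ, k, hk, hkv⟩

/-- From doubling to a paradoxical decomposition. -/
lemma paradox_of_doubling (K : Finset G) (Q : Set X)
    (h : ∀ S : Finset X, (↑S : Set X) ⊆ Q → 2 * S.card ≤ (nb K Q S).card) :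
    ∃ (n m : ℕ) (A : Fin n → Set X) (B : Fin m → Set X) (g : Fin n → G) (h : Fin m → G),
      (∀ i, A i ⊆ Q) ∧ (∀ j, B j ⊆ Q) ∧
      Pairwise (fun i i' => Disjoint (A i) (A i')) ∧
      Pairwise (fun j j' => Disjoint (B j) (B j')) ∧
      (∀ i j, Disjoint (A i) (B j)) ∧
      (⋃ i, (fun v => g i • v) '' A i) = Q ∧
      (⋃ j, (fun v => h j • v) '' B j) = Q := by
  classical
  obtain ⟨f, hf, hfK⟩ := exists_injective_of_doubling K Q h
  choose hfQ kk hkk hkf using hfK
  let e := K.equivFin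
  -- pieces
  let P : Bool → Fin K.card → Set X := fun b i =>
    {x | ∃ v : Q, x = f (v, b) ∧ kk (v, b) = (e.symm i : G)}
  have hcover : ∀ b : Bool,
      (⋃ i, (fun v => ((e.symm i : G))⁻¹ • v) '' P b i) = Q := by
    intro b
    apply Set.Subset.antisymm
    · intro x hx
      rw [Set.mem_iUnion] at hx
      obtain ⟨i, y, ⟨v, rfl, hv⟩, rfl⟩ := hx
      have : ((e.symm i : G))⁻¹ • f (v, b) = (v : X) := by
        rw [← hkf (v, b), hv, inv_smul_smul]
      change ((e.symm i : G))⁻¹ • f (v, b) ∈ Q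
      rw [this]
      exact v.2
    · intro x hx
      rw [Set.mem_iUnion]
      refine ⟨e ⟨kk (⟨x, hx⟩, b), hkk _⟩, f (⟨x, hx⟩, b), ⟨⟨x, hx⟩, rfl, ?_⟩, ?_⟩
      · rw [Equiv.symm_apply_apply]
      · change ((e.symm (e ⟨kk (⟨x, hx⟩, b), hkk _⟩) : G))⁻¹ • f (⟨x, hx⟩, b) = x
        rw [Equiv.symm_apply_apply, ← hkf (⟨x, hx⟩, b)]
        exact inv_smul_smul _ _
  have hsub : ∀ b i, P b i ⊆ Q := by
    rintro b i x ⟨v, rfl, -⟩
    exact hfQ _
  have hdisj : ∀ b, Pairwise (fun i i' => Disjoint (P b i) (P b i')) := by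
    intro b i i' hii'
    rw [Set.disjoint_left]
    rintro x ⟨v, rfl, hv⟩ ⟨w, hw, hw'⟩
    have := hf hw
    have hvw : v = w := by
      have := congrArg Prod.fst this
      exact this
    subst hvw
    rw [hv] at hw'
    exact hii' (e.symm.injective (Subtype.ext hw'))
  refine ⟨K.card, K.card, P true, P false, fun i => ((e.symm i : G))⁻¹,
    fun i => ((e.symm i : G))⁻¹, hsub _, hsub _, hdisj _, hdisj _, ?_, hcover _, hcover _⟩
  intro i j
  rw [Set.disjoint_left]
  rintro x ⟨v, rfl, hv⟩ ⟨w, hw, hw'⟩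
  have := congrArg Prod.snd (hf hw)
  simp at this

/-- Approximate invariance: moving a subset `E` inside `Q` loses at most the size of the
boundary. -/
lemma approx_inv (K : Finset G) (Q : Set X) (S : Finset X) (h1 : (1 : G) ∈ K)
    (hS : (↑S : Set X) ⊆ Q) (g : G) (hg : g ∈ K) (E E' : Set X)
    (hE : ∀ v ∈ E, g • v ∈ E' ∧ g • v ∈ Q) [DecidablePred (· ∈ E)] [DecidablePred (· ∈ E')] :
    ((S.filter (· ∈ E)).card : ℝ) ≤ ((S.filter (· ∈ E')).card : ℝ)
      + (((nb K Q S).card : ℝ) - (S.card : ℝ)) := by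
  classical
  have hsub : (S.filter (· ∈ E)).image (fun v => g • v) ⊆
      (S.filter (· ∈ E')) ∪ (nb K Q S \ S) := by
    intro x hx
    rw [Finset.mem_image] at hx
    obtain ⟨v, hv, rfl⟩ := hx
    rw [Finset.mem_filter] at hv
    rw [Finset.mem_union]
    by_cases hxS : g • v ∈ S
    · left
      exact Finset.mem_filter.2 ⟨hxS, (hE v hv.2).1⟩
    · right
      rw [Finset.mem_sdiff]
      exact ⟨mem_nb.2 ⟨⟨g, hg, v, hv.1, rfl⟩, (hE v hv.2).2⟩, hxS⟩
  have hcard := Finset.card_le_card hsub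
  rw [Finset.card_image_of_injective _ (MulAction.injective g)] at hcard
  have h2 := hcard.trans (Finset.card_union_le _ _)
  rw [Finset.card_sdiff_of_subset (subset_nb h1 hS)] at h2
  have h3 : S.card ≤ (nb K Q S).card := Finset.card_le_card (subset_nb h1 hS)
  have h4 : (((S.filter (· ∈ E)).card : ℕ) : ℝ) ≤
      (((S.filter (· ∈ E')).card + ((nb K Q S).card - S.card) : ℕ) : ℝ) := by
    exact_mod_cast h2
  rw [Nat.cast_add, Nat.cast_sub h3] at h4
  exact h4

lemma sum_filter_le {ι : Type*} (S : Finset X) (s : Finset ι) (E : ι → Set X)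
    [∀ i, DecidablePred (· ∈ E i)]
    (hE : ∀ i ∈ s, ∀ j ∈ s, i ≠ j → Disjoint (E i) (E j)) :
    (∑ i ∈ s, ((S.filter (· ∈ E i)).card : ℝ)) ≤ (S.card : ℝ) := by
  classical
  have h1 : (s.biUnion (fun i => S.filter (· ∈ E i))).card =
      ∑ i ∈ s, (S.filter (· ∈ E i)).card := by
    apply Finset.card_biUnion
    intro i hi j hj hij
    change Disjoint _ _
    rw [Finset.disjoint_left]
    intro x hx hx'
    rw [Finset.mem_filter] at hx hx'
    exact Set.disjoint_left.1 (hE i hi j hj hij) hx.2 hx'.2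
  have h2 : (s.biUnion (fun i => S.filter (· ∈ E i))) ⊆ S := by
    intro x hx
    rw [Finset.mem_biUnion] at hx
    obtain ⟨i, _, hx⟩ := hx
    exact (Finset.mem_filter.1 hx).1
  have h3 := Finset.card_le_card h2
  rw [h1] at h3
  exact_mod_cast h3

/-- Iterating an expansion inequality. -/
lemma iterate_expansion (K : Finset G) (Q : Set X) (c : ℝ) (hc : 0 ≤ c)
    (h : ∀ S : Finset X, (↑S : Set X) ⊆ Q → c * S.card ≤ (nb K Q S).card) (n : ℕ) :
    ∃ K' : Finset G, ∀ S : Finset X, (↑S : Set X) ⊆ Q → c ^ n * S.card ≤ (nb K' Q S).card := by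
  classical
  induction n with
  | zero =>
    refine ⟨{1}, fun S hS => ?_⟩
    have := Finset.card_le_card (subset_nb (K := ({1} : Finset G)) (Finset.mem_singleton_self _) hS)
    simpa using this
  | succ n ih =>
    obtain ⟨K', hK'⟩ := ih
    refine ⟨(K ×ˢ K').image (fun p => p.1 * p.2), fun S hS => ?_⟩
    have h1 := h (nb K' Q S) nb_subset
    have h2 : nb K Q (nb K' Q S) ⊆ nb ((K ×ˢ K').image (fun p => p.1 * p.2)) Q S := by
      intro x hx
      obtain ⟨⟨k, hk, v, hv, rfl⟩, hxQ⟩ := mem_nb.1 hx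
      obtain ⟨⟨l, hl, w, hw, rfl⟩, _⟩ := mem_nb.1 hv
      refine mem_nb.2 ⟨⟨k * l, ?_, w, hw, mul_smul _ _ _⟩, hxQ⟩
      exact Finset.mem_image.2 ⟨(k, l), Finset.mem_product.2 ⟨hk, hl⟩, rfl⟩
    have h3 : ((nb K Q (nb K' Q S)).card : ℝ) ≤
        ((nb ((K ×ˢ K').image (fun p => p.1 * p.2)) Q S).card : ℝ) := by
      exact_mod_cast Finset.card_le_card h2
    have h4 := mul_le_mul_of_nonneg_left (hK' S hS) hc
    calc c ^ (n + 1) * (S.card : ℝ) = c * (c ^ n * S.card) := by ring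
      _ ≤ c * ((nb K' Q S).card : ℝ) := h4
      _ ≤ _ := h1.trans h3

/-- A uniform expansion gives a paradoxical decomposition. -/
lemma paradox_of_expansion (K : Finset G) (Q : Set X) (δ : ℝ) (hδ : 0 < δ)
    (h : ∀ S : Finset X, (↑S : Set X) ⊆ Q → (1 + δ) * S.card ≤ (nb K Q S).card) :
    ∃ (n m : ℕ) (A : Fin n → Set X) (B : Fin m → Set X) (g : Fin n → G) (h : Fin m → G),
      (∀ i, A i ⊆ Q) ∧ (∀ j, B j ⊆ Q) ∧
      Pairwise (fun i i' => Disjoint (A i) (A i')) ∧
      Pairwise (fun j j' => Disjoint (B j) (B j')) ∧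
      (∀ i j, Disjoint (A i) (B j)) ∧
      (⋃ i, (fun v => g i • v) '' A i) = Q ∧
      (⋃ j, (fun v => h j • v) '' B j) = Q := by
  obtain ⟨n, hn⟩ := pow_unbounded_of_one_lt 2 (by linarith : (1 : ℝ) < 1 + δ)
  obtain ⟨K', hK'⟩ := iterate_expansion K Q (1 + δ) (by linarith) h n
  apply paradox_of_doubling K' Q
  intro S hS
  have h1 := hK' S hS
  have h2 : (2 : ℝ) * S.card ≤ (1 + δ) ^ n * S.card :=
    mul_le_mul_of_nonneg_right hn.le (Nat.cast_nonneg _)
  exact_mod_cast h2.trans h1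

end

end Pool.Agent.Helper28
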