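import Mathlib

set_option autoImplicit false

namespace Pool.Agent.Lib_helper28.OF

/-- Ambient group: labels `c` on ordered pairs of points, the slope jump function `a`,
and an order automorphism `f` of the line. -/
@[ext] structure Amb where
  c : ℝ → ℝ → ℤ
  a : ℝ → ℤ
  f : ℝ ≃o ℝ

namespace Amb

instance : Mul Amb where
  mul x y :=
    { c := fun s t => x.c s t + y.c (x.f.symm s) (x.f.symm t) + x.a s * y.a (x.f.symm t)
      a := fun t => x.a t + y.a (x.f.symm t)
      f := y.f.trans x.f }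

instance : One Amb where
  one := { c := fun _ _ => 0, a := fun _ => 0, f := OrderIso.refl ℝ }

instance : Inv Amb where
  inv x :=
    { c := fun s t => - x.c (x.f s) (x.f t) + x.a (x.f s) * x.a (x.f t)
      a := fun t => - x.a (x.f t)
      f := x.f.symm }

lemma mul_c (x y : Amb) (s t : ℝ) :
    (x * y).c s t = x.c s t + y.c (x.f.symm s) (x.f.symm t) + x.a s * y.a (x.f.symm t) := rfl
lemma mul_a (x y : Amb) (t : ℝ) : (x * y).a t = x.a t + y.a (x.f.symm t) := rfl
lemma mul_f (x y : Amb) : (x * y).f = y.f.trans x.f := rfl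
lemma mul_f_apply (x y : Amb) (t : ℝ) : (x * y).f t = x.f (y.f t) := rfl
lemma mul_f_symm_apply (x y : Amb) (t : ℝ) : (x * y).f.symm t = y.f.symm (x.f.symm t) := rfl
lemma one_c (s t : ℝ) : (1 : Amb).c s t = 0 := rfl
lemma one_a (t : ℝ) : (1 : Amb).a t = 0 := rfl
lemma one_f : (1 : Amb).f = OrderIso.refl ℝ := rfl
lemma one_f_apply (t : ℝ) : (1 : Amb).f t = t := rfl
lemma one_f_symm_apply (t : ℝ) : (1 : Amb).f.symm t = t := rfl
lemma inv_c (x : Amb) (s t : ℝ) :
    (x⁻¹).c s t = - x.c (x.f s) (x.f t) + x.a (x.f s) * x.a (x.f t) := rfl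
lemma inv_a (x : Amb) (t : ℝ) : (x⁻¹).a t = - x.a (x.f t) := rfl
lemma inv_f (x : Amb) : (x⁻¹).f = x.f.symm := rfl
lemma inv_f_apply (x : Amb) (t : ℝ) : (x⁻¹).f t = x.f.symm t := rfl
lemma inv_f_symm_apply (x : Amb) (t : ℝ) : (x⁻¹).f.symm t = x.f t := rfl

instance : Group Amb := Group.ofLeftAxioms
  (by
    intro x y z
    ext s t
    · simp only [mul_c, mul_a, mul_f_symm_apply]; ring
    · simp only [mul_a, mul_f_symm_apply]; ring
    · rfl)
  (by
    intro x
    ext s t
    · simp only [mul_c, one_c, one_a, one_f_symm_apply]; ring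
    · simp only [mul_a, one_a, one_f_symm_apply]; ring
    · rfl)
  (by
    intro x
    ext s t
    · simp only [mul_c, inv_c, inv_a, inv_f_symm_apply, one_c]; ring
    · simp only [mul_a, inv_a, inv_f_symm_apply, one_a]; ring
    · simp [mul_f_apply, inv_f_apply, one_f_apply])

/-- pure labels -/
def iota (c : ℝ → ℝ → ℤ) : Amb := { c := c, a := fun _ => 0, f := OrderIso.refl ℝ }

lemma iota_c (c : ℝ → ℝ → ℤ) (s t : ℝ) : (iota c).c s t = c s t := rfl
lemma iota_a (c : ℝ → ℝ → ℤ) (t : ℝ) : (iota c).a t = 0 := rfl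
lemma iota_f_apply (c : ℝ → ℝ → ℤ) (t : ℝ) : (iota c).f t = t := rfl
lemma iota_f_symm_apply (c : ℝ → ℝ → ℤ) (t : ℝ) : (iota c).f.symm t = t := rfl

lemma iota_zero : iota (fun _ _ => 0) = 1 := rfl

lemma iota_mul_iota (c d : ℝ → ℝ → ℤ) :
    iota c * iota d = iota (fun s t => c s t + d s t) := by
  ext s t
  · simp [mul_c, iota_c, iota_a, iota_f_symm_apply]
  · simp [mul_a, iota_a]
  · rfl

lemma iota_inv (c : ℝ → ℝ → ℤ) : (iota c)⁻¹ = iota (fun s t => - c s t) := by
  rw [inv_eq_iff_mul_eq_one, iota_mul_iota]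
  simp [iota_zero]

lemma iota_mul_c (c : ℝ → ℝ → ℤ) (g : Amb) (s t : ℝ) :
    (iota c * g).c s t = c s t + g.c s t := by
  simp [mul_c, iota_c, iota_a, iota_f_symm_apply]
lemma iota_mul_a (c : ℝ → ℝ → ℤ) (g : Amb) (t : ℝ) : (iota c * g).a t = g.a t := by
  simp [mul_a, iota_a, iota_f_symm_apply]
lemma iota_mul_f (c : ℝ → ℝ → ℤ) (g : Amb) : (iota c * g).f = g.f := by
  ext t; rfl

lemma mul_iota (g : Amb) (c : ℝ → ℝ → ℤ) :
    g * iota c = iota (fun s t => c (g.f.symm s) (g.f.symm t)) * g := by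
  ext s t
  · simp [mul_c, iota_c, iota_a, iota_f_symm_apply]; ring
  · simp [mul_a, iota_a, iota_f_symm_apply]
  · rfl

lemma iota_mul' (g : Amb) (c : ℝ → ℝ → ℤ) :
    iota c * g = g * iota (fun s t => c (g.f s) (g.f t)) := by
  rw [mul_iota]; simp

/-! ### splitting -/

/-- the piecewise linear map halving `[u, u+2]` -/
noncomputable def lam (u : ℝ) : ℝ ≃o ℝ where
  toFun x := if x ≤ u then x else if x ≤ u + 2 then (x + u) / 2 else x - 1
  invFun y := if y ≤ u then y else if y ≤ u + 1 then 2 * y - u else y + 1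
  left_inv := by
    intro x
    dsimp only
    split_ifs <;> linarith
  right_inv := by
    intro y
    dsimp only
    split_ifs <;> linarith
  map_rel_iff' := by
    intro x y
    simp only [Equiv.coe_fn_mk]
    constructor
    · intro h
      by_contra hxy
      push Not at hxy
      revert h
      split_ifs <;> intro h <;> linarith
    · intro h
      split_ifs <;> linarith

lemma lam_apply (u x : ℝ) :
    lam u x = if x ≤ u then x else if x ≤ u + 2 then (x + u) / 2 else x - 1 := rfl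
lemma lam_symm_apply (u y : ℝ) :
    (lam u).symm y = if y ≤ u then y else if y ≤ u + 1 then 2 * y - u else y + 1 := rfl

lemma lam_of_le {u x : ℝ} (h : x ≤ u) : lam u x = x := by simp [lam_apply, h]
lemma lam_mid {u x : ℝ} (h : u ≤ x) (h' : x ≤ u + 2) : lam u x = (x + u) / 2 := by
  rw [lam_apply]; split_ifs <;> linarith
lemma lam_of_ge {u x : ℝ} (h : u + 2 ≤ x) : lam u x = x - 1 := by
  rw [lam_apply]; split_ifs <;> linarith
lemma lam_symm_of_le {u x : ℝ} (h : x ≤ u) : (lam u).symm x = x := by simp [lam_symm_apply, h]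
lemma lam_symm_mid {u x : ℝ} (h : u ≤ x) (h' : x ≤ u + 1) : (lam u).symm x = 2 * x - u := by
  rw [lam_symm_apply]; split_ifs <;> linarith
lemma lam_symm_of_ge {u x : ℝ} (h : u + 1 ≤ x) : (lam u).symm x = x + 1 := by
  rw [lam_symm_apply]; split_ifs <;> linarith

/-- slope jumps of `lam u` -/
noncomputable def ja (u t : ℝ) : ℤ := (if t = u + 1 then 1 else 0) - (if t = u then 1 else 0)

/-- the splitting element -/
noncomputable def lh (u : ℝ) : Amb := { c := fun _ _ => 0, a := ja u, f := lam u }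

lemma lh_c (u s t : ℝ) : (lh u).c s t = 0 := rfl
lemma lh_a (u t : ℝ) : (lh u).a t = ja u t := rfl
lemma lh_f (u : ℝ) : (lh u).f = lam u := rfl

lemma lam_comm {u v : ℝ} (h : u + 1 ≤ v) (x : ℝ) :
    lam u (lam (v + 1) x) = lam v (lam u x) := by
  rcases le_total x u with h1 | h1
  · rw [lam_of_le (show x ≤ v + 1 by linarith), lam_of_le h1, lam_of_le (show x ≤ v by linarith)]
  rcases le_total x (u + 2) with h2 | h2
  · rw [lam_of_le (show x ≤ v + 1 by linarith), lam_mid h1 h2, lam_of_le (by linarith)]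
  rcases le_total x (v + 1) with h3 | h3
  · rw [lam_of_le h3, lam_of_ge h2, lam_of_le (by linarith)]
  rcases le_total x (v + 3) with h4 | h4
  · rw [lam_mid h3 (by linarith), lam_of_ge (show u + 2 ≤ x by linarith),
      lam_of_ge (by linarith), lam_mid (by linarith) (by linarith)]
    ring
  · rw [lam_of_ge (show v + 1 + 2 ≤ x by linarith), lam_of_ge (show u + 2 ≤ x by linarith),
      lam_of_ge (by linarith), lam_of_ge (by linarith)]

lemma ja_lam_symm_left {u v : ℝ} (h : u + 1 ≤ v) (t : ℝ) :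
    ja (v + 1) ((lam u).symm t) = ja v t := by
  have e1 : (lam u).symm t = v + 1 + 1 ↔ t = v + 1 := by
    rw [OrderIso.symm_apply_eq, lam_of_ge (by linarith)]; ring_nf
  have e2 : (lam u).symm t = v + 1 ↔ t = v := by
    rw [OrderIso.symm_apply_eq, lam_of_ge (by linarith)]; ring_nf
  simp only [ja, e1, e2]

lemma ja_lam_symm_right {u v : ℝ} (h : u + 1 ≤ v) (t : ℝ) :
    ja u ((lam v).symm t) = ja u t := by
  have e1 : (lam v).symm t = u + 1 ↔ t = u + 1 := by
    rw [OrderIso.symm_apply_eq, lam_of_le (by linarith)]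
  have e2 : (lam v).symm t = u ↔ t = u := by
    rw [OrderIso.symm_apply_eq, lam_of_le (by linarith)]
  simp only [ja, e1, e2]

/-- The twisted commutation relation. -/
lemma lh_comm {u v : ℝ} (h : u + 1 ≤ v) :
    lh u * lh (v + 1) = iota (fun s t => ja u s * ja v t - ja v s * ja u t) * (lh v * lh u) := by
  ext s t
  · simp only [mul_c, lh_c, lh_a, lh_f, iota_c, iota_a, iota_f_symm_apply,
      ja_lam_symm_left h, ja_lam_symm_right h]
    ring
  · simp only [mul_a, lh_a, lh_f, iota_a, iota_f_symm_apply,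
      ja_lam_symm_left h, ja_lam_symm_right h]
    ring
  · simp only [mul_f_apply, lh_f, iota_f_apply]
    exact lam_comm h s

/-! ### cosets of labels -/

open Pointwise

/-- all elements differing from `g` only in labels on pairs from `P` -/
def cos (P : Finset ℝ) (g : Amb) : Set Amb :=
  {x | x.f = g.f ∧ x.a = g.a ∧ ∀ s t, ¬ (s ∈ P ∧ t ∈ P) → x.c s t = g.c s t}

lemma mem_cos {P : Finset ℝ} {g x : Amb} : x ∈ cos P g ↔
    x.f = g.f ∧ x.a = g.a ∧ ∀ s t, ¬ (s ∈ P ∧ t ∈ P) → x.c s t = g.c s t := Iff.rfl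

lemma self_mem_cos (P : Finset ℝ) (g : Amb) : g ∈ cos P g := ⟨rfl, rfl, fun _ _ _ => rfl⟩

lemma mem_cos_symm {P : Finset ℝ} {g x : Amb} (h : x ∈ cos P g) : g ∈ cos P x :=
  ⟨h.1.symm, h.2.1.symm, fun s t hst => (h.2.2 s t hst).symm⟩

lemma mem_cos_trans {P : Finset ℝ} {g x y : Amb} (h : x ∈ cos P g) (h' : y ∈ cos P x) :
    y ∈ cos P g :=
  ⟨h'.1.trans h.1, h'.2.1.trans h.2.1, fun s t hst => (h'.2.2 s t hst).trans (h.2.2 s t hst)⟩

lemma mem_cos_mono {P Q : Finset ℝ} (hPQ : P ⊆ Q) {g x : Amb} (h : x ∈ cos P g) :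
    x ∈ cos Q g :=
  ⟨h.1, h.2.1, fun s t hst => h.2.2 s t (fun h2 => hst ⟨hPQ h2.1, hPQ h2.2⟩)⟩

lemma cos_eq {P : Finset ℝ} {g x : Amb} (h : x ∈ cos P g) : cos P x = cos P g := by
  ext y
  exact ⟨fun hy => mem_cos_trans h hy, fun hy => mem_cos_trans (mem_cos_symm h) hy⟩

lemma mem_cos_of_eq {P Q : Finset ℝ} {g x : Amb} (h : cos P x = cos Q g) : x ∈ cos Q g := by
  rw [← h]; exact self_mem_cos P x

lemma cos_eq_iff {P : Finset ℝ} {g x : Amb} : cos P x = cos P g ↔ x ∈ cos P g :=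
  ⟨mem_cos_of_eq, cos_eq⟩

lemma cos_eq_f {P Q : Finset ℝ} {g x : Amb} (h : cos P x = cos Q g) : x.f = g.f :=
  (mem_cos_of_eq h).1

lemma mem_cos_iff_iota {P : Finset ℝ} {g x : Amb} : x ∈ cos P g ↔
    ∃ c : ℝ → ℝ → ℤ, (∀ s t, ¬ (s ∈ P ∧ t ∈ P) → c s t = 0) ∧ x = iota c * g := by
  constructor
  · rintro ⟨h1, h2, h3⟩
    refine ⟨fun s t => x.c s t - g.c s t, fun s t hst => by simp [h3 s t hst], ?_⟩
    refine Amb.ext ?_ ?_ ?_
    · funext s t; rw [iota_mul_c]; ring
    · funext t; rw [iota_mul_a, h2]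
    · rw [iota_mul_f, h1]
  · rintro ⟨c, hc, rfl⟩
    refine ⟨iota_mul_f c g, funext (iota_mul_a c g), fun s t hst => ?_⟩
    rw [iota_mul_c, hc s t hst, zero_add]

lemma iota_mul_mem_cos {P : Finset ℝ} {g : Amb} {c : ℝ → ℝ → ℤ}
    (hc : ∀ s t, ¬ (s ∈ P ∧ t ∈ P) → c s t = 0) : iota c * g ∈ cos P g :=
  mem_cos_iff_iota.2 ⟨c, hc, rfl⟩

lemma mul_mem_cos {P : Finset ℝ} {g x : Amb} (h : x ∈ cos P g) (u : Amb) :
    x * u ∈ cos P (g * u) := by
  obtain ⟨c, hc, rfl⟩ := mem_cos_iff_iota.1 h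
  rw [mul_assoc]
  exact iota_mul_mem_cos hc

lemma left_mul_mem_cos {P : Finset ℝ} {g x : Amb} (h : x ∈ cos P g) (u : Amb) :
    u * x ∈ cos (P.image u.f) (u * g) := by
  obtain ⟨c, hc, rfl⟩ := mem_cos_iff_iota.1 h
  rw [← mul_assoc, mul_iota, mul_assoc]
  refine iota_mul_mem_cos fun s t hst => hc _ _ fun h => hst ?_
  constructor
  · exact Finset.mem_image.2 ⟨_, h.1, by simp⟩
  · exact Finset.mem_image.2 ⟨_, h.2, by simp⟩

lemma op_smul_cos (P : Finset ℝ) (g u : Amb) :
    MulOpposite.op u • cos P g = cos P (g * u) := by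
  ext x
  rw [Set.mem_smul_set_iff_inv_smul_mem]
  rw [← MulOpposite.op_inv, MulOpposite.smul_eq_mul_unop, MulOpposite.unop_op]
  constructor
  · intro h
    have := mul_mem_cos h u
    simpa using this
  · intro h
    have := mul_mem_cos h u⁻¹
    simpa using this

lemma smul_cos (P : Finset ℝ) (g u : Amb) :
    u • cos P g = cos (P.image u.f) (u * g) := by
  ext x
  rw [Set.mem_smul_set_iff_inv_smul_mem, smul_eq_mul]
  constructor
  · intro h
    have := left_mul_mem_cos h u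
    simpa using this
  · intro h
    have := left_mul_mem_cos h u⁻¹
    have e : (P.image u.f).image (u⁻¹).f = P := by
      rw [Finset.image_image]
      have : ((u⁻¹).f ∘ u.f : ℝ → ℝ) = id := by
        funext t; simp [inv_f_apply]
      rw [this, Finset.image_id]
    rw [e] at this
    simpa using this

/-- enlarge the set of free labels -/
def sat (P : Finset ℝ) (y : Set Amb) : Set Amb := {x | ∃ z ∈ y, x ∈ cos P z}

lemma sat_cos {P Q : Finset ℝ} (h : P ⊆ Q) (g : Amb) : sat Q (cos P g) = cos Q g := by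
  ext x
  constructor
  · rintro ⟨z, hz, hx⟩
    exact mem_cos_trans (mem_cos_mono h hz) hx
  · intro hx
    exact ⟨g, self_mem_cos P g, hx⟩

lemma smul_sat (P : Finset ℝ) (y : Set Amb) (u : Amb) :
    u • sat P y = sat (P.image u.f) (u • y) := by
  ext x
  rw [Set.mem_smul_set_iff_inv_smul_mem, smul_eq_mul]
  constructor
  · rintro ⟨z, hz, hx⟩
    refine ⟨u * z, Set.smul_mem_smul_set hz, ?_⟩
    have := left_mul_mem_cos hx u
    simpa using this
  · rintro ⟨z, hz, hx⟩
    rw [Set.mem_smul_set_iff_inv_smul_mem, smul_eq_mul] at hz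
    refine ⟨u⁻¹ * z, hz, ?_⟩
    have := left_mul_mem_cos hx u⁻¹
    have e : (P.image u.f).image (u⁻¹).f = P := by
      rw [Finset.image_image]
      have : ((u⁻¹).f ∘ u.f : ℝ → ℝ) = id := by
        funext t; simp [inv_f_apply]
      rw [this, Finset.image_id]
    rw [e] at this
    exact this

lemma smul_op_smul (y : Set Amb) (u v : Amb) :
    u • (MulOpposite.op v • y) = MulOpposite.op v • (u • y) := by
  rw [smul_comm]

end Amb

end Pool.Agent.Lib_helper28.OF
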