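import Mathlib

set_option autoImplicit false

namespace Pool.Agent.Lib_helper28.OF

open Finsupp

section Sup

variable {X : Type*} {M : Type*} [AddCommGroup M]

/-- chains supported on `U` -/
noncomputable def Sp (U : Set X) : Submodule ℤ (X →₀ ℤ) := Finsupp.supported ℤ ℤ U

lemma mem_Sp {U : Set X} {z : X →₀ ℤ} : z ∈ Sp U ↔ ∀ x, z x ≠ 0 → x ∈ U := by
  rw [Sp, Finsupp.mem_supported]
  constructor
  · intro h x hx
    exact h (by simpa using hx)
  · intro h x hx
    exact h x (by simpa using hx)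

lemma Sp_eq_span (U : Set X) :
    Sp U = Submodule.span ℤ ((fun x => (single x 1 : X →₀ ℤ)) '' U) := by
  rw [Sp, Finsupp.supported_eq_span_single]

lemma Sp_mono {U V : Set X} (h : U ⊆ V) : Sp U ≤ Sp V := Finsupp.supported_mono h

lemma single_mem_Sp {U : Set X} {x : X} (h : x ∈ U) (n : ℤ) : (single x n : X →₀ ℤ) ∈ Sp U :=
  Finsupp.single_mem_supported ℤ n h

lemma map_mem_of {U : Set X} {F : (X →₀ ℤ) →ₗ[ℤ] M} {N : Submodule ℤ M}
    (h : ∀ x ∈ U, F (single x 1) ∈ N) {z : X →₀ ℤ} (hz : z ∈ Sp U) : F z ∈ N := by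
  have : Sp U ≤ N.comap F := by
    rw [Sp_eq_span, Submodule.span_le]
    rintro _ ⟨x, hx, rfl⟩
    exact h x hx
  exact this hz

lemma map_congr_of {U : Set X} {F G : (X →₀ ℤ) →ₗ[ℤ] M}
    (h : ∀ x ∈ U, F (single x 1) = G (single x 1)) {z : X →₀ ℤ} (hz : z ∈ Sp U) : F z = G z := by
  have : Sp U ≤ LinearMap.eqLocus F G := by
    rw [Sp_eq_span, Submodule.span_le]
    rintro _ ⟨x, hx, rfl⟩
    exact h x hx
  exact this hz

/-- linear extension -/
noncomputable def lext (F : X → M) : (X →₀ ℤ) →ₗ[ℤ] M := Finsupp.linearCombination ℤ F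

@[simp] lemma lext_single (F : X → M) (x : X) (n : ℤ) : lext F (single x n) = n • F x := by
  simp [lext]

lemma lext_single_one (F : X → M) (x : X) : lext F (single x 1) = F x := by simp

end Sup

section sgn

variable {α : Type*} [LinearOrder α]

/-- the sign of an element in a finite set -/
def sgn (t : α) (ρ : Finset α) : ℤ := (-1) ^ (ρ.filter (fun s => s < t)).card

lemma sgn_mul_self (t : α) (ρ : Finset α) : sgn t ρ * sgn t ρ = 1 := by
  rw [sgn, ← pow_add, ← two_mul, pow_mul]; simp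

lemma sgn_insert_lt {s t : α} {ρ : Finset α} (h : s < t) (hs : s ∉ ρ) :
    sgn t (insert s ρ) = - sgn t ρ := by
  rw [sgn, sgn, Finset.filter_insert, if_pos h, Finset.card_insert_of_notMem, pow_succ]
  · ring
  · simp [hs]

lemma sgn_insert_ge {s t : α} {ρ : Finset α} (h : t ≤ s) :
    sgn t (insert s ρ) = sgn t ρ := by
  rw [sgn, sgn, Finset.filter_insert, if_neg (not_lt.2 h)]

lemma sgn_erase_lt {s t : α} {ρ : Finset α} (h : s < t) (hs : s ∈ ρ) :
    sgn t (ρ.erase s) = - sgn t ρ := by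
  have := sgn_insert_lt h (Finset.notMem_erase s ρ)
  rw [Finset.insert_erase hs] at this
  rw [this]; ring

lemma sgn_erase_ge {s t : α} {ρ : Finset α} (h : t ≤ s) :
    sgn t (ρ.erase s) = sgn t ρ := by
  by_cases hs : s ∈ ρ
  · have := sgn_insert_ge (ρ := ρ.erase s) h
    rw [Finset.insert_erase hs] at this
    exact this.symm
  · rw [Finset.erase_eq_of_notMem hs]

lemma sgn_swap {s t : α} {ρ : Finset α} (hs : s ∈ ρ) (ht : t ∈ ρ) (hst : s ≠ t) :
    sgn t ρ * sgn s (ρ.erase t) = - (sgn s ρ * sgn t (ρ.erase s)) := by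
  rcases lt_or_gt_of_ne hst with h | h
  · rw [sgn_erase_ge h.le, sgn_erase_lt h hs]; ring
  · rw [sgn_erase_ge h.le, sgn_erase_lt h ht]; ring

lemma sgn_image {β : Type*} [LinearOrder β] (e : α ↪o β) (t : α) (ρ : Finset α) :
    sgn (e t) (ρ.image e) = sgn t ρ := by
  unfold sgn
  congr 1
  rw [Finset.filter_image, Finset.card_image_of_injective _ e.injective]
  congr 1
  ext s
  simp

lemma sum_sgn_zero {M : Type*} [AddCommGroup M] (ρ : Finset α) (B : α → α → M)
    (hB : ∀ s ∈ ρ, ∀ t ∈ ρ, s ≠ t → B s t = B t s) :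
    ∑ t ∈ ρ, sgn t ρ • ∑ s ∈ ρ.erase t, sgn s (ρ.erase t) • B t s = 0 := by
  simp only [Finset.smul_sum, smul_smul]
  rw [Finset.sum_sigma']
  refine Finset.sum_involution (fun x _ => ⟨x.2, x.1⟩) ?_ ?_ ?_ ?_
  · rintro ⟨t, s⟩ h
    simp only [Finset.mem_sigma, Finset.mem_erase] at h
    obtain ⟨ht, hst, hs⟩ := h
    simp only
    rw [hB t ht s hs hst.symm, sgn_swap hs ht hst, neg_smul, neg_add_cancel]
  · rintro ⟨t, s⟩ h _ h2
    simp only [Finset.mem_sigma, Finset.mem_erase] at h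
    have := congrArg Sigma.fst h2
    exact h.2.1 this
  · rintro ⟨t, s⟩ h
    simp only [Finset.mem_sigma, Finset.mem_erase] at h ⊢
    exact ⟨h.2.2, h.2.1.symm, h.1⟩
  · rintro ⟨t, s⟩ h
    rfl

end sgn

end Pool.Agent.Lib_helper28.OF
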