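import Mathlib

set_option autoImplicit false

/-!
Definitions used in the statement for MP_036a22_al: Thompson's group `F` (`ThompsonF`), groups of
type `FP_n` (`TypeFP`) and oligomorphic actions (`Oligomorphic`).
-/

namespace Pool.Agent.Lib_helper28.OF

open Set

/-- dyadic rationals -/
def IsDyadic (x : ℝ) : Prop := ∃ (a : ℤ) (n : ℕ), x = a / 2 ^ n

lemma IsDyadic.add {x y : ℝ} (hx : IsDyadic x) (hy : IsDyadic y) : IsDyadic (x + y) := by
  obtain ⟨a, n, rfl⟩ := hx
  obtain ⟨b, m, rfl⟩ := hy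
  refine ⟨a * 2 ^ m + b * 2 ^ n, n + m, ?_⟩
  push_cast
  rw [pow_add]
  field_simp

lemma IsDyadic.neg {x : ℝ} (hx : IsDyadic x) : IsDyadic (-x) := by
  obtain ⟨a, n, rfl⟩ := hx
  exact ⟨-a, n, by push_cast; ring⟩

lemma IsDyadic.sub {x y : ℝ} (hx : IsDyadic x) (hy : IsDyadic y) : IsDyadic (x - y) := by
  rw [sub_eq_add_neg]; exact hx.add hy.neg

lemma IsDyadic.mul {x y : ℝ} (hx : IsDyadic x) (hy : IsDyadic y) : IsDyadic (x * y) := by
  obtain ⟨a, n, rfl⟩ := hx
  obtain ⟨b, m, rfl⟩ := hy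
  refine ⟨a * b, n + m, ?_⟩
  push_cast
  rw [pow_add]
  field_simp

lemma IsDyadic.two_zpow (k : ℤ) : IsDyadic ((2 : ℝ) ^ k) := by
  obtain ⟨n, rfl | rfl⟩ := Int.eq_nat_or_neg k
  · exact ⟨2 ^ n, 0, by simp⟩
  · exact ⟨1, n, by simp⟩

lemma IsDyadic.zero : IsDyadic 0 := ⟨0, 0, by simp⟩

lemma IsDyadic.int (a : ℤ) : IsDyadic a := ⟨a, 0, by simp⟩

/-- The unit interval. -/
abbrev UI := Set.Icc (0 : ℝ) 1

/-- `f` is affine with slope a power of two on each interval without points of `B` inside -/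
def AffOff (B : Finset ℝ) (f : UI ≃o UI) : Prop :=
  ∀ s t : UI, s < t → (∀ b ∈ B, ¬ ((s : ℝ) < b ∧ b < (t : ℝ))) →
    ∃ k : ℤ, ∀ x : UI, s ≤ x → x ≤ t → ((f x : UI) : ℝ) = (f s : UI) + 2 ^ k * ((x : ℝ) - s)

/-- Membership in Thompson's group `F`: an increasing homeomorphism of the unit interval which is
affine with slope an integral power of two between consecutive members of a finite set of dyadic
rationals. -/
def IsThompson (f : UI ≃o UI) : Prop :=
  ∃ B : Finset ℝ, (∀ b ∈ B, IsDyadic b) ∧ AffOff B f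

lemma UI_zero (f : UI ≃o UI) : ((f ⟨0, by simp⟩ : UI) : ℝ) = 0 := by
  have h1 : f ⟨0, by simp⟩ = ⟨0, by simp⟩ := by
    apply le_antisymm
    · rw [← f.le_symm_apply]
      exact (f.symm ⟨0, by simp⟩).2.1
    · exact (f ⟨0, by simp⟩).2.1
  rw [h1]

lemma affine_form {B : Finset ℝ} (hB : ∀ b ∈ B, IsDyadic b) {f : UI ≃o UI} (hf : AffOff B f) :
    ∀ (n : ℕ) (x : UI), (B.filter (fun b => 0 < b ∧ b < (x : ℝ))).card = n →
      ∃ (k : ℤ) (s d : ℝ), IsDyadic s ∧ IsDyadic d ∧ ((f x : UI) : ℝ) = d + 2 ^ k * ((x : ℝ) - s) := by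
  intro n
  induction n using Nat.strong_induction_on with
  | _ n ih =>
    intro x hx
    rcases (B.filter (fun b => 0 < b ∧ b < (x : ℝ))).eq_empty_or_nonempty with he | hne
    · rcases x.2.1.lt_or_eq with h0 | h0
      · obtain ⟨k, hk⟩ := hf ⟨0, by simp⟩ x h0 (by
          rintro b hb ⟨h1, h2⟩
          have : b ∈ B.filter (fun b => 0 < b ∧ b < (x : ℝ)) :=
            Finset.mem_filter.2 ⟨hb, h1, h2⟩
          rw [he] at this
          simp at this)
        refine ⟨k, 0, 0, IsDyadic.zero, IsDyadic.zero, ?_⟩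
        rw [hk x h0.le le_rfl, UI_zero]
      · refine ⟨0, 0, 0, IsDyadic.zero, IsDyadic.zero, ?_⟩
        have : x = ⟨0, by simp⟩ := Subtype.ext h0.symm
        rw [this, UI_zero]
        simp
    · set s := (B.filter (fun b => 0 < b ∧ b < (x : ℝ))).max' hne with hs
      have hsm := (B.filter (fun b => 0 < b ∧ b < (x : ℝ))).max'_mem hne
      rw [← hs] at hsm
      obtain ⟨hsB, hs0, hsx⟩ := Finset.mem_filter.1 hsm
      have hsUI : s ∈ UI := ⟨hs0.le, hsx.le.trans x.2.2⟩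
      have hcard : (B.filter (fun b => 0 < b ∧ b < s)).card < n := by
        rw [← hx]
        apply Finset.card_lt_card
        refine ⟨fun b hb => ?_, fun h => ?_⟩
        · obtain ⟨h1, h2, h3⟩ := Finset.mem_filter.1 hb
          exact Finset.mem_filter.2 ⟨h1, h2, h3.trans hsx⟩
        · have := (Finset.mem_filter.1 (h hsm)).2.2
          exact lt_irrefl _ this
      obtain ⟨k', s', d', hs', hd', hf'⟩ := ih _ hcard ⟨s, hsUI⟩ rfl
      obtain ⟨k, hk⟩ := hf ⟨s, hsUI⟩ x hsx (by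
        rintro b hb ⟨h1, h2⟩
        have : b ≤ s := Finset.le_max' _ _ (Finset.mem_filter.2 ⟨hb, hs0.trans h1, h2⟩)
        exact absurd h1 (not_lt.2 this))
      refine ⟨k, s, (f ⟨s, hsUI⟩ : UI), hB s hsB, ?_, hk x hsx.le le_rfl⟩
      rw [hf']
      exact hd'.add ((IsDyadic.two_zpow k').mul ((hB s hsB).sub hs'))

lemma dyadic_iff {f : UI ≃o UI} (hf : IsThompson f) (x : UI) :
    IsDyadic ((f x : UI) : ℝ) ↔ IsDyadic (x : ℝ) := by
  obtain ⟨B, hB, hf⟩ := hf
  obtain ⟨k, s, d, hs, hd, h⟩ := affine_form hB hf _ x rfl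
  rw [h]
  constructor
  · intro h1
    have h2 : (x : ℝ) = s + 2 ^ (-k) * ((d + 2 ^ k * ((x : ℝ) - s)) - d) := by
      rw [zpow_neg]
      have : (2 : ℝ) ^ k ≠ 0 := by positivity
      field_simp
      ring
    rw [h2]
    exact hs.add ((IsDyadic.two_zpow (-k)).mul (h1.sub hd))
  · intro h1
    exact hd.add ((IsDyadic.two_zpow k).mul (h1.sub hs))

lemma IsThompson.one : IsThompson 1 := by
  refine ⟨∅, by simp, fun s t _ _ => ⟨0, fun x _ _ => ?_⟩⟩
  change (x : ℝ) = s + 2 ^ (0 : ℤ) * ((x : ℝ) - s)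
  simp

lemma mul_app (f g : UI ≃o UI) (x : UI) : (f * g) x = f (g x) := rfl

lemma IsThompson.mul {f g : UI ≃o UI} (hf : IsThompson f) (hg : IsThompson g) :
    IsThompson (f * g) := by
  classical
  have hg' := hg
  obtain ⟨Bf, hBf, hf⟩ := hf
  obtain ⟨Bg, hBg, hg⟩ := hg
  refine ⟨Bg ∪ Bf.image (fun b => if h : b ∈ UI then ((g.symm ⟨b, h⟩ : UI) : ℝ) else 0), ?_, ?_⟩
  · intro b hb
    rcases Finset.mem_union.1 hb with hb | hb
    · exact hBg b hb
    · obtain ⟨c, hc, rfl⟩ := Finset.mem_image.1 hb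
      split_ifs with h
      · rw [← dyadic_iff hg', g.apply_symm_apply]
        exact hBf c hc
      · exact IsDyadic.zero
  · intro s t hst hB
    obtain ⟨k, hk⟩ := hg s t hst (fun b hb => hB b (Finset.mem_union_left _ hb))
    obtain ⟨l, hl⟩ := hf (g s) (g t) (g.lt_iff_lt.2 hst) (by
      rintro b hb ⟨h1, h2⟩
      have hbU : b ∈ UI := ⟨(g s).2.1.trans h1.le, h2.le.trans (g t).2.2⟩
      apply hB (g.symm ⟨b, hbU⟩ : UI)
      · apply Finset.mem_union_right
        exact Finset.mem_image.2 ⟨b, hb, by rw [dif_pos hbU]⟩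
      · constructor
        · have : s < g.symm ⟨b, hbU⟩ := by rw [← g.lt_iff_lt, g.apply_symm_apply]; exact h1
          exact this
        · have : g.symm ⟨b, hbU⟩ < t := by rw [← g.lt_iff_lt, g.apply_symm_apply]; exact h2
          exact this)
    refine ⟨l + k, fun x hx1 hx2 => ?_⟩
    rw [mul_app, mul_app, hl (g x) (g.le_iff_le.2 hx1) (g.le_iff_le.2 hx2), hk x hx1 hx2,
      zpow_add₀ (by norm_num)]
    ring

lemma inv_app (f : UI ≃o UI) (x : UI) : (f⁻¹) x = f.symm x := rfl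

lemma IsThompson.inv {f : UI ≃o UI} (hf : IsThompson f) : IsThompson f⁻¹ := by
  classical
  have hf' := hf
  obtain ⟨B, hB, hf⟩ := hf
  refine ⟨B.image (fun b => if h : b ∈ UI then ((f ⟨b, h⟩ : UI) : ℝ) else 0), ?_, ?_⟩
  · intro b hb
    obtain ⟨c, hc, rfl⟩ := Finset.mem_image.1 hb
    split_ifs with h
    · rw [dyadic_iff hf']
      exact hB c hc
    · exact IsDyadic.zero
  · intro s t hst hB2
    obtain ⟨k, hk⟩ := hf (f.symm s) (f.symm t) (f.symm.lt_iff_lt.2 hst) (by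
      rintro b hb ⟨h1, h2⟩
      have hbU : b ∈ UI := ⟨(f.symm s).2.1.trans h1.le, h2.le.trans (f.symm t).2.2⟩
      apply hB2 (f ⟨b, hbU⟩ : UI)
      · exact Finset.mem_image.2 ⟨b, hb, by rw [dif_pos hbU]⟩
      · constructor
        · have : s < f ⟨b, hbU⟩ := by rw [← f.symm.lt_iff_lt, f.symm_apply_apply]; exact h1
          exact this
        · have : f ⟨b, hbU⟩ < t := by rw [← f.symm.lt_iff_lt, f.symm_apply_apply]; exact h2
          exact this)
    refine ⟨-k, fun x hx1 hx2 => ?_⟩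
    have h1 := hk (f.symm x) (f.symm.le_iff_le.2 hx1) (f.symm.le_iff_le.2 hx2)
    rw [f.apply_symm_apply, f.apply_symm_apply] at h1
    rw [inv_app, inv_app, h1, zpow_neg]
    have : (2 : ℝ) ^ k ≠ 0 := by positivity
    field_simp
    ring

/-- Thompson's group `F` -/
def ThompsonF : Subgroup (UI ≃o UI) where
  carrier := {f | IsThompson f}
  mul_mem' := fun hf hg => hf.mul hg
  one_mem' := IsThompson.one
  inv_mem' := fun hf => hf.inv

/-- `H` has type `FP_n`: the trivial module `ℤ` over the integral group ring of `H` has a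
projective resolution `... → P 1 → P 0 → ℤ → 0` with `P 0, ..., P n` finitely generated. The
augmentation `ε` is an additive map onto `ℤ` which is invariant under `H`, that is, a module map
onto the trivial module. -/
def TypeFP (n : ℕ) (H : Type) [Group H] : Prop :=
  ∃ (P : ℕ → Type) (_ : ∀ i, AddCommGroup (P i)) (_ : ∀ i, Module (MonoidAlgebra ℤ H) (P i))
    (d : ∀ i, P (i + 1) →ₗ[MonoidAlgebra ℤ H] P i) (ε : P 0 →+ ℤ),
    (∀ i, Module.Projective (MonoidAlgebra ℤ H) (P i)) ∧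
    (∀ (h : H) (x : P 0), ε (MonoidAlgebra.of ℤ H h • x) = ε x) ∧
    Function.Surjective ε ∧ Function.Exact (d 0) ε ∧
    (∀ i, Function.Exact (d (i + 1)) (d i)) ∧
    ∀ i ≤ n, Module.Finite (MonoidAlgebra ℤ H) (P i)

open scoped Pointwise in
/-- Oligomorphic actions: for each `n ≥ 1` the group has finitely many orbits on the
`n`-element subsets. -/
def Oligomorphic (G S : Type) [Group G] [MulAction G S] : Prop :=
  ∀ n : ℕ, 1 ≤ n →
    {O : Set (Set S) | ∃ A : Finset S, A.card = n ∧ O = MulAction.orbit G (A : Set S)}.Finite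

end Pool.Agent.Lib_helper28.OF
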