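import Pool.Agent.Lib_helper28.OFTop

set_option autoImplicit false

namespace Pool.Agent.Lib_helper28.OF

open Amb Finsupp

open Classical in
/-- restriction of a chain to a set of cells -/
noncomputable def rs (P : Cell → Prop) : (Cell →₀ ℤ) →ₗ[ℤ] (Cell →₀ ℤ) :=
  lext fun x => if P x then single x 1 else 0

open Classical in
lemma rs_single (P : Cell → Prop) (x : Cell) : rs P (single x 1) =
    if P x then single x 1 else 0 := lext_single_one _ _

lemma rs_mem {P : Cell → Prop} {U : Set Cell} {z : Cell →₀ ℤ} (hz : z ∈ Sp U) :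
    rs P z ∈ Sp {x | x ∈ U ∧ P x} := by
  classical
  refine map_mem_of ?_ hz
  intro x hx
  rw [rs_single]
  split_ifs with h
  · exact single_mem_Sp (U := {x | x ∈ U ∧ P x}) (x := x) ⟨hx, h⟩ 1
  · exact Submodule.zero_mem _

lemma f0_top {x : Cell} (hx : x ∈ Cells) (t : ℝ) : top (f0 t x) = top x := by
  obtain ⟨n, g, ρ, h, rfl⟩ := hx
  rw [f0_cell, top_cell, top_cell]

lemma rs_top_d0 (v : Cell) {z : Cell →₀ ℤ} (hz : z ∈ Sp Cells) :
    d0 (rs (fun x => top x = v) z) = rs (fun x => top x = v) (d0 z) := by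
  classical
  refine map_congr_of (F := d0 ∘ₗ rs (fun x => top x = v))
    (G := rs (fun x => top x = v) ∘ₗ d0) ?_ hz
  intro x hx
  simp only [LinearMap.comp_apply]
  rw [rs_single, d0_single, map_sum]
  split_ifs with h
  · rw [d0_single]
    refine Finset.sum_congr rfl fun t _ => ?_
    rw [map_smul, rs_single, if_pos (by rw [f0_top hx, h])]
  · rw [map_zero]
    symm
    apply Finset.sum_eq_zero
    intro t _
    rw [map_smul, rs_single, if_neg (by rw [f0_top hx]; exact h), smul_zero]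

lemma sum_rs_top (F : Finset Cell) {U : Set Cell} (hF : ∀ x ∈ U, top x ∈ F) {z : Cell →₀ ℤ}
    (hz : z ∈ Sp U) : ∑ v ∈ F, rs (fun x => top x = v) z = z := by
  classical
  have := map_congr_of (F := ∑ v ∈ F, rs (fun x => top x = v)) (G := LinearMap.id) ?_ hz
  · simpa only [LinearMap.sum_apply, LinearMap.id_apply] using this
  · intro x hx
    rw [LinearMap.sum_apply, LinearMap.id_apply, Finset.sum_eq_single (top x)]
    · rw [rs_single, if_pos rfl]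
    · intro v _ hv
      rw [rs_single, if_neg hv.symm]
    · intro h; exact absurd (hF x hx) h

/-- exactness for the graded piece -/
theorem dm_exact {A : Finset ℝ} {m j : ℕ} (hj : 3 * j + 1 + A.card < m) {z : Cell →₀ ℤ}
    (hz : z ∈ Sp (CAm A m j)) (hdz : d0 z = 0) : ∃ u ∈ Sp (CAm A m (j + 1)), d0 u = z := by
  classical
  have hzC : z ∈ Sp Cells := Sp_mono (fun x hx => hx.1.1) hz
  set F := z.support.image top with hF
  have key : ∀ v ∈ F, ∃ u ∈ Sp (CAm A m (j + 1)), d0 u = rs (fun x => top x = v) z := by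
    intro v hv
    obtain ⟨x, hx, rfl⟩ := Finset.mem_image.1 hv
    obtain ⟨⟨h1, h2, h3⟩, h4⟩ := mem_Sp.1 hz x (by simpa using hx)
    obtain ⟨n, g, ρ, hG, rfl⟩ := h1
    obtain rfl : n = m := by
      change (Tn n g).card = m + 1 at h4
      rw [Tn_card] at h4; omega
    rw [top_cell]
    have hmem : rs (fun x => top x = cell n g ∅) z ∈ Sp (Fib n g A j) := by
      refine Sp_mono ?_ (rs_mem hz)
      rintro y ⟨hy1, hy2⟩
      exact ⟨hy1.1, hy2⟩
    obtain ⟨u, hu, hdu⟩ := fiber_exact (m := n) (g₀ := g) (A := A) hG.reach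
      (h2.trans Finset.sdiff_subset) hj hmem (by rw [rs_top_d0 _ hzC, hdz, map_zero])
    refine ⟨u, Sp_mono ?_ hu, hdu⟩
    rintro y ⟨hy1, hy2⟩
    refine ⟨hy1, ?_⟩
    have h5 : top y = cell n g ∅ := hy2
    have h6 : (top y).T = (cell n g ∅).T := by rw [h5]
    change y.T = _ at h6
    rw [h6]
    exact Tn_card n g
  choose! u hu1 hu2 using key
  refine ⟨∑ v ∈ F, u v, Submodule.sum_mem _ fun v hv => hu1 v hv, ?_⟩
  rw [map_sum, Finset.sum_congr rfl hu2]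
  refine sum_rs_top F (U := {x | z x ≠ 0}) ?_ (mem_Sp.2 fun x hx => hx)
  intro x hx
  exact Finset.mem_image.2 ⟨x, by simpa using hx, rfl⟩

/-- cells of bounded top height -/
def CL (A : Finset ℝ) (j M : ℕ) : Set Cell := {x | x ∈ CA A j ∧ x.T.card ≤ M + 1}

lemma CL_mono {A : Finset ℝ} {j M M' : ℕ} (h : M ≤ M') : CL A j M ⊆ CL A j M' := by
  rintro x ⟨h1, h2⟩
  exact ⟨h1, by omega⟩

lemma CA_f0 {A : Finset ℝ} {j : ℕ} {x : Cell} (hx : x ∈ CA A (j + 1)) {t : ℝ} (ht : t ∈ x.ρ) :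
    f0 t x ∈ CA A j := by
  obtain ⟨h1, h2, h3⟩ := hx
  refine ⟨f0_mem h1 t, sub_sdiff_erase h2 t, ?_⟩
  rw [f0_ρ]
  have := Finset.card_erase_add_one ht
  omega

lemma CA_f1 {A : Finset ℝ} {j : ℕ} {x : Cell} (hx : x ∈ CA A (j + 1)) {t : ℝ} (ht : t ∈ x.ρ) :
    f1 t x ∈ CA A j := by
  obtain ⟨h1, h2, h3⟩ := hx
  refine ⟨f1_mem h1 ht, sub_erase_sdiff h2 ht, ?_⟩
  rw [f1_ρ]
  have := Finset.card_erase_add_one ht
  omega

lemma f1_T_card {x : Cell} (hx : x ∈ Cells) {t : ℝ} (ht : t ∈ x.ρ) :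
    (f1 t x).T.card + 1 = x.T.card := by
  rw [f1_T]
  exact Finset.card_erase_add_one (Cells_ρ_sub hx ht)

lemma d0_CL {A : Finset ℝ} {j M : ℕ} {z : Cell →₀ ℤ} (hz : z ∈ Sp (CL A (j + 1) M)) :
    d0 z ∈ Sp (CL A j M) := by
  refine map_mem_of ?_ hz
  rintro x ⟨hx1, hx2⟩
  rw [d0_single]
  refine Submodule.sum_mem _ fun t ht => Submodule.smul_mem _ _ ?_
  exact single_mem_Sp (U := CL A j M) (x := f0 t x) ⟨CA_f0 hx1 ht, hx2⟩ 1

lemma d1_CL {A : Finset ℝ} {j M : ℕ} {z : Cell →₀ ℤ} (hz : z ∈ Sp (CL A (j + 1) (M + 1))) :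
    d1 z ∈ Sp (CL A j M) := by
  refine map_mem_of ?_ hz
  rintro x ⟨hx1, hx2⟩
  rw [d1_single]
  refine Submodule.sum_mem _ fun t ht => Submodule.smul_mem _ _ ?_
  refine single_mem_Sp (U := CL A j M) (x := f1 t x) ⟨CA_f1 hx1 ht, ?_⟩ 1
  have := f1_T_card hx1.1 ht
  omega

lemma d0_CAm {A : Finset ℝ} {m j : ℕ} {z : Cell →₀ ℤ} (hz : z ∈ Sp (CAm A m (j + 1))) :
    d0 z ∈ Sp (CAm A m j) := by
  refine map_mem_of ?_ hz
  rintro x ⟨hx1, hx2⟩
  rw [d0_single]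
  refine Submodule.sum_mem _ fun t ht => Submodule.smul_mem _ _ ?_
  exact single_mem_Sp (U := CAm A m j) (x := f0 t x) ⟨CA_f0 hx1 ht, hx2⟩ 1

lemma rs_of_all {P : Cell → Prop} {U : Set Cell} (h : ∀ x ∈ U, P x) {z : Cell →₀ ℤ}
    (hz : z ∈ Sp U) : rs P z = z := by
  classical
  refine map_congr_of (F := rs P) (G := LinearMap.id) ?_ hz
  intro x hx
  rw [rs_single, if_pos (h x hx), LinearMap.id_apply]

lemma rs_of_none {P : Cell → Prop} {U : Set Cell} (h : ∀ x ∈ U, ¬ P x) {z : Cell →₀ ℤ}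
    (hz : z ∈ Sp U) : rs P z = 0 := by
  classical
  refine map_congr_of (F := rs P) (G := 0) ?_ hz
  intro x hx
  rw [rs_single, if_neg (h x hx), LinearMap.zero_apply]

lemma rs_add_rs_not (P : Cell → Prop) (z : Cell →₀ ℤ) :
    rs P z + rs (fun x => ¬ P x) z = z := by
  classical
  refine map_congr_of (U := Set.univ) (F := rs P + rs (fun x => ¬ P x)) (G := LinearMap.id) ?_
    (mem_Sp.2 fun _ _ => trivial)
  intro x _
  rw [LinearMap.add_apply, rs_single, rs_single, LinearMap.id_apply]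
  by_cases h : P x
  · rw [if_pos h, if_neg (not_not.2 h), add_zero]
  · rw [if_neg h, if_pos h, zero_add]

lemma push_down {A : Finset ℝ} {j M : ℕ} (hj : 3 * (j + 1) + 1 + A.card < M + 1)
    {w : Cell →₀ ℤ} (hw : w ∈ Sp (CL A (j + 1) (M + 1))) (hdw : dc w ∈ Sp (CL A j M)) :
    ∃ w' ∈ Sp (CL A (j + 1) M), dc w' = dc w := by
  set P : Cell → Prop := fun x => x.T.card = M + 2 with hP
  have hwP : rs P w ∈ Sp (CAm A (M + 1) (j + 1)) := by
    refine Sp_mono ?_ (rs_mem hw)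
    rintro x ⟨h1, h2⟩
    exact ⟨h1.1, h2⟩
  have hwP' : rs P w ∈ Sp (CL A (j + 1) (M + 1)) := by
    refine Sp_mono ?_ hwP
    rintro x ⟨h1, h2⟩
    exact ⟨h1, h2.le⟩
  have hwN : rs (fun x => ¬ P x) w ∈ Sp (CL A (j + 1) M) := by
    refine Sp_mono ?_ (rs_mem hw)
    rintro x ⟨h1, h2⟩
    refine ⟨h1.1, ?_⟩
    have h3 := h1.2
    have h4 : x.T.card ≠ M + 2 := h2
    omega
  have hlow : ∀ x ∈ CL A j M, ¬ P x := by
    rintro x ⟨_, h2⟩ h3
    have h4 : x.T.card = M + 2 := h3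
    omega
  obtain ⟨wt, hwt⟩ : ∃ wt, wt = rs P w := ⟨_, rfl⟩
  obtain ⟨wl, hwl⟩ : ∃ wl, wl = rs (fun x => ¬ P x) w := ⟨_, rfl⟩
  have hsum : w = wt + wl := by rw [hwt, hwl, rs_add_rs_not]
  rw [← hwt] at hwP hwP'
  rw [← hwl] at hwN
  have h0 : d0 wt = 0 := by
    have e1 : rs P (dc w) = 0 := rs_of_none hlow hdw
    have e2 : dc w = d0 wt + (d0 wl - d1 w) := by
      rw [dc_eq]
      conv_lhs => rw [hsum, map_add, ← hsum]
      abel
    have e3 : rs P (d0 wt) = d0 wt := rs_of_all (U := CAm A (M + 1) j) (fun x hx => hx.2)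
      (d0_CAm hwP)
    have e4 : rs P (d0 wl - d1 w) = 0 := rs_of_none hlow
      (Submodule.sub_mem _ (d0_CL hwN) (d1_CL hw))
    rw [e2, map_add, e3, e4, add_zero] at e1
    exact e1
  obtain ⟨u, hu, hdu⟩ := dm_exact (m := M + 1) (by omega) hwP h0
  have hu' : u ∈ Sp (CL A (j + 2) (M + 1)) := by
    refine Sp_mono ?_ hu
    rintro x ⟨h1, h2⟩
    exact ⟨h1, h2.le⟩
  refine ⟨w - dc u, ?_, ?_⟩
  · have e : w - dc u = wl + d1 u := by
      rw [dc_eq, hdu, hsum]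
      abel
    rw [e]
    exact Submodule.add_mem _ hwN (d1_CL hu')
  · rw [map_sub, dc_dc (Sp_mono (fun x hx => hx.1.1) hu'), sub_zero]

lemma descend {A : Finset ℝ} {j M : ℕ} (hj : 3 * (j + 1) + 1 + A.card < M + 1) :
    ∀ (K : ℕ) {w : Cell →₀ ℤ}, w ∈ Sp (CL A (j + 1) (M + K)) → dc w ∈ Sp (CL A j M) →
      ∃ w' ∈ Sp (CL A (j + 1) M), dc w' = dc w := by
  intro K
  induction K with
  | zero => intro w hw _; exact ⟨w, hw, rfl⟩
  | succ K ih =>
    intro w hw hdw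
    obtain ⟨w', h1, h2⟩ := push_down (j := j) (M := M + K) (by omega) hw
      (Sp_mono (CL_mono (by omega)) hdw)
    obtain ⟨w'', h3, h4⟩ := ih h1 (by rw [h2]; exact hdw)
    exact ⟨w'', h3, h4.trans h2⟩

lemma exists_height {A : Finset ℝ} {j M : ℕ} {w : Cell →₀ ℤ} (hw : w ∈ Sp (CA A j)) :
    ∃ K, w ∈ Sp (CL A j (M + K)) := by
  classical
  refine ⟨w.support.sup (fun x => x.T.card), ?_⟩
  rw [mem_Sp] at hw ⊢
  intro x hx
  refine ⟨hw x hx, ?_⟩
  have := Finset.le_sup (f := fun x : Cell => x.T.card) (show x ∈ w.support by simpa using hx)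
  omega

/-- exactness of the truncated complex -/
theorem trunc_pos {A : Finset ℝ} {k M : ℕ} (hk : 3 * (k + 2) + 1 + A.card < M + 1)
    {z : Cell →₀ ℤ} (hz : z ∈ Sp (CL A (k + 1) M)) (hdz : dc z = 0) :
    ∃ u ∈ Sp (CL A (k + 2) M), dc u = z := by
  obtain ⟨w, hw, hdw⟩ := exact_pos A k (Sp_mono (fun x hx => hx.1) hz) hdz
  obtain ⟨K, hK⟩ := exists_height (M := M) hw
  obtain ⟨w', h1, h2⟩ := descend (j := k + 1) hk K hK (by rw [hdw]; exact hz)
  exact ⟨w', h1, h2.trans hdw⟩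

theorem trunc_zero {A : Finset ℝ} {M : ℕ} (hk : 3 + 1 + A.card < M + 1)
    {z : Cell →₀ ℤ} (hz : z ∈ Sp (CL A 0 M)) (hdz : aug z = 0) :
    ∃ u ∈ Sp (CL A 1 M), dc u = z := by
  obtain ⟨w, hw, hdw⟩ := exact_zero A (Sp_mono (fun x hx => hx.1) hz) hdz
  obtain ⟨K, hK⟩ := exists_height (M := M) hw
  obtain ⟨w', h1, h2⟩ := descend (j := 0) (by omega) K hK (by rw [hdw]; exact hz)
  exact ⟨w', h1, h2.trans hdw⟩

lemma dc_CL {A : Finset ℝ} {j M : ℕ} {z : Cell →₀ ℤ} (hz : z ∈ Sp (CL A (j + 1) M)) :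
    dc z ∈ Sp (CL A j M) := by
  rw [dc_eq]
  exact Submodule.sub_mem _ (d0_CL hz) (d1_CL (Sp_mono (CL_mono (by omega)) hz))

lemma aug_dc {A : Finset ℝ} {z : Cell →₀ ℤ} (hz : z ∈ Sp (CA A 1)) : aug (dc z) = 0 := by
  refine map_congr_of (F := aug ∘ₗ dc) (G := 0) ?_ hz
  rintro x ⟨hx1, hx2, hx3⟩
  rw [LinearMap.comp_apply, dc_single, Dc, map_sum, LinearMap.zero_apply]
  refine Finset.sum_eq_zero fun t _ => ?_
  rw [map_smul, map_sub, aug_single, aug_single, sub_self, smul_zero]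

end Pool.Agent.Lib_helper28.OF
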