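import Mathlib

set_option autoImplicit false

namespace Pool.Agent.Lib_helper28.OF

section FP

variable (R : Type) [Ring R]

/-- Type `FP_n` for modules, by recursion: finitely generated, respectively a finite free cover with
kernel of type `FP_n`. -/
def FP : ℕ → ∀ (M : Type) [AddCommGroup M] [Module R M], Prop
  | 0, M, _, _ => Module.Finite R M
  | n + 1, M, _, _ => ∃ (k : ℕ) (φ : (Fin k → R) →ₗ[R] M),
      Function.Surjective φ ∧ FP n (LinearMap.ker φ)

variable {R}

lemma FP_zero_iff {M : Type} [AddCommGroup M] [Module R M] : FP R 0 M ↔ Module.Finite R M :=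
  Iff.rfl

lemma FP_succ_iff {n : ℕ} {M : Type} [AddCommGroup M] [Module R M] : FP R (n + 1) M ↔
    ∃ (k : ℕ) (φ : (Fin k → R) →ₗ[R] M), Function.Surjective φ ∧ FP R n (LinearMap.ker φ) :=
  Iff.rfl

lemma FP.congr {n : ℕ} {M N : Type} [AddCommGroup M] [Module R M] [AddCommGroup N] [Module R N]
    (e : M ≃ₗ[R] N) (h : FP R n M) : FP R n N := by
  cases n with
  | zero =>
    rw [FP_zero_iff] at h ⊢
    exact Module.Finite.equiv e
  | succ n =>
    obtain ⟨k, φ, h1, h2⟩ := FP_succ_iff.1 h
    refine FP_succ_iff.2 ⟨k, e.toLinearMap ∘ₗ φ, e.surjective.comp h1, ?_⟩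
    rw [LinearEquiv.ker_comp]
    exact h2

lemma FP.pred : ∀ {n : ℕ} {M : Type} [AddCommGroup M] [Module R M], FP R (n + 1) M → FP R n M := by
  intro n
  induction n with
  | zero =>
    intro M _ _ h
    obtain ⟨k, φ, h1, _⟩ := FP_succ_iff.1 h
    exact FP_zero_iff.2 (Module.Finite.of_surjective φ h1)
  | succ n ih =>
    intro M _ _ h
    obtain ⟨k, φ, h1, h2⟩ := FP_succ_iff.1 h
    exact FP_succ_iff.2 ⟨k, φ, h1, ih h2⟩

lemma FP.mono {n m : ℕ} (hnm : n ≤ m) {M : Type} [AddCommGroup M] [Module R M]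
    (h : FP R m M) : FP R n M := by
  induction hnm with
  | refl => exact h
  | step _ ih => exact ih h.pred

/-- covers by two finite free modules -/
lemma FP_succ_of_prod {n a c : ℕ} {M : Type} [AddCommGroup M] [Module R M]
    (φ : ((Fin a → R) × (Fin c → R)) →ₗ[R] M) (h1 : Function.Surjective φ)
    (h2 : FP R n (LinearMap.ker φ)) : FP R (n + 1) M := by
  let e : (Fin (a + c) → R) ≃ₗ[R] ((Fin a → R) × (Fin c → R)) :=
    (LinearEquiv.funCongrLeft R R finSumFinEquiv).trans (LinearEquiv.sumArrowLequivProdArrow _ _ R R)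
  refine FP_succ_iff.2 ⟨a + c, φ ∘ₗ e.toLinearMap, h1.comp e.surjective, ?_⟩
  refine FP.congr ?_ h2
  refine LinearEquiv.ofBijective
    (LinearMap.codRestrict (LinearMap.ker (φ ∘ₗ e.toLinearMap))
      (e.symm.toLinearMap ∘ₗ (LinearMap.ker φ).subtype) ?_) ⟨?_, ?_⟩
  · intro x
    simp
  · intro x y hxy
    have h3 : e.symm (x : (Fin a → R) × (Fin c → R)) = e.symm (y : (Fin a → R) × (Fin c → R)) :=
      congrArg Subtype.val hxy
    exact Subtype.ext (e.symm.injective h3)
  · rintro ⟨y, hy⟩
    refine ⟨⟨e y, by simpa using hy⟩, ?_⟩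
    apply Subtype.ext
    change e.symm (e y) = y
    exact e.symm_apply_apply y

/-- extensions -/
lemma FP.ext {n : ℕ} : ∀ {A B C : Type} [AddCommGroup A] [Module R A] [AddCommGroup B] [Module R B]
    [AddCommGroup C] [Module R C] (i : A →ₗ[R] B) (p : B →ₗ[R] C), Function.Injective i →
    Function.Surjective p → Function.Exact i p → FP R n A → FP R n C → FP R n B := by
  induction n with
  | zero =>
    intro A B C _ _ _ _ _ _ i p hi hp hex hA hC
    rw [FP_zero_iff] at hA hC ⊢
    have := hA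
    have := hC
    exact Module.Finite.of_exact hex hp
  | succ n ih =>
    intro A B C _ _ _ _ _ _ i p hi hp hex hA hC
    obtain ⟨a, φA, hA1, hA2⟩ := FP_succ_iff.1 hA
    obtain ⟨c, φC, hC1, hC2⟩ := FP_succ_iff.1 hC
    obtain ⟨ψ, hψ⟩ := Module.projective_lifting_property p φC hp
    have hψ' : ∀ y, p (ψ y) = φC y := fun y => by rw [← hψ]; rfl
    have hpi : ∀ x, p (i x) = 0 := fun x => (hex (i x)).2 ⟨x, rfl⟩
    let φ : ((Fin a → R) × (Fin c → R)) →ₗ[R] B := (i ∘ₗ φA).coprod ψ
    have hφ : ∀ x y, φ (x, y) = i (φA x) + ψ y := fun x y => by simp [φ]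
    refine FP_succ_of_prod φ ?_ ?_
    · intro b
      obtain ⟨y, hy⟩ := hC1 (p b)
      have : p (b - ψ y) = 0 := by rw [map_sub, hψ', hy, sub_self]
      obtain ⟨x', hx'⟩ := (hex _).1 this
      obtain ⟨x, rfl⟩ := hA1 x'
      exact ⟨(x, y), by rw [hφ, hx']; abel⟩
    · -- the kernel
      let i' : LinearMap.ker φA →ₗ[R] LinearMap.ker φ :=
        LinearMap.codRestrict _ ((LinearMap.inl R _ _) ∘ₗ (LinearMap.ker φA).subtype) (by
          intro x
          have : φA x = 0 := x.2
          rw [LinearMap.mem_ker]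
          change φ ((x : Fin a → R), 0) = 0
          rw [hφ, this]; simp)
      let p' : LinearMap.ker φ →ₗ[R] LinearMap.ker φC :=
        LinearMap.codRestrict _ ((LinearMap.snd R _ _) ∘ₗ (LinearMap.ker φ).subtype) (by
          rintro ⟨⟨x, y⟩, hxy⟩
          rw [LinearMap.mem_ker]
          change φC y = 0
          rw [LinearMap.mem_ker, hφ] at hxy
          rw [← hψ']
          have := congrArg p hxy
          rw [map_add, hpi, zero_add, map_zero] at this
          exact this)
      refine ih i' p' ?_ ?_ ?_ hA2 hC2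
      · intro x y hxy
        have h1 : ((x : Fin a → R), (0 : Fin c → R)) = ((y : Fin a → R), 0) :=
          congrArg Subtype.val hxy
        exact Subtype.ext (congrArg Prod.fst h1)
      · rintro ⟨y, hy⟩
        rw [LinearMap.mem_ker] at hy
        have h1 : p (ψ y) = 0 := by rw [hψ', hy]
        obtain ⟨x', hx'⟩ := (hex _).1 h1
        obtain ⟨x, rfl⟩ := hA1 x'
        refine ⟨⟨(-x, y), ?_⟩, ?_⟩
        · rw [LinearMap.mem_ker, hφ, map_neg, map_neg, hx']; abel
        · apply Subtype.ext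
          rfl
      · rintro ⟨⟨x, y⟩, hxy⟩
        constructor
        · intro h
          have hy : y = 0 := congrArg Subtype.val h
          subst hy
          rw [LinearMap.mem_ker, hφ, map_zero, add_zero] at hxy
          have hx : φA x = 0 := hi (by rw [hxy, map_zero])
          exact ⟨⟨x, hx⟩, rfl⟩
        · rintro ⟨⟨x', hx'⟩, h⟩
          have h1 : (x', (0 : Fin c → R)) = (x, y) := congrArg Subtype.val h
          apply Subtype.ext
          change y = 0
          exact (congrArg Prod.snd h1).symm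

/-- cokernels -/
lemma FP.coker {n : ℕ} {B C : Type} [AddCommGroup B] [Module R B] [AddCommGroup C] [Module R C]
    (q : B →ₗ[R] C) (hq : Function.Surjective q) (hK : FP R n (LinearMap.ker q))
    (hB : FP R (n + 1) B) : FP R (n + 1) C := by
  obtain ⟨k, θ, h1, h2⟩ := FP_succ_iff.1 hB
  refine FP_succ_iff.2 ⟨k, q ∘ₗ θ, hq.comp h1, ?_⟩
  let i : LinearMap.ker θ →ₗ[R] LinearMap.ker (q ∘ₗ θ) :=
    LinearMap.codRestrict _ (LinearMap.ker θ).subtype (by
      intro x
      have : θ x = 0 := x.2
      rw [LinearMap.mem_ker]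
      change q (θ x) = 0
      rw [this, map_zero])
  let p : LinearMap.ker (q ∘ₗ θ) →ₗ[R] LinearMap.ker q :=
    LinearMap.codRestrict _ (θ ∘ₗ (LinearMap.ker (q ∘ₗ θ)).subtype) (by
      intro x
      rw [LinearMap.mem_ker]
      exact x.2)
  refine FP.ext i p ?_ ?_ ?_ h2 hK
  · intro x y hxy
    have h3 : (i x : Fin k → R) = (i y : Fin k → R) := by rw [hxy]
    exact Subtype.ext h3
  · rintro ⟨y, hy⟩
    obtain ⟨x, rfl⟩ := h1 y
    exact ⟨⟨x, hy⟩, rfl⟩
  · rintro ⟨x, hx⟩
    constructor
    · intro h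
      have h3 : θ x = 0 := congrArg Subtype.val h
      exact ⟨⟨x, h3⟩, rfl⟩
    · rintro ⟨⟨x', hx'⟩, h⟩
      have h3 : x' = x := congrArg Subtype.val h
      subst h3
      apply Subtype.ext
      exact hx'

lemma FP.of_subsingleton {n : ℕ} : ∀ {M : Type} [AddCommGroup M] [Module R M] [Subsingleton M],
    FP R n M := by
  induction n with
  | zero => intro M _ _ _; exact FP_zero_iff.2 inferInstance
  | succ n ih =>
    intro M _ _ _
    refine FP_succ_iff.2 ⟨0, 0, fun x => ⟨0, Subsingleton.elim _ _⟩, ?_⟩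
    have : Subsingleton (LinearMap.ker (0 : (Fin 0 → R) →ₗ[R] M)) := inferInstance
    exact ih

lemma FP.ring {n : ℕ} : FP R n R := by
  have h : FP R n (Fin 1 → R) := by
    cases n with
    | zero => exact FP_zero_iff.2 inferInstance
    | succ n =>
      refine FP_succ_iff.2 ⟨1, LinearMap.id, fun x => ⟨x, rfl⟩, ?_⟩
      have : Subsingleton (LinearMap.ker (LinearMap.id : (Fin 1 → R) →ₗ[R] (Fin 1 → R))) := by
        rw [LinearMap.ker_id]; infer_instance
      exact FP.of_subsingleton
  exact FP.congr (LinearEquiv.funUnique (Fin 1) R R) h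

/-- an injective surjective linear map -/
lemma FP.of_bij {n : ℕ} {M N : Type} [AddCommGroup M] [Module R M] [AddCommGroup N] [Module R N]
    (f : M →ₗ[R] N) (h1 : Function.Injective f) (h2 : Function.Surjective f) (h : FP R n M) :
    FP R n N := FP.congr (LinearEquiv.ofBijective f ⟨h1, h2⟩) h

end FP

end Pool.Agent.Lib_helper28.OF
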