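import Pool.Agent.Lib_helper28.OFReach

set_option autoImplicit false

namespace Pool.Agent.Lib_helper28.OF

open Amb Filter Topology

/-- right germ with slope `2^r` -/
def RG (f : ℝ ≃o ℝ) (x : ℝ) (r : ℤ) : Prop := ∀ᶠ y in 𝓝[≥] x, f y = f x + 2 ^ r * (y - x)

/-- left germ with slope `2^r` -/
def LG (f : ℝ ≃o ℝ) (x : ℝ) (r : ℤ) : Prop := ∀ᶠ y in 𝓝[≤] x, f y = f x + 2 ^ r * (y - x)

lemma tendsto_right (f : ℝ ≃o ℝ) (x : ℝ) : Tendsto f (𝓝[≥] x) (𝓝[≥] (f x)) := by
  refine tendsto_nhdsWithin_of_tendsto_nhds_of_eventually_within _ ?_ ?_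
  · exact (f.continuous.tendsto x).mono_left nhdsWithin_le_nhds
  · filter_upwards [self_mem_nhdsWithin] with y hy
    exact f.monotone hy

lemma tendsto_left (f : ℝ ≃o ℝ) (x : ℝ) : Tendsto f (𝓝[≤] x) (𝓝[≤] (f x)) := by
  refine tendsto_nhdsWithin_of_tendsto_nhds_of_eventually_within _ ?_ ?_
  · exact (f.continuous.tendsto x).mono_left nhdsWithin_le_nhds
  · filter_upwards [self_mem_nhdsWithin] with y hy
    exact f.monotone hy

lemma RG.comp {f g : ℝ ≃o ℝ} {x : ℝ} {r s : ℤ} (hg : RG g x r) (hf : RG f (g x) s) :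
    RG (g.trans f) x (s + r) := by
  have h2 := (tendsto_right g x).eventually hf
  filter_upwards [hg, h2] with y h3 h4
  rw [OrderIso.trans_apply, OrderIso.trans_apply, h4, h3, zpow_add₀ (by norm_num)]
  ring

lemma LG.comp {f g : ℝ ≃o ℝ} {x : ℝ} {r s : ℤ} (hg : LG g x r) (hf : LG f (g x) s) :
    LG (g.trans f) x (s + r) := by
  have h2 := (tendsto_left g x).eventually hf
  filter_upwards [hg, h2] with y h3 h4
  rw [OrderIso.trans_apply, OrderIso.trans_apply, h4, h3, zpow_add₀ (by norm_num)]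
  ring

lemma RG.symm {f : ℝ ≃o ℝ} {x : ℝ} {r : ℤ} (hf : RG f x r) : RG f.symm (f x) (-r) := by
  have h2 := tendsto_right f.symm (f x)
  rw [f.symm_apply_apply] at h2
  have h3 := h2.eventually hf
  filter_upwards [h3] with y hy
  rw [f.apply_symm_apply] at hy
  rw [f.symm_apply_apply, zpow_neg]
  have h5 : (2 : ℝ) ^ r ≠ 0 := by positivity
  have h6 : y - f x = 2 ^ r * (f.symm y - x) := by linarith
  rw [h6, ← mul_assoc, inv_mul_cancel₀ h5]
  ring

lemma LG.symm {f : ℝ ≃o ℝ} {x : ℝ} {r : ℤ} (hf : LG f x r) : LG f.symm (f x) (-r) := by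
  have h2 := tendsto_left f.symm (f x)
  rw [f.symm_apply_apply] at h2
  have h3 := h2.eventually hf
  filter_upwards [h3] with y hy
  rw [f.apply_symm_apply] at hy
  rw [f.symm_apply_apply, zpow_neg]
  have h5 : (2 : ℝ) ^ r ≠ 0 := by positivity
  have h6 : y - f x = 2 ^ r * (f.symm y - x) := by linarith
  rw [h6, ← mul_assoc, inv_mul_cancel₀ h5]
  ring

lemma RG.refl (x : ℝ) : RG (OrderIso.refl ℝ) x 0 := by
  filter_upwards with y
  simp

lemma LG.refl (x : ℝ) : LG (OrderIso.refl ℝ) x 0 := by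
  filter_upwards with y
  simp

/-- the function `a` records the slope jumps -/
def Germ (g : Amb) : Prop :=
  ∀ x, ∃ r l : ℤ, RG g.f x r ∧ LG g.f x l ∧ g.a (g.f x) = r - l

lemma Germ.one : Germ 1 := fun x => ⟨0, 0, RG.refl x, LG.refl x, rfl⟩

lemma Germ.iota (c : ℝ → ℝ → ℤ) : Germ (iota c) := fun x => ⟨0, 0, RG.refl x, LG.refl x, rfl⟩

lemma Germ.mul {g h : Amb} (hg : Germ g) (hh : Germ h) : Germ (g * h) := by
  intro x
  obtain ⟨r, l, h1, h2, h3⟩ := hh x
  obtain ⟨r', l', h4, h5, h6⟩ := hg (h.f x)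
  refine ⟨r' + r, l' + l, h1.comp h4, h2.comp h5, ?_⟩
  rw [mul_a, mul_f_apply, OrderIso.symm_apply_apply, h3, h6]
  ring

lemma Germ.inv {g : Amb} (hg : Germ g) : Germ g⁻¹ := by
  intro x
  obtain ⟨r, l, h1, h2, h3⟩ := hg (g.f.symm x)
  have h4 := h1.symm
  have h5 := h2.symm
  rw [OrderIso.apply_symm_apply] at h3 h4 h5
  refine ⟨-r, -l, h4, h5, ?_⟩
  rw [inv_a, inv_f_apply, OrderIso.apply_symm_apply, h3]
  ring

lemma Germ.lh (u : ℝ) : Germ (lh u) := by
  intro x
  rw [lh_a, lh_f]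
  rcases lt_trichotomy x u with h | h | h
  · refine ⟨0, 0, ?_, ?_, ?_⟩
    · filter_upwards [mem_nhdsWithin_of_mem_nhds (Iio_mem_nhds h)] with y hy
      rw [lam_of_le (le_of_lt hy), lam_of_le h.le]; simp
    · filter_upwards [self_mem_nhdsWithin] with y hy
      rw [lam_of_le ((show y ≤ x from hy).trans h.le), lam_of_le h.le]; simp
    · rw [lam_of_le h.le, ja, if_neg (by linarith), if_neg h.ne]
  · subst h
    refine ⟨-1, 0, ?_, ?_, ?_⟩
    · filter_upwards [self_mem_nhdsWithin,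
        mem_nhdsWithin_of_mem_nhds (Iio_mem_nhds (show x < x + 2 by linarith))] with y hy hy'
      rw [lam_mid hy (le_of_lt hy'), lam_of_le le_rfl, zpow_neg_one]; ring
    · filter_upwards [self_mem_nhdsWithin] with y hy
      rw [lam_of_le hy, lam_of_le le_rfl]; simp
    · rw [lam_of_le le_rfl, ja, if_neg (by linarith), if_pos rfl]; simp
  · rcases lt_trichotomy x (u + 2) with h2 | h2 | h2
    · refine ⟨-1, -1, ?_, ?_, ?_⟩
      · filter_upwards [self_mem_nhdsWithin,
          mem_nhdsWithin_of_mem_nhds (Iio_mem_nhds h2)] with y hy hy'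
        rw [lam_mid (h.le.trans hy) (le_of_lt hy'), lam_mid h.le h2.le, zpow_neg_one]; ring
      · filter_upwards [self_mem_nhdsWithin,
          mem_nhdsWithin_of_mem_nhds (Ioi_mem_nhds h)] with y hy hy'
        rw [lam_mid (le_of_lt hy') ((show y ≤ x from hy).trans h2.le), lam_mid h.le h2.le,
          zpow_neg_one]
        ring
      · rw [lam_mid h.le h2.le, ja, if_neg (by intro h3; linarith), if_neg (by intro h3; linarith)]
        simp
    · subst h2
      refine ⟨0, -1, ?_, ?_, ?_⟩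
      · filter_upwards [self_mem_nhdsWithin] with y hy
        rw [lam_of_ge hy, lam_of_ge le_rfl]; simp
      · filter_upwards [self_mem_nhdsWithin,
          mem_nhdsWithin_of_mem_nhds (Ioi_mem_nhds h)] with y hy hy'
        rw [lam_mid (le_of_lt hy') hy, lam_mid h.le le_rfl, zpow_neg_one]
        ring
      · rw [lam_of_ge le_rfl, ja, if_pos (by ring), if_neg (by intro h3; linarith)]
        simp
    · refine ⟨0, 0, ?_, ?_, ?_⟩
      · filter_upwards [self_mem_nhdsWithin] with y hy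
        rw [lam_of_ge (h2.le.trans hy), lam_of_ge h2.le]; simp
      · filter_upwards [mem_nhdsWithin_of_mem_nhds (Ioi_mem_nhds h2)] with y hy
        rw [lam_of_ge (le_of_lt hy), lam_of_ge h2.le]; simp
      · rw [lam_of_ge h2.le, ja, if_neg (by intro h3; linarith), if_neg (by intro h3; linarith)]

lemma Reach.germ {n : ℕ} {g : Amb} (h : Reach n g) : Germ g := by
  induction h with
  | one => exact Germ.one
  | split i _ _ ih => exact ih.mul (Germ.lh _)
  | merge i _ _ ih => exact ih.mul (Germ.lh _).inv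
  | lab _ _ ih => exact ih.mul (Germ.iota _)

lemma zpow_two_eq_one {r : ℤ} (h : (2 : ℝ) ^ r = 1) : r = 0 := by
  have := zpow_right_injective₀ (a := (2 : ℝ)) (by norm_num) (by norm_num)
    (show (2 : ℝ) ^ r = (2 : ℝ) ^ (0 : ℤ) by rw [h]; simp)
  exact this

lemma RG.eq_zero {f : ℝ ≃o ℝ} {x : ℝ} {r : ℤ} (hf : RG f x r)
    (h : ∀ᶠ y in 𝓝[≥] x, f y = y) : r = 0 := by
  have hx : f x = x := h.self_of_nhdsWithin (Set.mem_Ici.2 le_rfl)
  have h1 : ∀ᶠ y in 𝓝[>] x, f y = f x + 2 ^ r * (y - x) :=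
    hf.filter_mono (nhdsWithin_mono x Set.Ioi_subset_Ici_self)
  have h2 : ∀ᶠ y in 𝓝[>] x, f y = y :=
    h.filter_mono (nhdsWithin_mono x Set.Ioi_subset_Ici_self)
  obtain ⟨y, h3, h4, h5⟩ := (h1.and (h2.and self_mem_nhdsWithin)).exists
  have h6 : y - x ≠ 0 := sub_ne_zero.2 (ne_of_gt h5)
  apply zpow_two_eq_one
  have h7 : 2 ^ r * (y - x) = 1 * (y - x) := by
    rw [h4, hx] at h3; linarith
  exact mul_right_cancel₀ h6 h7

lemma LG.eq_zero {f : ℝ ≃o ℝ} {x : ℝ} {r : ℤ} (hf : LG f x r)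
    (h : ∀ᶠ y in 𝓝[≤] x, f y = y) : r = 0 := by
  have hx : f x = x := h.self_of_nhdsWithin (Set.mem_Iic.2 le_rfl)
  have h1 : ∀ᶠ y in 𝓝[<] x, f y = f x + 2 ^ r * (y - x) :=
    hf.filter_mono (nhdsWithin_mono x Set.Iio_subset_Iic_self)
  have h2 : ∀ᶠ y in 𝓝[<] x, f y = y :=
    h.filter_mono (nhdsWithin_mono x Set.Iio_subset_Iic_self)
  obtain ⟨y, h3, h4, h5⟩ := (h1.and (h2.and self_mem_nhdsWithin)).exists
  have h6 : y - x ≠ 0 := sub_ne_zero.2 (ne_of_lt h5)
  apply zpow_two_eq_one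
  have h7 : 2 ^ r * (y - x) = 1 * (y - x) := by
    rw [h4, hx] at h3; linarith
  exact mul_right_cancel₀ h6 h7

lemma RG.fix {f : ℝ ≃o ℝ} {x : ℝ} (hf : RG f x 0) (hx : f x = x) :
    ∀ᶠ y in 𝓝[≥] x, f y = y := by
  filter_upwards [hf] with y hy
  rw [hy, hx]; simp

lemma fix_of_lt {f : ℝ ≃o ℝ} {s : ℝ} (h : ∀ x < s, f x = x) : f s = s := by
  rcases lt_trichotomy (f s) s with h1 | h1 | h1
  · exact f.injective (h _ h1)
  · exact h1
  · have h2 : f.symm s < s := by
      rw [← f.lt_iff_lt, f.apply_symm_apply]; exact h1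
    have h3 := h _ h2
    rw [f.apply_symm_apply] at h3
    linarith

/-- data at the first moved point -/
lemma first_point {g : Amb} (hg : Germ g) {s : ℝ} (h : ∀ x < s, g.f x = x) :
    ∃ r : ℤ, RG g.f s r ∧ g.a s = r ∧ g.f s = s := by
  have hs := fix_of_lt h
  obtain ⟨r, l, h1, h2, h3⟩ := hg s
  have hl : l = 0 := by
    apply h2.eq_zero
    filter_upwards [self_mem_nhdsWithin] with y hy
    rcases (show y ≤ s from hy).lt_or_eq with h4 | h4
    · exact h y h4
    · rw [h4]; exact hs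
  refine ⟨r, h1, ?_, hs⟩
  rw [hs, hl, sub_zero] at h3
  exact h3

/-- the basic identity for commuting elements -/
lemma comm_identity {x y : Amb} (h : x * y = y * x) {s t : ℝ} (hxs : x.f s = s) (hxt : x.f t = t)
    (hys : y.f s = s) (hyt : y.f t = t) : x.a s * y.a t = y.a s * x.a t := by
  have h1 : (x * y).c s t = (y * x).c s t := by rw [h]
  rw [mul_c, mul_c] at h1
  have e1 : x.f.symm s = s := by rw [OrderIso.symm_apply_eq, hxs]
  have e2 : x.f.symm t = t := by rw [OrderIso.symm_apply_eq, hxt]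
  have e3 : y.f.symm s = s := by rw [OrderIso.symm_apply_eq, hys]
  have e4 : y.f.symm t = t := by rw [OrderIso.symm_apply_eq, hyt]
  rw [e1, e2, e3, e4] at h1
  linarith

/-- elements fixing `s`, as a subgroup, with the homomorphism `a` -/
lemma zpow_fix {x : Amb} {s : ℝ} (hx : x.f s = s) (p : ℤ) :
    (x ^ p).f s = s ∧ (x ^ p).a s = p * x.a s := by
  have hnat : ∀ n : ℕ, (x ^ n).f s = s ∧ (x ^ n).a s = n * x.a s := by
    intro n
    induction n with
    | zero => simp [one_f_apply, one_a]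
    | succ n ih =>
      obtain ⟨h1, h2⟩ := ih
      have e : (x ^ n).f.symm s = s := by rw [OrderIso.symm_apply_eq, h1]
      rw [pow_succ]
      constructor
      · rw [mul_f_apply, hx, h1]
      · rw [mul_a, e, h2]; push_cast; ring
  obtain ⟨n, rfl | rfl⟩ := Int.eq_nat_or_neg p
  · rw [zpow_natCast]
    exact hnat n
  · obtain ⟨h1, h2⟩ := hnat n
    rw [zpow_neg, zpow_natCast]
    constructor
    · rw [inv_f_apply, OrderIso.symm_apply_eq, h1]
    · rw [inv_a, h1, h2]; ring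

lemma mul_fix {x y : Amb} {s : ℝ} (hx : x.f s = s) (hy : y.f s = s) :
    (x * y).f s = s ∧ (x * y).a s = x.a s + y.a s := by
  have e : x.f.symm s = s := by rw [OrderIso.symm_apply_eq, hx]
  exact ⟨by rw [mul_f_apply, hy, hx], by rw [mul_a, e]⟩

lemma comm_fix_first {x z : Amb} (h : x * z = z * x) {t : ℝ} (ht : ∀ y < t, z.f y = y)
    (hinf : ∀ t' > t, ∃ y < t', z.f y ≠ y) : x.f t = t := by
  have key : ∀ w : Amb, w * z = z * w → w.f t ≤ t := by
    intro w hw
    by_contra hcon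
    push Not at hcon
    obtain ⟨y, hy, hy2⟩ := hinf _ hcon
    apply hy2
    have h1 : w.f.symm y < t := by
      rw [← w.f.lt_iff_lt, w.f.apply_symm_apply]; exact hy
    have h2 := ht _ h1
    have h3 : (w * z).f (w.f.symm y) = (z * w).f (w.f.symm y) := by rw [hw]
    rw [mul_f_apply, mul_f_apply, h2, w.f.apply_symm_apply] at h3
    exact h3.symm
  have h1 := key x h
  have h2 := key x⁻¹ (by
    rw [inv_mul_eq_iff_eq_mul, ← mul_assoc, h, mul_assoc, mul_inv_cancel, mul_one])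
  rw [inv_f_apply] at h2
  have h3 : t ≤ x.f t := by
    have := x.f.monotone h2
    rwa [x.f.apply_symm_apply] at this
  exact le_antisymm h1 h3

/-- Commuting elements of the group have a common power relation modulo labels. -/
theorem comm_relation {x y : Amb} (hx : Reach 1 x) (hy : Reach 1 y) (h : x * y = y * x) :
    ∃ p q : ℤ, (p ≠ 0 ∨ q ≠ 0) ∧ ∀ t, (x ^ p * y ^ q).f t = t := by
  by_cases hE : ∃ s, x.f s ≠ s ∨ y.f s ≠ s
  swap
  · push Not at hE
    refine ⟨1, 0, Or.inl one_ne_zero, fun t => ?_⟩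
    rw [zpow_one, zpow_zero, mul_one]
    exact (hE t).1
  -- first moved point
  have hfirst : ∀ (E : Set ℝ), E.Nonempty → (∀ e ∈ E, 0 < e) → ∃ s, (∀ e < s, e ∉ E) ∧
      ∀ s' > s, ∃ e < s', e ∈ E := by
    intro E hE1 hE2
    have hb : BddBelow E := ⟨0, fun e he => (hE2 e he).le⟩
    refine ⟨sInf E, fun e he h => ?_, fun s' hs' => ?_⟩
    · exact absurd (csInf_le hb h) (not_le.2 he)
    · obtain ⟨e, he1, he2⟩ := exists_lt_of_csInf_lt hE1 hs'
      exact ⟨e, he2, he1⟩
  obtain ⟨s, hs1, hs2⟩ := hfirst {s | x.f s ≠ s ∨ y.f s ≠ s} hE (by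
    intro e he
    by_contra hcon
    push Not at hcon
    rcases he with h1 | h1
    · exact h1 (hx.f_nonpos hcon)
    · exact h1 (hy.f_nonpos hcon))
  have hxs : ∀ e < s, x.f e = e := fun e he => by
    by_contra hcon; exact hs1 e he (Or.inl hcon)
  have hys : ∀ e < s, y.f e = e := fun e he => by
    by_contra hcon; exact hs1 e he (Or.inr hcon)
  obtain ⟨r, hr1, hr2, hr3⟩ := first_point hx.germ hxs
  obtain ⟨r', hr1', hr2', hr3'⟩ := first_point hy.germ hys
  have hne : ¬ (r = 0 ∧ r' = 0) := by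
    rintro ⟨rfl, rfl⟩
    have h1 := (hr1.fix hr3).and (hr1'.fix hr3')
    rw [eventually_nhdsWithin_iff, Metric.eventually_nhds_iff] at h1
    obtain ⟨ε, hε, h2⟩ := h1
    obtain ⟨e, he1, he2⟩ := hs2 (s + ε) (by linarith)
    rcases lt_or_ge e s with h3 | h3
    · exact hs1 e h3 he2
    · have := h2 (y := e) (by rw [Real.dist_eq, abs_of_nonneg (by linarith)]; linarith) h3
      rcases he2 with h4 | h4
      · exact h4 this.1
      · exact h4 this.2
  refine ⟨r', -r, ?_, ?_⟩
  · by_contra hcon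
    push Not at hcon
    exact hne ⟨by linarith [hcon.2], hcon.1⟩
  set z := x ^ r' * y ^ (-r) with hz
  by_contra hcon
  push Not at hcon
  have hzR : Reach 1 z := (GG.mul_mem (GG.zpow_mem (mem_GG.2 hx) r')
    (GG.zpow_mem (mem_GG.2 hy) (-r)))
  obtain ⟨t, ht1, ht2⟩ := hfirst {t | z.f t ≠ t} hcon (by
    intro e he
    by_contra hcon2
    push Not at hcon2
    exact he (hzR.f_nonpos hcon2))
  have hzt : ∀ e < t, z.f e = e := fun e he => by
    by_contra hcon; exact ht1 e he hcon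
  obtain ⟨k, hk1, hk2, hk3⟩ := first_point hzR.germ hzt
  have hk0 : k ≠ 0 := by
    rintro rfl
    have h1 := hk1.fix hk3
    rw [eventually_nhdsWithin_iff, Metric.eventually_nhds_iff] at h1
    obtain ⟨ε, hε, h2⟩ := h1
    obtain ⟨e, he1, he2⟩ := ht2 (t + ε) (by linarith)
    rcases lt_or_ge e t with h3 | h3
    · exact ht1 e h3 he2
    · have := h2 (y := e) (by rw [Real.dist_eq, abs_of_nonneg (by linarith)]; linarith) h3
      exact he2 this
  have hxz : x * z = z * x := by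
    rw [hz]
    have c1 : Commute x (x ^ r') := (Commute.refl x).zpow_right r'
    have c2 : Commute x (y ^ (-r)) := (show Commute x y from h).zpow_right (-r)
    exact (c1.mul_right c2).eq
  have hyz : y * z = z * y := by
    rw [hz]
    have c1 : Commute y (x ^ r') := (show Commute y x from h.symm).zpow_right r'
    have c2 : Commute y (y ^ (-r)) := (Commute.refl y).zpow_right (-r)
    exact (c1.mul_right c2).eq
  have hxt : x.f t = t := comm_fix_first hxz hzt ht2
  have hyt : y.f t = t := comm_fix_first hyz hzt ht2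
  -- values at s
  obtain ⟨f1, a1⟩ := zpow_fix hr3 r'
  obtain ⟨f2, a2⟩ := zpow_fix hr3' (-r)
  obtain ⟨f3, a3⟩ := mul_fix f1 f2
  rw [← hz] at f3 a3
  have hzs : z.a s = 0 := by
    rw [a3, a1, a2, hr2, hr2']; ring
  have i1 := comm_identity hxz hr3 hxt f3 hk3
  have i2 := comm_identity hyz hr3' hyt f3 hk3
  rw [hzs, zero_mul, hr2, hk2] at i1
  rw [hzs, zero_mul, hr2', hk2] at i2
  apply hne
  constructor
  · exact (mul_eq_zero.1 i1).resolve_right hk0
  · exact (mul_eq_zero.1 i2).resolve_right hk0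

/-- elements of the group acting trivially are pure labels -/
lemma trivial_comm {x y : Amb} (hx : Reach 1 x) (hy : Reach 1 y) (h1 : ∀ t, x.f t = t)
    (h2 : ∀ t, y.f t = t) : x * y = y * x := by
  have key : ∀ z : Amb, Reach 1 z → (∀ t, z.f t = t) → z = iota z.c := by
    intro z hz hzt
    refine Amb.ext rfl ?_ ?_
    · funext t
      obtain ⟨r, l, h3, h4, h5⟩ := hz.germ t
      have h6 : r = 0 := h3.eq_zero (Eventually.of_forall hzt)
      have h7 : l = 0 := h4.eq_zero (Eventually.of_forall hzt)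
      rw [hzt, h6, h7] at h5
      rw [h5]; rfl
    · ext t
      exact hzt t
  rw [key x hx h1, key y hy h2, iota_mul_iota, iota_mul_iota]
  congr 1
  funext s t
  rw [add_comm]

end Pool.Agent.Lib_helper28.OF
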