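import Pool.Agent.Lib_helper28.OFType
import Pool.Agent.Lib_helper28.OFGerm
import Pool.Agent.Lib_helper28.OFThompson

set_option autoImplicit false

namespace Pool.Agent.Lib_helper28.OF

open Amb Finsupp
open scoped Pointwise

/-- the interior division points -/
def SS : Set ℝ := {t | ∃ (n : ℕ) (g : Amb) (i : ℕ), Reach n g ∧ 1 ≤ i ∧ i < n ∧ t = g.f (i : ℝ)}

lemma SS_smul {u : Amb} (hu : u ∈ GG) {t : ℝ} (ht : t ∈ SS) : u.f t ∈ SS := by
  obtain ⟨n, g, i, hg, h1, h2, rfl⟩ := ht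
  exact ⟨n, u * g, i, hg.left hu, h1, h2, rfl⟩

noncomputable instance actSS : MulAction GG SS where
  smul u t := ⟨u.1.f t.1, SS_smul u.2 t.2⟩
  one_smul _ := Subtype.ext rfl
  mul_smul _ _ _ := Subtype.ext rfl

lemma smul_SS_coe (u : GG) (t : SS) : ((u • t : SS) : ℝ) = u.1.f t := rfl

lemma Reach.f_zero {n : ℕ} {g : Amb} (h : Reach n g) : g.f ((0 : ℕ) : ℝ) = 0 := by
  rw [Nat.cast_zero]
  exact h.f_nonpos le_rfl

lemma Reach.f_last {n : ℕ} {g : Amb} (h : Reach n g) : g.f (n : ℝ) = 1 := by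
  rw [h.f_ge le_rfl]; ring

lemma SS_pos {t : ℝ} (ht : t ∈ SS) : 0 < t ∧ t < 1 := by
  obtain ⟨n, g, i, hg, h1, h2, rfl⟩ := ht
  constructor
  · rw [← hg.f_zero, g.f.lt_iff_lt]
    exact_mod_cast h1
  · rw [← hg.f_last, g.f.lt_iff_lt]
    exact_mod_cast h2

lemma base_isV : IsV base := ⟨1, 1, Reach.one, rfl⟩

lemma exists_vertex (A : Finset ℝ) (hA : ∀ a ∈ A, a ∈ SS) :
    ∃ (n : ℕ) (g : Amb), Reach n g ∧ A ⊆ Tn n g := by
  classical
  have : Nonempty Cell := ⟨base⟩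
  have h1 : ∀ a ∈ A, ∃ x : Cell, IsV x ∧ a ∈ x.T := by
    intro a ha
    obtain ⟨n, g, i, hg, h1, h2, rfl⟩ := hA a ha
    exact ⟨cell n g ∅, ⟨n, g, hg, rfl⟩, f_mem_Tn h2.le⟩
  choose! v hv1 hv2 using h1
  obtain ⟨w, hw1, hw2⟩ := directed_finset (A.image v) (by
    intro x hx
    obtain ⟨a, ha, rfl⟩ := Finset.mem_image.1 hx
    exact hv1 a ha)
  obtain ⟨n, g, hg, rfl⟩ := hw1.isV base_isV
  refine ⟨n, g, hg, fun a ha => ?_⟩
  exact (hw2 _ (Finset.mem_image_of_mem v ha)).T_sub (hv2 a ha)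

lemma normal_form (A : Finset ℝ) (hA : ∀ a ∈ A, a ∈ SS) :
    ∃ g : Amb, Reach (A.card + 1) g ∧ im g (Finset.Ico 1 (A.card + 1)) = A := by
  classical
  have hex : ∃ n, ∃ g : Amb, Reach n g ∧ A ⊆ Tn n g := exists_vertex A hA
  obtain ⟨g, hg, hgA⟩ := Nat.find_spec hex
  have hmin : ∀ m < Nat.find hex, ¬ ∃ g : Amb, Reach m g ∧ A ⊆ Tn m g :=
    fun m hm => Nat.find_min hex hm
  generalize Nat.find hex = n at hg hgA hmin
  have himA : im g (Finset.Ico 1 n) = A := by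
    ext s
    constructor
    · intro hs
      obtain ⟨i, hi, rfl⟩ := Finset.mem_image.1 hs
      obtain ⟨h1, h2⟩ := Finset.mem_Ico.1 hi
      by_contra hcon
      obtain ⟨k, rfl⟩ : ∃ k, i = k + 1 := ⟨i - 1, by omega⟩
      obtain ⟨m, rfl⟩ : ∃ m, n = m + 1 := ⟨n - 1, by omega⟩
      refine hmin m (by omega) ⟨g * (lh k)⁻¹, hg.merge k (by omega), ?_⟩
      rw [Tn_merge g (by omega)]
      intro a ha
      refine Finset.mem_erase.2 ⟨?_, hgA ha⟩
      rintro rfl
      exact hcon ha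
    · intro hs
      obtain ⟨i, hi, rfl⟩ := mem_Tn.1 (hgA hs)
      obtain ⟨h1, h2⟩ := SS_pos (hA _ hs)
      rw [mem_im, Finset.mem_Ico]
      constructor
      · rcases Nat.eq_zero_or_pos i with rfl | h
        · rw [hg.f_zero] at h1; exact absurd h1 (lt_irrefl _)
        · exact h
      · rcases Nat.lt_or_ge i n with h | h
        · exact h
        · have : i = n := by omega
          subst this
          rw [hg.f_last] at h2; exact absurd h2 (lt_irrefl _)
  have hcard : A.card = n - 1 := by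
    rw [← himA, im_card, Nat.card_Ico]
  have hn := hg.pos
  have : A.card + 1 = n := by omega
  rw [this]
  exact ⟨g, hg, himA⟩

lemma homogeneous {A B : Finset ℝ} (hA : ∀ a ∈ A, a ∈ SS) (hB : ∀ a ∈ B, a ∈ SS)
    (hAB : A.card = B.card) : ∃ u ∈ GG, A.image u.f = B := by
  obtain ⟨g, hg, h1⟩ := normal_form A hA
  obtain ⟨g', hg', h2⟩ := normal_form B hB
  rw [← hAB] at hg' h2
  refine ⟨g' * g⁻¹, hg.torsor hg', ?_⟩
  conv_lhs => rw [← h1]
  rw [← im_mul, inv_mul_cancel_right, h2]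

lemma exists_reach (n : ℕ) : ∃ g, Reach (n + 1) g := by
  induction n with
  | zero => exact ⟨1, Reach.one⟩
  | succ n ih =>
    obtain ⟨g, hg⟩ := ih
    exact ⟨_, hg.split 0 (by omega)⟩

lemma SS_infinite : Infinite SS := by
  classical
  rw [← not_finite_iff_infinite]
  intro hfin
  have hf : (SS : Set ℝ).Finite := hfin
  obtain ⟨g, hg⟩ := exists_reach (hf.toFinset.card + 1)
  have hsub : im g (Finset.Ico 1 (hf.toFinset.card + 1 + 1)) ⊆ hf.toFinset := by
    intro s hs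
    obtain ⟨i, hi, rfl⟩ := Finset.mem_image.1 hs
    obtain ⟨h1, h2⟩ := Finset.mem_Ico.1 hi
    rw [Set.Finite.mem_toFinset]
    exact ⟨_, g, i, hg, h1, h2, rfl⟩
  have := Finset.card_le_card hsub
  rw [im_card, Nat.card_Ico] at this
  omega

open Classical in
/-- underlying reals -/
noncomputable def re (A : Finset SS) : Finset ℝ := A.image (fun t : SS => (t : ℝ))

lemma re_mem {A : Finset SS} : ∀ a ∈ re A, a ∈ SS := by
  intro a ha
  obtain ⟨t, _, rfl⟩ := Finset.mem_image.1 ha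
  exact t.2

lemma re_card (A : Finset SS) : (re A).card = A.card :=
  Finset.card_image_of_injective _ Subtype.val_injective

lemma smul_iff (u : GG) (A B : Finset SS) :
    u • (A : Set SS) = (B : Set SS) ↔ (re A).image u.1.f = re B := by
  classical
  rw [← Finset.coe_inj]
  have e1 : (((re A).image u.1.f : Finset ℝ) : Set ℝ) =
      (fun t : SS => (t : ℝ)) '' (u • (A : Set SS)) := by
    rw [Finset.coe_image, re, Finset.coe_image]
    ext s
    constructor
    · rintro ⟨_, ⟨t, ht, rfl⟩, rfl⟩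
      exact ⟨u • t, Set.smul_mem_smul_set ht, rfl⟩
    · rintro ⟨_, ⟨t, ht, rfl⟩, rfl⟩
      exact ⟨t, ⟨t, ht, rfl⟩, rfl⟩
  have e2 : ((re B : Finset ℝ) : Set ℝ) = (fun t : SS => (t : ℝ)) '' (B : Set SS) := by
    rw [re, Finset.coe_image]
  rw [e1, e2]
  constructor
  · intro h; rw [h]
  · intro h
    exact (Subtype.val_injective.image_injective) h

theorem oligomorphic_SS : Oligomorphic GG SS := by
  intro n _
  apply Set.Subsingleton.finite
  rintro _ ⟨A, hA, rfl⟩ _ ⟨B, hB, rfl⟩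
  obtain ⟨u, hu, h⟩ := homogeneous (re_mem (A := A)) (re_mem (A := B))
    (by rw [re_card, re_card, hA, hB])
  have h2 : (⟨u, hu⟩ : GG) • (A : Set SS) = (B : Set SS) := (smul_iff _ A B).2 h
  rw [← h2, MulAction.orbit_smul]

/-- stabilisers as setups -/
noncomputable def stabSetup (A : Finset SS) :
    Setup (re A) (MulAction.stabilizer GG (A : Set SS)) where
  e := GG.subtype.comp (MulAction.stabilizer GG (A : Set SS)).subtype
  hC := fun _ _ => rfl
  hA := fun _ _ => rfl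
  inj := by
    intro a b h
    apply Subtype.ext
    apply Subtype.ext
    exact h
  range := by
    intro g
    constructor
    · rintro ⟨h, rfl⟩
      refine ⟨h.1.2, ?_⟩
      exact (smul_iff h.1 A A).1 (MulAction.mem_stabilizer_iff.1 h.2)
    · rintro ⟨h1, h2⟩
      exact ⟨⟨⟨g, h1⟩, MulAction.mem_stabilizer_iff.2 ((smul_iff ⟨g, h1⟩ A A).2 h2)⟩, rfl⟩

theorem stab_typeFP (A : Finset SS) (n : ℕ) :
    TypeFP n (MulAction.stabilizer GG (A : Set SS)) := by
  obtain ⟨m, g, hg, hA⟩ := exists_vertex (re A) re_mem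
  exact typeFP_of_setup (stabSetup A) hg hA n

lemma conj_trivial {x k : Amb} (h : ∀ t, x.f t = t) : ∀ t, (k * x * k⁻¹).f t = t := by
  intro t
  rw [mul_f_apply, mul_f_apply, h, inv_f_apply, OrderIso.apply_symm_apply]

/-- No injective homomorphism from a group with suitable elements. -/
lemma no_embedding {F : Type} [Group F] (u v : F) (huv : u * v = v * u)
    (h1 : ∀ p q : ℤ, (p ≠ 0 ∨ q ≠ 0) → u ^ p * v ^ q ≠ 1)
    (h2 : ∀ h : F, h ≠ 1 → ∃ k : F, h * (k * h * k⁻¹) ≠ (k * h * k⁻¹) * h)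
    (φ : F →* Amb) (hφ : Function.Injective φ) (hG : ∀ x, Reach 1 (φ x)) : False := by
  have hcomm : φ u * φ v = φ v * φ u := by rw [← map_mul, huv, map_mul]
  obtain ⟨p, q, hpq, htriv⟩ := comm_relation (hG u) (hG v) hcomm
  obtain ⟨k, hk⟩ := h2 _ (h1 p q hpq)
  apply hk
  apply hφ
  have ht1 : ∀ t, (φ (u ^ p * v ^ q)).f t = t := by
    rw [map_mul, map_zpow, map_zpow]; exact htriv
  have ht2 : ∀ t, (φ (k * (u ^ p * v ^ q) * k⁻¹)).f t = t := by
    rw [map_mul, map_mul, map_inv]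
    exact conj_trivial ht1
  rw [map_mul φ (u ^ p * v ^ q) (k * (u ^ p * v ^ q) * k⁻¹),
    map_mul φ (k * (u ^ p * v ^ q) * k⁻¹) (u ^ p * v ^ q)]
  exact trivial_comm (hG _) (hG _) ht1 ht2

theorem no_F : ¬ ∃ φ : ThompsonF →* GG, Function.Injective φ := by
  rintro ⟨φ, hφ⟩
  refine no_embedding uF vF uv_comm (fun p q h => uv_ne_one h) ?_ (GG.subtype.comp φ)
    (Subtype.val_injective.comp hφ) (fun x => (φ x).2)
  intro h hne
  obtain ⟨k, hk, hnc⟩ := exists_noncomm (h := h.1) (fun h2 => hne (Subtype.ext h2))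
  exact ⟨⟨k, hk⟩, fun h3 => hnc (congrArg Subtype.val h3)⟩

theorem main : ∃ (G : Type) (_ : Group G) (S : Type) (_ : MulAction G S),
    Infinite S ∧ Oligomorphic G S ∧
    (∀ A : Finset S, ∀ n : ℕ, TypeFP n (MulAction.stabilizer G (A : Set S))) ∧
    ¬ ∃ φ : ThompsonF →* G, Function.Injective φ :=
  ⟨GG, inferInstance, SS, inferInstance, SS_infinite, oligomorphic_SS, stab_typeFP, no_F⟩

end Pool.Agent.Lib_helper28.OF
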