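import Pool.Agent.Lib_helper28.OFChain

set_option autoImplicit false

namespace Pool.Agent.Lib_helper28.OF

open Finsupp

/-! The model complex: independent sets in a set of integers with labels. -/

variable {Λ : Type} (ends : Λ → Finset ℕ)

/-- the label position `e` is active for `R` -/
def act (R : Finset ℕ) (e : Λ) : Prop := ∃ i ∈ ends e, i ∈ R

lemma act_mono {R R' : Finset ℕ} (h : R ⊆ R') {e : Λ} (ha : act ends R e) : act ends R' e := by
  obtain ⟨i, hi, hi'⟩ := ha
  exact ⟨i, hi, h hi'⟩

open Classical in
/-- keep only active labels -/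
noncomputable def resl (R : Finset ℕ) (l : Λ → ℤ) : Λ → ℤ := fun e => if act ends R e then l e else 0

lemma resl_resl {R R' : Finset ℕ} (h : R' ⊆ R) (l : Λ → ℤ) :
    resl ends R' (resl ends R l) = resl ends R' l := by
  funext e
  unfold resl
  by_cases h1 : act ends R' e
  · simp [h1, act_mono ends h h1]
  · simp [h1]

lemma resl_zero (R : Finset ℕ) : resl ends R (fun _ => 0) = fun _ => 0 := by
  funext e
  simp [resl]

open Classical in
lemma resl_update (R : Finset ℕ) (l : Λ → ℤ) (e : Λ) (n : ℤ) (h : act ends R e ∨ n = 0) :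
    resl ends R (Function.update l e n) = Function.update (resl ends R l) e n := by
  funext e'
  by_cases h1 : e' = e
  · subst h1
    simp only [resl, Function.update_self]
    rcases h with h | h
    · simp [h]
    · simp [h]
  · simp [resl, Function.update_of_ne h1]

open Classical in
lemma resl_update_of_not (R : Finset ℕ) (l : Λ → ℤ) (e : Λ) (n : ℤ) (h : ¬ act ends R e) :
    resl ends R (Function.update l e n) = resl ends R l := by
  funext e'
  by_cases h1 : e' = e
  · subst h1
    simp [resl, h]
  · simp [resl, Function.update_of_ne h1]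

/-- basis -/
abbrev XM (Λ : Type) := Finset ℕ × (Λ → ℤ)

/-- the face -/
noncomputable def fc (r : ℕ) (x : XM Λ) : XM Λ := (x.1.erase r, resl ends (x.1.erase r) x.2)

/-- the differential on the basis -/
noncomputable def DM (x : XM Λ) : XM Λ →₀ ℤ := ∑ r ∈ x.1, sgn r x.1 • single (fc ends r x) 1

/-- the differential -/
noncomputable def dM : (XM Λ →₀ ℤ) →ₗ[ℤ] (XM Λ →₀ ℤ) := lext (DM ends)

lemma dM_single (x : XM Λ) : dM ends (single x 1) = DM ends x := lext_single_one _ _

lemma dM_dM (z : XM Λ →₀ ℤ) : dM ends (dM ends z) = 0 := by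
  have h : ∀ x ∈ (Set.univ : Set (XM Λ)), (dM ends ∘ₗ dM ends) (single x 1) =
      (0 : (XM Λ →₀ ℤ) →ₗ[ℤ] (XM Λ →₀ ℤ)) (single x 1) := by
    intro x _
    rw [LinearMap.comp_apply, dM_single, LinearMap.zero_apply, DM, map_sum]
    have : ∀ t ∈ x.1, dM ends (sgn t x.1 • single (fc ends t x) 1) =
        sgn t x.1 • ∑ s ∈ x.1.erase t, sgn s (x.1.erase t) •
          single (fc ends s (fc ends t x)) 1 := by
      intro t _
      rw [map_smul, dM_single]; rfl
    rw [Finset.sum_congr rfl this]
    apply sum_sgn_zero x.1 (fun t s => (single (fc ends s (fc ends t x)) 1 : XM Λ →₀ ℤ))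
    intro s _ t _ _
    congr 1
    simp only [fc]
    rw [resl_resl _ (Finset.erase_subset _ _), resl_resl _ (Finset.erase_subset _ _),
      Finset.erase_right_comm]
  have hz : z ∈ Sp (Set.univ : Set (XM Λ)) := mem_Sp.2 fun _ _ => trivial
  exact map_congr_of h hz

/-- no two consecutive elements -/
def Ind (R : Finset ℕ) : Prop := ∀ i ∈ R, i + 1 ∉ R

lemma Ind.mono {R R' : Finset ℕ} (h : Ind R) (h' : R' ⊆ R) : Ind R' :=
  fun i hi hi' => h i (h' hi) (h' hi')

/-- the cells of the model complex -/
def Um (V : Finset ℕ) (E : Finset Λ) (j : ℕ) : Set (XM Λ) :=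
  {x | x.1 ⊆ V ∧ Ind x.1 ∧ x.1.card = j ∧ ∀ e, x.2 e ≠ 0 → e ∈ E ∧ act ends x.1 e}

lemma Um_mono {V V' : Finset ℕ} {E E' : Finset Λ} {j : ℕ} (h : V ⊆ V') (h' : E ⊆ E') :
    Um ends V E j ⊆ Um ends V' E' j := by
  rintro x ⟨h1, h2, h3, h4⟩
  exact ⟨h1.trans h, h2, h3, fun e he => ⟨h' (h4 e he).1, (h4 e he).2⟩⟩

lemma Um_empty_snd {V : Finset ℕ} {j : ℕ} {x : XM Λ} (hx : x ∈ Um ends V ∅ j) :
    x.2 = fun _ => 0 := by
  funext e
  by_contra h
  exact absurd (hx.2.2.2 e h).1 (by simp)

lemma mk_mem_Um_empty {V R : Finset ℕ} {j : ℕ} (h1 : R ⊆ V) (h2 : Ind R) (h3 : R.card = j) :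
    ((R, fun _ => 0) : XM Λ) ∈ Um ends V ∅ j :=
  ⟨h1, h2, h3, fun _ he => absurd rfl he⟩

/-- insertion of a vertex -/
noncomputable def Tg (a : ℕ) : (XM Λ →₀ ℤ) →ₗ[ℤ] (XM Λ →₀ ℤ) :=
  lext fun x => if a ∈ x.1 then 0 else single (insert a x.1, x.2) 1

lemma Tg_single (a : ℕ) (x : XM Λ) : Tg a (single x 1) =
    if a ∈ x.1 then 0 else single (insert a x.1, x.2) 1 := lext_single_one _ _

lemma DM_zero (R : Finset ℕ) : DM ends ((R, fun _ => 0) : XM Λ) =
    ∑ r ∈ R, sgn r R • single ((R.erase r, fun _ => 0) : XM Λ) 1 := by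
  unfold DM fc
  simp only [resl_zero]

lemma sgn_top {a : ℕ} {R : Finset ℕ} (h : ∀ i ∈ R, i < a) :
    sgn a R = (-1) ^ R.card := by
  rw [sgn, Finset.filter_true_of_mem h]

/-- inserting a new largest vertex -/
lemma d_Tg_top {a : ℕ} {R : Finset ℕ} (h : ∀ i ∈ R, i < a) :
    dM ends (Tg a (single ((R, fun _ => 0) : XM Λ) 1)) =
      Tg a (dM ends (single ((R, fun _ => 0) : XM Λ) 1)) +
        (-1 : ℤ) ^ R.card • single ((R, fun _ => 0) : XM Λ) 1 := by
  have ha : a ∉ R := fun h' => lt_irrefl _ (h a h')
  rw [Tg_single, if_neg ha, dM_single, dM_single, DM_zero, DM_zero, Finset.sum_insert ha,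
    Finset.erase_insert ha, sgn_insert_ge le_rfl, sgn_top h, add_comm, map_sum]
  congr 1
  refine Finset.sum_congr rfl fun r hr => ?_
  have hra := h r hr
  rw [map_smul, Tg_single, if_neg (fun h' => ha (Finset.mem_of_mem_erase h')),
    sgn_insert_ge hra.le]
  congr 3
  rw [Finset.erase_insert_of_ne (by omega)]

/-- cone contraction -/
lemma cone_exact {V : Finset ℕ} {a j : ℕ} (haV : a ∈ V) (hmax : ∀ i ∈ V, i ≤ a)
    (hprev : ∀ i ∈ V, i + 1 ≠ a) {z : XM Λ →₀ ℤ} (hz : z ∈ Sp (Um ends V ∅ j))
    (hdz : dM ends z = 0) : ∃ u ∈ Sp (Um ends V ∅ (j + 1)), dM ends u = z := by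
  have key : dM ends (Tg a z) = Tg a (dM ends z) + (-1 : ℤ) ^ j • z := by
    have := map_congr_of (U := Um ends V ∅ j) (F := dM ends ∘ₗ Tg a)
      (G := Tg a ∘ₗ dM ends + (-1 : ℤ) ^ j • LinearMap.id) ?_ hz
    · simpa only [LinearMap.comp_apply, LinearMap.add_apply, LinearMap.smul_apply,
        LinearMap.id_apply] using this
    · rintro ⟨R, l⟩ hx
      have hl := Um_empty_snd ends hx
      simp only at hl
      subst hl
      obtain ⟨h1, h2, h3, _⟩ := hx
      simp only at h1 h2 h3
      simp only [LinearMap.comp_apply, LinearMap.add_apply, LinearMap.smul_apply,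
        LinearMap.id_apply]
      by_cases ha : a ∈ R
      · rw [Tg_single, if_pos ha, map_zero, dM_single, DM_zero, map_sum,
          Finset.sum_eq_single a]
        · rw [map_smul, Tg_single, if_neg (by simp)]
          simp only [Finset.insert_erase ha]
          have hs : sgn a R = (-1) ^ (R.erase a).card := by
            rw [← sgn_erase_ge (le_refl a), sgn_top]
            intro i hi
            have := hmax i (h1 (Finset.mem_of_mem_erase hi))
            have := Finset.ne_of_mem_erase hi
            omega
          have hc : R.card = (R.erase a).card + 1 := (Finset.card_erase_add_one ha).symm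
          rw [hs, ← h3, hc, ← add_smul, pow_succ]
          simp
        · intro r hr hra
          rw [map_smul, Tg_single, if_pos (Finset.mem_erase.2 ⟨hra.symm, ha⟩), smul_zero]
        · intro h; exact absurd ha h
      · rw [← h3]
        apply d_Tg_top
        intro i hi
        have := hmax i (h1 hi)
        have : i ≠ a := fun h => ha (h ▸ hi)
        omega
  have hmem : Tg a z ∈ Sp (Um ends V ∅ (j + 1)) := by
    refine map_mem_of (U := Um ends V ∅ j) ?_ hz
    rintro ⟨R, l⟩ hx
    have hl := Um_empty_snd ends hx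
    simp only at hl
    subst hl
    obtain ⟨h1, h2, h3, _⟩ := hx
    simp only at h1 h2 h3
    rw [Tg_single]
    split_ifs with ha
    · exact Submodule.zero_mem _
    · refine single_mem_Sp (mk_mem_Um_empty ends ?_ ?_ ?_) 1
      · exact Finset.insert_subset haV h1
      · intro i hi hi'
        simp only [Finset.mem_insert] at hi hi'
        rcases hi with rfl | hi
        · rcases hi' with h | h
          · omega
          · have := hmax _ (h1 h); omega
        · rcases hi' with h | h
          · exact hprev i (h1 hi) h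
          · exact h2 i hi h
      · simp only
        rw [Finset.card_insert_of_notMem ha, h3]
  refine ⟨(-1 : ℤ) ^ j • Tg a z, Submodule.smul_mem _ _ hmem, ?_⟩
  rw [map_smul, key, hdz, map_zero, zero_add, smul_smul, ← pow_add, ← two_mul, pow_mul]
  simp

/-- removing a vertex -/
noncomputable def Rv (a : ℕ) : (XM Λ →₀ ℤ) →ₗ[ℤ] (XM Λ →₀ ℤ) :=
  lext fun x => if a ∈ x.1 then single (x.1.erase a, x.2) 1 else 0

lemma Rv_single (a : ℕ) (x : XM Λ) : Rv a (single x 1) =
    if a ∈ x.1 then single (x.1.erase a, x.2) 1 else 0 := lext_single_one _ _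

theorem base_exact : ∀ (N : ℕ) (V : Finset ℕ) (j : ℕ), V.card = N → 3 * j < V.card →
    ∀ z ∈ Sp (Um ends V ∅ j), dM ends z = 0 →
      ∃ u ∈ Sp (Um ends V ∅ (j + 1)), dM ends u = z := by
  intro N
  induction N using Nat.strong_induction_on with
  | _ N ih =>
    intro V j hVN hj z hz hdz
    have hne : V.Nonempty := by
      rw [← Finset.card_pos]; omega
    set x := V.max' hne with hxdef
    have hxV : x ∈ V := V.max'_mem hne
    have hmax : ∀ i ∈ V, i ≤ x := fun i hi => V.le_max' i hi
    by_cases hy : ∃ y ∈ V, y + 1 = x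
    swap
    · push Not at hy
      exact cone_exact ends hxV hmax hy hz hdz
    obtain ⟨y, hyV, hyx⟩ := hy
    -- it suffices to treat chains avoiding y
    have fin : ∀ z' ∈ Sp (Um ends (V.erase y) ∅ j), dM ends z' = 0 →
        ∃ u ∈ Sp (Um ends V ∅ (j + 1)), dM ends u = z' := by
      intro z' hz' hdz'
      obtain ⟨u, hu, hdu⟩ := cone_exact ends (V := V.erase y) (a := x) (j := j)
        (Finset.mem_erase.2 ⟨by omega, hxV⟩)
        (fun i hi => hmax i (Finset.mem_of_mem_erase hi))
        (fun i hi h => (Finset.ne_of_mem_erase hi) (by omega)) hz' hdz'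
      exact ⟨u, Sp_mono (Um_mono ends (Finset.erase_subset _ _) (Finset.Subset.refl _)) hu, hdu⟩
    rcases j with _ | j
    · apply fin z _ hdz
      rw [mem_Sp] at hz ⊢
      intro w hw
      obtain ⟨h1, h2, h3, h4⟩ := hz w hw
      have h3' := Finset.card_eq_zero.1 h3
      refine ⟨?_, h2, h3, h4⟩
      rw [h3']; simp
    · set V' := V.filter (fun i => i + 3 ≤ x) with hV'
      have hcard : V.card ≤ V'.card + 3 := by
        have h1 : V ⊆ V' ∪ {x, y, x - 2} := by
          intro i hi
          have := hmax i hi
          simp only [hV', Finset.mem_union, Finset.mem_filter, Finset.mem_insert,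
            Finset.mem_singleton]
          by_cases h : i + 3 ≤ x
          · left; exact ⟨hi, h⟩
          · right; omega
        calc V.card ≤ (V' ∪ {x, y, x - 2}).card := Finset.card_le_card h1
          _ ≤ V'.card + ({x, y, x - 2} : Finset ℕ).card := Finset.card_union_le _ _
          _ ≤ V'.card + 3 := by
            have := Finset.card_le_three (a := x) (b := y) (c := x - 2)
            omega
      have hlt : V'.card < N := by
        rw [← hVN]
        apply Finset.card_lt_card
        refine ⟨Finset.filter_subset _ _, fun h => ?_⟩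
        have := h hxV
        simp only [hV', Finset.mem_filter] at this
        omega
      -- removal of y commutes with d
      have hcomm : dM ends (Rv y z) = Rv y (dM ends z) := by
        refine map_congr_of (U := Um ends V ∅ (j + 1)) (F := dM ends ∘ₗ Rv y)
          (G := Rv y ∘ₗ dM ends) ?_ hz
        rintro ⟨R, l⟩ hx
        have hl := Um_empty_snd ends hx
        simp only at hl
        subst hl
        obtain ⟨h1, h2, h3, _⟩ := hx
        simp only at h1 h2 h3
        simp only [LinearMap.comp_apply]
        rw [Rv_single, dM_single, DM_zero, map_sum]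
        by_cases hyR : y ∈ R
        · rw [if_pos hyR, dM_single, DM_zero]
          rw [← Finset.insert_erase hyR, Finset.sum_insert (Finset.notMem_erase _ _),
            Finset.insert_erase hyR, map_smul, Rv_single, if_neg (Finset.notMem_erase _ _),
            smul_zero, zero_add]
          refine Finset.sum_congr rfl fun r hr => ?_
          obtain ⟨hr1, hr2⟩ := Finset.mem_erase.1 hr
          have hry : r ≤ y := by
            have hr3 := hmax r (h1 hr2)
            by_contra hcon
            have : r = y + 1 := by omega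
            exact h2 y hyR (this ▸ hr2)
          rw [map_smul, Rv_single, if_pos (Finset.mem_erase.2 ⟨hr1.symm, hyR⟩),
            sgn_erase_ge hry]
          rw [Finset.erase_right_comm]
        · rw [if_neg hyR, map_zero]
          symm
          apply Finset.sum_eq_zero
          intro r hr
          rw [map_smul, Rv_single, if_neg (fun h => hyR (Finset.mem_of_mem_erase h)), smul_zero]
      have hRvmem : Rv y z ∈ Sp (Um ends V' ∅ j) := by
        refine map_mem_of (U := Um ends V ∅ (j + 1)) ?_ hz
        rintro ⟨R, l⟩ hx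
        have hl := Um_empty_snd ends hx
        simp only at hl
        subst hl
        obtain ⟨h1, h2, h3, _⟩ := hx
        simp only at h1 h2 h3
        rw [Rv_single]
        split_ifs with hyR
        · refine single_mem_Sp (mk_mem_Um_empty ends ?_ (h2.mono (Finset.erase_subset _ _)) ?_) 1
          · intro i hi
            obtain ⟨hi1, hi2⟩ := Finset.mem_erase.1 hi
            have hi3 := hmax i (h1 hi2)
            have hi4 : i ≠ x := by
              rintro rfl
              exact h2 y hyR (hyx ▸ hi2)
            have hi5 : i + 1 ≠ y := by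
              intro h
              exact h2 i hi2 (h ▸ hyR)
            simp only [hV', Finset.mem_filter]
            exact ⟨h1 hi2, by omega⟩
          · have : (R.erase y).card = R.card - 1 := Finset.card_erase_of_mem hyR
            omega
        · exact Submodule.zero_mem _
      obtain ⟨u, hu, hdu⟩ := ih V'.card hlt V' j rfl (by omega) (Rv y z) hRvmem
        (by rw [hcomm, hdz, map_zero])
      have hV'y : ∀ i ∈ V', i + 1 < y := by
        intro i hi
        have := (Finset.mem_filter.1 hi).2
        omega
      have hdT : dM ends (Tg y u) = Tg y (dM ends u) + (-1 : ℤ) ^ (j + 1) • u := by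
        have := map_congr_of (U := Um ends V' ∅ (j + 1)) (F := dM ends ∘ₗ Tg y)
          (G := Tg y ∘ₗ dM ends + (-1 : ℤ) ^ (j + 1) • LinearMap.id) ?_ hu
        · simpa only [LinearMap.comp_apply, LinearMap.add_apply, LinearMap.smul_apply,
            LinearMap.id_apply] using this
        · rintro ⟨R, l⟩ hx
          have hl := Um_empty_snd ends hx
          simp only at hl
          subst hl
          obtain ⟨h1, h2, h3, _⟩ := hx
          simp only at h1 h2 h3
          simp only [LinearMap.comp_apply, LinearMap.add_apply, LinearMap.smul_apply,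
            LinearMap.id_apply]
          rw [← h3]
          apply d_Tg_top
          intro i hi
          have := hV'y i (h1 hi)
          omega
      have hTu : Tg y u ∈ Sp (Um ends V ∅ (j + 1 + 1)) := by
        refine map_mem_of (U := Um ends V' ∅ (j + 1)) ?_ hu
        rintro ⟨R, l⟩ hx
        have hl := Um_empty_snd ends hx
        simp only at hl
        subst hl
        obtain ⟨h1, h2, h3, _⟩ := hx
        simp only at h1 h2 h3
        have hyR : y ∉ R := fun h => by have := hV'y y (h1 h); omega
        rw [Tg_single, if_neg hyR]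
        refine single_mem_Sp (mk_mem_Um_empty ends ?_ ?_ ?_) 1
        · exact Finset.insert_subset hyV (h1.trans (Finset.filter_subset _ _))
        · intro i hi hi'
          simp only [Finset.mem_insert] at hi hi'
          rcases hi with rfl | hi
          · rcases hi' with h | h
            · omega
            · have := hV'y _ (h1 h); omega
          · rcases hi' with h | h
            · have := hV'y _ (h1 hi); omega
            · exact h2 i hi h
        · simp only
          rw [Finset.card_insert_of_notMem hyR, h3]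
      have hrest : z - Tg y (Rv y z) ∈ Sp (Um ends (V.erase y) ∅ (j + 1)) := by
        have := map_mem_of (U := Um ends V ∅ (j + 1))
          (F := LinearMap.id - Tg y ∘ₗ Rv y) (N := Sp (Um ends (V.erase y) ∅ (j + 1))) ?_ hz
        · simpa using this
        · rintro ⟨R, l⟩ hx
          have hl := Um_empty_snd ends hx
          simp only at hl
          subst hl
          obtain ⟨h1, h2, h3, _⟩ := hx
          simp only at h1 h2 h3
          simp only [LinearMap.comp_apply, LinearMap.sub_apply, LinearMap.id_apply]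
          rw [Rv_single]
          split_ifs with hyR
          · rw [Tg_single, if_neg (Finset.notMem_erase _ _)]
            simp only [Finset.insert_erase hyR, sub_self]
            exact Submodule.zero_mem _
          · rw [map_zero, sub_zero]
            refine single_mem_Sp (mk_mem_Um_empty ends ?_ h2 h3) 1
            intro i hi
            exact Finset.mem_erase.2 ⟨fun h => hyR (h ▸ hi), h1 hi⟩
      have hu' : u ∈ Sp (Um ends (V.erase y) ∅ (j + 1)) := by
        refine Sp_mono (Um_mono ends ?_ (Finset.Subset.refl _)) hu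
        intro i hi
        have := hV'y i hi
        exact Finset.mem_erase.2 ⟨by omega, (Finset.mem_filter.1 hi).1⟩
      obtain ⟨u'', hu'', hdu''⟩ := fin (z - dM ends (Tg y u)) (by
        rw [hdT, hdu, ← sub_sub]
        exact Submodule.sub_mem _ hrest (Submodule.smul_mem _ _ hu')) (by
        rw [map_sub, hdz, dM_dM, sub_zero])
      refine ⟨Tg y u + u'', Submodule.add_mem _ hTu hu'', ?_⟩
      rw [map_add, hdu'']
      abel

/-! ### labels -/

section labels

open scoped Classical

/-- erase the label at `e` -/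
noncomputable def Pl (e : Λ) : (XM Λ →₀ ℤ) →ₗ[ℤ] (XM Λ →₀ ℤ) :=
  lext fun x => single (x.1, Function.update x.2 e 0) 1

/-- select the label `n` at `e` -/
noncomputable def Ql (e : Λ) (n : ℤ) : (XM Λ →₀ ℤ) →ₗ[ℤ] (XM Λ →₀ ℤ) :=
  lext fun x => if x.2 e = n then single (x.1, Function.update x.2 e 0) 1 else 0

/-- difference of labels `n` and `0` at `e` -/
noncomputable def Sl (e : Λ) (n : ℤ) : (XM Λ →₀ ℤ) →ₗ[ℤ] (XM Λ →₀ ℤ) :=
  lext fun x => if act ends x.1 e then
    single (x.1, Function.update x.2 e n) 1 - single (x.1, x.2) 1 else 0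

lemma Pl_single (e : Λ) (x : XM Λ) : Pl e (single x 1) =
    single (x.1, Function.update x.2 e 0) 1 := lext_single_one _ _

lemma Ql_single (e : Λ) (n : ℤ) (x : XM Λ) : Ql e n (single x 1) =
    if x.2 e = n then single (x.1, Function.update x.2 e 0) 1 else 0 := lext_single_one _ _

lemma Sl_single (e : Λ) (n : ℤ) (x : XM Λ) : Sl ends e n (single x 1) =
    if act ends x.1 e then
    single (x.1, Function.update x.2 e n) 1 - single (x.1, x.2) 1 else 0 := lext_single_one _ _

lemma Pl_d (e : Λ) (z : XM Λ →₀ ℤ) : Pl e (dM ends z) = dM ends (Pl e z) := by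
  refine map_congr_of (U := Set.univ) (F := Pl e ∘ₗ dM ends) (G := dM ends ∘ₗ Pl e) ?_
    (mem_Sp.2 fun _ _ => trivial)
  intro x _
  simp only [LinearMap.comp_apply]
  rw [Pl_single, dM_single, dM_single, DM, DM, map_sum]
  refine Finset.sum_congr rfl fun r _ => ?_
  rw [map_smul, Pl_single]
  simp only [fc]
  rw [resl_update _ _ _ _ _ (Or.inr rfl)]

lemma Sl_d (e : Λ) (n : ℤ) (z : XM Λ →₀ ℤ) :
    dM ends (Sl ends e n z) = Sl ends e n (dM ends z) := by
  refine map_congr_of (U := Set.univ) (F := dM ends ∘ₗ Sl ends e n)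
    (G := Sl ends e n ∘ₗ dM ends) ?_ (mem_Sp.2 fun _ _ => trivial)
  intro x _
  simp only [LinearMap.comp_apply]
  rw [Sl_single, dM_single, DM, map_sum]
  by_cases ha : act ends x.1 e
  · rw [if_pos ha, map_sub, dM_single, dM_single, DM, DM, ← Finset.sum_sub_distrib]
    refine Finset.sum_congr rfl fun r _ => ?_
    rw [map_smul, Sl_single, ← smul_sub]
    by_cases h : act ends (fc ends r x).1 e
    · rw [if_pos h]
      simp only [fc]
      have h' : act ends (x.1.erase r) e := h
      rw [resl_update _ _ _ _ _ (Or.inl h')]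
    · rw [if_neg h]
      simp only [fc]
      have h' : ¬ act ends (x.1.erase r) e := h
      rw [resl_update_of_not _ _ _ _ _ h', sub_self]
  · rw [if_neg ha, map_zero]
    symm
    apply Finset.sum_eq_zero
    intro r _
    rw [map_smul, Sl_single, if_neg, smul_zero]
    exact fun h => ha (act_mono ends (Finset.erase_subset _ _) h)

lemma Pl_mem {e : Λ} {V : Finset ℕ} {E : Finset Λ} {j : ℕ} {z : XM Λ →₀ ℤ}
    (hz : z ∈ Sp (Um ends V (insert e E) j)) : Pl e z ∈ Sp (Um ends V E j) := by
  refine map_mem_of ?_ hz
  rintro x ⟨h1, h2, h3, h4⟩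
  rw [Pl_single]
  refine single_mem_Sp (U := Um ends V E j) (x := (x.1, Function.update x.2 e 0))
    ⟨h1, h2, h3, fun e' he' => ?_⟩ 1
  by_cases h : e' = e
  · subst h; simp at he'
  · simp only [Function.update_of_ne h] at he'
    obtain ⟨h5, h6⟩ := h4 e' he'
    exact ⟨Finset.mem_of_mem_insert_of_ne h5 h, h6⟩

lemma Ql_mem {e : Λ} {n : ℤ} {V : Finset ℕ} {E : Finset Λ} {j : ℕ}
    {z : XM Λ →₀ ℤ} (hz : z ∈ Sp (Um ends V (insert e E) j)) :
    Ql e n z ∈ Sp (Um ends V E j) := by
  refine map_mem_of ?_ hz
  rintro x ⟨h1, h2, h3, h4⟩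
  rw [Ql_single]
  split_ifs with hn
  · refine single_mem_Sp (U := Um ends V E j) (x := (x.1, Function.update x.2 e 0))
      ⟨h1, h2, h3, fun e' he' => ?_⟩ 1
    by_cases h : e' = e
    · subst h; simp at he'
    · simp only [Function.update_of_ne h] at he'
      obtain ⟨h5, h6⟩ := h4 e' he'
      exact ⟨Finset.mem_of_mem_insert_of_ne h5 h, h6⟩
  · exact Submodule.zero_mem _

lemma Sl_mem {e : Λ} {n : ℤ} {V : Finset ℕ} {E : Finset Λ} {j : ℕ}
    {z : XM Λ →₀ ℤ} (hz : z ∈ Sp (Um ends V E j)) :
    Sl ends e n z ∈ Sp (Um ends V (insert e E) j) := by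
  refine map_mem_of ?_ hz
  rintro x hx
  rw [Sl_single]
  split_ifs with ha
  · refine Submodule.sub_mem _ (single_mem_Sp ?_ 1)
      (single_mem_Sp (Um_mono ends (Finset.Subset.refl _) (Finset.subset_insert _ _) hx) 1)
    obtain ⟨h1, h2, h3, h4⟩ := hx
    refine ⟨h1, h2, h3, fun e' he' => ?_⟩
    by_cases h : e' = e
    · subst h; exact ⟨Finset.mem_insert_self _ _, ha⟩
    · simp only [Function.update_of_ne h] at he'
      obtain ⟨h5, h6⟩ := h4 e' he'
      exact ⟨Finset.mem_insert_of_mem h5, h6⟩
  · exact Submodule.zero_mem _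

lemma Sl_zero {e : Λ} {n : ℤ} {V : Finset ℕ} {E : Finset Λ} {j : ℕ}
    {z : XM Λ →₀ ℤ} (hz : z ∈ Sp (Um ends (V \ ends e) E j)) :
    Sl ends e n z = 0 := by
  refine map_congr_of (F := Sl ends e n) (G := 0) ?_ hz
  rintro x ⟨h1, h2, h3, h4⟩
  rw [Sl_single, if_neg, LinearMap.zero_apply]
  rintro ⟨i, hi, hi'⟩
  exact (Finset.mem_sdiff.1 (h1 hi')).2 hi

lemma Ql_d_mem {e : Λ} {n : ℤ} (hn : n ≠ 0) {V : Finset ℕ} {E : Finset Λ} {j : ℕ}
    {z : XM Λ →₀ ℤ} (hz : z ∈ Sp (Um ends V (insert e E) (j + 1))) :
    dM ends (Ql e n z) - Ql e n (dM ends z) ∈ Sp (Um ends (V \ ends e) E j) := by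
  refine map_mem_of (F := dM ends ∘ₗ Ql e n - Ql e n ∘ₗ dM ends) ?_ hz
  rintro x ⟨h1, h2, h3, h4⟩
  simp only [LinearMap.comp_apply, LinearMap.sub_apply]
  rw [Ql_single, dM_single, DM, map_sum]
  by_cases hx : x.2 e = n
  · rw [if_pos hx, dM_single, DM, ← Finset.sum_sub_distrib]
    refine Submodule.sum_mem _ fun r hr => ?_
    rw [map_smul, ← smul_sub, Ql_single]
    apply Submodule.smul_mem
    by_cases ha : act ends (x.1.erase r) e
    · have : (fc ends r x).2 e = n := by simp [fc, resl, ha, hx]
      rw [if_pos this]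
      simp only [fc]
      rw [resl_update _ _ _ _ _ (Or.inr rfl), sub_self]
      exact Submodule.zero_mem _
    · have : (fc ends r x).2 e ≠ n := by simp [fc, resl, ha, hn.symm]
      rw [if_neg this, sub_zero]
      simp only [fc]
      refine single_mem_Sp (U := Um ends (V \ ends e) E j)
        (x := (x.1.erase r, resl ends (x.1.erase r) (Function.update x.2 e 0)))
        ⟨?_, h2.mono (Finset.erase_subset _ _), ?_, ?_⟩ 1
      · intro i hi
        refine Finset.mem_sdiff.2 ⟨h1 (Finset.mem_of_mem_erase hi), fun h => ha ⟨i, h, hi⟩⟩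
      · have h6 : (x.1.erase r).card = x.1.card - 1 := Finset.card_erase_of_mem hr
        change (x.1.erase r).card = j
        omega
      · intro e' he'
        simp only [resl] at he'
        split_ifs at he' with h5
        · by_cases h : e' = e
          · subst h; exact absurd h5 ha
          · rw [Function.update_of_ne h] at he'
            exact ⟨Finset.mem_of_mem_insert_of_ne (h4 e' he').1 h, h5⟩
        · exact absurd rfl he'
  · rw [if_neg hx, map_zero, Finset.sum_eq_zero, sub_zero]
    · exact Submodule.zero_mem _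
    · intro r _
      rw [map_smul, Ql_single, if_neg, smul_zero]
      simp only [fc, resl]
      split_ifs
      · exact hx
      · exact hn.symm

lemma label_decomp {e : Λ} {V : Finset ℕ} {E : Finset Λ} {j : ℕ} (N : Finset ℤ)
    {z : XM Λ →₀ ℤ} (hz : z ∈ Sp (Um ends V E j)) (hN : ∀ x, z x ≠ 0 → x.2 e ∈ N) :
    z = Pl e z + ∑ n ∈ N.erase 0, Sl ends e n (Ql e n z) := by
  have hz' : z ∈ Sp {x | x ∈ Um ends V E j ∧ x.2 e ∈ N} := by
    rw [mem_Sp] at hz ⊢
    exact fun x hx => ⟨hz x hx, hN x hx⟩
  have := map_congr_of (F := LinearMap.id)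
    (G := Pl e + ∑ n ∈ N.erase 0, Sl ends e n ∘ₗ Ql e n) ?_ hz'
  · simpa only [LinearMap.id_apply, LinearMap.add_apply, LinearMap.sum_apply,
      LinearMap.comp_apply] using this
  · rintro x ⟨⟨h1, h2, h3, h4⟩, h5⟩
    simp only [LinearMap.id_apply, LinearMap.add_apply, LinearMap.sum_apply,
      LinearMap.comp_apply]
    by_cases h0 : x.2 e = 0
    · rw [Finset.sum_eq_zero, add_zero, Pl_single, ← h0, Function.update_eq_self]
      intro n hn
      rw [Ql_single, if_neg (by rw [h0]; exact (Finset.ne_of_mem_erase hn).symm), map_zero]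
    · rw [Finset.sum_eq_single (x.2 e)]
      · rw [Ql_single, if_pos rfl, Sl_single]
        simp only
        rw [if_pos (h4 e h0).2, Pl_single, Function.update_idem, Function.update_eq_self]
        abel
      · intro n hn hne
        rw [Ql_single, if_neg hne.symm, map_zero]
      · intro h
        exact absurd (Finset.mem_erase.2 ⟨h0, h5⟩) h

theorem model_exact (hends : ∀ e, (ends e).card ≤ 2) (E : Finset Λ) :
    ∀ (V : Finset ℕ) (j : ℕ), 3 * j < V.card →
    ∀ z ∈ Sp (Um ends V E j), dM ends z = 0 →
      ∃ u ∈ Sp (Um ends V E (j + 1)), dM ends u = z := by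
  classical
  induction E using Finset.induction_on with
  | empty =>
    intro V j hj z hz hdz
    exact base_exact ends V.card V j rfl hj z hz hdz
  | insert e E he ih =>
    intro V j hj z hz hdz
    have hsub : ∀ j', Sp (Um ends V E j') ≤ Sp (Um ends V (insert e E) j') := fun j' =>
      Sp_mono (Um_mono ends (Finset.Subset.refl _) (Finset.subset_insert _ _))
    obtain ⟨u₀, hu₀, hdu₀⟩ := ih V j hj (Pl e z) (Pl_mem ends hz) (by
      rw [← Pl_d, hdz, map_zero])
    have hw : ∀ n : ℤ, n ≠ 0 → ∃ w ∈ Sp (Um ends V (insert e E) (j + 1)),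
        dM ends w = Sl ends e n (Ql e n z) := by
      intro n hn
      rcases j with _ | j
      · refine ⟨0, Submodule.zero_mem _, ?_⟩
        have : Ql e n z = 0 := by
          refine map_congr_of (F := Ql e n) (G := 0) ?_ hz
          rintro x ⟨h1, h2, h3, h4⟩
          rw [Ql_single, if_neg, LinearMap.zero_apply]
          intro h
          have h5 := (h4 e (h ▸ hn)).2
          rw [Finset.card_eq_zero.1 h3] at h5
          obtain ⟨i, _, hi⟩ := h5
          simp at hi
        rw [this, map_zero, map_zero]
      · have h1 : dM ends (Ql e n z) ∈ Sp (Um ends (V \ ends e) E j) := by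
          have := Ql_d_mem ends hn hz
          rwa [hdz, map_zero, sub_zero] at this
        have hcard : V.card ≤ (V \ ends e).card + 2 := by
          have h2 := Finset.card_le_card (s := V) (t := (V \ ends e) ∪ ends e) (by
            intro i hi
            by_cases h : i ∈ ends e
            · exact Finset.mem_union_right _ h
            · exact Finset.mem_union_left _ (Finset.mem_sdiff.2 ⟨hi, h⟩))
          have h3 := Finset.card_union_le (V \ ends e) (ends e)
          have h4 := hends e
          omega
        obtain ⟨u', hu', hdu'⟩ := ih (V \ ends e) j (by omega) _ h1 (dM_dM ends _)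
        obtain ⟨w', hw', hdw'⟩ := ih V (j + 1) hj (Ql e n z - u')
          (Submodule.sub_mem _ (Ql_mem ends hz)
            (Sp_mono (Um_mono ends Finset.sdiff_subset (Finset.Subset.refl _)) hu'))
          (by rw [map_sub, hdu', sub_self])
        refine ⟨Sl ends e n w', Sl_mem ends hw', ?_⟩
        rw [Sl_d, hdw', map_sub, Sl_zero ends hu', sub_zero]
    choose! w hw1 hw2 using hw
    set N := z.support.image (fun x => x.2 e) with hN
    have hdec := label_decomp ends (e := e) N hz (fun x hx =>
      Finset.mem_image.2 ⟨x, by simpa using hx, rfl⟩)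
    refine ⟨u₀ + ∑ n ∈ N.erase 0, w n, Submodule.add_mem _ (hsub _ hu₀)
      (Submodule.sum_mem _ fun n hn => hw1 n (Finset.ne_of_mem_erase hn)), ?_⟩
    rw [map_add, map_sum, hdu₀]
    conv_rhs => rw [hdec]
    congr 1
    exact Finset.sum_congr rfl fun n hn => hw2 n (Finset.ne_of_mem_erase hn)

end labels

end Pool.Agent.Lib_helper28.OF
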