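import Pool.Agent.Lib_helper28.OFCells

set_option autoImplicit false

namespace Pool.Agent.Lib_helper28.OF

open Amb
open Relation

/-- one splitting step between vertices -/
def Split1 (x x' : Cell) : Prop :=
  ∃ (n : ℕ) (g : Amb) (i : ℕ), Reach n g ∧ i < n ∧ x = cell n g ∅ ∧ x' = cell (n + 1) (g * lh i) ∅

/-- the order on vertices -/
def Le (x x' : Cell) : Prop := ReflTransGen Split1 x x'

/-- vertices -/
def IsV (x : Cell) : Prop := ∃ (n : ℕ) (g : Amb), Reach n g ∧ x = cell n g ∅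

lemma split_congr {n i : ℕ} {g h : Amb} (hi : i < n) (e : cell n g ∅ = cell n h ∅) :
    cell (n + 1) (g * lh i) ∅ = cell (n + 1) (h * lh i) ∅ := by
  obtain ⟨_, _, h3⟩ := cell_eq_imp e
  refine cell_congr (mem_cos_mono ?_ (mul_mem_cos h3 _))
  rw [Finset.sdiff_empty, Finset.sdiff_empty, Tn_split h hi]
  exact Finset.subset_insert _ _

lemma split_comm {n j k : ℕ} (g : Amb) (hjk : j < k) (hk : k < n) :
    cell (n + 1 + 1) (g * lh j * lh ((k + 1 : ℕ) : ℝ)) ∅ =
      cell (n + 1 + 1) (g * lh k * lh j) ∅ := by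
  have hT : Tn n g ⊆ Tn (n + 1 + 1) (g * lh k * lh j) \ ∅ := by
    rw [Finset.sdiff_empty, Tn_split _ (by omega), Tn_split _ hk]
    exact (Finset.subset_insert _ _).trans (Finset.subset_insert _ _)
  exact cell_congr (rel_mem (by omega) g (hT (f_mem_Tn (by omega))) (hT (f_mem_Tn (by omega)))
    (hT (f_mem_Tn (by omega))) (hT (f_mem_Tn (by omega))))

lemma Split1.T_sub {x x' : Cell} (h : Split1 x x') : x.T ⊆ x'.T := by
  obtain ⟨n, g, i, hg, hi, rfl, rfl⟩ := h
  change Tn n g ⊆ Tn (n + 1) (g * lh i)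
  rw [Tn_split g hi]
  exact Finset.subset_insert _ _

lemma Le.T_sub {x x' : Cell} (h : Le x x') : x.T ⊆ x'.T := by
  induction h with
  | refl => exact Finset.Subset.refl _
  | tail _ h2 ih => exact ih.trans h2.T_sub

lemma Split1.isV {x x' : Cell} (h : Split1 x x') : IsV x' := by
  obtain ⟨n, g, i, hg, hi, rfl, rfl⟩ := h
  exact ⟨n + 1, _, hg.split i hi, rfl⟩

lemma Le.isV {x x' : Cell} (h : Le x x') (hx : IsV x) : IsV x' := by
  induction h with
  | refl => exact hx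
  | tail _ h2 _ => exact h2.isV

lemma split1_mk {n i : ℕ} {g : Amb} (hg : Reach n g) (hi : i < n) :
    Split1 (cell n g ∅) (cell (n + 1) (g * lh i) ∅) := ⟨n, g, i, hg, hi, rfl, rfl⟩

lemma diamond {x y z : Cell} (h1 : Split1 x y) (h2 : Split1 x z) :
    ∃ w, ReflGen Split1 y w ∧ ReflTransGen Split1 z w := by
  obtain ⟨n, g, i, hg, hi, hx, rfl⟩ := h1
  obtain ⟨n', g', j, hg', hj, hx', rfl⟩ := h2
  rw [hx] at hx'
  obtain ⟨rfl, _, _⟩ := cell_eq_imp hx'
  rw [← split_congr hj hx']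
  rcases lt_trichotomy i j with hij | rfl | hij
  · refine ⟨cell (n + 1 + 1) (g * lh i * lh ((j + 1 : ℕ) : ℝ)) ∅, ?_, ?_⟩
    · exact ReflGen.single (split1_mk (hg.split i hi) (by omega))
    · rw [split_comm g hij hj]
      exact ReflTransGen.single (split1_mk (hg.split j hj) (by omega))
  · exact ⟨_, ReflGen.refl, ReflTransGen.refl⟩
  · refine ⟨cell (n + 1 + 1) (g * lh j * lh ((i + 1 : ℕ) : ℝ)) ∅, ?_, ?_⟩
    · rw [split_comm g hij hi]
      exact ReflGen.single (split1_mk (hg.split i hi) (by omega))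
    · exact ReflTransGen.single (split1_mk (hg.split j hj) (by omega))

lemma Le.join {x y z : Cell} (h1 : Le x y) (h2 : Le x z) : ∃ w, Le y w ∧ Le z w :=
  church_rosser (fun _ _ _ hab hac => diamond hab hac) h1 h2

/-- splitting a leaf whose midpoint is a division point of `w` stays below `w` -/
lemma le_split {x w : Cell} (h : Le x w) : ∀ (n : ℕ) (g : Amb) (i : ℕ), Reach n g → i < n →
    x = cell n g ∅ → mid g i ∈ w.T → Le (cell (n + 1) (g * lh i) ∅) w := by
  induction h using ReflTransGen.head_induction_on with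
  | refl =>
    intro n g i _ _ hx hm
    rw [hx] at hm
    exact absurd hm (mid_not_mem n g i)
  | head h1 h2 ih =>
    intro n g i hg hi hx hm
    obtain ⟨n', g', j, hg', hj, hx', rfl⟩ := h1
    rw [hx'] at hx
    obtain ⟨rfl, _, hc⟩ := cell_eq_imp hx
    have hf : g'.f = g.f := hc.1
    rw [split_congr hj hx] at ih h2
    rcases lt_trichotomy i j with hij | rfl | hij
    · have h3 := ih (n' + 1) (g * lh j) i (hg.split j hj) (by omega) rfl
        (by rw [split_mid_lt g hij]; exact hm)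
      rw [← split_comm g hij hj] at h3
      exact ReflTransGen.head (split1_mk (hg.split i hi) (by omega)) h3
    · exact h2
    · have h3 := ih (n' + 1) (g * lh j) (i + 1) (hg.split j hj) (by omega) rfl
        (by rw [split_mid_gt g hij]; exact hm)
      rw [split_comm g hij hi] at h3
      exact ReflTransGen.head (split1_mk (hg.split i hi) (by omega)) h3

/-- the base vertex -/
noncomputable def base : Cell := cell 1 1 ∅

lemma reach_join {n : ℕ} {g : Amb} (hg : Reach n g) :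
    ∃ w, Le base w ∧ Le (cell n g ∅) w := by
  induction hg with
  | one => exact ⟨base, ReflTransGen.refl, ReflTransGen.refl⟩
  | split i hg hi ih =>
    obtain ⟨w, h1, h2⟩ := ih
    obtain ⟨u, hu1, hu2⟩ := Le.join h2 (ReflTransGen.single (split1_mk hg hi))
    exact ⟨u, h1.trans hu1, hu2⟩
  | @merge n g i hg hi ih =>
    obtain ⟨w, h1, h2⟩ := ih
    refine ⟨w, h1, ReflTransGen.head ?_ h2⟩
    have := split1_mk (hg.merge i hi) hi
    rwa [inv_mul_cancel_right] at this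
  | @lab n g c hg hc ih =>
    have e : cell n (g * iota c) ∅ = cell n g ∅ := by
      apply cell_congr
      rw [mul_iota]
      apply iota_mul_mem_cos
      intro s t hst
      by_contra hne
      obtain ⟨⟨i, hi, hi'⟩, ⟨j, hj, hj'⟩⟩ := hc _ _ hne
      apply hst
      rw [Finset.sdiff_empty]
      constructor
      · rw [mem_Tn]; exact ⟨i, hi, by rw [← hi']; simp⟩
      · rw [mem_Tn]; exact ⟨j, hj, by rw [← hj']; simp⟩
    rw [e]
    exact ih

lemma directed_one {x : Cell} (hx : IsV x) : ∃ w, Le base w ∧ Le x w := by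
  obtain ⟨n, g, hg, rfl⟩ := hx
  exact reach_join hg

lemma directed_finset (F : Finset Cell) (hF : ∀ x ∈ F, IsV x) :
    ∃ w, Le base w ∧ ∀ x ∈ F, Le x w := by
  classical
  induction F using Finset.induction_on with
  | empty => exact ⟨base, ReflTransGen.refl, by simp⟩
  | insert x F hx ih =>
    obtain ⟨w, h1, h2⟩ := ih (fun y hy => hF y (Finset.mem_insert_of_mem hy))
    obtain ⟨w', h3, h4⟩ := directed_one (hF x (Finset.mem_insert_self _ _))
    obtain ⟨u, hu1, hu2⟩ := Le.join h1 h3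
    refine ⟨u, h1.trans hu1, ?_⟩
    intro y hy
    rcases Finset.mem_insert.1 hy with rfl | hy
    · exact h4.trans hu2
    · exact (h2 y hy).trans hu1

/-- top vertex of a cell -/
def top (x : Cell) : Cell := ⟨x.T, ∅, sat x.T x.y⟩

lemma top_cell (n : ℕ) (g : Amb) (ρ : Finset ℝ) : top (cell n g ρ) = cell n g ∅ := by
  refine Cell.ext rfl rfl ?_
  simp only [top, cell]
  rw [sat_cos Finset.sdiff_subset, Finset.sdiff_empty]

/-- valid cells below `w` whose bottom division points contain `A` -/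
def BA (A : Finset ℝ) (w : Cell) : Set Cell :=
  {x | x ∈ Cells ∧ Le (top x) w ∧ A ⊆ x.T \ x.ρ}

lemma sub_sdiff_erase {A T ρ : Finset ℝ} (h : A ⊆ T \ ρ) (t : ℝ) : A ⊆ T \ ρ.erase t := by
  intro s hs
  have := Finset.mem_sdiff.1 (h hs)
  exact Finset.mem_sdiff.2 ⟨this.1, fun h2 => this.2 (Finset.mem_of_mem_erase h2)⟩

lemma sub_erase_sdiff {A T ρ : Finset ℝ} (h : A ⊆ T \ ρ) {t : ℝ} (ht : t ∈ ρ) :
    A ⊆ T.erase t \ ρ.erase t := by
  intro s hs
  have := Finset.mem_sdiff.1 (h hs)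
  refine Finset.mem_sdiff.2 ⟨Finset.mem_erase.2 ⟨?_, this.1⟩,
    fun h2 => this.2 (Finset.mem_of_mem_erase h2)⟩
  rintro rfl
  exact this.2 ht

lemma sub_insert_sdiff {A T ρ : Finset ℝ} (h : A ⊆ T \ ρ) {p : ℝ} (hp : p ∉ T) :
    A ⊆ insert p T \ insert p ρ := by
  intro s hs
  have := Finset.mem_sdiff.1 (h hs)
  refine Finset.mem_sdiff.2 ⟨Finset.mem_insert_of_mem this.1, fun h2 => ?_⟩
  rcases Finset.mem_insert.1 h2 with rfl | h3
  · exact hp this.1
  · exact this.2 h3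

lemma MM_not_mem_T {x : Cell} (hx : x ∈ Cells) {p : ℝ} (hp1 : p ∈ MM x) (hp2 : p ∉ x.ρ) :
    p ∉ x.T := by
  obtain ⟨n, g, ρ, h, rfl⟩ := hx
  rcases mem_MM_cell.1 hp1 with h1 | ⟨i, hi, rfl, h1, h2⟩
  · exact absurd h1 hp2
  · exact mid_not_mem n g i

lemma f0_BA {A : Finset ℝ} {w x : Cell} (hx : x ∈ BA A w) (t : ℝ) : f0 t x ∈ BA A w := by
  obtain ⟨hx1, hx2, hx3⟩ := hx
  refine ⟨f0_mem hx1 t, ?_, sub_sdiff_erase hx3 t⟩
  obtain ⟨n, g, ρ, h, rfl⟩ := hx1
  rw [f0_cell, top_cell]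
  rwa [top_cell] at hx2

lemma f1_BA {A : Finset ℝ} {w x : Cell} (hx : x ∈ BA A w) {t : ℝ} (ht : t ∈ x.ρ) :
    f1 t x ∈ BA A w := by
  obtain ⟨hx1, hx2, hx3⟩ := hx
  refine ⟨f1_mem hx1 ht, ?_, sub_erase_sdiff hx3 ht⟩
  obtain ⟨n, g, ρ, h, rfl⟩ := hx1
  change t ∈ ρ at ht
  obtain ⟨m, i, rfl, hi, rfl⟩ := h.index ht
  rw [f1_cell g ρ hi ht, top_cell]
  rw [top_cell] at hx2
  refine ReflTransGen.head ?_ hx2
  have := split1_mk (h.reach.merge i hi) hi
  rwa [inv_mul_cancel_right] at this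

lemma hp_BA {A : Finset ℝ} {w x : Cell} (hx : x ∈ BA A w) {p : ℝ} (hp1 : p ∈ MM x)
    (hp2 : p ∉ x.ρ) (hp3 : p ∈ w.T) : hp p x ∈ BA A w := by
  obtain ⟨hx1, hx2, hx3⟩ := hx
  refine ⟨hp_mem hx1 hp1 hp2, ?_, sub_insert_sdiff hx3 (MM_not_mem_T hx1 hp1 hp2)⟩
  obtain ⟨n, g, ρ, h, rfl⟩ := hx1
  rcases mem_MM_cell.1 hp1 with h1 | ⟨i, hi, rfl, h1, h2⟩
  · exact absurd h1 hp2
  · rw [hp_cell g ρ hi, top_cell]
    rw [top_cell] at hx2
    exact le_split hx2 n g i h.reach hi rfl hp3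

lemma BA_T_sub {A : Finset ℝ} {w x : Cell} (hx : x ∈ BA A w) : x.T ⊆ w.T := hx.2.1.T_sub

lemma Cells_ρ_sub {x : Cell} (hx : x ∈ Cells) : x.ρ ⊆ x.T := by
  obtain ⟨n, g, ρ, h, rfl⟩ := hx
  exact h.sub

lemma ρ_sub_MM (x : Cell) : ∀ p ∈ x.ρ, p ∈ MM x := fun _ hp => Or.inl hp

end Pool.Agent.Lib_helper28.OF
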