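import Pool.Agent.Lib_helper28.OFFP
import Pool.Agent.Lib_helper28.OFChain

set_option autoImplicit false

namespace Pool.Agent.Lib_helper28.OF

open Finsupp

section Perm

variable (H : Type) [Group H]

/-- integral group ring -/
abbrev RH := MonoidAlgebra ℤ H

variable {X : Type} [MulAction H X]

variable (X) in
/-- the permutation representation -/
noncomputable def permRep : H →* Module.End ℤ (X →₀ ℤ) where
  toFun h := Finsupp.lmapDomain ℤ ℤ (fun x => h • x)
  map_one' := by
    ext x y
    simp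
  map_mul' g h := by
    ext x y
    simp [mul_smul]

lemma permRep_single (h : H) (x : X) (n : ℤ) :
    permRep H X h (single x n) = single (h • x) n := by
  change Finsupp.lmapDomain ℤ ℤ (fun x => h • x) (single x n) = _
  rw [Finsupp.lmapDomain_apply, Finsupp.mapDomain_single]

/-- permutation modules -/
noncomputable instance permModule : Module (RH H) (X →₀ ℤ) :=
  Module.compHom _ (MonoidAlgebra.lift ℤ (Module.End ℤ (X →₀ ℤ)) H (permRep H X)).toRingHom

lemma perm_smul_def (r : RH H) (z : X →₀ ℤ) :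
    r • z = MonoidAlgebra.lift ℤ (Module.End ℤ (X →₀ ℤ)) H (permRep H X) r z := rfl

lemma of_smul_def (h : H) (z : X →₀ ℤ) :
    MonoidAlgebra.of ℤ H h • z = permRep H X h z := by
  rw [perm_smul_def, MonoidAlgebra.lift_of]

lemma of_smul_single (h : H) (x : X) (n : ℤ) :
    MonoidAlgebra.of ℤ H h • (single x n : X →₀ ℤ) = single (h • x) n := by
  rw [of_smul_def, permRep_single]

variable {H}

/-- equivariant additive maps are linear over the group ring -/
lemma smul_of_equivariant {M N : Type} [AddCommGroup M] [Module (RH H) M] [AddCommGroup N]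
    [Module (RH H) N] (F : M →+ N)
    (hF : ∀ (h : H) (z : M), F (MonoidAlgebra.of ℤ H h • z) = MonoidAlgebra.of ℤ H h • F z)
    (r : RH H) (z : M) : F (r • z) = r • F z := by
  induction r using MonoidAlgebra.induction_on with
  | of h => exact hF h z
  | add a b ha hb => rw [add_smul, add_smul, map_add, ha, hb]
  | smul n a ha => rw [smul_assoc, smul_assoc, map_zsmul, ha]

/-- build a group ring linear map from an equivariant integral linear map -/
noncomputable def mkR {M : Type} [AddCommGroup M] [Module (RH H) M] (F : (X →₀ ℤ) →ₗ[ℤ] M)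
    (hF : ∀ (h : H) (x : X), F (single (h • x) 1) = MonoidAlgebra.of ℤ H h • F (single x 1)) :
    (X →₀ ℤ) →ₗ[RH H] M :=
  { toFun := F
    map_add' := map_add F
    map_smul' := fun r z => by
      refine smul_of_equivariant F.toAddMonoidHom ?_ r z
      intro h z
      have hz : z ∈ Sp (Set.univ : Set X) := mem_Sp.2 fun _ _ => trivial
      have key := map_congr_of (F := F ∘ₗ permRep H X h)
        (G := (DistribSMul.toAddMonoidHom M (MonoidAlgebra.of ℤ H h)).toIntLinearMap ∘ₗ F)
        (by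
          intro x _
          rw [LinearMap.comp_apply, permRep_single, hF]
          rfl) hz
      change F (MonoidAlgebra.of ℤ H h • z) = MonoidAlgebra.of ℤ H h • F z
      rw [of_smul_def]
      exact key }

lemma mkR_apply {M : Type} [AddCommGroup M] [Module (RH H) M] (F : (X →₀ ℤ) →ₗ[ℤ] M)
    (hF : ∀ (h : H) (x : X), F (single (h • x) 1) = MonoidAlgebra.of ℤ H h • F (single x 1))
    (z : X →₀ ℤ) : mkR F hF z = F z := rfl

variable (H)

/-- invariance -/
def Inv (U : Set X) : Prop := ∀ (h : H), ∀ x ∈ U, h • x ∈ U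

variable {H}

/-- the submodule of chains supported on an invariant set -/
noncomputable def SpR (U : Set X) (hU : Inv H U) : Submodule (RH H) (X →₀ ℤ) where
  carrier := Sp U
  add_mem' := fun ha hb => (Sp U).add_mem ha hb
  zero_mem' := (Sp U).zero_mem
  smul_mem' := fun r z hz => by
    change r • z ∈ Sp U
    induction r using MonoidAlgebra.induction_on with
    | of h =>
      rw [of_smul_def]
      refine map_mem_of ?_ hz
      intro x hx
      rw [permRep_single]
      exact single_mem_Sp (hU h x hx) 1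
    | add a b ha hb => rw [add_smul]; exact (Sp U).add_mem ha hb
    | smul n a ha => rw [smul_assoc]; exact (Sp U).smul_mem n ha

lemma mem_SpR {U : Set X} {hU : Inv H U} {z : X →₀ ℤ} : z ∈ SpR U hU ↔ z ∈ Sp U := Iff.rfl

variable (H)

/-- the permutation module of `U` has type `FP_n` -/
def PF (n : ℕ) (U : Set X) : Prop := ∃ hU : Inv H U, FP (RH H) n (SpR U hU)

variable {H}

lemma PF.inv {n : ℕ} {U : Set X} (h : PF H n U) : Inv H U := h.1

lemma PF.fp {n : ℕ} {U : Set X} (h : PF H n U) (hU : Inv H U) : FP (RH H) n (SpR U hU) := h.2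

lemma PF.empty (n : ℕ) : PF H n (∅ : Set X) := by
  have hU : Inv H (∅ : Set X) := fun h x hx => hx
  refine ⟨hU, ?_⟩
  have : Subsingleton (SpR (∅ : Set X) hU) := by
    refine ⟨fun a b => ?_⟩
    have key : ∀ z : X →₀ ℤ, z ∈ Sp (∅ : Set X) → z = 0 := by
      intro z hz
      ext x
      by_contra hx
      exact (mem_Sp.1 hz x hx).elim
    apply Subtype.ext
    rw [key _ a.2, key _ b.2]
  exact FP.of_subsingleton

open Classical in
/-- restriction -/
noncomputable def rsX (V : Set X) : (X →₀ ℤ) →ₗ[ℤ] (X →₀ ℤ) :=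
  lext fun x => if x ∈ V then single x 1 else 0

open Classical in
lemma rsX_single (V : Set X) (x : X) : rsX V (single x 1) = if x ∈ V then single x 1 else 0 :=
  lext_single_one _ _

lemma Inv.iff {V : Set X} (hV : Inv H V) (h : H) (x : X) : h • x ∈ V ↔ x ∈ V := by
  constructor
  · intro hx
    have := hV h⁻¹ _ hx
    rwa [inv_smul_smul] at this
  · exact hV h x

lemma rsX_equiv {V : Set X} (hV : Inv H V) (h : H) (x : X) :
    rsX V (single (h • x) 1) = MonoidAlgebra.of ℤ H h • rsX V (single x 1) := by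
  classical
  rw [rsX_single, rsX_single]
  by_cases hx : x ∈ V
  · rw [if_pos hx, if_pos ((hV.iff h x).2 hx), of_smul_single]
  · rw [if_neg hx, if_neg (fun h2 => hx ((hV.iff h x).1 h2)), smul_zero]

lemma PF.union {n : ℕ} {U V : Set X} (hUV : Disjoint U V) (hU : PF H n U) (hV : PF H n V) :
    PF H n (U ∪ V) := by
  classical
  obtain ⟨iU, fU⟩ := hU
  obtain ⟨iV, fV⟩ := hV
  have iUV : Inv H (U ∪ V) := by
    intro h x hx
    rcases hx with hx | hx
    · exact Or.inl (iU h x hx)
    · exact Or.inr (iV h x hx)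
  refine ⟨iUV, ?_⟩
  have hle : SpR U iU ≤ SpR (U ∪ V) iUV := fun z hz => Sp_mono Set.subset_union_left hz
  have hpm : ∀ z : SpR (U ∪ V) iUV,
      ((mkR (rsX V) (rsX_equiv iV)) ∘ₗ (SpR (U ∪ V) iUV).subtype) z ∈ SpR V iV := by
    intro z
    refine map_mem_of (F := rsX V) (N := Sp V) ?_ (z.2 : (z : X →₀ ℤ) ∈ Sp (U ∪ V))
    intro x _
    rw [rsX_single]
    split_ifs with h
    · exact single_mem_Sp h 1
    · exact Submodule.zero_mem _
  refine FP.ext (Submodule.inclusion hle) (LinearMap.codRestrict (SpR V iV) _ hpm) ?_ ?_ ?_ fU fV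
  · exact Submodule.inclusion_injective hle
  · rintro ⟨z, hz⟩
    refine ⟨⟨z, Sp_mono Set.subset_union_right hz⟩, ?_⟩
    apply Subtype.ext
    change rsX V z = z
    refine map_congr_of (F := rsX V) (G := LinearMap.id) ?_ (hz : z ∈ Sp V)
    intro x hx
    rw [rsX_single, if_pos hx, LinearMap.id_apply]
  · rintro ⟨z, hz⟩
    constructor
    · intro h
      have h0 : rsX V z = 0 := congrArg Subtype.val h
      have hzU : z ∈ Sp U := by
        have h1 : z - rsX V z ∈ Sp U := by
          refine map_mem_of (F := LinearMap.id - rsX V) (N := Sp U) ?_ (hz : z ∈ Sp (U ∪ V))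
          intro x hx
          rw [LinearMap.sub_apply, LinearMap.id_apply, rsX_single]
          by_cases hxV : x ∈ V
          · rw [if_pos hxV, sub_self]; exact Submodule.zero_mem _
          · rw [if_neg hxV, sub_zero]
            exact single_mem_Sp (hx.resolve_right hxV) 1
        rwa [h0, sub_zero] at h1
      exact ⟨⟨z, hzU⟩, rfl⟩
    · rintro ⟨⟨z', hz'⟩, h⟩
      have h1 : z' = z := congrArg Subtype.val h
      subst h1
      apply Subtype.ext
      change rsX V z' = 0
      refine map_congr_of (F := rsX V) (G := 0) ?_ (hz' : z' ∈ Sp U)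
      intro x hx
      rw [rsX_single, if_neg (fun hxV => Set.disjoint_left.1 hUV hx hxV), LinearMap.zero_apply]

lemma PF.biUnion {n : ℕ} {ι : Type} (s : Finset ι) (U : ι → Set X)
    (hd : ∀ i ∈ s, ∀ j ∈ s, i ≠ j → Disjoint (U i) (U j)) (h : ∀ i ∈ s, PF H n (U i)) :
    PF H n (⋃ i ∈ s, U i) := by
  classical
  induction s using Finset.induction_on with
  | empty => simpa using PF.empty (H := H) (X := X) n
  | insert a s ha ih =>
    rw [Finset.set_biUnion_insert]
    refine PF.union ?_ (h a (Finset.mem_insert_self _ _)) (ih ?_ ?_)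
    · rw [Set.disjoint_iUnion₂_right]
      intro i hi
      exact hd a (Finset.mem_insert_self _ _) i (Finset.mem_insert_of_mem hi)
        (fun h => ha (h ▸ hi))
    · exact fun i hi j hj => hd i (Finset.mem_insert_of_mem hi) j (Finset.mem_insert_of_mem hj)
    · exact fun i hi => h i (Finset.mem_insert_of_mem hi)

variable {Y : Type} [MulAction H Y]

/-- pushforward -/
noncomputable def pushX (φ : X → Y) : (X →₀ ℤ) →ₗ[ℤ] (Y →₀ ℤ) := lext fun x => single (φ x) 1

lemma pushX_single (φ : X → Y) (x : X) : pushX φ (single x 1) = single (φ x) 1 :=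
  lext_single_one _ _

lemma pushX_eq_mapDomain (φ : X → Y) (z : X →₀ ℤ) : pushX φ z = Finsupp.mapDomain φ z := by
  refine map_congr_of (U := Set.univ) (F := pushX φ) (G := Finsupp.lmapDomain ℤ ℤ φ) ?_
    (mem_Sp.2 fun _ _ => trivial)
  intro x _
  rw [pushX_single, Finsupp.lmapDomain_apply, Finsupp.mapDomain_single]

lemma pushX_injOn {φ : X → Y} {U : Set X} (h : Set.InjOn φ U) {z : X →₀ ℤ}
    (hz : z ∈ Sp U) (h0 : pushX φ z = 0) : z = 0 := by
  have := Finsupp.mapDomain_injOn (M := ℤ) U h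
  apply this
  · change (z.support : Set X) ⊆ U
    rw [Sp, Finsupp.mem_supported] at hz
    exact hz
  · change ((0 : X →₀ ℤ).support : Set X) ⊆ U
    simp
  · rw [← pushX_eq_mapDomain, h0, Finsupp.mapDomain_zero]

lemma pushX_equiv {φ : X → Y} (hφ : ∀ (h : H) (x : X), φ (h • x) = h • φ x) (h : H) (x : X) :
    pushX φ (single (h • x) 1) = MonoidAlgebra.of ℤ H h • pushX φ (single x 1) := by
  rw [pushX_single, pushX_single, of_smul_single, hφ]

lemma pushX_mem {φ : X → Y} {U : Set X} {z : X →₀ ℤ} (hz : z ∈ Sp U) :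
    pushX φ z ∈ Sp (φ '' U) := by
  refine map_mem_of ?_ hz
  intro x hx
  rw [pushX_single]
  exact single_mem_Sp (Set.mem_image_of_mem φ hx) 1

lemma pushX_surj {φ : X → Y} {U : Set X} {z : Y →₀ ℤ} (hz : z ∈ Sp (φ '' U)) :
    ∃ z' ∈ Sp U, pushX φ z' = z := by
  have : z ∈ (Sp U).map (pushX φ) := by
    refine map_mem_of (F := LinearMap.id) ?_ hz
    rintro _ ⟨x, hx, rfl⟩
    refine ⟨single x 1, single_mem_Sp hx 1, ?_⟩
    rw [pushX_single]; rfl
  obtain ⟨z', h1, h2⟩ := this
  exact ⟨z', h1, h2⟩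

lemma Inv.image {φ : X → Y} (hφ : ∀ (h : H) (x : X), φ (h • x) = h • φ x) {U : Set X}
    (hU : Inv H U) : Inv H (φ '' U) := by
  rintro h _ ⟨x, hx, rfl⟩
  exact ⟨h • x, hU h x hx, hφ h x⟩

/-- the map induced on supported submodules -/
noncomputable def pushS {φ : X → Y} (hφ : ∀ (h : H) (x : X), φ (h • x) = h • φ x) {U : Set X}
    (hU : Inv H U) : SpR U hU →ₗ[RH H] SpR (φ '' U) (hU.image hφ) :=
  LinearMap.codRestrict _ (mkR (pushX φ) (pushX_equiv hφ) ∘ₗ (SpR U hU).subtype)
    (fun z => pushX_mem z.2)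

lemma pushS_coe {φ : X → Y} (hφ : ∀ (h : H) (x : X), φ (h • x) = h • φ x) {U : Set X}
    (hU : Inv H U) (z : SpR U hU) : (pushS hφ hU z : Y →₀ ℤ) = pushX φ z := rfl

lemma pushS_surj {φ : X → Y} (hφ : ∀ (h : H) (x : X), φ (h • x) = h • φ x) {U : Set X}
    (hU : Inv H U) : Function.Surjective (pushS hφ hU) := by
  rintro ⟨z, hz⟩
  obtain ⟨z', h1, h2⟩ := pushX_surj hz
  exact ⟨⟨z', h1⟩, Subtype.ext h2⟩

lemma PF.image {n : ℕ} {φ : X → Y} (hφ : ∀ (h : H) (x : X), φ (h • x) = h • φ x) {U : Set X}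
    (hinj : Set.InjOn φ U) (h : PF H n U) : PF H n (φ '' U) := by
  obtain ⟨iU, fU⟩ := h
  refine ⟨iU.image hφ, FP.of_bij (pushS hφ iU) ?_ (pushS_surj hφ iU) fU⟩
  rw [injective_iff_map_eq_zero]
  intro z hz
  apply Subtype.ext
  exact pushX_injOn hinj z.2 (congrArg Subtype.val hz)

/-- free orbits -/
lemma PF.torsor {n : ℕ} {U : Set X} (x₀ : X) (hx₀ : ∀ x, x ∈ U ↔ ∃ h : H, x = h • x₀)
    (hfree : ∀ h : H, h • x₀ = x₀ → h = 1) : PF H n U := by
  classical
  have iU : Inv H U := by
    intro h x hx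
    obtain ⟨k, rfl⟩ := (hx₀ x).1 hx
    exact (hx₀ _).2 ⟨h * k, by rw [mul_smul]⟩
  refine ⟨iU, ?_⟩
  have hmem : ∀ r : RH H, LinearMap.toSpanSingleton (RH H) (X →₀ ℤ) (single x₀ 1) r ∈
      SpR U iU := by
    intro r
    rw [LinearMap.toSpanSingleton_apply]
    exact (SpR U iU).smul_mem r (single_mem_Sp ((hx₀ x₀).2 ⟨1, by simp⟩) 1)
  refine FP.of_bij (LinearMap.codRestrict (SpR U iU) _ hmem) ?_ ?_ FP.ring
  · -- injectivity through a left inverse
    let g : (X →₀ ℤ) →ₗ[ℤ] RH H := lext fun x =>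
      if h : ∃ k : H, x = k • x₀ then MonoidAlgebra.of ℤ H h.choose else 0
    have hg : ∀ k : H, g (single (k • x₀) 1) = MonoidAlgebra.of ℤ H k := by
      intro k
      have hk : ∃ k' : H, k • x₀ = k' • x₀ := ⟨k, rfl⟩
      rw [lext_single_one, dif_pos hk]
      congr 1
      have hs := hk.choose_spec
      generalize hk.choose = q at hs
      have h2 : (q⁻¹ * k) • x₀ = x₀ := by
        rw [mul_smul, hs, inv_smul_smul]
      have h3 := hfree _ h2
      rw [inv_mul_eq_one] at h3
      exact h3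
    have hgr : ∀ r : RH H, g (r • (single x₀ 1 : X →₀ ℤ)) = r := by
      intro r
      induction r using MonoidAlgebra.induction_on with
      | of h => rw [of_smul_single, hg]
      | add a b ha hb => rw [add_smul, map_add, ha, hb]
      | smul m a ha => rw [smul_assoc, map_smul, ha]
    intro r s hrs
    have h1 : r • (single x₀ 1 : X →₀ ℤ) = s • (single x₀ 1 : X →₀ ℤ) := congrArg Subtype.val hrs
    rw [← hgr r, h1, hgr s]
  · rintro ⟨z, hz⟩
    have h1 : ∀ z : X →₀ ℤ, z ∈ Sp U → z ∈
        (LinearMap.range (LinearMap.toSpanSingleton (RH H) (X →₀ ℤ)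
          (single x₀ 1))).restrictScalars ℤ := by
      intro z hz
      refine map_mem_of (F := LinearMap.id) ?_ hz
      intro x hx
      obtain ⟨k, rfl⟩ := (hx₀ x).1 hx
      exact ⟨MonoidAlgebra.of ℤ H k, by
        rw [LinearMap.toSpanSingleton_apply, of_smul_single]; rfl⟩
    obtain ⟨r, hr⟩ := h1 z hz
    exact ⟨r, Subtype.ext hr⟩

end Perm

end Pool.Agent.Lib_helper28.OF
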