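import Pool.Agent.Lib_helper28.OFPerm

set_option autoImplicit false

namespace Pool.Agent.Lib_helper28.OF

open Finsupp

variable {H : Type} [Group H] {X : Type} [MulAction H X] {Y : Type} [MulAction H Y]

/-- quotient of an `H`-set by a commuting automorphism with infinite orbits -/
theorem PF.quot {φ : X → Y} (hφ : ∀ (h : H) (x : X), φ (h • x) = h • φ x)
    (ψ : Equiv.Perm X) (hψ : ∀ (h : H) (x : X), ψ (h • x) = h • ψ x) {U : Set X}
    (hψU : ∀ x, ψ x ∈ U ↔ x ∈ U) (hφψ : ∀ x ∈ U, φ (ψ x) = φ x)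
    (hfib : ∀ x ∈ U, ∀ x' ∈ U, φ x = φ x' → ∃ n : ℕ, x' = (ψ ^ n) x ∨ x = (ψ ^ n) x')
    (hfree : ∀ x ∈ U, ∀ n : ℕ, (ψ ^ n) x = x → n = 0)
    (h : ∀ n, PF H n U) : ∀ n, PF H n (φ '' U) := by
  classical
  have iU := (h 0).inv
  have hpow : ∀ (n : ℕ) (x : X), x ∈ U → (ψ ^ n) x ∈ U := by
    intro n
    induction n with
    | zero => intro x hx; simpa using hx
    | succ n ih =>
      intro x hx
      rw [pow_succ', Equiv.Perm.mul_apply]
      exact (hψU _).2 (ih x hx)
  -- the map 1 - ψ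
  let δ : (X →₀ ℤ) →ₗ[ℤ] (X →₀ ℤ) := LinearMap.id - pushX ψ
  have hδ : ∀ z, δ z = z - pushX ψ z := fun z => rfl
  have hδ1 : ∀ x, δ (single x 1) = single x 1 - single (ψ x) 1 := fun x => by
    rw [hδ, pushX_single]
  have hδe : ∀ (h : H) (x : X), δ (single (h • x) 1) =
      MonoidAlgebra.of ℤ H h • δ (single x 1) := by
    intro h x
    rw [hδ1, hδ1, smul_sub, of_smul_single, of_smul_single, hψ]
  have hδmem : ∀ z ∈ Sp U, δ z ∈ Sp U := by
    intro z hz
    refine map_mem_of ?_ hz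
    intro x hx
    rw [hδ1]
    exact Submodule.sub_mem _ (single_mem_Sp hx 1) (single_mem_Sp ((hψU x).2 hx) 1)
  have hφδ : ∀ z ∈ Sp U, pushX φ (δ z) = 0 := by
    intro z hz
    refine map_congr_of (F := pushX φ ∘ₗ δ) (G := 0) ?_ hz
    intro x hx
    rw [LinearMap.comp_apply, hδ1, map_sub, pushX_single, pushX_single, hφψ x hx, sub_self,
      LinearMap.zero_apply]
  -- injectivity
  have hinj : ∀ z ∈ Sp U, δ z = 0 → z = 0 := by
    intro z hz h0
    ext x
    by_contra hx
    have hzψ : ∀ y, z (ψ y) = z y := by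
      intro y
      have h1 : z = pushX ψ z := sub_eq_zero.1 ((hδ z).symm.trans h0)
      conv_lhs => rw [h1, pushX_eq_mapDomain]
      exact Finsupp.mapDomain_apply ψ.injective z y
    have hzn : ∀ n : ℕ, z ((ψ ^ n) x) = z x := by
      intro n
      induction n with
      | zero => simp
      | succ n ih => rw [pow_succ', Equiv.Perm.mul_apply, hzψ, ih]
    have hxU : x ∈ U := mem_Sp.1 hz x hx
    have hinjn : Function.Injective (fun n : ℕ => (ψ ^ n) x) := by
      have key : ∀ a b : ℕ, a ≤ b → (ψ ^ a) x = (ψ ^ b) x → a = b := by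
        intro a b hab he
        obtain ⟨c, rfl⟩ := Nat.exists_eq_add_of_le hab
        rw [pow_add, Equiv.Perm.mul_apply] at he
        have := hfree x hxU c ((ψ ^ a).injective he).symm
        omega
      intro a b he
      rcases le_total a b with hab | hab
      · exact key a b hab he
      · exact (key b a hab he.symm).symm
    have hinf : Set.Infinite (Set.range (fun n : ℕ => (ψ ^ n) x)) :=
      Set.infinite_range_of_injective hinjn
    apply hinf
    refine Set.Finite.subset z.support.finite_toSet ?_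
    rintro _ ⟨n, rfl⟩
    simp only [Finset.mem_coe, Finsupp.mem_support_iff]
    rw [hzn]
    exact hx
  -- kernel
  have hD1 : ∀ x ∈ U, ∀ n : ℕ, (single x 1 - single ((ψ ^ n) x) 1 : X →₀ ℤ) ∈
      (Sp U).map δ := by
    intro x hx n
    induction n with
    | zero => simp
    | succ n ih =>
      have e : (single x 1 - single ((ψ ^ (n + 1)) x) 1 : X →₀ ℤ) =
          (single x 1 - single ((ψ ^ n) x) 1) + δ (single ((ψ ^ n) x) 1) := by
        rw [hδ1, pow_succ', Equiv.Perm.mul_apply]; abel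
      rw [e]
      exact Submodule.add_mem _ ih ⟨_, single_mem_Sp (hpow n x hx) 1, rfl⟩
  have hker : ∀ z ∈ Sp U, pushX φ z = 0 → ∃ z' ∈ Sp U, δ z' = z := by
    intro z hz h0
    let s : (Y →₀ ℤ) →ₗ[ℤ] (X →₀ ℤ) := lext fun y =>
      if hy : ∃ x, x ∈ U ∧ φ x = y then single hy.choose 1 else 0
    have hs : ∀ x ∈ U, ∃ x' ∈ U, φ x' = φ x ∧ s (single (φ x) 1) = single x' 1 := by
      intro x hx
      have hy : ∃ x', x' ∈ U ∧ φ x' = φ x := ⟨x, hx, rfl⟩
      refine ⟨hy.choose, hy.choose_spec.1, hy.choose_spec.2, ?_⟩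
      rw [lext_single_one, dif_pos hy]
    have h1 : z - s (pushX φ z) ∈ (Sp U).map δ := by
      refine map_mem_of (F := LinearMap.id - s ∘ₗ pushX φ) ?_ hz
      intro x hx
      rw [LinearMap.sub_apply, LinearMap.id_apply, LinearMap.comp_apply, pushX_single]
      obtain ⟨x', hx', hφx, hsx⟩ := hs x hx
      rw [hsx]
      obtain ⟨n, hn | hn⟩ := hfib x hx x' hx' hφx.symm
      · rw [hn]; exact hD1 x hx n
      · have := hD1 x' hx' n
        rw [← hn] at this
        have h2 := Submodule.neg_mem _ this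
        rwa [neg_sub] at h2
    rw [h0, map_zero, sub_zero] at h1
    obtain ⟨z', h2, h3⟩ := h1
    exact ⟨z', h2, h3⟩
  intro n
  have hfp := fun n => (h n).fp iU
  refine ⟨iU.image hφ, ?_⟩
  cases n with
  | zero =>
    have := FP_zero_iff.1 (hfp 0)
    exact FP_zero_iff.2 (Module.Finite.of_surjective (pushS hφ iU) (pushS_surj hφ iU))
  | succ n =>
    refine FP.coker (pushS hφ iU) (pushS_surj hφ iU) ?_ (hfp (n + 1))
    have hm : ∀ z : SpR U iU, (mkR δ hδe ∘ₗ (SpR U iU).subtype) z ∈ SpR U iU :=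
      fun z => hδmem z.1 z.2
    have hm2 : ∀ z : SpR U iU, LinearMap.codRestrict (SpR U iU) _ hm z ∈
        LinearMap.ker (pushS hφ iU) := by
      intro z
      rw [LinearMap.mem_ker]
      apply Subtype.ext
      exact hφδ z.1 z.2
    refine FP.of_bij (LinearMap.codRestrict _ _ hm2) ?_ ?_ (hfp n)
    · rw [injective_iff_map_eq_zero]
      intro z hz
      apply Subtype.ext
      exact hinj z.1 z.2 (congrArg (fun y => (y.1.1 : X →₀ ℤ)) hz)
    · rintro ⟨⟨z, hz⟩, hz2⟩
      obtain ⟨z', h1, h2⟩ := hker z hz (congrArg Subtype.val hz2)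
      exact ⟨⟨z', h1⟩, Subtype.ext (Subtype.ext h2)⟩

end Pool.Agent.Lib_helper28.OF
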