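import Pool.Agent.Lib_helper28.OFBase

set_option autoImplicit false

namespace Pool.Agent.Lib_helper28.OF

open Amb

/-- labels supported on pairs of natural numbers at most `n` -/
def LabOK (n : ℕ) (c : ℝ → ℝ → ℤ) : Prop :=
  ∀ s t, c s t ≠ 0 → (∃ i : ℕ, i ≤ n ∧ s = i) ∧ (∃ j : ℕ, j ≤ n ∧ t = j)

/-- Elements reachable from the identity by splitting, merging and relabelling. -/
inductive Reach : ℕ → Amb → Prop
  | one : Reach 1 1
  | split {n : ℕ} {g : Amb} (i : ℕ) (h : Reach n g) (hi : i < n) : Reach (n + 1) (g * lh i)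
  | merge {n : ℕ} {g : Amb} (i : ℕ) (h : Reach (n + 1) g) (hi : i < n) : Reach n (g * (lh i)⁻¹)
  | lab {n : ℕ} {g : Amb} {c : ℝ → ℝ → ℤ} (h : Reach n g) (hc : LabOK n c) :
      Reach n (g * iota c)

lemma Reach.left {n : ℕ} {h g : Amb} (hh : Reach n h) (hg : Reach 1 g) : Reach n (g * h) := by
  induction hh with
  | one => simpa using hg
  | split i _ hi ih => rw [← mul_assoc]; exact Reach.split i ih hi
  | merge i _ hi ih => rw [← mul_assoc]; exact Reach.merge i ih hi
  | lab _ hc ih => rw [← mul_assoc]; exact Reach.lab ih hc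

lemma LabOK.neg {n : ℕ} {c : ℝ → ℝ → ℤ} (h : LabOK n c) : LabOK n (fun s t => - c s t) :=
  fun s t hst => h s t (by simpa using hst)

lemma Reach.torsor {n : ℕ} {h k : Amb} (hh : Reach n h) (hk : Reach n k) :
    Reach 1 (k * h⁻¹) := by
  induction hh generalizing k with
  | one => simpa using hk
  | split i _ hi ih =>
    have := ih (Reach.merge i hk hi)
    simpa [mul_assoc] using this
  | merge i _ hi ih =>
    have := ih (Reach.split i hk hi)
    simpa [mul_assoc] using this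
  | lab _ hc ih =>
    have := ih (Reach.lab hk hc.neg)
    rw [mul_inv_rev, iota_inv, ← mul_assoc]
    exact this

lemma Reach.pos {n : ℕ} {g : Amb} (h : Reach n g) : 1 ≤ n := by
  induction h with
  | one => exact le_refl 1
  | split i _ hi ih => omega
  | merge i _ hi ih => omega
  | lab _ _ ih => exact ih

/-- the group -/
def GG : Subgroup Amb where
  carrier := {g | Reach 1 g}
  mul_mem' := fun {a b} ha hb => Reach.left hb ha
  one_mem' := Reach.one
  inv_mem' := fun {a} ha => by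
    have := Reach.torsor ha Reach.one
    simpa using this

lemma mem_GG {g : Amb} : g ∈ GG ↔ Reach 1 g := Iff.rfl

lemma Reach.f_nonpos {n : ℕ} {g : Amb} (h : Reach n g) {x : ℝ} (hx : x ≤ 0) : g.f x = x := by
  induction h with
  | one => rfl
  | split i _ hi ih =>
    rw [mul_f_apply, lh_f, lam_of_le (hx.trans (Nat.cast_nonneg i)), ih]
  | merge i _ hi ih =>
    rw [mul_f_apply, inv_f_apply, lh_f, lam_symm_of_le (hx.trans (Nat.cast_nonneg i)), ih]
  | lab _ _ ih => rw [mul_f_apply, iota_f_apply, ih]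

lemma Reach.f_ge {n : ℕ} {g : Amb} (h : Reach n g) {x : ℝ} (hx : (n : ℝ) ≤ x) :
    g.f x = x - (n - 1) := by
  induction h generalizing x with
  | one => simp [one_f_apply]
  | @split n g i _ hi ih =>
    have hi' : (i : ℝ) + 1 ≤ n := by exact_mod_cast hi
    push_cast at hx
    rw [mul_f_apply, lh_f, lam_of_ge (by linarith), ih (by linarith)]
    push_cast; ring
  | @merge n g i _ hi ih =>
    have hi' : (i : ℝ) + 1 ≤ n := by exact_mod_cast hi
    rw [mul_f_apply, inv_f_apply, lh_f, lam_symm_of_ge (by linarith), ih (by push_cast; linarith)]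
    push_cast; ring
  | lab _ _ ih => rw [mul_f_apply, iota_f_apply, ih hx]

/-! ### division points -/

/-- the division points -/
noncomputable def Tn (n : ℕ) (g : Amb) : Finset ℝ :=
  (Finset.range (n + 1)).image (fun i : ℕ => g.f (i : ℝ))

lemma mem_Tn {n : ℕ} {g : Amb} {t : ℝ} : t ∈ Tn n g ↔ ∃ i : ℕ, i ≤ n ∧ g.f i = t := by
  simp [Tn, Nat.lt_succ_iff]

lemma f_mem_Tn {n i : ℕ} {g : Amb} (hi : i ≤ n) : g.f i ∈ Tn n g := mem_Tn.2 ⟨i, hi, rfl⟩

lemma f_mem_Tn_iff {n i : ℕ} {g : Amb} : g.f i ∈ Tn n g ↔ i ≤ n := by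
  rw [mem_Tn]
  constructor
  · rintro ⟨j, hj, h⟩
    have : (j : ℝ) = i := g.f.injective h
    have : j = i := by exact_mod_cast this
    omega
  · intro h; exact ⟨i, h, rfl⟩

/-- midpoint of the leaf `i` -/
noncomputable def mid (g : Amb) (i : ℕ) : ℝ := g.f ((i : ℝ) + 1 / 2)

lemma half_ne (i j : ℕ) : (i : ℝ) + 1 / 2 ≠ j := by
  intro h
  have h2 : ((2 * i + 1 : ℕ) : ℝ) = ((2 * j : ℕ) : ℝ) := by push_cast; linarith
  have h3 : 2 * i + 1 = 2 * j := by exact_mod_cast h2
  omega

lemma mid_ne (g : Amb) (i j : ℕ) : mid g i ≠ g.f j := fun h => half_ne i j (g.f.injective h)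

lemma mid_not_mem (n : ℕ) (g : Amb) (i : ℕ) : mid g i ∉ Tn n g := by
  rw [mem_Tn]
  rintro ⟨j, _, h⟩
  exact mid_ne g i j h.symm

lemma mid_inj {g : Amb} {i j : ℕ} (h : mid g i = mid g j) : i = j := by
  have := g.f.injective h
  have : (i : ℝ) = j := by linarith
  exact_mod_cast this

lemma split_f_le (g : Amb) {i j : ℕ} (h : j ≤ i) : (g * lh i).f j = g.f j := by
  rw [mul_f_apply, lh_f, lam_of_le (by exact_mod_cast h)]

lemma split_f_mid (g : Amb) (i : ℕ) : (g * lh i).f ((i + 1 : ℕ) : ℝ) = mid g i := by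
  rw [mul_f_apply, lh_f, lam_mid (by push_cast; linarith) (by push_cast; linarith), mid]
  congr 1; push_cast; ring

lemma split_f_ge (g : Amb) {i j : ℕ} (h : i + 1 ≤ j) :
    (g * lh i).f ((j + 1 : ℕ) : ℝ) = g.f j := by
  have : (i : ℝ) + 1 ≤ j := by exact_mod_cast h
  rw [mul_f_apply, lh_f, lam_of_ge (by push_cast; linarith)]
  congr 1; push_cast; ring

lemma split_mid_lt (g : Amb) {i j : ℕ} (h : j < i) : mid (g * lh i) j = mid g j := by
  have : (j : ℝ) + 1 ≤ i := by exact_mod_cast h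
  rw [mid, mul_f_apply, lh_f, lam_of_le (by linarith), mid]

lemma split_mid_gt (g : Amb) {i j : ℕ} (h : i < j) : mid (g * lh i) (j + 1) = mid g j := by
  have : (i : ℝ) + 1 ≤ j := by exact_mod_cast h
  rw [mid, mul_f_apply, lh_f, lam_of_ge (by push_cast; linarith), mid]
  congr 1; push_cast; ring

lemma merge_f_le (g : Amb) {i j : ℕ} (h : j ≤ i) : (g * (lh i)⁻¹).f j = g.f j := by
  have := split_f_le (g * (lh i)⁻¹) h
  simpa using this.symm

lemma merge_f_ge (g : Amb) {i j : ℕ} (h : i + 1 ≤ j) :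
    (g * (lh i)⁻¹).f j = g.f ((j + 1 : ℕ) : ℝ) := by
  have := split_f_ge (g * (lh i)⁻¹) h
  simpa using this.symm

lemma merge_mid (g : Amb) (i : ℕ) : mid (g * (lh i)⁻¹) i = g.f ((i + 1 : ℕ) : ℝ) := by
  have := split_f_mid (g * (lh i)⁻¹) i
  simpa using this.symm

lemma Tn_split {n i : ℕ} (g : Amb) (hi : i < n) :
    Tn (n + 1) (g * lh i) = insert (mid g i) (Tn n g) := by
  ext t
  rw [Finset.mem_insert, mem_Tn, mem_Tn]
  constructor
  · rintro ⟨j, hj, rfl⟩
    rcases Nat.lt_or_ge i j with h | h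
    · rcases Nat.lt_or_ge (i + 1) j with h' | h'
      · right
        obtain ⟨k, rfl⟩ : ∃ k, j = k + 1 := ⟨j - 1, by omega⟩
        exact ⟨k, by omega, (split_f_ge g (by omega)).symm⟩
      · left
        have : j = i + 1 := by omega
        subst this
        exact split_f_mid g i
    · right
      exact ⟨j, by omega, (split_f_le g h).symm⟩
  · rintro (rfl | ⟨j, hj, rfl⟩)
    · exact ⟨i + 1, by omega, split_f_mid g i⟩
    · rcases Nat.lt_or_ge i j with h | h
      · exact ⟨j + 1, by omega, split_f_ge g h⟩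
      · exact ⟨j, by omega, split_f_le g h⟩

lemma Tn_merge {n i : ℕ} (g : Amb) (hi : i < n) :
    Tn n (g * (lh i)⁻¹) = (Tn (n + 1) g).erase (g.f ((i + 1 : ℕ) : ℝ)) := by
  have h := Tn_split (g * (lh i)⁻¹) hi
  rw [inv_mul_cancel_right, merge_mid] at h
  rw [h, Finset.erase_insert]
  rw [← merge_mid]
  exact mid_not_mem _ _ _

lemma Tn_card (n : ℕ) (g : Amb) : (Tn n g).card = n + 1 := by
  rw [Tn, Finset.card_image_of_injective, Finset.card_range]
  intro i j h
  have : (i : ℝ) = j := g.f.injective h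
  exact_mod_cast this

lemma Tn_congr {n : ℕ} {g h : Amb} (e : g.f = h.f) : Tn n g = Tn n h := by
  unfold Tn; rw [e]

lemma mid_congr {g h : Amb} (e : g.f = h.f) (i : ℕ) : mid g i = mid h i := by
  unfold mid; rw [e]

/-- index of a point -/
noncomputable def ix (T : Finset ℝ) (t : ℝ) : ℕ := (T.filter (fun s => s < t)).card

lemma ix_Tn {n j : ℕ} (g : Amb) (hj : j ≤ n) : ix (Tn n g) (g.f j) = j := by
  have : (Tn n g).filter (fun s => s < g.f j) =
      (Finset.range j).image (fun i : ℕ => g.f (i : ℝ)) := by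
    ext t
    rw [Finset.mem_filter, mem_Tn, Finset.mem_image]
    constructor
    · rintro ⟨⟨i, hi, rfl⟩, h⟩
      have h1 : (i : ℝ) < j := g.f.lt_iff_lt.1 h
      have h2 : i < j := by exact_mod_cast h1
      exact ⟨i, Finset.mem_range.2 h2, rfl⟩
    · rintro ⟨i, hi, rfl⟩
      have h2 := Finset.mem_range.1 hi
      exact ⟨⟨i, by omega, rfl⟩, g.f.lt_iff_lt.2 (by exact_mod_cast h2)⟩
  rw [ix, this, Finset.card_image_of_injective, Finset.card_range]
  intro i j h
  have : (i : ℝ) = j := g.f.injective h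
  exact_mod_cast this

lemma ix_mid {n i : ℕ} (g : Amb) (hi : i ≤ n) : ix (Tn n g) (mid g i) = i + 1 := by
  have : (Tn n g).filter (fun s => s < mid g i) =
      (Finset.range (i + 1)).image (fun i : ℕ => g.f (i : ℝ)) := by
    ext t
    rw [Finset.mem_filter, mem_Tn, Finset.mem_image]
    constructor
    · rintro ⟨⟨j, hj, rfl⟩, h⟩
      have h1 : (j : ℝ) < (i : ℝ) + 1 / 2 := g.f.lt_iff_lt.1 h
      have h2 : (j : ℝ) < ((i + 1 : ℕ) : ℝ) := by push_cast; linarith
      have h3 : j < i + 1 := by exact_mod_cast h2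
      exact ⟨j, Finset.mem_range.2 h3, rfl⟩
    · rintro ⟨j, hj, rfl⟩
      have h2 := Finset.mem_range.1 hj
      have h3 : (j : ℝ) ≤ i := by exact_mod_cast Nat.lt_succ_iff.1 h2
      exact ⟨⟨j, by omega, rfl⟩, g.f.lt_iff_lt.2 (by linarith)⟩
  rw [ix, this, Finset.card_image_of_injective, Finset.card_range]
  intro i j h
  have : (i : ℝ) = j := g.f.injective h
  exact_mod_cast this

lemma ix_image (T : Finset ℝ) (t : ℝ) (e : ℝ ≃o ℝ) : ix (T.image e) (e t) = ix T t := by
  unfold ix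
  rw [Finset.filter_image, Finset.card_image_of_injective _ e.injective]
  congr 1
  ext s
  simp

lemma Tn_left (n : ℕ) (g u : Amb) : Tn n (u * g) = (Tn n g).image u.f := by
  unfold Tn
  rw [Finset.image_image]
  rfl

end Pool.Agent.Lib_helper28.OF
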