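import Pool.Agent.Lib_helper28.OFFP

set_option autoImplicit false

namespace Pool.Agent.Lib_helper28.OF

section Res

variable (R : Type) [Ring R]

/-- projective resolutions with finitely generated terms up to degree `n` -/
def HasRes (n : ℕ) (M : Type) [AddCommGroup M] [Module R M] : Prop :=
  ∃ (P : ℕ → ModuleCat.{0} R) (d : ∀ i, P (i + 1) →ₗ[R] P i) (ε : P 0 →ₗ[R] M),
    (∀ i, Module.Projective R (P i)) ∧ Function.Surjective ε ∧ Function.Exact (d 0) ε ∧
    (∀ i, Function.Exact (d (i + 1)) (d i)) ∧ ∀ i ≤ n, Module.Finite R (P i)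

/-- same without finiteness -/
def HasRes0 (M : Type) [AddCommGroup M] [Module R M] : Prop :=
  ∃ (P : ℕ → ModuleCat.{0} R) (d : ∀ i, P (i + 1) →ₗ[R] P i) (ε : P 0 →ₗ[R] M),
    (∀ i, Module.Projective R (P i)) ∧ Function.Surjective ε ∧ Function.Exact (d 0) ε ∧
    (∀ i, Function.Exact (d (i + 1)) (d i))

variable {R}

/-- canonical cover -/
noncomputable def lcov (M : ModuleCat.{0} R) : (M →₀ R) →ₗ[R] M :=
  Finsupp.linearCombination R (fun m : M => m)

lemma lcov_surj (M : ModuleCat.{0} R) : Function.Surjective (lcov M) := by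
  intro m
  exact ⟨Finsupp.single m 1, by simp [lcov]⟩

variable (R) in
/-- the sequence of syzygies -/
noncomputable def syz (M : ModuleCat.{0} R) : ℕ → ModuleCat.{0} R
  | 0 => M
  | n + 1 => ModuleCat.of R (LinearMap.ker (lcov (syz M n)))

/-- inclusion of the syzygy -/
noncomputable def syzInc (M : ModuleCat.{0} R) (n : ℕ) :
    syz R M (n + 1) →ₗ[R] ((syz R M n) →₀ R) := (LinearMap.ker (lcov (syz R M n))).subtype

lemma syzInc_inj (M : ModuleCat.{0} R) (n : ℕ) : Function.Injective (syzInc M n) :=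
  Subtype.val_injective

lemma syzInc_range (M : ModuleCat.{0} R) (n : ℕ) (x : (syz R M n) →₀ R) :
    lcov (syz R M n) x = 0 ↔ ∃ y, syzInc M n y = x := by
  constructor
  · intro h; exact ⟨⟨x, h⟩, rfl⟩
  · rintro ⟨y, rfl⟩
    exact y.2

lemma hasRes0 (M : Type) [AddCommGroup M] [Module R M] : HasRes0 R M := by
  let M' := ModuleCat.of R M
  let P : ℕ → ModuleCat.{0} R := fun i => ModuleCat.of R ((syz R M' i) →₀ R)
  let d : ∀ i, P (i + 1) →ₗ[R] P i := fun i => syzInc M' i ∘ₗ lcov (syz R M' (i + 1))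
  let ε : P 0 →ₗ[R] M := lcov (syz R M' 0)
  refine ⟨P, d, ε, ?_, ?_, ?_, ?_⟩
  · intro i
    exact Module.Projective.of_free
  · exact lcov_surj _
  · intro x
    constructor
    · intro h
      obtain ⟨y, hy⟩ := (syzInc_range M' 0 x).1 h
      obtain ⟨w, hw⟩ := lcov_surj (syz R M' 1) y
      refine ⟨w, ?_⟩
      change syzInc M' 0 (lcov (syz R M' 1) w) = x
      rw [hw, hy]
    · rintro ⟨w, rfl⟩
      exact (syzInc_range M' 0 _).2 ⟨_, rfl⟩
  · intro i x
    have h0 : d i x = 0 ↔ lcov (syz R M' (i + 1)) x = 0 := by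
      constructor
      · intro h
        apply syzInc_inj M' i
        rw [map_zero]
        exact h
      · intro h
        change syzInc M' i (lcov (syz R M' (i + 1)) x) = 0
        rw [h, map_zero]
    rw [h0]
    constructor
    · intro h
      obtain ⟨y, hy⟩ := (syzInc_range M' (i + 1) x).1 h
      obtain ⟨w, hw⟩ := lcov_surj (syz R M' (i + 1 + 1)) y
      refine ⟨w, ?_⟩
      change syzInc M' (i + 1) (lcov (syz R M' (i + 1 + 1)) w) = x
      rw [hw, hy]
    · rintro ⟨w, rfl⟩
      exact (syzInc_range M' (i + 1) _).2 ⟨_, rfl⟩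

/-- extend a resolution of a kernel -/
lemma extend_res {F M : Type} [AddCommGroup F] [Module R F] [AddCommGroup M] [Module R M]
    (hF : Module.Projective R F) (φ : F →ₗ[R] M) (hφ : Function.Surjective φ)
    (P : ℕ → ModuleCat.{0} R) (d : ∀ i, P (i + 1) →ₗ[R] P i)
    (ε : P 0 →ₗ[R] LinearMap.ker φ)
    (h1 : ∀ i, Module.Projective R (P i)) (h2 : Function.Surjective ε)
    (h3 : Function.Exact (d 0) ε) (h4 : ∀ i, Function.Exact (d (i + 1)) (d i)) :
    ∃ (P' : ℕ → ModuleCat.{0} R) (d' : ∀ i, P' (i + 1) →ₗ[R] P' i) (ε' : P' 0 →ₗ[R] M),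
    (∀ i, Module.Projective R (P' i)) ∧ Function.Surjective ε' ∧ Function.Exact (d' 0) ε' ∧
    (∀ i, Function.Exact (d' (i + 1)) (d' i)) ∧ P' 0 = ModuleCat.of R F ∧
      ∀ i, P' (i + 1) = P i := by
  let P' : ℕ → ModuleCat.{0} R := fun i => match i with
    | 0 => ModuleCat.of R F
    | i + 1 => P i
  let d' : ∀ i, P' (i + 1) →ₗ[R] P' i := fun i => match i with
    | 0 => (LinearMap.ker φ).subtype ∘ₗ ε
    | i + 1 => d i
  refine ⟨P', d', φ, ?_, hφ, ?_, ?_, rfl, fun i => rfl⟩
  · intro i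
    match i with
    | 0 => exact hF
    | i + 1 => exact h1 i
  · intro x
    constructor
    · intro h
      obtain ⟨w, hw⟩ := h2 ⟨x, h⟩
      refine ⟨w, ?_⟩
      change ((ε w : LinearMap.ker φ) : F) = x
      rw [hw]
    · rintro ⟨w, rfl⟩
      exact (ε w).2
  · intro i
    match i with
    | 0 =>
      intro x
      have h0 : d' 0 x = 0 ↔ ε x = 0 := by
        constructor
        · intro h
          apply Subtype.ext
          exact h
        · intro h
          change ((ε x : LinearMap.ker φ) : F) = 0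
          rw [h]; rfl
      rw [h0]
      exact h3 x
    | i + 1 => exact h4 i

lemma FP.hasRes : ∀ {n : ℕ} {M : Type} [AddCommGroup M] [Module R M], FP R n M →
    HasRes R n M := by
  intro n
  induction n with
  | zero =>
    intro M _ _ h
    have hfin := FP_zero_iff.1 h
    obtain ⟨k, φ, hφ⟩ := Module.Finite.exists_fin' R M
    obtain ⟨P, d, ε, h1, h2, h3, h4⟩ := hasRes0 (R := R) (LinearMap.ker φ)
    obtain ⟨P', d', ε', g1, g2, g3, g4, g5, g6⟩ :=
      extend_res inferInstance φ hφ P d ε h1 h2 h3 h4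
    refine ⟨P', d', ε', g1, g2, g3, g4, ?_⟩
    intro i hi
    obtain rfl : i = 0 := by omega
    rw [g5]
    change Module.Finite R (Fin k → R)
    infer_instance
  | succ n ih =>
    intro M _ _ h
    obtain ⟨k, φ, hφ, hK⟩ := FP_succ_iff.1 h
    obtain ⟨P, d, ε, h1, h2, h3, h4, h5⟩ := ih hK
    obtain ⟨P', d', ε', g1, g2, g3, g4, g5, g6⟩ :=
      extend_res inferInstance φ hφ P d ε h1 h2 h3 h4
    refine ⟨P', d', ε', g1, g2, g3, g4, ?_⟩
    intro i hi
    rcases i with _ | i
    · rw [g5]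
      change Module.Finite R (Fin k → R)
      infer_instance
    · rw [g6]
      exact h5 i (by omega)

end Res

end Pool.Agent.Lib_helper28.OF
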