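import Pool.Agent.Lib_helper28.OFQuot
import Pool.Agent.Lib_helper28.OFDown

set_option autoImplicit false

namespace Pool.Agent.Lib_helper28.OF

open Amb Finsupp
open scoped Pointwise

/-- a group acting as the stabiliser of `A` -/
structure Setup (A : Finset ℝ) (H : Type) [Group H] [MulAction H Cell]
    [MulAction H Amb] where
  e : H →* Amb
  hC : ∀ (h : H) (x : Cell), h • x = e h • x
  hA : ∀ (h : H) (g : Amb), h • g = e h * g
  inj : Function.Injective e
  range : ∀ g, (∃ h, e h = g) ↔ Reach 1 g ∧ A.image g.f = A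

lemma im_mul (u g : Amb) (P : Finset ℕ) : im (u * g) P = (im g P).image u.f := by
  unfold im
  rw [Finset.image_image]
  rfl

/-- elements of height `m` sending the index set `P` to `A` -/
def Bm (A : Finset ℝ) (m : ℕ) (P : Finset ℕ) : Set Amb := {g | Reach m g ∧ im g P = A}

section setup

variable {A : Finset ℝ} {H : Type} [Group H] [MulAction H Cell]
    [MulAction H Amb] (D : Setup A H)

include D

lemma Setup.hS (h : H) (y : Set Amb) : h • y = D.e h • y := by
  ext x
  constructor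
  · rintro ⟨g, hg, rfl⟩
    exact ⟨g, hg, by simp only [smul_eq_mul]; rw [D.hA]⟩
  · rintro ⟨g, hg, rfl⟩
    exact ⟨g, hg, by simp only [smul_eq_mul]; rw [D.hA]⟩

lemma PF_B (n m : ℕ) (P : Finset ℕ) : PF H n (Bm A m P) := by
  by_cases hne : (Bm A m P).Nonempty
  · obtain ⟨g₀, hg₀, hP₀⟩ := hne
    refine PF.torsor g₀ ?_ ?_
    · intro g
      constructor
      · rintro ⟨hg, hP⟩
        obtain ⟨h, hh⟩ := (D.range (g * g₀⁻¹)).2 ⟨hg₀.torsor hg, by
          conv_lhs => rw [← hP₀]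
          rw [← im_mul, inv_mul_cancel_right, hP]⟩
        refine ⟨h, ?_⟩
        rw [D.hA, hh, inv_mul_cancel_right]
      · rintro ⟨h, rfl⟩
        obtain ⟨h1, h2⟩ := (D.range (D.e h)).1 ⟨h, rfl⟩
        rw [D.hA]
        exact ⟨hg₀.left h1, by rw [im_mul, hP₀, h2]⟩
    · intro h hh
      rw [D.hA, mul_eq_right] at hh
      apply D.inj
      rw [hh, map_one]
  · rw [Set.not_nonempty_iff_eq_empty] at hne
    rw [hne]
    exact PF.empty n

end setup

/-- labels supported on `K` -/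
def LK (K : Finset (ℕ × ℕ)) (c : ℝ → ℝ → ℤ) : Prop :=
  ∀ s t, c s t ≠ 0 → ∃ k ∈ K, s = (k.1 : ℝ) ∧ t = (k.2 : ℝ)

/-- coset of labels supported on `K` -/
def cs (K : Finset (ℕ × ℕ)) (g : Amb) : Set Amb := {x | ∃ c, LK K c ∧ x = g * iota c}

lemma self_mem_cs (K : Finset (ℕ × ℕ)) (g : Amb) : g ∈ cs K g :=
  ⟨fun _ _ => 0, fun _ _ h => absurd rfl h, by rw [iota_zero, mul_one]⟩

lemma LK.add {K : Finset (ℕ × ℕ)} {c d : ℝ → ℝ → ℤ} (hc : LK K c) (hd : LK K d) :
    LK K (fun s t => c s t + d s t) := by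
  intro s t h
  by_cases h1 : c s t = 0
  · exact hd s t (fun h2 => h (by simp [h1, h2]))
  · exact hc s t h1

lemma LK.neg {K : Finset (ℕ × ℕ)} {c : ℝ → ℝ → ℤ} (hc : LK K c) :
    LK K (fun s t => - c s t) := fun s t h => hc s t (by simpa using h)

lemma cs_eq {K : Finset (ℕ × ℕ)} {g x : Amb} (h : x ∈ cs K g) : cs K x = cs K g := by
  obtain ⟨c, hc, rfl⟩ := h
  ext y
  constructor
  · rintro ⟨d, hd, rfl⟩
    exact ⟨_, hc.add hd, by rw [mul_assoc, iota_mul_iota]⟩
  · rintro ⟨d, hd, rfl⟩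
    refine ⟨_, hc.neg.add hd, ?_⟩
    rw [mul_assoc, iota_mul_iota]
    congr 2
    funext s t
    ring

/-- a single label -/
noncomputable def dl (k : ℕ × ℕ) (n : ℤ) : ℝ → ℝ → ℤ :=
  fun s t => if s = (k.1 : ℝ) ∧ t = (k.2 : ℝ) then n else 0

lemma dl_add (k : ℕ × ℕ) (n m : ℤ) : iota (dl k n) * iota (dl k m) = iota (dl k (n + m)) := by
  rw [iota_mul_iota]
  congr 1
  funext s t
  simp only [dl]
  split_ifs <;> simp

lemma dl_zero (k : ℕ × ℕ) : iota (dl k 0) = 1 := by
  rw [← iota_zero]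
  congr 1
  funext s t
  simp [dl]

lemma op_smul_cs (K : Finset (ℕ × ℕ)) (g : Amb) (d : ℝ → ℝ → ℤ) :
    MulOpposite.op (iota d) • cs K g = cs K (g * iota d) := by
  ext x
  rw [Set.mem_smul_set_iff_inv_smul_mem, ← MulOpposite.op_inv, MulOpposite.smul_eq_mul_unop,
    MulOpposite.unop_op]
  constructor
  · rintro ⟨c, hc, h⟩
    refine ⟨c, hc, ?_⟩
    rw [mul_inv_eq_iff_eq_mul] at h
    rw [h, mul_assoc, mul_assoc, iota_mul_iota, iota_mul_iota]
    congr 2
    funext s t; ring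
  · rintro ⟨c, hc, rfl⟩
    refine ⟨c, hc, ?_⟩
    rw [mul_inv_eq_iff_eq_mul, mul_assoc, mul_assoc, iota_mul_iota, iota_mul_iota]
    congr 2
    funext s t; ring

/-- the commuting automorphism -/
noncomputable def psi (k : ℕ × ℕ) : Equiv.Perm (Set Amb) :=
  MulAction.toPerm (MulOpposite.op (iota (dl k 1)))

lemma psi_apply (k : ℕ × ℕ) (y : Set Amb) :
    psi k y = MulOpposite.op (iota (dl k 1)) • y := rfl

lemma psi_pow_cs (K : Finset (ℕ × ℕ)) (k : ℕ × ℕ) (g : Amb) (n : ℕ) :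
    ((psi k) ^ n) (cs K g) = cs K (g * iota (dl k n)) := by
  induction n with
  | zero => simp [dl_zero]
  | succ n ih =>
    rw [pow_succ', Equiv.Perm.mul_apply, ih, psi_apply, op_smul_cs, mul_assoc, dl_add]
    push_cast
    rfl

/-- enlarge a coset -/
def phiK (k : ℕ × ℕ) (y : Set Amb) : Set Amb := {x | ∃ z ∈ y, ∃ n : ℤ, x = z * iota (dl k n)}

lemma decomp (K : Finset (ℕ × ℕ)) (k : ℕ × ℕ) {c : ℝ → ℝ → ℤ} (hc : LK (insert k K) c) :
    ∃ d, LK K d ∧ iota c = iota (dl k (c k.1 k.2)) * iota d := by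
  classical
  refine ⟨fun s t => if s = (k.1 : ℝ) ∧ t = (k.2 : ℝ) then 0 else c s t, ?_, ?_⟩
  · intro s t h
    simp only [ne_eq, ite_eq_left_iff, not_forall] at h
    obtain ⟨h1, h2⟩ := h
    obtain ⟨k', hk', h3, h4⟩ := hc s t h2
    rcases Finset.mem_insert.1 hk' with rfl | hk'
    · exact absurd ⟨h3, h4⟩ h1
    · exact ⟨k', hk', h3, h4⟩
  · rw [iota_mul_iota]
    congr 1
    funext s t
    simp only [dl]
    split_ifs with h
    · rw [h.1, h.2, add_zero]
    · rw [zero_add]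

lemma phiK_cs (K : Finset (ℕ × ℕ)) (k : ℕ × ℕ) (g : Amb) :
    phiK k (cs K g) = cs (insert k K) g := by
  ext x
  constructor
  · rintro ⟨z, ⟨c, hc, rfl⟩, n, rfl⟩
    refine ⟨fun s t => c s t + dl k n s t, ?_, by rw [mul_assoc, iota_mul_iota]⟩
    intro s t h
    by_cases h1 : c s t = 0
    · have h2 : dl k n s t ≠ 0 := fun h2 => h (by simp [h1, h2])
      simp only [dl, ne_eq, ite_eq_right_iff, not_forall] at h2
      obtain ⟨h3, _⟩ := h2
      exact ⟨k, Finset.mem_insert_self _ _, h3⟩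
    · obtain ⟨k', hk', h3⟩ := hc s t h1
      exact ⟨k', Finset.mem_insert_of_mem hk', h3⟩
  · rintro ⟨c, hc, rfl⟩
    obtain ⟨d, hd, he⟩ := decomp K k hc
    refine ⟨g * iota d, ⟨d, hd, rfl⟩, c k.1 k.2, ?_⟩
    rw [he, mul_assoc, iota_mul_iota, iota_mul_iota]
    congr 2
    funext s t; ring

lemma Bm_iota {A : Finset ℝ} {m : ℕ} {P : Finset ℕ} {k : ℕ × ℕ} (hk : k.1 ≤ m ∧ k.2 ≤ m)
    {g : Amb} (hg : g ∈ Bm A m P) (n : ℤ) : g * iota (dl k n) ∈ Bm A m P := by
  refine ⟨hg.1.lab ?_, ?_⟩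
  · intro s t h
    simp only [dl, ne_eq, ite_eq_right_iff, not_forall] at h
    obtain ⟨⟨h3, h4⟩, _⟩ := h
    exact ⟨⟨k.1, hk.1, h3⟩, ⟨k.2, hk.2, h4⟩⟩
  · have : im (g * iota (dl k n)) P = im g P := by
      unfold im
      refine Finset.image_congr fun r _ => ?_
      rfl
    rw [this, hg.2]

section setup2

variable {A : Finset ℝ} {H : Type} [Group H] [MulAction H Cell]
    [MulAction H Amb] (D : Setup A H)

include D

lemma PF_cs (m : ℕ) (P : Finset ℕ) (K : Finset (ℕ × ℕ)) (hK : ∀ k ∈ K, k.1 ≤ m ∧ k.2 ≤ m) :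
    ∀ n, PF H n (cs K '' Bm A m P) := by
  classical
  induction K using Finset.induction_on with
  | empty =>
    intro n
    have e0 : ∀ g : Amb, cs ∅ g = {g} := by
      intro g
      ext x
      rw [Set.mem_singleton_iff]
      constructor
      · rintro ⟨c, hc, rfl⟩
        have : c = fun _ _ => 0 := by
          funext s t
          by_contra h
          obtain ⟨k, hk, _⟩ := hc s t h
          simp at hk
        rw [this, iota_zero, mul_one]
      · rintro rfl
        exact self_mem_cs _ _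
    refine PF.image (φ := cs ∅) ?_ ?_ (PF_B D n m P)
    · intro h g
      rw [e0, e0, D.hS, D.hA, Set.smul_set_singleton, smul_eq_mul]
    · intro g _ g' _ h
      rw [e0, e0] at h
      exact Set.singleton_injective h
  | insert k K hk ih =>
    have ih' := ih (fun k' hk' => hK k' (Finset.mem_insert_of_mem hk'))
    have hk2 := hK k (Finset.mem_insert_self _ _)
    have himg : phiK k '' (cs K '' Bm A m P) = cs (insert k K) '' Bm A m P := by
      rw [Set.image_image]
      refine Set.image_congr fun g _ => phiK_cs K k g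
    rw [← himg]
    refine PF.quot (φ := phiK k) ?_ (psi k) ?_ ?_ ?_ ?_ ?_ ih'
    · intro h y
      rw [D.hS, D.hS]
      ext x
      constructor
      · rintro ⟨z, hz, n, rfl⟩
        obtain ⟨z', hz', rfl⟩ := hz
        exact ⟨z' * iota (dl k n), ⟨z', hz', n, rfl⟩, by
          simp only [smul_eq_mul, mul_assoc]⟩
      · rintro ⟨_, ⟨z, hz, n, rfl⟩, rfl⟩
        exact ⟨D.e h * z, ⟨z, hz, rfl⟩, n, by simp only [smul_eq_mul, mul_assoc]⟩
    · intro h y
      rw [D.hS, D.hS, psi_apply, psi_apply, smul_op_smul]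
    · have key : ∀ g ∈ Bm A m P, psi k (cs K g) = cs K (g * iota (dl k 1)) := fun g _ => by
        rw [psi_apply, op_smul_cs]
      intro y
      constructor
      · rintro ⟨g, hg, hy⟩
        refine ⟨g * iota (dl k (-1)), Bm_iota hk2 hg _, ?_⟩
        apply (psi k).injective
        rw [← hy, key _ (Bm_iota hk2 hg _), mul_assoc, dl_add]
        norm_num [dl_zero]
      · rintro ⟨g, hg, rfl⟩
        exact ⟨g * iota (dl k 1), Bm_iota hk2 hg _, (key g hg).symm⟩
    · rintro _ ⟨g, hg, rfl⟩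
      rw [psi_apply, op_smul_cs, phiK_cs, phiK_cs]
      apply cs_eq
      refine ⟨dl k 1, ?_, rfl⟩
      intro s t h
      simp only [dl, ne_eq, ite_eq_right_iff, not_forall] at h
      obtain ⟨h3, _⟩ := h
      exact ⟨k, Finset.mem_insert_self _ _, h3⟩
    · rintro _ ⟨g, hg, rfl⟩ _ ⟨g', hg', rfl⟩ h
      rw [phiK_cs, phiK_cs] at h
      have h1 : g' ∈ cs (insert k K) g := by rw [h]; exact self_mem_cs _ _
      obtain ⟨c, hc, rfl⟩ := h1
      obtain ⟨d, hd, he⟩ := decomp K k hc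
      rw [he]
      have e1 : cs K (g * (iota (dl k (c k.1 k.2)) * iota d)) =
          cs K (g * iota (dl k (c k.1 k.2))) := by
        apply cs_eq
        exact ⟨d, hd, by rw [mul_assoc]⟩
      rw [e1]
      obtain ⟨n, hn | hn⟩ := Int.eq_nat_or_neg (c k.1 k.2)
      · refine ⟨n, Or.inl ?_⟩
        rw [psi_pow_cs, hn]
      · refine ⟨n, Or.inr ?_⟩
        rw [psi_pow_cs, hn, mul_assoc, dl_add, neg_add_cancel, dl_zero, mul_one]
    · rintro _ ⟨g, hg, rfl⟩ n h
      rw [psi_pow_cs] at h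
      have h1 : g * iota (dl k n) ∈ cs K g := by rw [← h]; exact self_mem_cs _ _
      obtain ⟨c, hc, h2⟩ := h1
      have h3 := mul_left_cancel h2
      by_contra hn
      have h4 : dl k n = c := congrArg Amb.c h3
      have h5 : c k.1 k.2 ≠ 0 := by
        rw [← h4]
        simp only [dl]
        simpa using hn
      obtain ⟨k', hk', h6, h7⟩ := hc _ _ h5
      have h8 : k = k' := by
        apply Prod.ext
        · exact_mod_cast h6
        · exact_mod_cast h7
      exact hk (h8 ▸ hk')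

omit [MulAction H Cell] [MulAction H Amb] D in
lemma PF.of_image {X Y : Type} [MulAction H X] [MulAction H Y] {n : ℕ} {φ : X → Y}
    (hφ : ∀ (h : H) (x : X), φ (h • x) = h • φ x) {U : Set X} (hU : Inv H U)
    (hinj : Set.InjOn φ U) (h : PF H n (φ '' U)) : PF H n U := by
  obtain ⟨iU, fU⟩ := h
  refine ⟨hU, ?_⟩
  have hb : Function.Bijective (pushS hφ hU) := by
    refine ⟨?_, pushS_surj hφ hU⟩
    rw [injective_iff_map_eq_zero]
    intro z hz
    apply Subtype.ext
    exact pushX_injOn hinj z.2 (congrArg Subtype.val hz)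
  exact FP.congr (LinearEquiv.ofBijective _ hb).symm fU

end setup2

end Pool.Agent.Lib_helper28.OF
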