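import Mathlib

set_option autoImplicit false

namespace Pool.Agent.Helper28

open Matrix

/-- There is a valuation subring of `ℝ` in which the prime `p` is a nonunit. -/
lemma exists_valuationSubring (p : ℕ) (hp : p.Prime) :
    ∃ V : ValuationSubring ℝ, V.valuation (p : ℝ) < 1 := by
  let A : Subring ℝ := (Int.castRingHom ℝ).range
  let I : Ideal A := Ideal.span {((p : ℕ) : A)}
  have hI : I ≠ ⊤ := by
    intro h
    have h1 : (1 : A) ∈ I := by rw [h]; trivial
    rw [Ideal.mem_span_singleton] at h1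
    obtain ⟨⟨c, ⟨n, hn⟩⟩, hc⟩ := h1
    have h2 := congrArg (Subtype.val) hc
    simp only [Subring.coe_one, Subring.coe_mul] at h2
    rw [← hn] at h2
    have h3 : (1 : ℝ) = (p : ℝ) * (n : ℝ) := by
      simpa using h2
    have h4 : (1 : ℤ) = (p : ℤ) * n := by exact_mod_cast h3
    have h5 : (p : ℤ) ∣ 1 := ⟨n, h4⟩
    have h6 : (p : ℕ) ∣ 1 := by exact_mod_cast h5
    exact hp.one_lt.ne' (Nat.dvd_one.1 h6)
  obtain ⟨B, _, hB⟩ := Ideal.image_subset_nonunits_valuationSubring I hI
  refine ⟨B, ?_⟩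
  rw [← ValuationSubring.mem_nonunits_iff]
  apply hB
  refine ⟨((p : ℕ) : A), Ideal.mem_span_singleton_self _, ?_⟩
  simp

lemma val_int_le (V : ValuationSubring ℝ) (n : ℤ) : V.valuation (n : ℝ) ≤ 1 := by
  rw [ValuationSubring.valuation_le_one_iff]
  exact intCast_mem V n

lemma val_int_eq_one (V : ValuationSubring ℝ) (p : ℕ) (hV : V.valuation (p : ℝ) < 1) (n : ℤ)
    (h : IsCoprime n (p : ℤ)) : V.valuation (n : ℝ) = 1 := by
  obtain ⟨a, b, hab⟩ := h
  apply le_antisymm (val_int_le V n)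
  by_contra hlt
  rw [not_le] at hlt
  have h1 : V.valuation ((a * n + b * (p : ℤ) : ℤ) : ℝ) < 1 := by
    push_cast
    have h2 : V.valuation ((a : ℝ) * n) < 1 := by
      rw [map_mul]
      exact lt_of_le_of_lt (mul_le_mul_left (val_int_le V a) _) (by rwa [one_mul])
    have h3 : V.valuation ((b : ℝ) * (p : ℝ)) < 1 := by
      rw [map_mul]
      exact lt_of_le_of_lt (mul_le_mul_left (val_int_le V b) _) (by rwa [one_mul])
    exact lt_of_le_of_lt (Valuation.map_add _ _ _) (max_lt h2 h3)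
  rw [hab] at h1
  simp at h1

/-- Directions that are congruent to `γ` for the valuation `V`. -/
def Wset (V : ValuationSubring ℝ) (γ : ℤ) : Set (Fin 2 → ℝ) :=
  {v | V.valuation (v 0 - γ * v 1) < V.valuation (v 1)}

lemma Wset_disjoint (V : ValuationSubring ℝ) (α β : ℤ)
    (h : V.valuation ((α : ℝ) - β) = 1) : Disjoint (Wset V α) (Wset V β) := by
  rw [Set.disjoint_left]
  intro v h1 h2
  change V.valuation (v 0 - α * v 1) < V.valuation (v 1) at h1
  change V.valuation (v 0 - β * v 1) < V.valuation (v 1) at h2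
  have h3 : V.valuation (v 1) = V.valuation ((v 0 - β * v 1) - (v 0 - α * v 1)) := by
    have : (v 0 - β * v 1) - (v 0 - α * v 1) = ((α : ℝ) - β) * v 1 := by ring
    rw [this, map_mul, h, one_mul]
  have h4 := Valuation.map_sub V.valuation (v 0 - β * v 1) (v 0 - α * v 1)
  rw [← h3] at h4
  exact absurd (lt_of_le_of_lt h4 (max_lt h2 h1)) (lt_irrefl _)

/-- The hyperbolic matrix with eigenvectors `(α,1)` (eigenvalue `a`) and `(β,1)`
(eigenvalue `1/a`). -/
noncomputable def hyp (α β a : ℝ) (hd : α - β ≠ 0) (ha : a ≠ 0) :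
    Matrix.SpecialLinearGroup (Fin 2) ℝ :=
  ⟨!![(α * a - β / a) / (α - β), -(α * β * (a - 1 / a)) / (α - β);
      (a - 1 / a) / (α - β), (α / a - β * a) / (α - β)], by
    rw [Matrix.det_fin_two_of]
    field_simp
    ring⟩

lemma hyp_smul_zero (α β a : ℝ) (hd : α - β ≠ 0) (ha : a ≠ 0) (v : Fin 2 → ℝ) :
    (hyp α β a hd ha • v) 0 =
      (α * a - β / a) / (α - β) * v 0 + -(α * β * (a - 1 / a)) / (α - β) * v 1 := by
  change ((hyp α β a hd ha).1 *ᵥ v) 0 = _
  simp [hyp, Matrix.mulVec, dotProduct, Fin.sum_univ_two]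

lemma hyp_smul_one (α β a : ℝ) (hd : α - β ≠ 0) (ha : a ≠ 0) (v : Fin 2 → ℝ) :
    (hyp α β a hd ha • v) 1 =
      (a - 1 / a) / (α - β) * v 0 + (α / a - β * a) / (α - β) * v 1 := by
  change ((hyp α β a hd ha).1 *ᵥ v) 1 = _
  simp [hyp, Matrix.mulVec, dotProduct, Fin.sum_univ_two]

/-- Ping-pong step. -/
lemma hyp_mem (V : ValuationSubring ℝ) (α β : ℤ) (a : ℝ)
    (hd : (α : ℝ) - β ≠ 0) (ha : a ≠ 0) (h : V.valuation ((α : ℝ) - β) = 1)
    (hva : 1 < V.valuation a) (v : Fin 2 → ℝ) (hv : v ≠ 0) (hvW : v ∉ Wset V β) :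
    hyp α β a hd ha • v ∈ Wset V α := by
  change ¬ (V.valuation (v 0 - β * v 1) < V.valuation (v 1)) at hvW
  change V.valuation ((hyp α β a hd ha • v) 0 - α * (hyp α β a hd ha • v) 1) <
    V.valuation ((hyp α β a hd ha • v) 1)
  rw [not_lt] at hvW
  set x := v 0 with hx
  set y := v 1 with hy
  set d : ℝ := (α : ℝ) - β with hd'
  -- coordinates with respect to the eigenvectors
  set s : ℝ := (x - β * y) / d with hs
  set t : ℝ := (α * y - x) / d with ht
  have hst : s + t = y := by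
    rw [hs, ht, ← add_div, div_eq_iff hd]
    rw [hd']; ring
  have hvs : V.valuation s = V.valuation (x - β * y) := by
    rw [hs, map_div₀, h, div_one]
  have hle : V.valuation (s + t) ≤ V.valuation s := by rw [hst, hvs]; exact hvW
  have hts : V.valuation t ≤ V.valuation s := by
    have h1 : t = (s + t) - s := by ring
    rw [h1]
    exact (Valuation.map_sub _ _ _).trans (max_le hle le_rfl)
  have hs0 : s ≠ 0 := by
    intro h0
    rw [h0, map_zero] at hts hle
    have ht0 : t = 0 := by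
      rw [← map_eq_zero V.valuation]
      exact le_antisymm hts zero_le
    rw [h0, ht0, add_zero] at hst
    apply hv
    have hx0 : x = 0 := by
      have h2 := h0
      rw [hs, div_eq_zero_iff] at h2
      rcases h2 with h2 | h2
      · rw [← hst] at h2; linarith
      · exact absurd h2 hd
    funext i
    fin_cases i
    · exact hx0
    · exact hst.symm
  have hvs0 : 0 < V.valuation s := by
    rw [zero_lt_iff]
    exact (map_ne_zero V.valuation).2 hs0
  have hva0 : 0 < V.valuation a := lt_trans zero_lt_one hva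
  -- the new coordinates
  have e1 : (hyp α β a hd ha • v) 1 = a * s + t / a := by
    rw [hyp_smul_one, ← hx, ← hy, hs, ht]
    field_simp
    ring
  have e0 : (hyp α β a hd ha • v) 0 - α * (hyp α β a hd ha • v) 1 = -(d * (t / a)) := by
    rw [hyp_smul_zero, hyp_smul_one, ← hx, ← hy, ht]
    field_simp
    ring
  rw [e0, e1]
  have h1 : V.valuation (-(d * (t / a))) = V.valuation t * (V.valuation a)⁻¹ := by
    rw [Valuation.map_neg, map_mul, h, one_mul, map_div₀, div_eq_mul_inv]
  have hinv : (V.valuation a)⁻¹ < 1 := inv_lt_one_of_one_lt₀ hva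
  have h2 : V.valuation t * (V.valuation a)⁻¹ < V.valuation (a * s) := by
    calc V.valuation t * (V.valuation a)⁻¹ ≤ V.valuation s * (V.valuation a)⁻¹ :=
          mul_le_mul_left hts _
      _ < V.valuation s * 1 := mul_lt_mul_of_pos_left hinv hvs0
      _ = 1 * V.valuation s := by rw [mul_one, one_mul]
      _ < V.valuation a * V.valuation s := mul_lt_mul_of_pos_right hva hvs0
      _ = V.valuation (a * s) := by rw [map_mul]
  have h3 : V.valuation (a * s + t / a) = V.valuation (a * s) := by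
    apply Valuation.map_add_eq_of_lt_left
    rw [map_div₀, div_eq_mul_inv]
    exact h2
  rw [h1, h3]
  exact h2

/-- Real closeness to the identity. -/
lemma hyp_close (α β a M : ℝ) (hd : α - β ≠ 0) (ha : a ≠ 0) (hd1 : α - β = -1) (hα : 0 ≤ α)
    (hβ : 0 ≤ β) (hαM : α ≤ M) (hβM : β ≤ M) (ha1 : 1 ≤ a) (v : Fin 2 → ℝ)
    (hv : ∀ k, |v k| ≤ 1) (k : Fin 2) :
    |(hyp α β a hd ha • v) k - v k| ≤ (2 * M + 2 * M ^ 2 + 2) * (a - 1) := by
  have hM : 0 ≤ M := hα.trans hαM
  have ha0 : 0 < a := by linarith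
  have hb : 0 ≤ a - 1 := by linarith
  set c : ℝ := 1 - 1 / a with hc
  have hc0 : 0 ≤ c := by
    rw [hc, sub_nonneg, div_le_one ha0]; exact ha1
  have hcb : c ≤ a - 1 := by
    rw [hc, sub_le_sub_iff, ← sub_nonneg]
    have : a + 1 / a - (1 + 1) = (a - 1) ^ 2 / a := by field_simp; ring
    rw [this]
    positivity
  have hx := hv 0
  have hy := hv 1
  have key : ∀ P R b : ℝ, 0 ≤ P → P ≤ b → 0 ≤ R → R ≤ b →
      |(P) * v 0 + R * v 1| ≤ 2 * b := by
    intro P R b hP hPb hR hRb
    calc |P * v 0 + R * v 1| ≤ |P * v 0| + |R * v 1| := abs_add_le _ _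
      _ = P * |v 0| + R * |v 1| := by rw [abs_mul, abs_mul, abs_of_nonneg hP, abs_of_nonneg hR]
      _ ≤ P * 1 + R * 1 := by
          apply add_le_add
          · exact mul_le_mul_of_nonneg_left hx hP
          · exact mul_le_mul_of_nonneg_left hy hR
      _ ≤ 2 * b := by linarith
  have hMb : 0 ≤ M * (a - 1) := mul_nonneg hM hb
  have hαa : α * (a - 1) ≤ M * (a - 1) := mul_le_mul_of_nonneg_right hαM hb
  have hβa : β * (a - 1) ≤ M * (a - 1) := mul_le_mul_of_nonneg_right hβM hb
  have hαc : α * c ≤ M * (a - 1) := (mul_le_mul_of_nonneg_left hcb hα).trans hαa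
  have hβc : β * c ≤ M * (a - 1) := (mul_le_mul_of_nonneg_left hcb hβ).trans hβa
  have hαβ : α * β ≤ M ^ 2 := by
    rw [sq]; exact mul_le_mul hαM hβM hβ hM
  have hαβ0 : 0 ≤ α * β := mul_nonneg hα hβ
  fin_cases k
  · change |(hyp α β a hd ha • v) 0 - v 0| ≤ _
    have e : (hyp α β a hd ha • v) 0 - v 0 =
        (-(α * (a - 1) + β * c)) * v 0 + (α * β * ((a - 1) + c)) * v 1 := by
      rw [hyp_smul_zero, hd1, hc]
      have hα' : α = β - 1 := by linarith
      rw [hα']
      field_simp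
      ring
    rw [e]
    calc |(-(α * (a - 1) + β * c)) * v 0 + (α * β * ((a - 1) + c)) * v 1|
        ≤ |(-(α * (a - 1) + β * c)) * v 0| + |(α * β * ((a - 1) + c)) * v 1| := abs_add_le _ _
      _ = (α * (a - 1) + β * c) * |v 0| + (α * β * ((a - 1) + c)) * |v 1| := by
          rw [abs_mul, abs_mul, abs_neg, abs_of_nonneg (a := α * (a - 1) + β * c) (by positivity),
            abs_of_nonneg (a := α * β * ((a - 1) + c)) (by positivity)]
      _ ≤ (α * (a - 1) + β * c) * 1 + (α * β * ((a - 1) + c)) * 1 := by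
          apply add_le_add
          · exact mul_le_mul_of_nonneg_left hx (by positivity)
          · exact mul_le_mul_of_nonneg_left hy (by positivity)
      _ ≤ (2 * M * (a - 1)) + M ^ 2 * (2 * (a - 1)) := by
          have h1 : α * β * ((a - 1) + c) ≤ M ^ 2 * (2 * (a - 1)) :=
            mul_le_mul hαβ (by linarith) (by positivity) (by positivity)
          linarith
      _ ≤ (2 * M + 2 * M ^ 2 + 2) * (a - 1) := by nlinarith
  · change |(hyp α β a hd ha • v) 1 - v 1| ≤ _
    have e : (hyp α β a hd ha • v) 1 - v 1 =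
        (-((a - 1) + c)) * v 0 + (α * c + β * (a - 1)) * v 1 := by
      rw [hyp_smul_one, hd1, hc]
      have hα' : α = β - 1 := by linarith
      rw [hα']
      field_simp
      ring
    rw [e]
    calc |(-((a - 1) + c)) * v 0 + (α * c + β * (a - 1)) * v 1|
        ≤ |(-((a - 1) + c)) * v 0| + |(α * c + β * (a - 1)) * v 1| := abs_add_le _ _
      _ = ((a - 1) + c) * |v 0| + (α * c + β * (a - 1)) * |v 1| := by
          rw [abs_mul, abs_mul, abs_neg, abs_of_nonneg (a := (a - 1) + c) (by positivity),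
            abs_of_nonneg (a := α * c + β * (a - 1)) (by positivity)]
      _ ≤ ((a - 1) + c) * 1 + (α * c + β * (a - 1)) * 1 := by
          apply add_le_add
          · exact mul_le_mul_of_nonneg_left hx (by positivity)
          · exact mul_le_mul_of_nonneg_left hy (by positivity)
      _ ≤ (2 * (a - 1)) + 2 * M * (a - 1) := by linarith
      _ ≤ (2 * M + 2 * M ^ 2 + 2) * (a - 1) := by nlinarith [sq_nonneg M]

/-- For every `k` and `τ > 0` there are `k` elements of `SL₂(ℝ)` moving points of the unit box by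
less than `τ`, playing ping-pong on the punctured plane with `2k` disjoint sets. -/
lemma exists_pingpong (k : ℕ) (τ : ℝ) (hτ : 0 < τ) :
    ∃ (g : Fin k → Matrix.SpecialLinearGroup (Fin 2) ℝ) (W : Fin k → Bool → Set (Fin 2 → ℝ)),
      (∀ i b i' b', (i, b) ≠ (i', b') → Disjoint (W i b) (W i' b')) ∧
      (∀ (i : Fin k) (v : Fin 2 → ℝ), v ≠ 0 → v ∉ W i false → g i • v ∈ W i true) ∧
      (∀ (i : Fin k) (v : Fin 2 → ℝ), (∀ j : Fin 2, |v j| ≤ 1) →
        ∀ j : Fin 2, |(g i • v) j - v j| < τ) := by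
  obtain ⟨p, hpk, hp⟩ := Nat.exists_infinite_primes (2 * k + 2)
  obtain ⟨V, hV⟩ := exists_valuationSubring p hp
  have hp0 : (0 : ℝ) < p := by exact_mod_cast hp.pos
  have hp1 : (1 : ℝ) < p := by exact_mod_cast hp.one_lt
  -- the valuation of differences
  have hval : ∀ α β : ℕ, α < 2 * k + 2 → β < 2 * k + 2 → α ≠ β →
      V.valuation (((α : ℤ) : ℝ) - ((β : ℤ) : ℝ)) = 1 := by
    intro α β hα hβ hne
    have h1 : (((α : ℤ) : ℝ) - ((β : ℤ) : ℝ)) = (((α : ℤ) - β : ℤ) : ℝ) := by push_cast; ring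
    rw [h1]
    apply val_int_eq_one V p hV
    rw [Int.isCoprime_iff_gcd_eq_one, Int.gcd_comm]
    rw [← Int.isCoprime_iff_gcd_eq_one]
    rw [Prime.coprime_iff_not_dvd (Nat.prime_iff_prime_int.1 hp)]
    intro hdvd
    have h2 : |((α : ℤ) - β)| < p := by
      rw [abs_lt]
      constructor <;> omega
    have h3 := Int.eq_zero_of_abs_lt_dvd hdvd h2
    omega
  set M : ℝ := 2 * k + 2 with hM
  have hM0 : 0 < M := by positivity
  set C : ℝ := 2 * M + 2 * M ^ 2 + 2 with hC
  have hC0 : 0 < C := by positivity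
  obtain ⟨m, hm⟩ := exists_pow_lt_of_lt_one (div_pos hτ hC0) (inv_lt_one_of_one_lt₀ hp1)
  -- the eigenvalue
  set a : ℝ := 1 + ((p : ℝ)⁻¹) ^ (m + 1) with ha
  have hpm : 0 < ((p : ℝ)⁻¹) ^ (m + 1) := by positivity
  have ha1 : 1 ≤ a := by rw [ha]; linarith
  have ha0 : a ≠ 0 := by linarith
  have hpm' : ((p : ℝ)⁻¹) ^ (m + 1) < τ / C := by
    refine lt_of_le_of_lt ?_ hm
    rw [pow_succ]
    have : (p : ℝ)⁻¹ ≤ 1 := (inv_lt_one_of_one_lt₀ hp1).le
    calc ((p : ℝ)⁻¹) ^ m * (p : ℝ)⁻¹ ≤ ((p : ℝ)⁻¹) ^ m * 1 :=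
          mul_le_mul_of_nonneg_left this (by positivity)
      _ = ((p : ℝ)⁻¹) ^ m := mul_one _
  have hva : 1 < V.valuation a := by
    have hvp0 : 0 < V.valuation (p : ℝ) := by
      rw [zero_lt_iff]; exact (map_ne_zero V.valuation).2 hp0.ne'
    have h1 : 1 < V.valuation (((p : ℝ)⁻¹) ^ (m + 1)) := by
      rw [map_pow, map_inv₀]
      exact one_lt_pow₀ ((one_lt_inv₀ hvp0).2 hV) (Nat.succ_ne_zero m)
    have h2 : V.valuation a = V.valuation (((p : ℝ)⁻¹) ^ (m + 1)) := by
      rw [ha]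
      apply Valuation.map_add_eq_of_lt_right
      rw [map_one]
      exact h1
    rw [h2]; exact h1
  have hdne : ∀ i : Fin k, (((2 * (i : ℕ) : ℕ) : ℤ) : ℝ) - (((2 * (i : ℕ) + 1 : ℕ) : ℤ) : ℝ) ≠ 0 := by
    intro i
    push_cast
    intro h
    linarith
  refine ⟨fun i => hyp (((2 * (i : ℕ) : ℕ) : ℤ) : ℝ) (((2 * (i : ℕ) + 1 : ℕ) : ℤ) : ℝ) a (hdne i) ha0,
    fun i b => Wset V (if b then ((2 * (i : ℕ) : ℕ) : ℤ) else ((2 * (i : ℕ) + 1 : ℕ) : ℤ)),
    ?_, ?_, ?_⟩
  · intro i b i' b' hne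
    have hi := i.2
    have hi' := i'.2
    apply Wset_disjoint
    have hne' : i ≠ i' ∨ b ≠ b' := by
      by_contra hcon
      push Not at hcon
      exact hne (Prod.ext hcon.1 hcon.2)
    have hii : (i : ℕ) = i' → i = i' := fun h => Fin.ext h
    cases b <;> cases b'
    · simp only [Bool.false_eq_true, if_false]
      apply hval _ _ (by omega) (by omega)
      rcases hne' with h | h
      · intro hh; apply h; apply hii; omega
      · exact absurd rfl h
    · simp only [Bool.false_eq_true, if_false, if_true]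
      apply hval _ _ (by omega) (by omega)
      omega
    · simp only [Bool.false_eq_true, if_false, if_true]
      apply hval _ _ (by omega) (by omega)
      omega
    · simp only [if_true]
      apply hval _ _ (by omega) (by omega)
      rcases hne' with h | h
      · intro hh; apply h; apply hii; omega
      · exact absurd rfl h
  · intro i v hv hvW
    have hi := i.2
    simp only [Bool.false_eq_true, if_false] at hvW
    simp only [if_true]
    exact hyp_mem V _ _ a (hdne i) ha0 (hval _ _ (by omega) (by omega) (by omega)) hva v hv hvW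
  · intro i v hv j
    have hi : (i : ℕ) + 1 ≤ k := i.2
    have hiR : ((i : ℕ) : ℝ) + 1 ≤ k := by exact_mod_cast hi
    have h0 : (0 : ℝ) ≤ ((i : ℕ) : ℝ) := Nat.cast_nonneg _
    have h := hyp_close (((2 * (i : ℕ) : ℕ) : ℤ) : ℝ) (((2 * (i : ℕ) + 1 : ℕ) : ℤ) : ℝ) a M
      (hdne i) ha0 (by push_cast; ring) (by push_cast; positivity) (by push_cast; positivity)
      (by push_cast; rw [hM]; linarith) (by push_cast; rw [hM]; linarith) ha1 v hv j
    refine lt_of_le_of_lt h ?_
    rw [← hC]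
    have h5 : a - 1 < τ / C := by rw [ha]; linarith
    calc C * (a - 1) < C * (τ / C) := mul_lt_mul_of_pos_left h5 hC0
      _ = τ := by field_simp

end Pool.Agent.Helper28
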