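import Mathlib
import Pool.Agent.Lib_helper28.Hall
import Pool.Agent.Lib_helper28.PingPong

set_option autoImplicit false

namespace Pool.Agent.Helper28

open Matrix

/-- The open unit square. -/
def sq : Set (Fin 2 → ℝ) := {v : Fin 2 → ℝ | ∀ k, 0 < v k ∧ v k < 1}

/-- Upper shear. -/
noncomputable def ush (t : ℝ) : Matrix.SpecialLinearGroup (Fin 2) ℝ :=
  ⟨!![1, t; 0, 1], by rw [Matrix.det_fin_two_of]; ring⟩

/-- Lower shear. -/
noncomputable def lsh (t : ℝ) : Matrix.SpecialLinearGroup (Fin 2) ℝ :=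
  ⟨!![1, 0; t, 1], by rw [Matrix.det_fin_two_of]; ring⟩

lemma ush_smul (t : ℝ) (v : Fin 2 → ℝ) : (ush t • v) 0 = v 0 + t * v 1 ∧ (ush t • v) 1 = v 1 := by
  constructor
  · change ((ush t).1 *ᵥ v) 0 = _
    simp [ush, Matrix.mulVec, dotProduct, Fin.sum_univ_two]
  · change ((ush t).1 *ᵥ v) 1 = _
    simp [ush, Matrix.mulVec, dotProduct, Fin.sum_univ_two]

lemma lsh_smul (t : ℝ) (v : Fin 2 → ℝ) : (lsh t • v) 0 = v 0 ∧ (lsh t • v) 1 = t * v 0 + v 1 := by
  constructor
  · change ((lsh t).1 *ᵥ v) 0 = _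
    simp [lsh, Matrix.mulVec, dotProduct, Fin.sum_univ_two]
  · change ((lsh t).1 *ᵥ v) 1 = _
    simp [lsh, Matrix.mulVec, dotProduct, Fin.sum_univ_two]

/-- Transitivity. -/
lemma exists_smul_eq_half (v : Fin 2 → ℝ) (hv : v ≠ 0) :
    ∃ t : Matrix.SpecialLinearGroup (Fin 2) ℝ, ∀ j, (t • v) j = 1 / 2 := by
  set x := v 0 with hx
  set y := v 1 with hy
  have hr : 0 < x ^ 2 + y ^ 2 := by
    by_contra hcon
    rw [not_lt] at hcon
    have hx0 : x = 0 := by nlinarith [sq_nonneg x, sq_nonneg y]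
    have hy0 : y = 0 := by nlinarith [sq_nonneg x, sq_nonneg y]
    apply hv
    funext i
    fin_cases i
    · exact hx0
    · exact hy0
  set r := x ^ 2 + y ^ 2 with hrdef
  have hr0 : r ≠ 0 := hr.ne'
  -- rows: (x/(2r) + y, y/(2r) - x) and (x/(2r) - y, y/(2r) + x)
  refine ⟨⟨!![x / (2 * r) + y, y / (2 * r) - x; x / (2 * r) - y, y / (2 * r) + x], ?_⟩, ?_⟩
  · rw [Matrix.det_fin_two_of]
    have : (x / (2 * r) + y) * (y / (2 * r) + x) - (y / (2 * r) - x) * (x / (2 * r) - y) =
      (x ^ 2 + y ^ 2) / r := by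
      field_simp
      ring
    rw [this, ← hrdef]
    exact div_self hr0
  · intro j
    fin_cases j
    · change (((!![x / (2 * r) + y, y / (2 * r) - x; x / (2 * r) - y, y / (2 * r) + x] :
        Matrix (Fin 2) (Fin 2) ℝ)) *ᵥ v) 0 = 1 / 2
      simp only [Matrix.mulVec, dotProduct, Fin.sum_univ_two, Matrix.of_apply, Matrix.cons_val_zero,
        Matrix.cons_val_one]
      rw [← hx, ← hy]
      have : (x / (2 * r) + y) * x + (y / (2 * r) - x) * y = (x ^ 2 + y ^ 2) / (2 * r) := by
        field_simp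
        ring
      rw [this, ← hrdef]
      field_simp
    · change (((!![x / (2 * r) + y, y / (2 * r) - x; x / (2 * r) - y, y / (2 * r) + x] :
        Matrix (Fin 2) (Fin 2) ℝ)) *ᵥ v) 1 = 1 / 2
      simp only [Matrix.mulVec, dotProduct, Fin.sum_univ_two, Matrix.of_apply, Matrix.cons_val_zero,
        Matrix.cons_val_one]
      rw [← hx, ← hy]
      have : (x / (2 * r) - y) * x + (y / (2 * r) + x) * y = (x ^ 2 + y ^ 2) / (2 * r) := by
        field_simp
        ring
      rw [this, ← hrdef]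
      field_simp

/-- The small square. -/
def sm : Set (Fin 2 → ℝ) := {v : Fin 2 → ℝ | ∀ k, 1 / 4 < v k ∧ v k < 3 / 4}

lemma isOpen_sm : IsOpen sm := by
  have : sm = ⋂ k : Fin 2, {v : Fin 2 → ℝ | 1 / 4 < v k ∧ v k < 3 / 4} := by
    ext v
    simp [sm]
  rw [this]
  apply isOpen_iInter_of_finite
  intro k
  have h1 : Continuous (fun v : Fin 2 → ℝ => v k) := continuous_apply k
  exact (isOpen_lt continuous_const h1).inter (isOpen_lt h1 continuous_const)

lemma continuous_smul_vec (t : Matrix.SpecialLinearGroup (Fin 2) ℝ) :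
    Continuous (fun v : Fin 2 → ℝ => t • v) := by
  change Continuous (fun v : Fin 2 → ℝ => t.1 *ᵥ v)
  exact Continuous.matrix_mulVec continuous_const continuous_id

/-- Finitely many elements move every point of the square outside the corner to the small
square. -/
lemma exists_cover (s : ℝ) (hs : 0 < s) :
    ∃ T : Finset (Matrix.SpecialLinearGroup (Fin 2) ℝ),
      ∀ v : Fin 2 → ℝ, (∀ k, 0 ≤ v k ∧ v k ≤ 1) → (s ≤ v 0 ∨ s ≤ v 1) → ∃ t ∈ T, t • v ∈ sm := by
  classical
  let C : Set (Fin 2 → ℝ) := (Set.univ.pi (fun _ => Set.Icc (0 : ℝ) 1)) ∩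
    {v | s ≤ v 0 ∨ s ≤ v 1}
  have hC : IsCompact C := by
    apply (isCompact_univ_pi (fun _ => isCompact_Icc)).inter_right
    have h : {v : Fin 2 → ℝ | s ≤ v 0 ∨ s ≤ v 1} = {v | s ≤ v 0} ∪ {v | s ≤ v 1} := rfl
    rw [h]
    exact (isClosed_le continuous_const (continuous_apply 0)).union
      (isClosed_le continuous_const (continuous_apply 1))
  obtain ⟨T, hT⟩ := hC.elim_finite_subcover
    (fun t : Matrix.SpecialLinearGroup (Fin 2) ℝ => (fun v : Fin 2 → ℝ => t • v) ⁻¹' sm)
    (fun t => isOpen_sm.preimage (continuous_smul_vec t)) (by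
      intro v hv
      have hv0 : v ≠ 0 := by
        rintro rfl
        rcases hv.2 with h | h
        · exact absurd h (not_le.2 hs)
        · exact absurd h (not_le.2 hs)
      obtain ⟨t, ht⟩ := exists_smul_eq_half v hv0
      rw [Set.mem_iUnion]
      refine ⟨t, ?_⟩
      intro k
      change 1 / 4 < (t • v) k ∧ (t • v) k < 3 / 4
      rw [ht k]
      norm_num)
  refine ⟨T, fun v hv hs' => ?_⟩
  have hvC : v ∈ C := ⟨fun k _ => ⟨(hv k).1, (hv k).2⟩, hs'⟩
  have h := hT hvC
  rw [Set.mem_iUnion₂] at h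
  obtain ⟨t, ht, hv'⟩ := h
  exact ⟨t, ht, hv'⟩

/-- Expansion of finite subsets of the open unit square under a finite subset of `SL₂(ℝ)`. -/
theorem exists_expansion :
    ∃ (K : Finset (Matrix.SpecialLinearGroup (Fin 2) ℝ)) (δ : ℝ), 0 < δ ∧
      ∀ S : Finset (Fin 2 → ℝ), (↑S : Set (Fin 2 → ℝ)) ⊆ sq →
        (1 + δ) * S.card ≤ (nb K sq S).card := by
  classical
  obtain ⟨T, hT⟩ := exists_cover (1 / 8) (by norm_num)
  set r : ℕ := T.card with hr
  set k : ℕ := 4 * r + 1 with hk
  obtain ⟨g, W, hW, hgW, hgc⟩ := exists_pingpong k (1 / 4) (by norm_num)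
  let K : Finset (Matrix.SpecialLinearGroup (Fin 2) ℝ) :=
    {1} ∪ ((Finset.range 8).image (fun j : ℕ => ush (j : ℝ))) ∪
      ((Finset.range 8).image (fun j : ℕ => lsh (j : ℝ))) ∪ T ∪ (Finset.univ.image g)
  have h1K : (1 : Matrix.SpecialLinearGroup (Fin 2) ℝ) ∈ K := by
    simp [K]
  have huK : ∀ j ∈ Finset.range 8, ush (j : ℝ) ∈ K := by
    intro j hj
    simp only [K, Finset.mem_union, Finset.mem_image]
    exact Or.inl (Or.inl (Or.inl (Or.inr ⟨j, hj, rfl⟩)))
  have hlK : ∀ j ∈ Finset.range 8, lsh (j : ℝ) ∈ K := by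
    intro j hj
    simp only [K, Finset.mem_union, Finset.mem_image]
    exact Or.inl (Or.inl (Or.inr ⟨j, hj, rfl⟩))
  have hTK : ∀ t ∈ T, t ∈ K := by
    intro t ht
    simp only [K, Finset.mem_union]
    exact Or.inl (Or.inr ht)
  have hgK : ∀ i, g i ∈ K := by
    intro i
    simp only [K, Finset.mem_union, Finset.mem_image]
    exact Or.inr ⟨i, Finset.mem_univ _, rfl⟩
  refine ⟨K, 1 / (4 + 4 * r), by positivity, fun S hS => ?_⟩
  set D : ℝ := ((nb K sq S).card : ℝ) - (S.card : ℝ) with hD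
  have hS0 : ∀ v ∈ S, v ∈ sq := fun v hv => hS hv
  have hSn : (0 : ℝ) ≤ S.card := Nat.cast_nonneg _
  -- the corner, lower/upper halves
  let Z : Set (Fin 2 → ℝ) := {v | v ∈ sq ∧ v 0 ≤ v 1 ∧ v 1 < 1 / 8}
  let Z' : Set (Fin 2 → ℝ) := {v | v ∈ sq ∧ v 1 ≤ v 0 ∧ v 0 < 1 / 8}
  have hZ : 8 * ((S.filter (· ∈ Z)).card : ℝ) ≤ S.card + 8 * D := by
    let E : ℕ → Set (Fin 2 → ℝ) := fun j => {v | (j : ℝ) * v 1 < v 0 ∧ v 0 ≤ (j + 1) * v 1 ∧ 0 < v 1}
    have hE : ∀ i ∈ Finset.range 8, ∀ j ∈ Finset.range 8, i ≠ j → Disjoint (E i) (E j) := by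
      intro i _ j _ hij
      rw [Set.disjoint_left]
      rintro v ⟨h1, h2, h3⟩ ⟨h4, h5, -⟩
      have h6 : (i : ℝ) < j + 1 := by
        by_contra hcon
        rw [not_lt] at hcon
        have := mul_le_mul_of_nonneg_right hcon h3.le
        linarith
      have h7 : (j : ℝ) < i + 1 := by
        by_contra hcon
        rw [not_lt] at hcon
        have := mul_le_mul_of_nonneg_right hcon h3.le
        linarith
      have h8 : i < j + 1 := by exact_mod_cast h6
      have h9 : j < i + 1 := by exact_mod_cast h7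
      omega
    have hsum := sum_filter_le S (Finset.range 8) E hE
    have hle : ∀ j ∈ Finset.range 8, ((S.filter (· ∈ Z)).card : ℝ) ≤
        ((S.filter (· ∈ E j)).card : ℝ) + D := by
      intro j hj
      apply approx_inv K sq S h1K hS (ush (j : ℝ)) (huK j hj) Z (E j)
      rintro v ⟨hvq, hv01, hv1⟩
      have h0 := hvq 0
      have h1 := hvq 1
      obtain ⟨e0, e1⟩ := ush_smul (j : ℝ) v
      have hj' : (j : ℝ) ≤ 7 := by
        have : j < 8 := Finset.mem_range.1 hj
        have : j ≤ 7 := by omega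
        exact_mod_cast this
      have hj0 : (0 : ℝ) ≤ j := Nat.cast_nonneg _
      have hjv : (j : ℝ) * v 1 ≤ 7 * v 1 := mul_le_mul_of_nonneg_right hj' h1.1.le
      have hjv0 : 0 ≤ (j : ℝ) * v 1 := mul_nonneg hj0 h1.1.le
      constructor
      · change (j : ℝ) * (ush (j : ℝ) • v) 1 < (ush (j : ℝ) • v) 0 ∧
          (ush (j : ℝ) • v) 0 ≤ (j + 1) * (ush (j : ℝ) • v) 1 ∧ 0 < (ush (j : ℝ) • v) 1
        rw [e0, e1]
        refine ⟨by linarith [h0.1], by linarith, h1.1⟩
      · intro l
        fin_cases l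
        · change 0 < (ush (j : ℝ) • v) 0 ∧ (ush (j : ℝ) • v) 0 < 1
          rw [e0]
          constructor
          · linarith [h0.1]
          · linarith
        · change 0 < (ush (j : ℝ) • v) 1 ∧ (ush (j : ℝ) • v) 1 < 1
          rw [e1]
          exact h1
    have h2 := Finset.sum_le_sum hle
    rw [Finset.sum_add_distrib, Finset.sum_const, Finset.sum_const, Finset.card_range] at h2
    simp only [nsmul_eq_mul] at h2
    push_cast at h2
    linarith
  have hZ' : 8 * ((S.filter (· ∈ Z')).card : ℝ) ≤ S.card + 8 * D := by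
    let E : ℕ → Set (Fin 2 → ℝ) := fun j => {v | (j : ℝ) * v 0 < v 1 ∧ v 1 ≤ (j + 1) * v 0 ∧ 0 < v 0}
    have hE : ∀ i ∈ Finset.range 8, ∀ j ∈ Finset.range 8, i ≠ j → Disjoint (E i) (E j) := by
      intro i _ j _ hij
      rw [Set.disjoint_left]
      rintro v ⟨h1, h2, h3⟩ ⟨h4, h5, -⟩
      have h6 : (i : ℝ) < j + 1 := by
        by_contra hcon
        rw [not_lt] at hcon
        have := mul_le_mul_of_nonneg_right hcon h3.le
        linarith
      have h7 : (j : ℝ) < i + 1 := by
        by_contra hcon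
        rw [not_lt] at hcon
        have := mul_le_mul_of_nonneg_right hcon h3.le
        linarith
      have h8 : i < j + 1 := by exact_mod_cast h6
      have h9 : j < i + 1 := by exact_mod_cast h7
      omega
    have hsum := sum_filter_le S (Finset.range 8) E hE
    have hle : ∀ j ∈ Finset.range 8, ((S.filter (· ∈ Z')).card : ℝ) ≤
        ((S.filter (· ∈ E j)).card : ℝ) + D := by
      intro j hj
      apply approx_inv K sq S h1K hS (lsh (j : ℝ)) (hlK j hj) Z' (E j)
      rintro v ⟨hvq, hv01, hv1⟩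
      have h0 := hvq 0
      have h1 := hvq 1
      obtain ⟨e0, e1⟩ := lsh_smul (j : ℝ) v
      have hj' : (j : ℝ) ≤ 7 := by
        have : j < 8 := Finset.mem_range.1 hj
        have : j ≤ 7 := by omega
        exact_mod_cast this
      have hj0 : (0 : ℝ) ≤ j := Nat.cast_nonneg _
      have hjv : (j : ℝ) * v 0 ≤ 7 * v 0 := mul_le_mul_of_nonneg_right hj' h0.1.le
      have hjv0 : 0 ≤ (j : ℝ) * v 0 := mul_nonneg hj0 h0.1.le
      constructor
      · change (j : ℝ) * (lsh (j : ℝ) • v) 0 < (lsh (j : ℝ) • v) 1 ∧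
          (lsh (j : ℝ) • v) 1 ≤ (j + 1) * (lsh (j : ℝ) • v) 0 ∧ 0 < (lsh (j : ℝ) • v) 0
        rw [e0, e1]
        refine ⟨by linarith [h1.1], by linarith, h0.1⟩
      · intro l
        fin_cases l
        · change 0 < (lsh (j : ℝ) • v) 0 ∧ (lsh (j : ℝ) • v) 0 < 1
          rw [e0]
          exact h0
        · change 0 < (lsh (j : ℝ) • v) 1 ∧ (lsh (j : ℝ) • v) 1 < 1
          rw [e1]
          constructor
          · linarith [h1.1]
          · linarith
    have h2 := Finset.sum_le_sum hle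
    rw [Finset.sum_add_distrib, Finset.sum_const, Finset.sum_const, Finset.card_range] at h2
    simp only [nsmul_eq_mul] at h2
    push_cast at h2
    linarith
  -- the small square
  have hY : (k : ℝ) * ((S.filter (· ∈ sm)).card : ℝ) ≤ S.card + k * D := by
    have hsum := sum_filter_le S (Finset.univ : Finset (Fin k × Bool)) (fun p => W p.1 p.2)
      (by
        intro p _ q _ hpq
        exact hW p.1 p.2 q.1 q.2 hpq)
    rw [Fintype.sum_prod_type] at hsum
    simp only [Fintype.sum_bool] at hsum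
    have hle : ∀ i ∈ (Finset.univ : Finset (Fin k)), ((S.filter (· ∈ sm)).card : ℝ) ≤
        (((S.filter (· ∈ W i true)).card : ℝ) + ((S.filter (· ∈ W i false)).card : ℝ)) + D := by
      intro i _
      have hA : ((S.filter (· ∈ sm \ W i false)).card : ℝ) ≤
          ((S.filter (· ∈ W i true)).card : ℝ) + D := by
        apply approx_inv K sq S h1K hS (g i) (hgK i) (sm \ W i false) (W i true)
        rintro v ⟨hv, hvW⟩
        have hv0 : v ≠ 0 := by
          rintro rfl
          have := (hv 0).1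
          simp only [Pi.zero_apply] at this
          linarith
        refine ⟨hgW i v hv0 hvW, ?_⟩
        intro j
        have h1 := hgc i v (by
          intro l
          rw [abs_le]
          constructor
          · linarith [(hv l).1]
          · linarith [(hv l).2]) j
        rw [abs_lt] at h1
        constructor
        · linarith [(hv j).1, h1.1]
        · linarith [(hv j).2, h1.2]
      have hB : ((S.filter (· ∈ sm)).card : ℝ) ≤
          ((S.filter (· ∈ sm \ W i false)).card : ℝ) + ((S.filter (· ∈ W i false)).card : ℝ) := by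
        have hsub : S.filter (· ∈ sm) ⊆ S.filter (· ∈ sm \ W i false) ∪ S.filter (· ∈ W i false) := by
          intro v hv
          rw [Finset.mem_filter] at hv
          rw [Finset.mem_union, Finset.mem_filter, Finset.mem_filter]
          by_cases h : v ∈ W i false
          · exact Or.inr ⟨hv.1, h⟩
          · exact Or.inl ⟨hv.1, hv.2, h⟩
        have := (Finset.card_le_card hsub).trans (Finset.card_union_le _ _)
        exact_mod_cast this
      linarith
    have h2 := Finset.sum_le_sum hle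
    rw [Finset.sum_add_distrib, Finset.sum_const, Finset.sum_const, Finset.card_univ,
      Fintype.card_fin] at h2
    simp only [nsmul_eq_mul] at h2
    linarith
  -- the rest
  have hTi : ∀ t ∈ T, ((S.filter (fun v => t • v ∈ sm)).card : ℝ) ≤
      ((S.filter (· ∈ sm)).card : ℝ) + D := by
    intro t ht
    apply approx_inv K sq S h1K hS t (hTK t ht) {v | t • v ∈ sm} sm
    intro v hv
    refine ⟨hv, ?_⟩
    intro j
    have := hv j
    constructor
    · linarith [this.1]
    · linarith [this.2]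
  have hcov : (S.card : ℝ) ≤ ((S.filter (· ∈ Z)).card : ℝ) + ((S.filter (· ∈ Z')).card : ℝ) +
      ∑ t ∈ T, ((S.filter (fun v => t • v ∈ sm)).card : ℝ) := by
    have hsub : S ⊆ (S.filter (· ∈ Z) ∪ S.filter (· ∈ Z')) ∪
        T.biUnion (fun t => S.filter (fun v => t • v ∈ sm)) := by
      intro v hv
      have hvq := hS0 v hv
      rw [Finset.mem_union, Finset.mem_union, Finset.mem_filter, Finset.mem_filter,
        Finset.mem_biUnion]
      by_cases h : v 0 < 1 / 8 ∧ v 1 < 1 / 8
      · left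
        rcases le_total (v 0) (v 1) with h' | h'
        · exact Or.inl ⟨hv, hvq, h', h.2⟩
        · exact Or.inr ⟨hv, hvq, h', h.1⟩
      · right
        obtain ⟨t, ht, hvt⟩ := hT v (fun k => ⟨(hvq k).1.le, (hvq k).2.le⟩) (by
          by_contra hcon
          push Not at hcon
          exact h hcon)
        exact ⟨t, ht, Finset.mem_filter.2 ⟨hv, hvt⟩⟩
    have h1 := (Finset.card_le_card hsub).trans (Finset.card_union_le _ _)
    have h2 := h1.trans (add_le_add (Finset.card_union_le _ _) Finset.card_biUnion_le)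
    exact_mod_cast h2
  have hTsum : ∑ t ∈ T, ((S.filter (fun v => t • v ∈ sm)).card : ℝ) ≤
      (r : ℝ) * (((S.filter (· ∈ sm)).card : ℝ) + D) := by
    have := Finset.sum_le_sum hTi
    rw [Finset.sum_const, nsmul_eq_mul] at this
    exact this
  -- conclusion
  set y : ℝ := ((S.filter (· ∈ sm)).card : ℝ) with hy
  have hkr : (k : ℝ) = 4 * r + 1 := by rw [hk]; push_cast; ring
  have hr0 : (0 : ℝ) ≤ r := Nat.cast_nonneg _
  rw [hkr] at hY
  have hy0 : 0 ≤ y := Nat.cast_nonneg _
  have h4ry : 4 * (r : ℝ) * (y - D) ≤ S.card := by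
    by_cases hyD : y - D ≤ 0
    · have : 4 * (r : ℝ) * (y - D) ≤ 0 := mul_nonpos_of_nonneg_of_nonpos (by positivity) hyD
      linarith
    · rw [not_le] at hyD
      nlinarith
  have hfin : (S.card : ℝ) ≤ (4 + 4 * r) * D := by
    nlinarith
  have hpos : (0 : ℝ) < 4 + 4 * r := by positivity
  have : 1 / (4 + 4 * (r : ℝ)) * S.card ≤ D := by
    rw [div_mul_eq_mul_div, one_mul, div_le_iff₀ hpos]
    linarith
  have hD' : ((nb K sq S).card : ℝ) = S.card + D := by rw [hD]; ring
  rw [hD']
  linarith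

end Pool.Agent.Helper28
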